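import Pool.Agent.N976.UE.Def

/-!
# (Y3) Iteration of the stages
-/

open Set Filter Topology MeasureTheory
open scoped ContDiff

set_option autoImplicit false

namespace Pool.Agent.N976.UE

open Pool.Agent.N976.SC Pool.Agent.N976.EN

namespace Y3

/-! ### The scales -/

lemma qs_pos {Q : ℝ} (hQ : 1 ≤ Q) (n : ℕ) : 0 < qs Q n := by
  unfold qs
  exact Real.rpow_pos_of_pos (by linarith) _

lemma qs_succ {Q : ℝ} (hQ : 1 ≤ Q) (n : ℕ) : qs Q (n + 1) ^ 5 = qs Q n ^ 6 := by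
  unfold qs
  rw [← Real.rpow_mul_natCast (by linarith), ← Real.rpow_mul_natCast (by linarith)]
  congr 1
  push_cast
  rw [pow_succ]
  ring

lemma qs_log {Q : ℝ} (hQ : 1 ≤ Q) (n : ℕ) : Real.log (qs Q n) = (6 / 5 : ℝ) ^ n * Real.log Q := by
  unfold qs
  rw [Real.log_rpow (by linarith)]

lemma qs_log_succ {Q : ℝ} (hQ : 1 ≤ Q) (n : ℕ) :
    Real.log (qs Q (n + 1)) = 6 / 5 * Real.log (qs Q n) := by
  rw [qs_log hQ, qs_log hQ, pow_succ]
  ring

lemma le_qs {Q : ℝ} (hQ : 1 ≤ Q) (n : ℕ) : Q ≤ qs Q n := by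
  unfold qs
  have h1 : (1 : ℝ) ≤ (6 / 5 : ℝ) ^ n := one_le_pow₀ (by norm_num)
  calc Q = Q ^ (1 : ℝ) := (Real.rpow_one Q).symm
    _ ≤ Q ^ ((6 / 5 : ℝ) ^ n) := Real.rpow_le_rpow_of_exponent_le hQ h1

lemma qs_small {Q : ℝ} (hQ : (4 : ℝ) ^ 50 ≤ Q) (n : ℕ) :
    qs Q n ^ (-(1 / 10 : ℝ)) ≤ Q ^ (-(1 / 10 : ℝ)) * (1 / 4) ^ n := by
  have hQ1 : (1 : ℝ) ≤ Q := le_trans (by norm_num) hQ
  have hQ0 : (0 : ℝ) < Q := by linarith
  have h1 : qs Q n ^ (-(1 / 10 : ℝ)) = Q ^ (-((6 / 5 : ℝ) ^ n / 10)) := by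
    unfold qs
    rw [← Real.rpow_mul hQ0.le]
    congr 1
    ring
  have h2 : 1 + (n : ℝ) * (1 / 5) ≤ (6 / 5 : ℝ) ^ n := by
    have := one_add_mul_le_pow (a := (1 / 5 : ℝ)) (by norm_num) n
    norm_num at this ⊢
    linarith
  have h3 : Q ^ (-(1 / 50 : ℝ)) ≤ 1 / 4 := by
    have : ((4 : ℝ) ^ 50) ^ (-(1 / 50 : ℝ)) = 1 / 4 := by
      rw [← Real.rpow_natCast, ← Real.rpow_mul (by norm_num)]
      norm_num
    rw [← this]
    exact Real.rpow_le_rpow_of_nonpos (by positivity) hQ (by norm_num)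
  calc qs Q n ^ (-(1 / 10 : ℝ)) = Q ^ (-((6 / 5 : ℝ) ^ n / 10)) := h1
    _ ≤ Q ^ (-(1 / 10 : ℝ) + -(1 / 50 : ℝ) * n) := by
        apply Real.rpow_le_rpow_of_exponent_le hQ1
        nlinarith
    _ = Q ^ (-(1 / 10 : ℝ)) * (Q ^ (-(1 / 50 : ℝ))) ^ n := by
        rw [Real.rpow_add hQ0, Real.rpow_mul_natCast hQ0.le]
    _ ≤ Q ^ (-(1 / 10 : ℝ)) * (1 / 4) ^ n := by
        gcongr

/-- `Q` is large. -/
structure Big (ε Q : ℝ) : Prop where
  h4 : (4 : ℝ) ^ 50 ≤ Q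
  he : Q ^ (-(1 / 10 : ℝ)) ≤ ε / 1000
  h1 : Q ^ (-(1 / 10 : ℝ)) ≤ 1 / 1000
  hlog : ∀ q ≥ Q, 120 * Real.log q / q ≤ q ^ (-(1 / 10 : ℝ))
  hexp : ∀ q ≥ Q, q ^ 9 * Real.exp (-q) ≤ 1

lemma exists_big {ε : ℝ} (hε : 0 < ε) : ∃ Q₀ : ℝ, ∀ Q ≥ Q₀, Big ε Q := by
  have e1 : ∀ᶠ q : ℝ in atTop, q ^ (-(1 / 10 : ℝ)) ≤ min (ε / 1000) (1 / 1000) := by
    have := tendsto_rpow_neg_atTop (y := (1 / 10 : ℝ)) (by norm_num)
    exact this.eventually_le_const (by positivity)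
  have e2 : ∀ᶠ q : ℝ in atTop, 120 * Real.log q / q ≤ q ^ (-(1 / 10 : ℝ)) := by
    have := isLittleO_log_rpow_atTop (r := (9 / 10 : ℝ)) (by norm_num)
    have h := this.bound (c := 1 / 120) (by norm_num)
    filter_upwards [h, eventually_gt_atTop 1] with q hq hq1
    have hq0 : 0 < q := by linarith
    rw [Real.norm_of_nonneg (Real.log_nonneg hq1.le), Real.norm_of_nonneg (by positivity)] at hq
    rw [div_le_iff₀ hq0]
    have : q ^ (-(1 / 10 : ℝ)) * q = q ^ (9 / 10 : ℝ) := by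
      nth_rewrite 2 [← Real.rpow_one q]
      rw [← Real.rpow_add hq0]
      norm_num
    rw [this]
    linarith
  have e3 : ∀ᶠ q : ℝ in atTop, q ^ 9 * Real.exp (-q) ≤ 1 := by
    have := Real.tendsto_pow_mul_exp_neg_atTop_nhds_zero 9
    exact this.eventually_le_const (by norm_num)
  obtain ⟨A1, hA1⟩ := eventually_atTop.1 e1
  obtain ⟨A2, hA2⟩ := eventually_atTop.1 e2
  obtain ⟨A3, hA3⟩ := eventually_atTop.1 e3
  refine ⟨max (4 ^ 50) (max A1 (max A2 A3)), fun Q hQ => ⟨?_, ?_, ?_, ?_, ?_⟩⟩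
  · exact le_trans (le_max_left _ _) hQ
  · exact (hA1 Q (le_trans (le_trans (le_max_left _ _) (le_max_right _ _)) hQ)).trans
      (min_le_left _ _)
  · exact (hA1 Q (le_trans (le_trans (le_max_left _ _) (le_max_right _ _)) hQ)).trans
      (min_le_right _ _)
  · intro q hq
    exact hA2 q (le_trans (le_trans (le_trans (le_max_left _ _) (le_max_right _ _))
      (le_max_right _ _)) (le_trans hQ hq))
  · intro q hq
    exact hA3 q (le_trans (le_trans (le_trans (le_max_right _ _) (le_max_right _ _))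
      (le_max_right _ _)) (le_trans hQ hq))

/-! ### The energy -/

lemma energy_id (Λ γ : ℕ → ℝ) (N : ℕ) (x : ℕ → ℝ) (hx : ∀ n ≥ N, x n = 0) :
    ∑ m ∈ Finset.range N, x m * yN Λ γ N x m = 0 := by
  have h1 : ∀ m ∈ Finset.range N, x m * yN Λ γ N x m =
      (∑ i ∈ Finset.Ico 0 m, Λ i * x i * x m ^ 2 -
        ∑ j ∈ Finset.Ico (m + 1) N, Λ m * x m * x j ^ 2) -
      (γ m * x m ^ 2 * x (m + 1) - if m = 0 then 0 else γ (m - 1) * x (m - 1) ^ 2 * x m) := by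
    intro m _
    unfold yN
    rw [← Finset.sum_mul, ← Finset.mul_sum, Finset.range_eq_Ico]
    split_ifs <;> ring
  rw [Finset.sum_congr rfl h1, Finset.sum_sub_distrib, Finset.sum_sub_distrib,
    Finset.sum_sub_distrib, Finset.range_eq_Ico]
  have h2 : ∑ m ∈ Finset.Ico 0 N, ∑ j ∈ Finset.Ico (m + 1) N, Λ m * x m * x j ^ 2 =
      ∑ m ∈ Finset.Ico 0 N, ∑ i ∈ Finset.Ico 0 m, Λ i * x i * x m ^ 2 :=
    Finset.sum_Ico_Ico_comm' 0 N (fun i j => Λ i * x i * x j ^ 2)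
  have h3 : ∑ m ∈ Finset.Ico 0 N, γ m * x m ^ 2 * x (m + 1) =
      ∑ m ∈ Finset.Ico 0 N, if m = 0 then 0 else γ (m - 1) * x (m - 1) ^ 2 * x m := by
    rw [← Finset.range_eq_Ico]
    rcases N with _ | k
    · simp
    · rw [Finset.sum_range_succ, Finset.sum_range_succ']
      rw [hx (k + 1) le_rfl]
      simp
  rw [h2, h3]
  ring

/-- The energy. -/
noncomputable def En (b : ℕ → ℝ) (N : ℕ) (x : ℕ → ℝ → ℝ) (t : ℝ) : ℝ :=
  ∑ m ∈ Finset.range N, x m t ^ 2 / b m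

lemma En_deriv {Λ b V γ : ℕ → ℝ} {N : ℕ} {x : ℕ → ℝ → ℝ} (hx : FS Λ b V γ N x)
    (hb : ∀ n, 0 < b n) (t : ℝ) (ht : t ∈ Ici (0 : ℝ)) :
    HasDerivWithinAt (En b N x) (-(2 * ∑ m ∈ Finset.range N, V m * x m t ^ 2 / b m)) (Ici 0) t := by
  have h1 : HasDerivWithinAt (En b N x) (∑ m ∈ Finset.range N,
      (2 * x m t * (-(V m * x m t) + b m * yN Λ γ N (fun m => x m t) m)) / b m) (Ici 0) t := by
    unfold En
    apply HasDerivWithinAt.fun_sum
    intro m hm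
    have h := ((hx.ode m (Finset.mem_range.1 hm) t ht).fun_pow 2).div_const (b m)
    rw [show 2 * x m t * (-(V m * x m t) + b m * yN Λ γ N (fun m => x m t) m) / b m =
      ((2 : ℕ) : ℝ) * x m t ^ (2 - 1) * (-(V m * x m t) + b m * yN Λ γ N (fun m => x m t) m) /
        b m by norm_num]
    exact h
  convert h1 using 1
  have h2 := energy_id Λ γ N (fun m => x m t) (fun n hn => hx.zero n hn t)
  have h3 : ∑ m ∈ Finset.range N,
      (2 * x m t * (-(V m * x m t) + b m * yN Λ γ N (fun m => x m t) m)) / b m =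
      -(2 * ∑ m ∈ Finset.range N, V m * x m t ^ 2 / b m) +
      2 * ∑ m ∈ Finset.range N, x m t * yN Λ γ N (fun m => x m t) m := by
    rw [Finset.mul_sum, Finset.mul_sum, ← Finset.sum_neg_distrib, ← Finset.sum_add_distrib]
    apply Finset.sum_congr rfl
    intro m _
    have := (hb m).ne'
    field_simp
  rw [h3, h2]
  ring

lemma En_anti {Λ b V γ : ℕ → ℝ} {N : ℕ} {x : ℕ → ℝ → ℝ} (hx : FS Λ b V γ N x)
    (hb : ∀ n, 0 < b n) (hV : ∀ n, 0 ≤ V n) : AntitoneOn (En b N x) (Ici 0) := by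
  apply antitoneOn_of_deriv_nonpos (convex_Ici 0)
  · exact fun t ht => (En_deriv hx hb t ht).continuousWithinAt
  · intro t ht
    rw [interior_Ici] at ht
    exact ((En_deriv hx hb t (mem_Ici.2 (le_of_lt ht))).hasDerivAt
      (Ici_mem_nhds ht)).differentiableAt.differentiableWithinAt
  · intro t ht
    rw [interior_Ici] at ht
    rw [((En_deriv hx hb t (mem_Ici.2 (le_of_lt ht))).hasDerivAt (Ici_mem_nhds ht)).deriv]
    have : 0 ≤ ∑ m ∈ Finset.range N, V m * x m t ^ 2 / b m :=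
      Finset.sum_nonneg fun m _ => div_nonneg (mul_nonneg (hV m) (sq_nonneg _)) (hb m).le
    linarith

/-! ### The data -/

/-- The data. -/
structure Dat (ε Q : ℝ) (Λ b V γ : ℕ → ℝ) (N : ℕ) (x : ℕ → ℝ → ℝ) : Prop where
  big : Big ε Q
  cf : Cf (qs Q) Λ b V γ
  N3 : 3 ≤ N
  fs : FS Λ b V γ N x
  i0 : x 0 0 = 1
  i1 : x 1 0 = rr (qs Q) 0
  i2 : ∀ n, x (n + 2) 0 = 0

section

variable {ε Q : ℝ} {Λ b V γ : ℕ → ℝ} {N : ℕ} {x : ℕ → ℝ → ℝ}

lemma Big.big (h : Big ε Q) : 1000000 ≤ Q := le_trans (by norm_num) h.h4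

lemma Big.one (h : Big ε Q) : 1 ≤ Q := by linarith [h.big]

lemma Big.q (h : Big ε Q) (n : ℕ) : 1000000 ≤ qs Q n := h.big.trans (le_qs h.one n)

lemma Big.sm (h : Big ε Q) (n : ℕ) :
    qs Q n ^ (-(1 / 10 : ℝ)) ≤ Q ^ (-(1 / 10 : ℝ)) * (1 / 4) ^ n := qs_small h.h4 n

lemma Big.sme (h : Big ε Q) (n : ℕ) : qs Q n ^ (-(1 / 10 : ℝ)) ≤ ε / 1000 * (1 / 4) ^ n :=
  (h.sm n).trans (by gcongr; exact h.he)

lemma Big.sm1 (h : Big ε Q) (n : ℕ) : qs Q n ^ (-(1 / 10 : ℝ)) ≤ 1 / 1000 * (1 / 4) ^ n :=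
  (h.sm n).trans (by gcongr; exact h.h1)

/-- `1 / q ≤ q^(-1/10)` -/
lemma Big.inv (h : Big ε Q) (n : ℕ) : (qs Q n)⁻¹ ≤ qs Q n ^ (-(1 / 10 : ℝ)) := by
  rw [← Real.rpow_neg_one]
  exact Real.rpow_le_rpow_of_exponent_le (by linarith [h.q n]) (by norm_num)

lemma Big.up (h : Big ε Q) (n : ℕ) : up (qs Q) (n + 2) ≤ qs Q n ^ (-(1 / 10 : ℝ)) := by
  have hq := h.q n
  refine le_trans ?_ (h.inv n)
  unfold UE.up
  have h1 : √(qs Q n) ≤ qs Q n / 2 := by
    rw [Real.sqrt_le_left (by linarith)]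
    nlinarith
  have h2 : -(Real.pi / 2 * qs Q n) + √(qs Q n) ≤ -qs Q n := by
    nlinarith [Real.pi_gt_three]
  calc Real.exp (-(Real.pi / 2 * qs Q (n + 2 - 2)) + √(qs Q (n + 2 - 2)))
      ≤ Real.exp (-qs Q n) := by
        rw [show n + 2 - 2 = n from rfl]
        exact Real.exp_le_exp.2 h2
    _ = (Real.exp (qs Q n))⁻¹ := Real.exp_neg _
    _ ≤ (qs Q n)⁻¹ := by
        apply inv_anti₀ (by linarith)
        linarith [Real.add_one_le_exp (qs Q n)]

lemma lo_up (q : ℕ → ℝ) (m : ℕ) (hq : 0 ≤ q (m - 2)) : -up q m ≤ lo q m := by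
  unfold up lo
  apply neg_le_neg
  apply Real.exp_le_exp.2
  nlinarith [Real.sqrt_nonneg (q (m - 2)), Real.pi_le_four]

lemma b1 (h : Big ε Q) (c : Cf (qs Q) Λ b V γ) (n : ℕ) : 99 / 100 ≤ b n ∧ b n ≤ 101 / 100 := by
  have h1 := c.bb n
  have h2 := h.q n
  have h3 : 1 / qs Q n ≤ 1 / 100 := by
    rw [div_le_div_iff₀ (by linarith) (by norm_num)]
    linarith
  have h4 := abs_le.1 (h1.trans h3)
  constructor <;> linarith [h4.1, h4.2]

lemma b0 (h : Big ε Q) (c : Cf (qs Q) Λ b V γ) (n : ℕ) : 0 < b n := by linarith [(b1 h c n).1]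

lemma V0 (h : Big ε Q) (c : Cf (qs Q) Λ b V γ) (n : ℕ) : 0 ≤ V n := by
  have := h.q n
  refine le_trans ?_ (c.vv n).1
  positivity

lemma Dat.b1 (h : Dat ε Q Λ b V γ N x) (n : ℕ) : 99 / 100 ≤ b n ∧ b n ≤ 101 / 100 :=
  Y3.b1 h.big h.cf n

lemma Dat.b0 (h : Dat ε Q Λ b V γ N x) (n : ℕ) : 0 < b n := Y3.b0 h.big h.cf n

lemma Dat.V0 (h : Dat ε Q Λ b V γ N x) (n : ℕ) : 0 ≤ V n := Y3.V0 h.big h.cf n

lemma Dat.anti (h : Dat ε Q Λ b V γ N x) : AntitoneOn (En b N x) (Ici 0) :=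
  En_anti h.fs h.b0 h.V0

lemma Dat.L2 (h : Dat ε Q Λ b V γ N x) (n : ℕ) : |Λ n| ≤ 2 * qs Q n ^ 5 := by
  have h1 := abs_le.1 (h.cf.lam n)
  have h2 := h.big.q n
  have h3 : qs Q n ^ 4 ≤ qs Q n ^ 5 := pow_le_pow_right₀ (by linarith) (by norm_num)
  have h4 : 0 ≤ qs Q n ^ 4 := by positivity
  rw [abs_le]
  constructor <;> linarith [h1.1, h1.2]

lemma Dat.g (h : Dat ε Q Λ b V γ N x) (n : ℕ) : 0 ≤ γ n ∧ γ n ≤ 1 := by
  rcases n with _ | n
  · rw [h.cf.g0]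
    norm_num
  · refine ⟨(Real.exp_pos _).le.trans (h.cf.g1 n), (h.cf.g2 n).trans ?_⟩
    have hq := h.big.q n
    have h1 : qs Q (n + 2) ^ 25 = qs Q n ^ 36 := by
      calc qs Q (n + 2) ^ 25 = (qs Q (n + 1 + 1) ^ 5) ^ 5 := by ring
        _ = (qs Q (n + 1) ^ 6) ^ 5 := by rw [qs_succ h.big.one]
        _ = (qs Q (n + 1) ^ 5) ^ 6 := by ring
        _ = (qs Q n ^ 6) ^ 6 := by rw [qs_succ h.big.one]
        _ = qs Q n ^ 36 := by ring
    have h2 : qs Q (n + 2) ^ 6 ≤ qs Q n ^ 9 := by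
      have hp : 0 ≤ qs Q (n + 2) := (qs_pos h.big.one _).le
      apply le_of_pow_le_pow_left₀ (n := 25) (by norm_num) (by positivity)
      calc (qs Q (n + 2) ^ 6) ^ 25 = (qs Q (n + 2) ^ 25) ^ 6 := by ring
        _ = qs Q n ^ 216 := by rw [h1]; ring
        _ ≤ qs Q n ^ 225 := pow_le_pow_right₀ (by linarith) (by norm_num)
        _ = (qs Q n ^ 9) ^ 25 := by ring
    calc qs Q (n + 2) ^ 6 * Real.exp (-(Real.pi / 2 * qs Q n))
        ≤ qs Q n ^ 9 * Real.exp (-qs Q n) := by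
          gcongr
          nlinarith [Real.pi_gt_three]
      _ ≤ 1 := h.big.hexp _ (le_qs h.big.one n)

lemma Big.sum5 (h : Big ε Q) (n : ℕ) : ∑ i ∈ Finset.range n, qs Q i ^ 5 ≤ qs Q n ^ 5 := by
  induction n with
  | zero =>
    simp only [Finset.range_zero, Finset.sum_empty]
    have := qs_pos h.one 0
    positivity
  | succ n ih =>
    rw [Finset.sum_range_succ, qs_succ h.one]
    have h1 := h.q n
    have h2 : 0 ≤ qs Q n ^ 5 := by positivity
    nlinarith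

/-! ### Bounds for the solution -/

lemma rr_sq (h : Big ε Q) (n : ℕ) : rr (qs Q) n ^ 2 = (qs Q n)⁻¹ := by
  unfold rr
  have hq : 0 ≤ qs Q n := (qs_pos h.one n).le
  rw [← Real.rpow_mul_natCast hq]
  norm_num
  rw [Real.rpow_neg_one]

lemma Dat.E0 (h : Dat ε Q Λ b V γ N x) :
    1 - qs Q 0 ^ (-(1 / 10 : ℝ)) ≤ En b N x 0 ∧
      En b N x 0 ≤ 1 + 4 * qs Q 0 ^ (-(1 / 10 : ℝ)) := by
  obtain ⟨k, rfl⟩ : ∃ k, N = k + 3 := ⟨N - 3, by have := h.N3; omega⟩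
  have h0 : En b (k + 3) x 0 = 1 / b 0 + (qs Q 0)⁻¹ / b 1 := by
    unfold En
    rw [Finset.sum_range_succ', Finset.sum_range_succ']
    have : ∑ m ∈ Finset.range (k + 1), x (m + 1 + 1) 0 ^ 2 / b (m + 1 + 1) = 0 := by
      apply Finset.sum_eq_zero
      intro m _
      rw [h.i2]
      simp
    rw [this]
    simp only [Nat.zero_add]
    rw [h.i0, h.i1, rr_sq h.big]
    ring
  have hq := h.big.q 0
  have hinv := h.big.inv 0
  set u := (qs Q 0)⁻¹ with hu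
  have hu0 : 0 < u := by positivity
  have hu1 : u ≤ 1 / 1000000 := by
    rw [hu, inv_eq_one_div]
    exact div_le_div_of_nonneg_left (by norm_num) (by norm_num) hq
  have hb0 := abs_le.1 (h.cf.bb 0)
  rw [one_div, ← hu] at hb0
  have hb1 := h.b1 1
  have hb00 := h.b0 0
  have hb10 := h.b0 1
  rw [h0]
  have e1 : 1 - u ≤ 1 / b 0 := by
    rw [le_div_iff₀ hb00]
    nlinarith
  have e2 : 1 / b 0 ≤ 1 + 2 * u := by
    rw [div_le_iff₀ hb00]
    nlinarith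
  have e3 : u / b 1 ≤ 2 * u := by
    rw [div_le_iff₀ hb10]
    nlinarith
  have e4 : 0 ≤ u / b 1 := by positivity
  constructor <;> linarith

lemma Dat.E0' (h : Dat ε Q Λ b V γ N x) : En b N x 0 ≤ 51 / 50 := by
  have h1 := h.E0.2
  have h2 := h.big.sm1 0
  norm_num at h2 ⊢
  linarith

lemma Dat.Et (h : Dat ε Q Λ b V γ N x) {t : ℝ} (ht : 0 ≤ t) : En b N x t ≤ 51 / 50 :=
  (h.anti (mem_Ici.2 le_rfl) (mem_Ici.2 ht) ht).trans h.E0'

lemma Dat.ssq (h : Dat ε Q Λ b V γ N x) {t : ℝ} (ht : 0 ≤ t) :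
    ∑ m ∈ Finset.range N, x m t ^ 2 ≤ 2 := by
  have h1 : ∑ m ∈ Finset.range N, x m t ^ 2 ≤ 101 / 100 * En b N x t := by
    unfold En
    rw [Finset.mul_sum]
    apply Finset.sum_le_sum
    intro m _
    have hb := h.b0 m
    have hb1 := (h.b1 m).2
    rw [mul_div_assoc', le_div_iff₀ hb, mul_comm]
    exact mul_le_mul_of_nonneg_right hb1 (sq_nonneg _)
  linarith [h.Et ht]

lemma Dat.xb (h : Dat ε Q Λ b V γ N x) (m : ℕ) {t : ℝ} (ht : 0 ≤ t) : |x m t| ≤ 2 := by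
  rcases lt_or_ge m N with hm | hm
  · have h1 : x m t ^ 2 ≤ ∑ m ∈ Finset.range N, x m t ^ 2 :=
      Finset.single_le_sum (f := fun m => x m t ^ 2) (fun i _ => sq_nonneg _)
        (Finset.mem_range.2 hm)
    apply abs_le_of_sq_le_sq _ (by norm_num)
    linarith [h.ssq ht]
  · rw [h.fs.zero m hm t]
    norm_num

lemma Dat.rhs (h : Dat ε Q Λ b V γ N x) (m : ℕ) {t : ℝ} (ht : 0 ≤ t) :
    |-(V m * x m t) + b m * yN Λ γ N (fun m => x m t) m| ≤ 25 * qs Q m ^ 5 := by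
  have hq := h.big.q m
  have hx := h.xb m ht
  have hx1 := h.xb (m + 1) ht
  set q5 := qs Q m ^ 5 with hq5
  have hq5' : 1 ≤ q5 := one_le_pow₀ (by linarith)
  have a0 : |V m * x m t| ≤ 4 * q5 := by
    rw [abs_mul, abs_of_nonneg (h.V0 m)]
    have h1 := (h.cf.vv m).2
    have h3 : qs Q m ^ 4 ≤ q5 := pow_le_pow_right₀ (by linarith) (by norm_num)
    calc V m * |x m t| ≤ (2 * qs Q m ^ 4) * 2 := by
          apply mul_le_mul h1 hx (abs_nonneg _) (by positivity)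
      _ ≤ 4 * q5 := by linarith
  have a1 : |x m t * ∑ i ∈ Finset.range m, Λ i * x i t| ≤ 8 * q5 := by
    rw [abs_mul]
    have h1 : |∑ i ∈ Finset.range m, Λ i * x i t| ≤ 4 * q5 := by
      calc |∑ i ∈ Finset.range m, Λ i * x i t| ≤ ∑ i ∈ Finset.range m, |Λ i * x i t| :=
            Finset.abs_sum_le_sum_abs _ _
        _ ≤ ∑ i ∈ Finset.range m, 4 * qs Q i ^ 5 := by
            apply Finset.sum_le_sum
            intro i _
            rw [abs_mul]
            have := h.L2 i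
            have h5 := h.xb i ht
            have h6 := qs_pos h.big.one i
            calc |Λ i| * |x i t| ≤ (2 * qs Q i ^ 5) * 2 := by
                  apply mul_le_mul this h5 (abs_nonneg _) (by positivity)
              _ = 4 * qs Q i ^ 5 := by ring
        _ = 4 * ∑ i ∈ Finset.range m, qs Q i ^ 5 := by rw [Finset.mul_sum]
        _ ≤ 4 * q5 := by linarith [h.big.sum5 m]
    calc |x m t| * |∑ i ∈ Finset.range m, Λ i * x i t| ≤ 2 * (4 * q5) := by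
          apply mul_le_mul hx h1 (abs_nonneg _) (by norm_num)
      _ = 8 * q5 := by ring
  have a2 : |Λ m * ∑ j ∈ Finset.Ico (m + 1) N, x j t ^ 2| ≤ 4 * q5 := by
    rw [abs_mul]
    have h1 : |∑ j ∈ Finset.Ico (m + 1) N, x j t ^ 2| ≤ 2 := by
      rw [abs_of_nonneg (Finset.sum_nonneg fun i _ => sq_nonneg _)]
      refine le_trans ?_ (h.ssq ht)
      apply Finset.sum_le_sum_of_subset_of_nonneg
      · intro i hi
        rw [Finset.mem_Ico] at hi
        exact Finset.mem_range.2 hi.2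
      · intro i _ _
        exact sq_nonneg _
    calc |Λ m| * |∑ j ∈ Finset.Ico (m + 1) N, x j t ^ 2| ≤ (2 * q5) * 2 := by
          apply mul_le_mul (h.L2 m) h1 (abs_nonneg _) (by positivity)
      _ = 4 * q5 := by ring
  have a3 : |γ m * x m t * x (m + 1) t| ≤ 4 * q5 := by
    rw [abs_mul, abs_mul, abs_of_nonneg (h.g m).1]
    have : γ m * |x m t| ≤ 1 * 2 := mul_le_mul (h.g m).2 hx (abs_nonneg _) (by norm_num)
    calc γ m * |x m t| * |x (m + 1) t| ≤ (1 * 2) * 2 :=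
          mul_le_mul this hx1 (abs_nonneg _) (by norm_num)
      _ ≤ 4 * q5 := by linarith
  have a4 : |if m = 0 then 0 else γ (m - 1) * x (m - 1) t ^ 2| ≤ 4 * q5 := by
    split_ifs
    · simp only [abs_zero]
      linarith
    · rw [abs_mul, abs_of_nonneg (h.g _).1, abs_of_nonneg (sq_nonneg _), ← sq_abs]
      have h5 := h.xb (m - 1) ht
      have : |x (m - 1) t| ^ 2 ≤ 2 ^ 2 := pow_le_pow_left₀ (abs_nonneg _) h5 2
      calc γ (m - 1) * |x (m - 1) t| ^ 2 ≤ 1 * 2 ^ 2 :=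
            mul_le_mul (h.g _).2 this (by positivity) (by norm_num)
        _ ≤ 4 * q5 := by linarith
  have a5 : |yN Λ γ N (fun m => x m t) m| ≤ 20 * q5 := by
    unfold yN
    have e1 := abs_le.1 a1
    have e2 := abs_le.1 a2
    have e3 := abs_le.1 a3
    have e4 := abs_le.1 a4
    rw [abs_le]
    constructor <;> linarith [e1.1, e1.2, e2.1, e2.2, e3.1, e3.2, e4.1, e4.2]
  have a6 : |b m * yN Λ γ N (fun m => x m t) m| ≤ 21 * q5 := by
    rw [abs_mul, abs_of_pos (h.b0 m)]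
    calc b m * |yN Λ γ N (fun m => x m t) m| ≤ 101 / 100 * (20 * q5) :=
          mul_le_mul (h.b1 m).2 a5 (abs_nonneg _) (by norm_num)
      _ ≤ 21 * q5 := by linarith
  have e0 := abs_le.1 a0
  have e6 := abs_le.1 a6
  rw [abs_le]
  constructor <;> linarith [e0.1, e0.2, e6.1, e6.2]

lemma Dat.drift (h : Dat ε Q Λ b V γ N x) (m : ℕ) {s t : ℝ} (hs : 0 ≤ s) (hst : s ≤ t) :
    |x m t - x m s| ≤ 25 * qs Q m ^ 5 * (t - s) := by
  rcases lt_or_ge m N with hm | hm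
  · have h1 := Convex.norm_image_sub_le_of_norm_hasDerivWithin_le (𝕜 := ℝ) (f := x m)
      (f' := fun t => -(V m * x m t) + b m * yN Λ γ N (fun m => x m t) m)
      (s := Ici (0 : ℝ)) (C := 25 * qs Q m ^ 5) (x := s) (y := t)
      (fun u hu => h.fs.ode m hm u hu) (fun u hu => h.rhs m hu) (convex_Ici 0) hs
      (mem_Ici.2 (hs.trans hst))
    rw [Real.norm_eq_abs, Real.norm_eq_abs, abs_of_nonneg (sub_nonneg.2 hst)] at h1
    exact h1
  · rw [h.fs.zero m hm t, h.fs.zero m hm s]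
    have := qs_pos h.big.one m
    have h2 : 0 ≤ t - s := by linarith
    simp only [sub_self, abs_zero]
    positivity

/-! ### The stages -/

/-- One stage. -/
structure Stg (q b : ℕ → ℝ) (N : ℕ) (x : ℕ → ℝ → ℝ) (n : ℕ) (τ τ' : ℝ) : Prop where
  a1 : 1 / q n ^ 5 ≤ τ' - τ
  a2 : τ' - τ ≤ 2 * Real.log (q n) / q n ^ 5
  a3 : x (n + 2) τ' = rr q (n + 1)
  a4 : |x n τ'| ≤ 2 * q n ^ (-(1 / 10 : ℝ))
  a5 : 0 < x (n + 1) τ'
  a6 : ∀ t ∈ Icc τ τ', ∀ m ≥ n + 3, lo q m ≤ x m t ∧ x m t ≤ up q m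
  a7 : ∀ t ∈ Icc τ τ', En b N x τ - q n ^ (-(1 / 10 : ℝ)) ≤ En b N x t

/-- the length of a stage -/
noncomputable def dd (q : ℕ → ℝ) (n : ℕ) : ℝ := 2 * Real.log (q n) / q n ^ 5

lemma Big.dd_succ (h : Big ε Q) (n : ℕ) :
    dd (qs Q) (n + 1) = 6 / 5 * (dd (qs Q) n / qs Q n) := by
  unfold dd
  have := qs_pos h.one n
  rw [qs_succ h.one, qs_log_succ h.one]
  field_simp

lemma Big.dd_nonneg (h : Big ε Q) (n : ℕ) : 0 ≤ dd (qs Q) n := by
  unfold dd
  have h1 := h.q n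
  have : 0 ≤ Real.log (qs Q n) := Real.log_nonneg (by linarith)
  positivity

lemma Big.dd_half (h : Big ε Q) (n : ℕ) : 2 * dd (qs Q) (n + 1) ≤ dd (qs Q) n := by
  rw [h.dd_succ]
  have h1 := h.dd_nonneg n
  have h2 := h.q n
  have h3 : dd (qs Q) n / qs Q n ≤ dd (qs Q) n / 1000000 := by
    gcongr
  linarith

variable {σ : ℕ → ℝ} {n : ℕ}

lemma sig_mono (h : Big ε Q) (hS : ∀ k < n, Stg (qs Q) b N x k (σ k) (σ (k + 1))) {j k : ℕ}
    (hjk : j ≤ k) (hk : k ≤ n) : σ j ≤ σ k := by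
  induction k, hjk using Nat.le_induction with
  | base => exact le_rfl
  | succ k hjk ih =>
    have h1 := ih (by omega)
    have h2 := (hS k (by omega)).a1
    have h3 := qs_pos h.one k
    have h4 : 0 < 1 / qs Q k ^ 5 := by positivity
    linarith

lemma sig_tele (h : Big ε Q) (hS : ∀ k < n, Stg (qs Q) b N x k (σ k) (σ (k + 1))) {j k : ℕ}
    (hjk : j ≤ k) (hk : k ≤ n) : σ k + 2 * dd (qs Q) k ≤ σ j + 2 * dd (qs Q) j := by
  induction k, hjk using Nat.le_induction with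
  | base => exact le_rfl
  | succ k hjk ih =>
    have h1 := ih (by omega)
    have h2 := (hS k (by omega)).a2
    have h3 := h.dd_half k
    change σ (k + 1) - σ k ≤ dd (qs Q) k at h2
    linarith

lemma Dat.left (h : Dat ε Q Λ b V γ N x) (h0 : σ 0 = 0)
    (hS : ∀ k < n, Stg (qs Q) b N x k (σ k) (σ (k + 1))) {m : ℕ} (hm : m < n) {t : ℝ}
    (ht : t ∈ Icc (σ (m + 1)) (σ n)) : |x m t| ≤ 3 * qs Q m ^ (-(1 / 10 : ℝ)) := by
  have h1 := (hS m hm).a4
  have h2 : 0 ≤ σ (m + 1) := by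
    rw [← h0]
    exact sig_mono h.big hS (Nat.zero_le _) (by omega)
  have h3 := h.drift m h2 ht.1
  have h4 := sig_tele h.big hS (j := m + 1) (k := n) (by omega) le_rfl
  have h5 := h.big.dd_nonneg n
  have h6 : t - σ (m + 1) ≤ 2 * dd (qs Q) (m + 1) := by linarith [ht.2]
  have hq := h.big.q m
  have h7 : 25 * qs Q m ^ 5 * (t - σ (m + 1)) ≤ 120 * Real.log (qs Q m) / qs Q m := by
    calc 25 * qs Q m ^ 5 * (t - σ (m + 1)) ≤ 25 * qs Q m ^ 5 * (2 * dd (qs Q) (m + 1)) := by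
          gcongr
      _ = 120 * Real.log (qs Q m) / qs Q m := by
          rw [h.big.dd_succ]
          unfold dd
          field_simp
          ring
  have h8 := h.big.hlog _ (le_qs h.big.one m)
  have h9 : |x m t| ≤ |x m t - x m (σ (m + 1))| + |x m (σ (m + 1))| := by
    have := abs_add_le (x m t - x m (σ (m + 1))) (x m (σ (m + 1)))
    simpa using this
  linarith

lemma geo (n : ℕ) : ∑ k ∈ Finset.range n, (1 / 4 : ℝ) ^ k ≤ 4 / 3 := by
  have : ∑ k ∈ Finset.range n, (1 / 4 : ℝ) ^ k = 4 / 3 * (1 - (1 / 4) ^ n) := by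
    rw [geom_sum_eq (by norm_num)]
    ring
  rw [this]
  have : (0 : ℝ) < (1 / 4) ^ n := by positivity
  linarith

lemma Dat.elow (h : Dat ε Q Λ b V γ N x) (h0 : σ 0 = 0)
    (hS : ∀ k < n, Stg (qs Q) b N x k (σ k) (σ (k + 1))) :
    1 - 3 * Q ^ (-(1 / 10 : ℝ)) ≤ En b N x (σ n) := by
  have key : ∀ k ≤ n, En b N x 0 - Q ^ (-(1 / 10 : ℝ)) * ∑ j ∈ Finset.range k, (1 / 4 : ℝ) ^ j ≤
      En b N x (σ k) := by
    intro k hk
    induction k with
    | zero => simp [h0]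
    | succ k ih =>
      have h1 := ih (by omega)
      have h2 := (hS k (by omega)).a7 (σ (k + 1))
        (right_mem_Icc.2 (sig_mono h.big hS (Nat.le_succ k) hk))
      have h3 := h.big.sm k
      rw [Finset.sum_range_succ, mul_add]
      linarith
  have h1 := key n le_rfl
  have h2 := geo n
  have h3 := h.E0.1
  have h4 := h.big.sm 0
  have h5 : 0 < Q ^ (-(1 / 10 : ℝ)) := Real.rpow_pos_of_pos (by linarith [h.big.one]) _
  norm_num at h4
  norm_num at h1 h2 h3 h5 ⊢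
  nlinarith

lemma Dat.next (h : Dat ε Q Λ b V γ N x) (h0 : σ 0 = 0)
    (hS : ∀ k < n, Stg (qs Q) b N x k (σ k) (σ (k + 1))) :
    x (n + 1) (σ n) = rr (qs Q) n ∧
      ∀ m ≥ n + 2, lo (qs Q) m ≤ x m (σ n) ∧ x m (σ n) ≤ up (qs Q) m := by
  rcases n with _ | k
  · rw [h0]
    refine ⟨h.i1, fun m hm => ?_⟩
    obtain ⟨j, rfl⟩ : ∃ j, m = j + 2 := ⟨m - 2, by omega⟩
    rw [h.i2]
    unfold lo up
    exact ⟨by linarith [Real.exp_pos (-(3 * qs Q (j + 2 - 2)))], (Real.exp_pos _).le⟩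
  · have h1 := hS k (Nat.lt_succ_self k)
    refine ⟨h1.a3, fun m hm => h1.a6 _ (right_mem_Icc.2 ?_) m (by omega)⟩
    exact sig_mono h.big hS (Nat.le_succ k) le_rfl

lemma abs_up (h : Big ε Q) {m : ℕ} {y : ℝ} (h1 : lo (qs Q) m ≤ y) (h2 : y ≤ up (qs Q) m) :
    |y| ≤ up (qs Q) m :=
  abs_le.2 ⟨(lo_up _ _ (qs_pos h.one _).le).trans h1, h2⟩

lemma Dat.term (h : Dat ε Q Λ b V γ N x) (h0 : σ 0 = 0)
    (hS : ∀ k < n, Stg (qs Q) b N x k (σ k) (σ (k + 1))) {m : ℕ} (hm : m ≠ n) :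
    x m (σ n) ^ 2 / b m ≤ 1 / 100 * (1 / 4) ^ m := by
  have hb := h.b0 m
  have hb1 := (h.b1 m).1
  rw [div_le_iff₀ hb]
  have hp : (0 : ℝ) < (1 / 4) ^ m := by positivity
  have hp1 : ((1 / 4 : ℝ) ^ m) ^ 2 ≤ (1 / 4) ^ m := by
    have : ((1 / 4 : ℝ) ^ m) ≤ 1 := pow_le_one₀ (by norm_num) (by norm_num)
    nlinarith
  have key : x m (σ n) ^ 2 ≤ 99 / 10000 * (1 / 4) ^ m := by
    rcases lt_trichotomy m n with hmn | hmn | hmn
    · have h1 := h.left h0 hS hmn (t := σ n)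
        (right_mem_Icc.2 (sig_mono h.big hS (by omega) le_rfl))
      have h2 := h.big.sm1 m
      have h3 : |x m (σ n)| ≤ 3 / 1000 * (1 / 4) ^ m := by linarith
      have h4 : |x m (σ n)| ^ 2 ≤ (3 / 1000 * (1 / 4) ^ m) ^ 2 :=
        pow_le_pow_left₀ (abs_nonneg _) h3 2
      rw [sq_abs] at h4
      calc x m (σ n) ^ 2 ≤ (3 / 1000 * (1 / 4) ^ m) ^ 2 := h4
        _ = 9 / 1000000 * ((1 / 4) ^ m) ^ 2 := by ring
        _ ≤ 99 / 10000 * (1 / 4) ^ m := by nlinarith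
    · exact absurd hmn hm
    · rcases eq_or_lt_of_le (Nat.succ_le_of_lt hmn) with hmn | hmn
      · subst hmn
        rw [(h.next h0 hS).1, rr_sq h.big]
        have h1 := h.big.inv n
        have h2 := h.big.sm1 n
        calc (qs Q n)⁻¹ ≤ 1 / 1000 * (1 / 4) ^ n := h1.trans h2
          _ ≤ 99 / 10000 * (1 / 4) ^ (n + 1) := by
            rw [pow_succ]
            have : (0 : ℝ) < (1 / 4) ^ n := by positivity
            linarith
      · obtain ⟨j, rfl⟩ : ∃ j, m = j + 2 := ⟨m - 2, by omega⟩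
        have h1 := (h.next h0 hS).2 (j + 2) (by omega)
        have h2 := abs_up h.big h1.1 h1.2
        have h3 := h.big.up j
        have h4 := h.big.sm1 j
        have h5 : |x (j + 2) (σ n)| ≤ 1 / 1000 * (1 / 4) ^ j := h2.trans (h3.trans h4)
        have h6 : |x (j + 2) (σ n)| ^ 2 ≤ (1 / 1000 * (1 / 4) ^ j) ^ 2 :=
          pow_le_pow_left₀ (abs_nonneg _) h5 2
        rw [sq_abs] at h6
        have h7 : (1 / 4 : ℝ) ^ j = 16 * (1 / 4) ^ (j + 2) := by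
          rw [pow_add]
          ring
        calc x (j + 2) (σ n) ^ 2 ≤ (1 / 1000 * (1 / 4) ^ j) ^ 2 := h6
          _ = 256 / 1000000 * ((1 / 4) ^ (j + 2)) ^ 2 := by rw [h7]; ring
          _ ≤ 99 / 10000 * (1 / 4) ^ (j + 2) := by nlinarith
  calc x m (σ n) ^ 2 ≤ 99 / 10000 * (1 / 4) ^ m := key
    _ ≤ 1 / 100 * (1 / 4) ^ m * b m := by nlinarith

lemma Dat.pos (h : Dat ε Q Λ b V γ N x) (h0 : σ 0 = 0)
    (hS : ∀ k < n, Stg (qs Q) b N x k (σ k) (σ (k + 1))) : 0 < x n (σ n) := by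
  rcases n with _ | k
  · rw [h0, h.i0]
    norm_num
  · exact (hS k (Nat.lt_succ_self k)).a5

lemma Dat.big9 (h : Dat ε Q Λ b V γ N x) (h0 : σ 0 = 0)
    (hS : ∀ k < n, Stg (qs Q) b N x k (σ k) (σ (k + 1))) (hn : n < N) :
    9 / 10 ≤ x n (σ n) := by
  have h1 := h.elow h0 hS
  have h2 : En b N x (σ n) ≤ x n (σ n) ^ 2 / b n + 1 / 75 := by
    unfold En
    rw [← Finset.add_sum_erase _ _ (Finset.mem_range.2 hn)]
    have h3 : ∑ m ∈ (Finset.range N).erase n, x m (σ n) ^ 2 / b m ≤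
        ∑ m ∈ (Finset.range N).erase n, 1 / 100 * (1 / 4 : ℝ) ^ m :=
      Finset.sum_le_sum fun m hm => h.term h0 hS (Finset.ne_of_mem_erase hm)
    have h4 : ∑ m ∈ (Finset.range N).erase n, 1 / 100 * (1 / 4 : ℝ) ^ m ≤
        ∑ m ∈ Finset.range N, 1 / 100 * (1 / 4 : ℝ) ^ m :=
      Finset.sum_le_sum_of_subset_of_nonneg (Finset.erase_subset _ _)
        (fun i _ _ => by positivity)
    have h6 : ∑ m ∈ Finset.range N, 1 / 100 * (1 / 4 : ℝ) ^ m =
        1 / 100 * ∑ m ∈ Finset.range N, (1 / 4 : ℝ) ^ m := by rw [Finset.mul_sum]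
    have h5 := geo N
    linarith
  have h3 := h.big.h1
  have h4 : 97 / 100 ≤ x n (σ n) ^ 2 / b n := by linarith
  rw [le_div_iff₀ (h.b0 n)] at h4
  have h5 := (h.b1 n).1
  have h6 := h.pos h0 hS
  by_contra hc
  push Not at hc
  nlinarith

end

end Y3

open Y3 in
/-- (Y3) The cascade in the finite systems. -/
theorem t_Y3 (h1 : S_Y1) (h2 : S_Y2) : S_Y3 := by
  classical
  intro ε hε
  obtain ⟨Q₁, hQ₁2, hQ₁⟩ := h2
  obtain ⟨Q₀, hQ₀⟩ := exists_big hε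
  refine ⟨max Q₀ Q₁, fun Q hQ Λ b V γ cf N hN => ?_⟩
  have big := hQ₀ Q ((le_max_left _ _).trans hQ)
  obtain ⟨x, fs, ini⟩ := h1 Λ b V γ N
    (fun n => if n = 0 then 1 else if n = 1 then rr (qs Q) 0 else 0)
    (b0 big cf) (V0 big cf) (by
      intro n hn
      rw [if_neg (by omega), if_neg (by omega)])
  have h : Dat ε Q Λ b V γ N x := ⟨big, cf, hN, fs, by rw [ini]; simp, by rw [ini]; simp, by
    intro n
    rw [ini]
    simp⟩
  let F : ℕ → ℝ → ℝ := fun n s =>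
    if hs : ∃ s', Stg (qs Q) b N x n s s' then hs.choose else s
  let σ : ℕ → ℝ := fun n => Nat.rec 0 (fun n s => F n s) n
  have σ0 : σ 0 = 0 := rfl
  have σs : ∀ n, σ (n + 1) = F n (σ n) := fun n => rfl
  have key : ∀ n, n + 2 ≤ N → ∀ k < n, Stg (qs Q) b N x k (σ k) (σ (k + 1)) := by
    intro n
    induction n with
    | zero =>
      intro _ k hk
      omega
    | succ n ih =>
      intro hn k hk
      have hS := ih (by omega)
      rcases Nat.lt_succ_iff_lt_or_eq.1 hk with hk | hk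
      · exact hS k hk
      · subst hk
        have hσ : 0 ≤ σ k := by
          rw [← σ0]
          exact sig_mono big hS (Nat.zero_le _) le_rfl
        obtain ⟨τ', hτ', c1, c2, c3, c4, c5, c6⟩ := hQ₁ Q ((le_max_right _ _).trans hQ) Λ b V γ N x
          cf fs k (by omega) (σ k) hσ (h.Et hσ) (h.big9 σ0 hS (by omega)) (h.next σ0 hS).1
          (h.next σ0 hS).2
        have hex : ∃ s', Stg (qs Q) b N x k (σ k) s' :=
          ⟨τ', c1, c2, c3, c4, c5, fun t ht => (c6 t ht).2.1, fun t ht => (c6 t ht).2.2⟩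
        have : σ (k + 1) = hex.choose := by
          rw [σs]
          exact dif_pos hex
        rw [this]
        exact hex.choose_spec
  have cover : ∀ n, ∀ t ∈ Icc 0 (σ n), n + 2 ≤ N → 0 < n →
      ∃ k < n, t ∈ Icc (σ k) (σ (k + 1)) := by
    intro n
    induction n with
    | zero =>
      intro t _ _ h0
      omega
    | succ n ih =>
      intro t ht hn _
      rcases le_total (σ n) t with hc | hc
      · exact ⟨n, Nat.lt_succ_self n, hc, ht.2⟩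
      · rcases Nat.eq_zero_or_pos n with h0 | h0
        · subst h0
          have : t = 0 := le_antisymm hc ht.1
          exact ⟨0, by omega, by rw [this, σ0], ht.2⟩
        · obtain ⟨k, hk, hk2⟩ := ih t ⟨ht.1, hc⟩ (by omega) h0
          exact ⟨k, by omega, hk2⟩
  refine ⟨σ, x, fs, h.i0, h.i1, h.i2, σ0, ?_, ?_, ?_, ?_, ?_⟩
  · intro n hn
    have := key (n + 1) (by omega) n (Nat.lt_succ_self n)
    exact ⟨this.a1, this.a2⟩
  · intro n hn t ht m hm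
    obtain ⟨k, hk, hk2⟩ := cover (n + 1) t ht (by omega) (Nat.succ_pos n)
    have := (key (n + 1) (by omega) k hk).a6 t hk2 m (by omega)
    exact abs_up big this.1 this.2
  · intro n hn t ht
    have hS := key (n + 1) (by omega)
    have e1 := h.elow σ0 hS
    have e2 : En b N x (σ (n + 1)) ≤ En b N x t :=
      h.anti (mem_Ici.2 ht.1) (mem_Ici.2 (ht.1.trans ht.2)) ht.2
    have e3 := big.he
    change 1 - ε ≤ En b N x t
    linarith
  · intro t ht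
    have e1 := h.anti (mem_Ici.2 le_rfl) (mem_Ici.2 ht) ht
    have e2 := h.E0.2
    have e3 := big.sme 0
    change En b N x t ≤ 1 + ε
    norm_num at e1 e2 e3
    linarith
  · intro m n hmn hn t ht
    have hS := key (n + 1) (by omega)
    have e1 := h.left σ0 hS (m := m) (by omega) ht
    have e2 := big.sme m
    have e3 : (1 / 4 : ℝ) ^ m ≤ 1 / 2 ^ m := by
      rw [one_div_pow]
      apply one_div_le_one_div_of_le (by positivity)
      exact pow_le_pow_left₀ (by norm_num) (by norm_num) m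
    calc |x m t| ≤ 3 * (ε / 1000 * (1 / 4) ^ m) := by linarith
      _ ≤ ε * (1 / 2 ^ m) := by
        have : (0 : ℝ) < (1 / 4) ^ m := by positivity
        nlinarith [mul_pos hε this, mul_le_mul_of_nonneg_left e3 hε.le]
      _ = ε / 2 ^ m := by ring

end Pool.Agent.N976.UE
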