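import Pool.Agent.N976.UE.Def
import Pool.Agent.H772R2.NSR.Ode

/-! # (Y1) Global solutions of the finite systems. -/

open Set Filter Topology MeasureTheory Metric
open scoped InnerProductSpace NNReal

set_option autoImplicit false

namespace Pool.Agent.N976.UE.Y1

open Pool.Agent.N976.UE

/-- a vector as a sequence, with the weights `√ (b n)` -/
noncomputable def ex (b : ℕ → ℝ) {N : ℕ} (z : EuclideanSpace ℝ (Fin N)) (n : ℕ) : ℝ :=
  if h : n < N then √(b n) * z ⟨n, h⟩ else 0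

/-- the polynomial field in the variables `x n / √ (b n)` -/
noncomputable def FF (Λ b V γ : ℕ → ℝ) (N : ℕ) (z : EuclideanSpace ℝ (Fin N)) :
    EuclideanSpace ℝ (Fin N) :=
  WithLp.toLp 2 (fun n : Fin N => -(V n * z n) + √(b n) * yN Λ γ N (ex b z) n)

theorem ex_contDiff (b : ℕ → ℝ) {N : ℕ} (n : ℕ) :
    ContDiff ℝ 1 (fun x : EuclideanSpace ℝ (Fin N) => ex b x n) := by
  unfold ex
  split_ifs with h
  · fun_prop
  · exact contDiff_const

theorem FF_contDiff (Λ b V γ : ℕ → ℝ) (N : ℕ) : ContDiff ℝ 1 (FF Λ b V γ N) := by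
  rw [contDiff_euclidean]
  intro n
  have : (fun x => FF Λ b V γ N x n) =
      fun x => -(V n * x n) + √(b n) * yN Λ γ N (ex b x) n := rfl
  rw [this]
  have h := fun m => ex_contDiff b (N := N) m
  have hy : ContDiff ℝ 1 (fun x : EuclideanSpace ℝ (Fin N) => yN Λ γ N (ex b x) n) := by
    unfold yN
    refine ContDiff.add (ContDiff.sub (ContDiff.sub ?_ ?_) ?_) ?_
    · exact (h n).mul (ContDiff.sum fun i _ => contDiff_const.mul (h i))
    · exact contDiff_const.mul (ContDiff.sum fun i _ => (h i).pow 2)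
    · exact (contDiff_const.mul (h n)).mul (h _)
    · split_ifs with h0
      · exact contDiff_const
      · exact contDiff_const.mul ((h _).pow 2)
  refine ContDiff.add ?_ (contDiff_const.mul hy)
  fun_prop

theorem FF_lip (Λ b V γ : ℕ → ℝ) (N : ℕ) (R : ℝ) :
    ∃ C : ℝ≥0, LipschitzOnWith C (FF Λ b V γ N) (closedBall 0 R) := by
  have hc : Continuous (fun x => ‖fderiv ℝ (FF Λ b V γ N) x‖) :=
    ((FF_contDiff Λ b V γ N).continuous_fderiv one_ne_zero).norm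
  obtain ⟨C, hC⟩ := (isCompact_closedBall (0 : EuclideanSpace ℝ (Fin N)) R).bddAbove_image
    hc.continuousOn
  refine ⟨Real.toNNReal C, ?_⟩
  refine Convex.lipschitzOnWith_of_nnnorm_fderiv_le (𝕜 := ℝ)
    (fun x _ => ((FF_contDiff Λ b V γ N).differentiable one_ne_zero).differentiableAt) ?_
    (convex_closedBall 0 R)
  intro x hx
  have h1 : ‖fderiv ℝ (FF Λ b V γ N) x‖ ≤ C := hC ⟨x, hx, rfl⟩
  rw [← NNReal.coe_le_coe, coe_nnnorm]
  exact h1.trans (Real.le_coe_toNNReal C)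

theorem tri (N : ℕ) (f : ℕ → ℕ → ℝ) :
    ∑ n ∈ Finset.range N, ∑ i ∈ Finset.range n, f n i =
      ∑ i ∈ Finset.range N, ∑ n ∈ Finset.Ico (i + 1) N, f n i := by
  refine Finset.sum_comm' ?_
  intro x y
  simp only [Finset.mem_range, Finset.mem_Ico]
  omega

/-- the pump terms telescope -/
theorem tel (γ : ℕ → ℝ) (x : ℕ → ℝ) : ∀ N : ℕ,
    ∑ n ∈ Finset.range N, (-(γ n * x n ^ 2 * x (n + 1)) +
      if n = 0 then 0 else γ (n - 1) * x (n - 1) ^ 2 * x n) =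
      if N = 0 then 0 else -(γ (N - 1) * x (N - 1) ^ 2 * x N) := by
  intro N
  induction N with
  | zero => simp
  | succ N ih =>
    rw [Finset.sum_range_succ, ih]
    rcases Nat.eq_zero_or_pos N with h | h
    · subst h
      simp
    · rw [if_neg h.ne', if_neg h.ne', if_neg (Nat.succ_ne_zero N), Nat.add_sub_cancel]
      ring

/-- the quadratic part is orthogonal to the solution -/
theorem energy (Λ γ : ℕ → ℝ) (N : ℕ) (x : ℕ → ℝ) (hx : x N = 0) :
    ∑ n ∈ Finset.range N, x n * yN Λ γ N x n = 0 := by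
  have e : ∀ n, x n * yN Λ γ N x n =
      ((∑ i ∈ Finset.range n, x n ^ 2 * (Λ i * x i)) -
        ∑ m ∈ Finset.Ico (n + 1) N, x m ^ 2 * (Λ n * x n)) +
      (-(γ n * x n ^ 2 * x (n + 1)) +
        if n = 0 then 0 else γ (n - 1) * x (n - 1) ^ 2 * x n) := by
    intro n
    unfold yN
    rw [← Finset.mul_sum, ← Finset.sum_mul]
    split_ifs with h
    · ring
    · ring
  simp_rw [e]
  rw [Finset.sum_add_distrib, Finset.sum_sub_distrib, tri N (fun n i => x n ^ 2 * (Λ i * x i)),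
    sub_self, zero_add, tel, hx, mul_zero, neg_zero]
  split_ifs <;> rfl

theorem ex_lt (b : ℕ → ℝ) {N : ℕ} (z : EuclideanSpace ℝ (Fin N)) (n : Fin N) :
    ex b z n = √(b n) * z n := by
  unfold ex
  rw [dif_pos n.2]

theorem ex_ge (b : ℕ → ℝ) {N : ℕ} (z : EuclideanSpace ℝ (Fin N)) {n : ℕ} (hn : N ≤ n) :
    ex b z n = 0 := by
  unfold ex
  rw [dif_neg (not_lt.2 hn)]

theorem inner_FF (Λ b V γ : ℕ → ℝ) (hV : ∀ n, 0 ≤ V n) (N : ℕ) (z : EuclideanSpace ℝ (Fin N)) :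
    ⟪FF Λ b V γ N z, z⟫_ℝ ≤ 0 := by
  have h := energy Λ γ N (ex b z) (ex_ge b z le_rfl)
  have e : ⟪FF Λ b V γ N z, z⟫_ℝ = ∑ n : Fin N, -(V n * z n ^ 2) +
      ∑ n ∈ Finset.range N, ex b z n * yN Λ γ N (ex b z) n := by
    rw [Finset.sum_range, PiLp.inner_apply, ← Finset.sum_add_distrib]
    refine Finset.sum_congr rfl fun n _ => ?_
    rw [ex_lt]
    simp only [FF]
    rw [real_inner_comm]
    simp only [RCLike.inner_apply, conj_trivial]
    ring
  rw [e, h, add_zero]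
  refine Finset.sum_nonpos fun n _ => ?_
  have := mul_nonneg (hV n) (sq_nonneg (z n))
  linarith

/-- existence on `[0, T]` -/
theorem exT (Λ b V γ : ℕ → ℝ) (hV : ∀ n, 0 ≤ V n) (N : ℕ)
    (x0 : EuclideanSpace ℝ (Fin N)) {T : ℝ} (hT : 0 ≤ T) :
    ∃ x : ℝ → EuclideanSpace ℝ (Fin N), x 0 = x0 ∧
      ∀ t ∈ Icc 0 T, HasDerivWithinAt x (FF Λ b V γ N (x t)) (Icc 0 T) t := by
  obtain ⟨y, hy0, hy, -⟩ := H772R2.NSR.exists_global (fun _ z => FF Λ b V γ N z) hT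
    (fun R => (FF_lip Λ b V γ N R).imp fun C hC t _ => hC) (fun x => continuousOn_const) x0
    (c := 0) le_rfl (fun t _ x => inner_FF Λ b V γ hV N x)
  exact ⟨y, hy0, hy⟩

/-- uniqueness on `[0, T]` -/
theorem uniq (Λ b V γ : ℕ → ℝ) (N : ℕ) {T : ℝ}
    {x y : ℝ → EuclideanSpace ℝ (Fin N)}
    (hx : ∀ t ∈ Icc 0 T, HasDerivWithinAt x (FF Λ b V γ N (x t)) (Icc 0 T) t)
    (hy : ∀ t ∈ Icc 0 T, HasDerivWithinAt y (FF Λ b V γ N (y t)) (Icc 0 T) t)
    (h0 : x 0 = y 0) : EqOn x y (Icc 0 T) := by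
  have hcx : ContinuousOn x (Icc 0 T) := fun t ht => (hx t ht).continuousWithinAt
  have hcy : ContinuousOn y (Icc 0 T) := fun t ht => (hy t ht).continuousWithinAt
  obtain ⟨A, hA⟩ := (isCompact_Icc.image_of_continuousOn hcx).isBounded.exists_norm_le
  obtain ⟨B, hB⟩ := (isCompact_Icc.image_of_continuousOn hcy).isBounded.exists_norm_le
  set R := max A B with hR
  obtain ⟨C, hC⟩ := FF_lip Λ b V γ N R
  have hmono : ∀ {z : ℝ → EuclideanSpace ℝ (Fin N)} {v : EuclideanSpace ℝ (Fin N)} {t : ℝ},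
      t ∈ Ico 0 T → HasDerivWithinAt z v (Icc 0 T) t → HasDerivWithinAt z v (Ici t) t := by
    intro z v t ht h
    refine h.mono_of_mem_nhdsWithin ?_
    filter_upwards [mem_nhdsWithin_of_mem_nhds (Iic_mem_nhds ht.2), self_mem_nhdsWithin]
      with s hs hs'
    exact ⟨ht.1.trans hs', hs⟩
  refine ODE_solution_unique_of_mem_Icc_right (v := fun _ z => FF Λ b V γ N z)
    (s := fun _ => closedBall 0 R) (K := C) (fun t _ => hC) hcx ?_ ?_ hcy ?_ ?_ h0
  · intro t ht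
    exact hmono ht (hx t ⟨ht.1, ht.2.le⟩)
  · intro t ht
    rw [mem_closedBall_zero_iff]
    exact (hA _ ⟨t, ⟨ht.1, ht.2.le⟩, rfl⟩).trans (le_max_left _ _)
  · intro t ht
    exact hmono ht (hy t ⟨ht.1, ht.2.le⟩)
  · intro t ht
    rw [mem_closedBall_zero_iff]
    exact (hB _ ⟨t, ⟨ht.1, ht.2.le⟩, rfl⟩).trans (le_max_right _ _)

/-- global existence -/
theorem glob (Λ b V γ : ℕ → ℝ) (hV : ∀ n, 0 ≤ V n) (N : ℕ) (x0 : EuclideanSpace ℝ (Fin N)) :
    ∃ x : ℝ → EuclideanSpace ℝ (Fin N), x 0 = x0 ∧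
      ∀ t ∈ Ici (0 : ℝ), HasDerivWithinAt x (FF Λ b V γ N (x t)) (Ici 0) t := by
  choose! y hy0 hy using fun k : ℕ => exT Λ b V γ hV N x0 (T := (k : ℝ)) (Nat.cast_nonneg k)
  have hag : ∀ k l : ℕ, k ≤ l → EqOn (y k) (y l) (Icc 0 (k : ℝ)) := by
    intro k l hkl
    refine uniq Λ b V γ N (hy k) (fun t ht => ?_) (by rw [hy0, hy0])
    have hkl' : (k : ℝ) ≤ l := by exact_mod_cast hkl
    exact (hy l t ⟨ht.1, ht.2.trans hkl'⟩).mono (Icc_subset_Icc le_rfl hkl')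
  set z : ℝ → EuclideanSpace ℝ (Fin N) := fun t => y (⌈t⌉₊) t with hz
  have hzy : ∀ k : ℕ, ∀ t ∈ Icc 0 (k : ℝ), z t = y k t := by
    intro k t ht
    have h1 : ⌈t⌉₊ ≤ k := Nat.ceil_le.2 ht.2
    exact hag _ _ h1 ⟨ht.1, Nat.le_ceil t⟩
  refine ⟨z, ?_, fun t ht => ?_⟩
  · rw [hzy 0 0 (by simp), hy0]
  · set k : ℕ := ⌈t⌉₊ + 1 with hk
    have htk : t < (k : ℝ) := by
      rw [hk]
      push_cast
      linarith [Nat.le_ceil t]
    have ht' : t ∈ Icc 0 (k : ℝ) := ⟨ht, htk.le⟩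
    have h1 : HasDerivWithinAt z (FF Λ b V γ N (z t)) (Icc 0 (k : ℝ)) t := by
      rw [hzy k t ht']
      exact (hy k t ht').congr (fun s hs => hzy k s hs) (hzy k t ht')
    refine h1.mono_of_mem_nhdsWithin ?_
    filter_upwards [mem_nhdsWithin_of_mem_nhds (Iic_mem_nhds htk), self_mem_nhdsWithin]
      with s hs hs'
    exact ⟨hs', hs⟩

/-- the derivative of the weighted energy -/
theorem energy_deriv {Λ b V γ : ℕ → ℝ} {N : ℕ} {x : ℕ → ℝ → ℝ} (hb : ∀ n, 0 < b n)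
    (h : FS Λ b V γ N x) {t : ℝ} (ht : t ∈ Ici (0 : ℝ)) :
    HasDerivWithinAt (fun s => ∑ m ∈ Finset.range N, x m s ^ 2 / b m)
      (-2 * ∑ m ∈ Finset.range N, V m * x m t ^ 2 / b m) (Ici 0) t := by
  have h1 : ∀ m ∈ Finset.range N, HasDerivWithinAt (fun s => x m s ^ 2 / b m)
      (2 * x m t * (-(V m * x m t) + b m * yN Λ γ N (fun m => x m t) m) / b m) (Ici 0) t := by
    intro m hm
    have h2 := ((h.ode m (Finset.mem_range.1 hm) t ht).pow 2).div_const (b m)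
    refine h2.congr_deriv ?_
    simp
  have h2 := HasDerivWithinAt.fun_sum h1
  refine h2.congr_deriv ?_
  have h3 := energy Λ γ N (fun m => x m t) (h.zero N le_rfl t)
  have h4 : ∀ m, 2 * x m t * (-(V m * x m t) + b m * yN Λ γ N (fun m => x m t) m) / b m =
      -2 * (V m * x m t ^ 2 / b m) + 2 * (x m t * yN Λ γ N (fun m => x m t) m) := by
    intro m
    have := (hb m).ne'
    field_simp
  simp_rw [h4]
  rw [Finset.sum_add_distrib, ← Finset.mul_sum, ← Finset.mul_sum, h3, mul_zero, add_zero]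

/-- the weighted energy is nonincreasing -/
theorem energy_anti {Λ b V γ : ℕ → ℝ} {N : ℕ} {x : ℕ → ℝ → ℝ} (hb : ∀ n, 0 < b n)
    (hV : ∀ n, 0 ≤ V n) (h : FS Λ b V γ N x) :
    AntitoneOn (fun s => ∑ m ∈ Finset.range N, x m s ^ 2 / b m) (Ici 0) := by
  refine antitoneOn_of_hasDerivWithinAt_nonpos (convex_Ici 0)
    (f' := fun t => -2 * ∑ m ∈ Finset.range N, V m * x m t ^ 2 / b m)
    (fun t ht => (energy_deriv hb h ht).continuousWithinAt) ?_ ?_
  · intro t ht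
    exact (energy_deriv hb h (interior_subset ht)).mono interior_subset
  · intro t _
    have : 0 ≤ ∑ m ∈ Finset.range N, V m * x m t ^ 2 / b m :=
      Finset.sum_nonneg fun m _ => div_nonneg (mul_nonneg (hV m) (sq_nonneg _)) (hb m).le
    linarith

end Pool.Agent.N976.UE.Y1

namespace Pool.Agent.N976.UE

open Y1

/-- (Y1) -/
theorem t_Y1 : S_Y1 := by
  intro Λ b V γ N a hb hV ha
  obtain ⟨z, hz0, hz⟩ := glob Λ b V γ hV N (WithLp.toLp 2 (fun n : Fin N => a n / √(b n)))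
  have hs : ∀ n, √(b n) ≠ 0 := fun n => (Real.sqrt_pos.2 (hb n)).ne'
  refine ⟨fun n t => ex b (z t) n, ⟨?_, ?_⟩, ?_⟩
  · intro n hn t
    exact ex_ge b (z t) hn
  · intro n hn t ht
    have h4 := (EuclideanSpace.proj (⟨n, hn⟩ : Fin N) :
      EuclideanSpace ℝ (Fin N) →L[ℝ] ℝ).hasFDerivAt.comp_hasDerivWithinAt t (hz t ht)
    have e1 : (fun s => ex b (z s) n) = fun s => √(b n) * z s ⟨n, hn⟩ := by
      funext s
      exact ex_lt b (z s) ⟨n, hn⟩
    have h5 : HasDerivWithinAt (fun s => z s ⟨n, hn⟩)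
        ((FF Λ b V γ N (z t)) ⟨n, hn⟩) (Ici 0) t := h4
    rw [e1]
    refine (h5.const_mul (√(b n))).congr_deriv ?_
    have e2 : FF Λ b V γ N (z t) ⟨n, hn⟩ =
        -(V n * z t ⟨n, hn⟩) + √(b n) * yN Λ γ N (ex b (z t)) n := rfl
    rw [e2]
    have e3 : ex b (z t) n = √(b n) * z t ⟨n, hn⟩ := ex_lt b (z t) ⟨n, hn⟩
    have e4 : √(b n) * √(b n) = b n := Real.mul_self_sqrt (hb n).le
    calc √(b n) * (-(V n * z t ⟨n, hn⟩) + √(b n) * yN Λ γ N (ex b (z t)) n)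
        = -(V n * (√(b n) * z t ⟨n, hn⟩)) + (√(b n) * √(b n)) * yN Λ γ N (ex b (z t)) n := by ring
      _ = _ := by rw [e4, ← e3]
  · intro n
    rcases lt_or_ge n N with hn | hn
    · have e3 : ex b (z 0) n = √(b n) * z 0 ⟨n, hn⟩ := ex_lt b (z 0) ⟨n, hn⟩
      show ex b (z 0) n = a n
      rw [e3, hz0]
      show √(b n) * (a n / √(b n)) = a n
      rw [mul_comm, div_mul_cancel₀ _ (hs n)]
    · show ex b (z 0) n = a n
      rw [ex_ge b (z 0) hn, ha n hn]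

end Pool.Agent.N976.UE
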