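import Pool.Agent.N976.UE.Def

/-!
# UE/Y4: the limit `N → ∞` of the cascades of the finite systems (helper866)

The limit is taken along an ultrafilter `U`: all modes converge pointwise (they are bounded), jointly
in the time (they are Lipschitz), and the tail sums converge by domination.
-/

open Set Filter Topology

set_option autoImplicit false

namespace Pool.Agent.N976.UE.Y4

open Pool.Agent.N976.EN

/-! ### The scales -/

lemma qs_ge {Q : ℝ} (hQ : 2 ≤ Q) (n : ℕ) : (2 : ℝ) ^ (1 + (n : ℝ) / 5) ≤ qs Q n := by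
  unfold qs
  have h1 : 1 + (n : ℝ) / 5 ≤ (6 / 5 : ℝ) ^ n := by
    have := one_add_mul_le_pow (show (-2 : ℝ) ≤ 1 / 5 by norm_num) n
    calc 1 + (n : ℝ) / 5 = 1 + n * (1 / 5) := by ring
      _ ≤ (1 + 1 / 5) ^ n := this
      _ = _ := by norm_num
  calc (2 : ℝ) ^ (1 + (n : ℝ) / 5) ≤ 2 ^ ((6 / 5 : ℝ) ^ n) :=
        Real.rpow_le_rpow_of_exponent_le (by norm_num) h1
    _ ≤ Q ^ ((6 / 5 : ℝ) ^ n) := Real.rpow_le_rpow (by norm_num) hQ (by positivity)

lemma qs_two {Q : ℝ} (hQ : 2 ≤ Q) (n : ℕ) : 2 ≤ qs Q n := by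
  refine le_trans ?_ (qs_ge hQ n)
  calc (2 : ℝ) = 2 ^ (1 : ℝ) := (Real.rpow_one 2).symm
    _ ≤ _ := Real.rpow_le_rpow_of_exponent_le (by norm_num) (by
        have : (0 : ℝ) ≤ (n : ℝ) / 5 := by positivity
        linarith)

lemma summ_q4 {Q : ℝ} (hQ : 2 ≤ Q) : Summable (fun n => 1 / qs Q n ^ 4) := by
  have hr1 : (2 : ℝ) ^ (-(4 / 5 : ℝ)) < 1 :=
    Real.rpow_lt_one_of_one_lt_of_neg (by norm_num) (by norm_num)
  refine Summable.of_nonneg_of_le (fun n => by have := qs_two hQ n; positivity) (fun n => ?_)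
    (summable_geometric_of_lt_one (by positivity) hr1)
  have h1 := qs_ge hQ n
  have h2 : (0 : ℝ) < 2 ^ (1 + (n : ℝ) / 5) := by positivity
  calc 1 / qs Q n ^ 4 ≤ 1 / ((2 : ℝ) ^ (1 + (n : ℝ) / 5)) ^ 4 := by
        apply one_div_le_one_div_of_le (by positivity)
        gcongr
    _ = (2 : ℝ) ^ (-(4 + 4 * (n : ℝ) / 5)) := by
        rw [← Real.rpow_natCast, ← Real.rpow_mul (by norm_num), one_div,
          ← Real.rpow_neg (by norm_num)]
        congr 1
        push_cast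
        ring
    _ ≤ (2 : ℝ) ^ (-(4 / 5 : ℝ) * n) :=
        Real.rpow_le_rpow_of_exponent_le (by norm_num) (by linarith)
    _ = ((2 : ℝ) ^ (-(4 / 5 : ℝ))) ^ n := by
        rw [Real.rpow_mul (by norm_num), Real.rpow_natCast]

lemma summ_d {Q : ℝ} (hQ : 2 ≤ Q) : Summable (fun n => 2 * Real.log (qs Q n) / qs Q n ^ 5) := by
  refine Summable.of_nonneg_of_le (fun n => ?_) (fun n => ?_) ((summ_q4 hQ).mul_left 2)
  · have h := qs_two hQ n
    have := Real.log_nonneg (by linarith : (1 : ℝ) ≤ qs Q n)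
    positivity
  · have h := qs_two hQ n
    have h0 : 0 < qs Q n := by linarith
    have h1 := Real.log_le_self h0.le
    calc 2 * Real.log (qs Q n) / qs Q n ^ 5 ≤ 2 * qs Q n / qs Q n ^ 5 := by gcongr
      _ = 2 * (1 / qs Q n ^ 4) := by
        field_simp

lemma up_exp {Q : ℝ} (hQ : 2 ≤ Q) (m : ℕ) : up (qs Q) m ≤ Real.exp (-(qs Q (m - 2) / 2)) := by
  unfold up
  have h := qs_two hQ (m - 2)
  apply Real.exp_le_exp.2
  have h1 : √(qs Q (m - 2)) ≤ qs Q (m - 2) :=
    Real.sqrt_le_iff.2 ⟨by linarith, by nlinarith⟩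
  have h2 := Real.pi_gt_three
  nlinarith

lemma up_le {Q : ℝ} (hQ : 2 ≤ Q) (m : ℕ) : up (qs Q) m ≤ 384 * (1 / qs Q (m - 2) ^ 4) := by
  refine (up_exp hQ m).trans ?_
  have h := qs_two hQ (m - 2)
  have h1 := Real.pow_div_factorial_le_exp (x := qs Q (m - 2) / 2) (by linarith) 4
  rw [Real.exp_neg]
  have h0 : 0 < qs Q (m - 2) := by linarith
  calc (Real.exp (qs Q (m - 2) / 2))⁻¹ ≤ ((qs Q (m - 2) / 2) ^ 4 / (Nat.factorial 4 : ℝ))⁻¹ :=
        inv_anti₀ (by positivity) h1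
    _ = 384 * (1 / qs Q (m - 2) ^ 4) := by
        have : (Nat.factorial 4 : ℝ) = 24 := by norm_num [Nat.factorial]
        rw [this]
        field_simp
        norm_num

lemma up_pos (q : ℕ → ℝ) (m : ℕ) : 0 < up q m := Real.exp_pos _

lemma up_le_one {Q : ℝ} (hQ : 2 ≤ Q) (m : ℕ) : up (qs Q) m ≤ 1 := by
  refine (up_exp hQ m).trans (Real.exp_le_one_iff.2 ?_)
  have h := qs_two hQ (m - 2)
  linarith

lemma up_summable {Q : ℝ} (hQ : 2 ≤ Q) : Summable (up (qs Q)) := by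
  rw [← summable_nat_add_iff 2]
  refine Summable.of_nonneg_of_le (fun n => (up_pos _ _).le) (fun n => ?_)
    ((summ_q4 hQ).mul_left 384)
  have := up_le hQ (n + 2)
  rwa [Nat.add_sub_cancel] at this

/-! ### Bounds for the finite systems -/

lemma yN_eq {Λ γ : ℕ → ℝ} {N : ℕ} {x : ℕ → ℝ} (h : ∀ m ≥ N, x m = 0) (n : ℕ) :
    yN Λ γ N x n = yq Λ γ x n := by
  unfold yN yq
  have h1 : ∑ m ∈ Finset.Ico (n + 1) N, x m ^ 2 = ∑' m : ℕ, x (n + 1 + m) ^ 2 := by
    rw [Finset.sum_Ico_eq_sum_range, tsum_eq_sum]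
    intro m hm
    rw [Finset.mem_range] at hm
    rw [h (n + 1 + m) (by omega)]
    norm_num
  rw [h1]

section bd

variable {ε : ℝ} {q Λ b V γ : ℕ → ℝ} {N : ℕ} {σ : ℕ → ℝ} {x : ℕ → ℝ → ℝ}

lemma b_lo (hb : ∀ n, |b n - 1| ≤ 1 / q n) (hq : ∀ n, 2 ≤ q n) (n : ℕ) : 1 / 2 ≤ b n := by
  have h1 := (abs_le.1 (hb n)).1
  have h2 : 1 / q n ≤ 1 / 2 := one_div_le_one_div_of_le (by norm_num) (hq n)
  linarith

lemma b_hi (hb : ∀ n, |b n - 1| ≤ 1 / q n) (hq : ∀ n, 2 ≤ q n) (n : ℕ) : b n ≤ 3 / 2 := by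
  have h1 := (abs_le.1 (hb n)).2
  have h2 : 1 / q n ≤ 1 / 2 := one_div_le_one_div_of_le (by norm_num) (hq n)
  linarith

lemma sum_sq (hb : ∀ n, |b n - 1| ≤ 1 / q n) (hq : ∀ n, 2 ≤ q n) {y : ℕ → ℝ} {E : ℝ}
    (hE : ∑ m ∈ Finset.range N, y m ^ 2 / b m ≤ E) : ∑ m ∈ Finset.range N, y m ^ 2 ≤ 2 * E := by
  have h1 : ∑ m ∈ Finset.range N, y m ^ 2 ≤ ∑ m ∈ Finset.range N, 2 * (y m ^ 2 / b m) := by
    refine Finset.sum_le_sum fun m _ => ?_
    have h1 := b_lo hb hq m
    have h2 := b_hi hb hq m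
    have h3 : y m ^ 2 / b m * b m = y m ^ 2 := by
      field_simp
    have h4 : 0 ≤ y m ^ 2 / b m := by positivity
    nlinarith
  rw [← Finset.mul_sum] at h1
  linarith

/-- the bound for the modes -/
lemma mode_sq (hb : ∀ n, |b n - 1| ≤ 1 / q n) (hq : ∀ n, 2 ≤ q n) (h : CN ε q Λ b V γ N σ x)
    {t : ℝ} (ht : 0 ≤ t) (m : ℕ) : x m t ^ 2 ≤ 2 * (1 + ε) := by
  have h1 := sum_sq hb hq (h.upp t ht)
  by_cases hm : m < N
  · refine le_trans ?_ h1
    exact Finset.single_le_sum (f := fun m => x m t ^ 2) (fun i _ => sq_nonneg _)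
      (Finset.mem_range.2 hm)
  · rw [h.fs.zero m (by omega) t]
    have : 0 ≤ ∑ m ∈ Finset.range N, x m t ^ 2 := Finset.sum_nonneg fun i _ => sq_nonneg _
    linarith

lemma mode_le (hε : 0 < ε) (hb : ∀ n, |b n - 1| ≤ 1 / q n) (hq : ∀ n, 2 ≤ q n)
    (h : CN ε q Λ b V γ N σ x) {t : ℝ} (ht : 0 ≤ t) (m : ℕ) : |x m t| ≤ 2 * (1 + ε) := by
  have h1 := mode_sq hb hq h ht m
  refine abs_le_of_sq_le_sq ?_ (by linarith)
  nlinarith

/-- the constant of the quadratic part -/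
noncomputable def KK (ε : ℝ) (Λ γ : ℕ → ℝ) (n : ℕ) : ℝ :=
  2 * (1 + ε) * (∑ i ∈ Finset.range n, |Λ i| * (2 * (1 + ε))) + |Λ n| * (2 * (1 + ε)) +
    |γ n| * (2 * (1 + ε)) * (2 * (1 + ε)) + |γ (n - 1)| * (2 * (1 + ε))

lemma yN_le (hε : 0 < ε) (hb : ∀ n, |b n - 1| ≤ 1 / q n) (hq : ∀ n, 2 ≤ q n)
    (h : CN ε q Λ b V γ N σ x) {t : ℝ} (ht : 0 ≤ t) (n : ℕ) :
    |yN Λ γ N (fun m => x m t) n| ≤ KK ε Λ γ n := by
  have hM : 0 ≤ 2 * (1 + ε) := by linarith
  have hx := mode_le hε hb hq h ht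
  have h1 : |x n t * ∑ i ∈ Finset.range n, Λ i * x i t| ≤
      2 * (1 + ε) * (∑ i ∈ Finset.range n, |Λ i| * (2 * (1 + ε))) := by
    rw [abs_mul]
    refine mul_le_mul (hx n) ?_ (abs_nonneg _) hM
    refine (Finset.abs_sum_le_sum_abs _ _).trans (Finset.sum_le_sum fun i _ => ?_)
    rw [abs_mul]
    exact mul_le_mul_of_nonneg_left (hx i) (abs_nonneg _)
  have h2 : |Λ n * ∑ m ∈ Finset.Ico (n + 1) N, x m t ^ 2| ≤ |Λ n| * (2 * (1 + ε)) := by
    rw [abs_mul]
    refine mul_le_mul_of_nonneg_left ?_ (abs_nonneg _)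
    rw [abs_of_nonneg (Finset.sum_nonneg fun i _ => sq_nonneg _)]
    refine le_trans ?_ (sum_sq hb hq (h.upp t ht))
    apply Finset.sum_le_sum_of_subset_of_nonneg
    · intro m hm
      rw [Finset.mem_Ico] at hm
      exact Finset.mem_range.2 hm.2
    · intro i _ _
      exact sq_nonneg _
  have h3 : |γ n * x n t * x (n + 1) t| ≤ |γ n| * (2 * (1 + ε)) * (2 * (1 + ε)) := by
    rw [abs_mul, abs_mul]
    exact mul_le_mul (mul_le_mul_of_nonneg_left (hx n) (abs_nonneg _)) (hx _) (abs_nonneg _)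
      (by positivity)
  have h4 : |if n = 0 then (0 : ℝ) else γ (n - 1) * x (n - 1) t ^ 2| ≤
      |γ (n - 1)| * (2 * (1 + ε)) := by
    split_ifs
    · rw [abs_zero]; positivity
    · rw [abs_mul, abs_of_nonneg (sq_nonneg (x (n - 1) t))]
      exact mul_le_mul_of_nonneg_left (mode_sq hb hq h ht _) (abs_nonneg _)
  unfold yN KK
  refine (abs_add_le _ _).trans (add_le_add ((abs_sub _ _).trans (add_le_add
    ((abs_sub _ _).trans (add_le_add h1 h2)) h3)) h4)

/-- the Lipschitz constant of mode `n` -/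
noncomputable def CC (ε : ℝ) (Λ V γ : ℕ → ℝ) (n : ℕ) : ℝ :=
  |V n| * (2 * (1 + ε)) + 2 * KK ε Λ γ n

lemma KK_nonneg (hε : 0 < ε) (Λ γ : ℕ → ℝ) (n : ℕ) : 0 ≤ KK ε Λ γ n := by
  unfold KK; positivity

lemma CC_nonneg (hε : 0 < ε) (Λ V γ : ℕ → ℝ) (n : ℕ) : 0 ≤ CC ε Λ V γ n := by
  have := KK_nonneg hε Λ γ n
  unfold CC
  positivity

lemma mode_lip (hε : 0 < ε) (hb : ∀ n, |b n - 1| ≤ 1 / q n) (hq : ∀ n, 2 ≤ q n)
    (h : CN ε q Λ b V γ N σ x) (n : ℕ) {s t : ℝ} (hs : 0 ≤ s) (ht : 0 ≤ t) :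
    |x n s - x n t| ≤ CC ε Λ V γ n * |s - t| := by
  by_cases hn : n < N
  · refine (convex_Ici (0 : ℝ)).norm_image_sub_le_of_norm_hasDerivWithin_le
      (f := x n) (C := CC ε Λ V γ n) (fun r hr => h.fs.ode n hn r hr) (fun r hr => ?_) ht hs
    have hr' : (0 : ℝ) ≤ r := hr
    have h1 := yN_le hε hb hq h hr' n
    have h2 := mode_le hε hb hq h hr' n
    have h3 := b_lo hb hq n
    have h4 := b_hi hb hq n
    rw [Real.norm_eq_abs]
    refine (abs_add_le _ _).trans ?_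
    rw [abs_neg, abs_mul, abs_mul, abs_of_nonneg (by linarith : 0 ≤ b n)]
    unfold CC
    refine add_le_add (mul_le_mul_of_nonneg_left h2 (abs_nonneg _)) ?_
    exact mul_le_mul (by linarith) h1 (abs_nonneg _) (by norm_num)
  · rw [h.fs.zero n (by omega), h.fs.zero n (by omega), sub_self, abs_zero]
    exact mul_nonneg (CC_nonneg hε _ _ _ _) (abs_nonneg _)

end bd

/-! ### Ultrafilter limits -/

/-- the ultrafilter -/
noncomputable def U : Filter ℕ := (hyperfilter ℕ : Filter ℕ)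

instance : U.NeBot := by unfold U; infer_instance

lemma U_le : U ≤ atTop := Nat.hyperfilter_le_atTop

lemma ev_ge (n : ℕ) : ∀ᶠ j in U, n ≤ j := (eventually_ge_atTop n).filter_mono U_le

lemma ulim {a : ℕ → ℝ} {C : ℝ} (h : ∀ᶠ j in U, |a j| ≤ C) : ∃ L, Tendsto a U (𝓝 L) := by
  obtain ⟨L, -, hL⟩ := (isCompact_Icc (a := -C) (b := C)).ultrafilter_le_nhds
    ((hyperfilter ℕ).map a) (by
      rw [le_principal_iff]
      have h' : ∀ᶠ j in U, a j ∈ Icc (-C) C := by
        filter_upwards [h] with j hj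
        exact abs_le.1 hj
      exact h')
  exact ⟨L, hL⟩

/-- joint convergence gives the derivative of the limit -/
lemma deriv_lim {X F : ℕ → ℝ → ℝ} {x : ℝ → ℝ} {f T T₁ t : ℝ} (ht0 : 0 ≤ t) (htT : t < T₁)
    (hd : ∀ᶠ j in U, ∀ r ∈ Ici (0 : ℝ), HasDerivWithinAt (X j) (F j r) (Ici 0) r)
    (hx : ∀ r, 0 ≤ r → Tendsto (fun j => X j r) U (𝓝 (x r)))
    (hF : Tendsto (fun p : ℕ × ℝ => F p.1 p.2) (U ×ˢ 𝓝[Icc 0 T₁] t) (𝓝 f)) :
    HasDerivWithinAt x f (Ico 0 T) t := by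
  rw [hasDerivWithinAt_iff_isLittleO, Asymptotics.isLittleO_iff]
  intro η hη
  have h1 : ∀ᶠ p : ℕ × ℝ in U ×ˢ 𝓝[Icc 0 T₁] t, |F p.1 p.2 - f| ≤ η := by
    have := hF.eventually (Metric.ball_mem_nhds f hη)
    filter_upwards [this] with p hp
    rw [Real.dist_eq] at hp
    exact hp.le
  obtain ⟨A, hA, B, hB, hAB⟩ := Filter.eventually_prod_iff.1 h1
  obtain ⟨δ, hδ, hδB⟩ := Metric.mem_nhdsWithin_iff.1 hB
  have h2 : Ico 0 T ∩ Metric.ball t (min δ (T₁ - t)) ∈ 𝓝[Ico 0 T] t :=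
    inter_mem_nhdsWithin _ (Metric.ball_mem_nhds t (lt_min hδ (by linarith)))
  filter_upwards [h2] with s hs
  obtain ⟨hs1, hs2⟩ := hs
  rw [Metric.mem_ball, Real.dist_eq, lt_min_iff] at hs2
  have hs0 : 0 ≤ s := hs1.1
  have hsT : s ≤ T₁ := by
    have := (abs_lt.1 hs2.2).2
    linarith
  rw [Real.norm_eq_abs, Real.norm_eq_abs, smul_eq_mul]
  have hlim : Tendsto (fun j => |X j s - X j t - (s - t) * f|) U
      (𝓝 |x s - x t - (s - t) * f|) :=
    (((hx s hs0).sub (hx t ht0)).sub_const _).abs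
  refine le_of_tendsto hlim ?_
  filter_upwards [hd, hA] with j hj hAj
  -- the mean value inequality between `t` and `s`
  have hsub : uIcc t s ⊆ Icc 0 T₁ ∩ Metric.ball t δ := by
    intro r hr
    have h3 : |r - t| ≤ |s - t| := by
      have := abs_sub_left_of_mem_uIcc hr
      exact this
    rcases Set.mem_uIcc.1 hr with h | h
    · exact ⟨⟨by linarith, by linarith⟩, by
        rw [Metric.mem_ball, Real.dist_eq]; exact h3.trans_lt hs2.1⟩
    · exact ⟨⟨by linarith, by linarith⟩, by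
        rw [Metric.mem_ball, Real.dist_eq]; exact h3.trans_lt hs2.1⟩
  have hdd : ∀ r ∈ uIcc t s, HasDerivWithinAt (fun r => X j r - r * f) (F j r - f) (uIcc t s) r := by
    intro r hr
    have h3 : HasDerivWithinAt (X j) (F j r) (uIcc t s) r :=
      (hj r (hsub hr).1.1).mono fun r' hr' => (hsub hr').1.1
    have h4 : HasDerivWithinAt (fun r : ℝ => r * f) f (uIcc t s) r := by
      simpa using (hasDerivWithinAt_id r (uIcc t s)).mul_const f
    exact h3.sub h4
  have h5 := (convex_uIcc t s).norm_image_sub_le_of_norm_hasDerivWithin_le (C := η) hdd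
    (fun r hr => by
      rw [Real.norm_eq_abs]
      have h6 := hδB ⟨(hsub hr).2, (hsub hr).1⟩
      exact hAB hAj h6) left_mem_uIcc right_mem_uIcc
  rw [Real.norm_eq_abs, Real.norm_eq_abs] at h5
  have e : X j s - s * f - (X j t - t * f) = X j s - X j t - (s - t) * f := by ring
  rw [e] at h5
  exact h5

end Pool.Agent.N976.UE.Y4

namespace Pool.Agent.N976.UE

open Pool.Agent.N976.EN Y4

/-- **(Y4)** the limit `N → ∞` -/
theorem t_Y4 : S_Y4 := by
  intro ε Q Λ b V γ hQ hε hC H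
  have hq := qs_two hQ
  have hb := hC.bb
  choose S X h using fun j : ℕ => H (j + 3) (by omega)
  set M : ℝ := 2 * (1 + ε) with hM
  have hM0 : 0 < M := by rw [hM]; linarith
  have hlip := fun j n (s t : ℝ) (hs : 0 ≤ s) (ht : 0 ≤ t) => mode_lip hε hb hq (h j) n hs ht
  have hmode := fun j (t : ℝ) (ht : 0 ≤ t) m => mode_le hε hb hq (h j) ht m
  have hmsq := fun j (t : ℝ) (ht : 0 ≤ t) m => mode_sq hb hq (h j) ht m
  obtain ⟨d, hd⟩ : ∃ d : ℕ → ℝ, ∀ n, d n = 2 * Real.log (qs Q n) / qs Q n ^ 5 :=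
    ⟨_, fun _ => rfl⟩
  have hds : Summable d := (summ_d hQ).congr fun n => (hd n).symm
  have hd0 : ∀ n, 0 ≤ d n := fun n => by
    rw [hd]
    have h1 := hq n
    have := Real.log_nonneg (by linarith : (1 : ℝ) ≤ qs Q n)
    positivity
  -- the times
  have hS1 : ∀ n, ∀ᶠ j in U, 1 / qs Q n ^ 5 ≤ S j (n + 1) - S j n ∧
      S j (n + 1) - S j n ≤ d n := by
    intro n
    filter_upwards [ev_ge n] with j hj
    rw [hd]
    exact (h j).σ1 n (by omega)
  have hSb : ∀ n, ∀ᶠ j in U, 0 ≤ S j n ∧ S j n ≤ ∑ k ∈ Finset.range n, d k := by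
    intro n
    induction n with
    | zero =>
      filter_upwards with j
      rw [(h j).σ0]
      simp
    | succ n ih =>
      filter_upwards [ih, hS1 n] with j h1 h2
      have h3 : 0 ≤ 1 / qs Q n ^ 5 := by have := hq n; positivity
      rw [Finset.sum_range_succ]
      constructor <;> linarith [h1.1, h1.2, h2.1, h2.2]
  have hSl : ∀ n, ∃ L, Tendsto (fun j => S j n) U (𝓝 L) := fun n =>
    ulim (C := ∑ k ∈ Finset.range n, d k) (by
      filter_upwards [hSb n] with j hj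
      rw [abs_of_nonneg hj.1]
      exact hj.2)
  choose σ hσ using hSl
  have hσ0 : σ 0 = 0 := by
    refine tendsto_nhds_unique (hσ 0) ?_
    refine tendsto_const_nhds.congr fun j => ?_
    exact (h j).σ0.symm
  have hσ1 : ∀ n, 1 / qs Q n ^ 5 ≤ σ (n + 1) - σ n := fun n =>
    ge_of_tendsto ((hσ (n + 1)).sub (hσ n)) ((hS1 n).mono fun j hj => hj.1)
  have hσm : StrictMono σ := strictMono_nat_of_lt_succ fun n => by
    have h1 := hσ1 n
    have h2 : 0 < 1 / qs Q n ^ 5 := by have := hq n; positivity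
    linarith
  have hσb : ∀ n, σ n ≤ ∑' k, d k := fun n =>
    (le_of_tendsto (hσ n) ((hSb n).mono fun j hj => hj.2)).trans
      (hds.sum_le_tsum _ fun k _ => hd0 k)
  have hbdd : BddAbove (range σ) := ⟨∑' k, d k, by rintro _ ⟨n, rfl⟩; exact hσb n⟩
  obtain ⟨T, hT⟩ : ∃ T, T = ⨆ n, σ n := ⟨_, rfl⟩
  have hσl : Tendsto σ atTop (𝓝 T) := by
    rw [hT]
    exact tendsto_atTop_ciSup hσm.monotone hbdd
  have hσT : ∀ n, σ n < T := fun n => by
    refine (hσm (Nat.lt_succ_self n)).trans_le ?_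
    rw [hT]
    exact le_ciSup hbdd (n + 1)
  have hσnn : ∀ n, 0 ≤ σ n := fun n => by
    rw [← hσ0]
    exact hσm.monotone (Nat.zero_le n)
  -- the modes
  have hXl : ∀ m (t : ℝ), ∃ L, Tendsto (fun j => X j m (max t 0)) U (𝓝 L) := fun m t =>
    ulim (C := M) (Eventually.of_forall fun j => hmode j _ (le_max_right _ _) m)
  choose x hx' using hXl
  have hx : ∀ m (t : ℝ), 0 ≤ t → Tendsto (fun j => X j m t) U (𝓝 (x m t)) := by
    intro m t ht
    have := hx' m t
    rwa [max_eq_left ht] at this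
  have hxlip : ∀ m (s t : ℝ), 0 ≤ s → 0 ≤ t → |x m s - x m t| ≤ CC ε Λ V γ m * |s - t| := by
    intro m s t hs ht
    exact le_of_tendsto ((hx m s hs).sub (hx m t ht)).abs
      (Eventually.of_forall fun j => hlip j m s t hs ht)
  -- joint convergence
  have hjoint : ∀ m (t T₁ : ℝ), 0 ≤ t →
      Tendsto (fun p : ℕ × ℝ => X p.1 m p.2) (U ×ˢ 𝓝[Icc 0 T₁] t) (𝓝 (x m t)) := by
    intro m t T₁ ht
    have h1 : Tendsto (fun p : ℕ × ℝ => X p.1 m t) (U ×ˢ 𝓝[Icc 0 T₁] t) (𝓝 (x m t)) :=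
      (hx m t ht).comp tendsto_fst
    have h2 : Tendsto (fun p : ℕ × ℝ => CC ε Λ V γ m * |p.2 - t|) (U ×ˢ 𝓝[Icc 0 T₁] t)
        (𝓝 0) := by
      have h3 : Tendsto (fun r : ℝ => CC ε Λ V γ m * |r - t|) (𝓝[Icc 0 T₁] t)
          (𝓝 (CC ε Λ V γ m * |t - t|)) := by
        refine Tendsto.mono_left ?_ nhdsWithin_le_nhds
        have : Continuous fun r : ℝ => CC ε Λ V γ m * |r - t| := by fun_prop
        exact this.tendsto t
      rw [sub_self, abs_zero, mul_zero] at h3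
      exact h3.comp tendsto_snd
    have h4 : Tendsto (fun p : ℕ × ℝ => X p.1 m p.2 - X p.1 m t) (U ×ˢ 𝓝[Icc 0 T₁] t)
        (𝓝 0) := by
      refine squeeze_zero_norm' ?_ h2
      have h5 : ∀ᶠ r in 𝓝[Icc 0 T₁] t, r ∈ Icc 0 T₁ := self_mem_nhdsWithin
      filter_upwards [tendsto_snd.eventually h5] with p hp
      rw [Real.norm_eq_abs]
      exact hlip p.1 m p.2 t hp.1 ht
    have h6 := h4.add h1
    rw [zero_add] at h6
    exact h6.congr fun p => by ring
  -- every time before `T` is before some `σ (n + 1)`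
  have hex : ∀ t < T, ∀ m : ℕ, ∃ n, m ≤ n ∧ t < σ (n + 1) := by
    intro t ht m
    have h1 : ∀ᶠ n in atTop, t < σ n := hσl.eventually (lt_mem_nhds ht)
    obtain ⟨n, hn1, hn2⟩ := (h1.and (eventually_ge_atTop (m + 1))).exists
    exact ⟨n - 1, by omega, by rwa [Nat.sub_add_cancel (by omega)]⟩
  -- domination
  have hdom : ∀ (n : ℕ) (T₁ : ℝ), T₁ < σ (n + 1) → ∀ᶠ j in U, ∀ r ∈ Icc 0 T₁, ∀ m ≥ n + 3,
      |X j m r| ≤ up (qs Q) m := by
    intro n T₁ hT₁
    filter_upwards [(hσ (n + 1)).eventually (lt_mem_nhds hT₁), ev_ge n] with j hj1 hj2 r hr m hm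
    exact (h j).act n (by omega) r ⟨hr.1, hr.2.trans hj1.le⟩ m hm
  -- the summable bound
  have hbs : ∀ n : ℕ, Summable (fun m => (if m < n + 3 then M else 0) + up (qs Q) m) := by
    intro n
    refine Summable.add (summable_of_ne_finset_zero (s := Finset.range (n + 3)) ?_)
      (up_summable hQ)
    intro m hm
    rw [Finset.mem_range] at hm
    rw [if_neg hm]
  have hbnd : ∀ (n : ℕ) (T₁ : ℝ), T₁ < σ (n + 1) → ∀ᶠ j in U, ∀ r ∈ Icc 0 T₁, ∀ m,
      X j m r ^ 2 ≤ (if m < n + 3 then M else 0) + up (qs Q) m := by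
    intro n T₁ hT₁
    filter_upwards [hdom n T₁ hT₁] with j hj r hr m
    by_cases hm : m < n + 3
    · rw [if_pos hm]
      have h1 := hmsq j r hr.1 m
      have h2 := up_pos (qs Q) m
      linarith
    · rw [if_neg hm, zero_add]
      have h1 := hj r hr m (by omega)
      have h2 := up_le_one hQ m
      have h3 := up_pos (qs Q) m
      have h4 : X j m r ^ 2 ≤ up (qs Q) m ^ 2 := by
        rw [← sq_abs (X j m r)]
        exact pow_le_pow_left₀ (abs_nonneg _) h1 2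
      nlinarith
  have hzero : ∀ j m t, j + 3 ≤ m → X j m t = 0 := fun j m t hm => (h j).fs.zero m hm t
  -- the energy
  have hen : ∀ t ∈ Ico 0 T, Tendsto (fun j => ∑ m ∈ Finset.range (j + 3), X j m t ^ 2 / b m) U
      (𝓝 (∑' m, x m t ^ 2 / b m)) := by
    intro t ht
    obtain ⟨n, -, hn⟩ := hex t ht.2 0
    have h1 : Tendsto (fun j => ∑' m, X j m t ^ 2 / b m) U (𝓝 (∑' m, x m t ^ 2 / b m)) := by
      refine tendsto_tsum_of_dominated_convergence ((hbs n).mul_left 2) (fun m => ?_) ?_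
      · exact ((hx m t ht.1).pow 2).div_const _
      · filter_upwards [hbnd n t hn] with j hj m
        have h2 := hj t ⟨ht.1, le_rfl⟩ m
        have h3 := b_lo hb hq m
        rw [Real.norm_eq_abs, abs_of_nonneg (by positivity)]
        rw [div_le_iff₀ (by linarith)]
        have h4 := sq_nonneg (X j m t)
        nlinarith
    refine h1.congr fun j => ?_
    rw [tsum_eq_sum]
    intro m hm
    rw [Finset.mem_range] at hm
    rw [hzero j m t (by omega)]
    norm_num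
  refine ⟨T, σ, x, ?_, hσ0, hσm, hσT, hσl, ?_, ?_, ?_, ?_, ?_, ?_, ?_, ?_⟩
  · rw [← hσ0]; exact hσT 0
  · refine tendsto_nhds_unique (hx 0 0 le_rfl) (tendsto_const_nhds.congr fun j => ?_)
    exact (h j).ini0.symm
  · refine tendsto_nhds_unique (hx 1 0 le_rfl) (tendsto_const_nhds.congr fun j => ?_)
    exact (h j).ini1.symm
  · intro n
    refine tendsto_nhds_unique (hx (n + 2) 0 le_rfl) (tendsto_const_nhds.congr fun j => ?_)
    exact ((h j).ini n).symm
  · -- the differential equation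
    intro n t ht
    obtain ⟨n', -, hn'⟩ := hex t ht.2 0
    obtain ⟨T₁, hT₁, hT₁'⟩ := exists_between hn'
    refine deriv_lim (X := fun j => X j n)
      (F := fun j r => -(V n * X j n r) + b n * yN Λ γ (j + 3) (fun m => X j m r) n)
      ht.1 hT₁ ?_ (fun r hr => hx n r hr) ?_
    · filter_upwards [ev_ge n] with j hj
      exact (h j).fs.ode n (by omega)
    · have hj := fun m => hjoint m t T₁ ht.1
      have htail : Tendsto (fun p : ℕ × ℝ => ∑' m : ℕ, X p.1 (n + 1 + m) p.2 ^ 2)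
          (U ×ˢ 𝓝[Icc 0 T₁] t) (𝓝 (∑' m : ℕ, x (n + 1 + m) t ^ 2)) := by
        refine tendsto_tsum_of_dominated_convergence
          (bound := fun m => (if n + 1 + m < n' + 3 then M else 0) + up (qs Q) (n + 1 + m)) ?_
          (fun m => (hj (n + 1 + m)).pow 2) ?_
        · have h1 := (summable_nat_add_iff (n + 1)).2 (hbs n')
          refine h1.congr fun m => ?_
          rw [add_comm m (n + 1)]
        · have h5 : ∀ᶠ r in 𝓝[Icc 0 T₁] t, r ∈ Icc 0 T₁ := self_mem_nhdsWithin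
          filter_upwards [tendsto_snd.eventually h5,
            tendsto_fst.eventually (hbnd n' T₁ hT₁')] with p hp1 hp2 m
          rw [Real.norm_eq_abs, abs_of_nonneg (sq_nonneg _)]
          exact hp2 p.2 hp1 (n + 1 + m)
      have hy : Tendsto (fun p : ℕ × ℝ => yq Λ γ (fun m => X p.1 m p.2) n)
          (U ×ˢ 𝓝[Icc 0 T₁] t) (𝓝 (yq Λ γ (fun m => x m t) n)) := by
        unfold yq
        refine Tendsto.add (((((hj n).mul (tendsto_finsetSum _ fun i _ =>
          (hj i).const_mul (Λ i))).sub (htail.const_mul (Λ n)))).sub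
            (((hj n).const_mul (γ n)).mul (hj (n + 1)))) ?_
        split_ifs
        · exact tendsto_const_nhds
        · exact ((hj (n - 1)).pow 2).const_mul _
      refine Tendsto.add ((hj n).const_mul (V n)).neg (Tendsto.const_mul (b n) ?_)
      refine hy.congr fun p => ?_
      exact (yN_eq (fun m hm => hzero p.1 m p.2 hm) n).symm
  · -- the modes which are not active
    intro n t ht m hm
    refine le_of_forall_pos_le_add fun e he => ?_
    -- a time before `t`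
    have hCC := CC_nonneg hε Λ V γ m
    obtain ⟨s, hs0, hst, hs1, hs2⟩ : ∃ s, 0 ≤ s ∧ s < σ (n + 1) ∧ |t - s| ≤ e / (CC ε Λ V γ m + 1) ∧
        True := by
      rcases lt_or_eq_of_le ht.2 with hlt | heq
      · exact ⟨t, ht.1, hlt, by rw [sub_self, abs_zero]; positivity, trivial⟩
      · have hpos : 0 < σ (n + 1) := by rw [← hσ0]; exact hσm (Nat.succ_pos n)
        have he' : 0 < e / (CC ε Λ V γ m + 1) := by positivity
        refine ⟨max 0 (t - e / (CC ε Λ V γ m + 1)), le_max_left _ _,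
          max_lt hpos (by linarith), ?_, trivial⟩
        rw [abs_of_nonneg]
        · have := le_max_right 0 (t - e / (CC ε Λ V γ m + 1))
          linarith
        · have : max 0 (t - e / (CC ε Λ V γ m + 1)) ≤ t := max_le ht.1 (by linarith)
          linarith
    have h1 : |x m s| ≤ up (qs Q) m := by
      refine le_of_tendsto (hx m s hs0).abs ?_
      filter_upwards [hdom n s hst] with j hj
      exact hj s ⟨hs0, le_rfl⟩ m hm
    have h2 := hxlip m t s ht.1 hs0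
    have h3 : CC ε Λ V γ m * |t - s| ≤ e := by
      calc CC ε Λ V γ m * |t - s| ≤ (CC ε Λ V γ m + 1) * (e / (CC ε Λ V γ m + 1)) := by
            apply mul_le_mul (by linarith) hs1 (abs_nonneg _) (by positivity)
        _ = e := by field_simp
    have h4 := abs_sub_abs_le_abs_sub (x m t) (x m s)
    linarith
  · intro t ht
    obtain ⟨n, -, hn⟩ := hex t ht.2 0
    refine ge_of_tendsto (hen t ht) ?_
    filter_upwards [(hσ (n + 1)).eventually (lt_mem_nhds hn), ev_ge n] with j hj1 hj2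
    exact (h j).low n (by omega) t ⟨ht.1, hj1.le⟩
  · intro t ht
    exact le_of_tendsto (hen t ht) (Eventually.of_forall fun j => (h j).upp t ht.1)
  · -- the modes which have handed over their energy
    intro m t ht
    refine le_of_forall_pos_le_add fun e he => ?_
    have hCC := CC_nonneg hε Λ V γ m
    have he' : 0 < e / (CC ε Λ V γ m + 1) := by positivity
    have ht0 : 0 ≤ t := (hσnn _).trans ht.1
    obtain ⟨s, hs1, hs2⟩ := exists_between (lt_min ht.2 (by linarith : t < t + e / (CC ε Λ V γ m + 1)))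
    rw [lt_min_iff] at hs2
    have hs0 : 0 ≤ s := ht0.trans hs1.le
    obtain ⟨n, hmn, hn⟩ := hex s hs2.1 m
    have h1 : |x m s| ≤ ε / 2 ^ m := by
      refine le_of_tendsto (hx m s hs0).abs ?_
      filter_upwards [(hσ (n + 1)).eventually (lt_mem_nhds hn),
        (hσ (m + 1)).eventually (gt_mem_nhds (ht.1.trans_lt hs1)), ev_ge n] with j hj1 hj2 hj3
      exact (h j).left m n hmn (by omega) s ⟨hj2.le, hj1.le⟩
    have h2 := hxlip m t s ht0 hs0
    have h3 : CC ε Λ V γ m * |t - s| ≤ e := by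
      have h4 : |t - s| ≤ e / (CC ε Λ V γ m + 1) := by
        rw [abs_sub_comm, abs_of_nonneg (by linarith)]
        linarith
      calc CC ε Λ V γ m * |t - s| ≤ (CC ε Λ V γ m + 1) * (e / (CC ε Λ V γ m + 1)) := by
            apply mul_le_mul (by linarith) h4 (abs_nonneg _) (by positivity)
        _ = e := by field_simp
    have h4 := abs_sub_abs_le_abs_sub (x m t) (x m s)
    linarith

end Pool.Agent.N976.UE
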