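import Pool.Agent.N976.UE.Def
import Pool.Agent.N976.SC.T4d
import Pool.Agent.N976.SC.T1

/-! (X) The table of the interactions of packets with pumps at arbitrary well separated scales. -/

open Set Filter Topology MeasureTheory
open scoped ContDiff

set_option autoImplicit false

namespace Pool.Agent.N976.UE

open Pool.Agent.N976.SC Pool.Agent.N976.EN

namespace X

open Pool.Agent.N976.SC.T4

/-! ### General facts -/

lemma ip4 {u v u' v' : E3 → E3} (hu : Sm u) (hv : Sm v) (hu' : Sm u') (hv' : Sm v')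
    (a b c d : ℝ) :
    ip (fun y => a • u y + b • v y) (fun y => c • u' y + d • v' y) =
      a * c * ip u u' + a * d * ip u v' + b * c * ip v u' + b * d * ip v v' := by
  have hw : Continuous (fun y => c • u' y + d • v' y) := ((hu'.smul c).add (hv'.smul d)).sm.continuous
  rw [ip_add_left (hu.smul a) (hv.smul b) hw, ip_smul_left, ip_smul_left,
    ip_add hu.sm.continuous (hu'.smul c) (hv'.smul d),
    ip_add hv.sm.continuous (hu'.smul c) (hv'.smul d), ip_smul, ip_smul, ip_smul, ip_smul]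
  ring

lemma ip_zero_of {u v : E3 → E3} (h : ∀ y, u y = 0 ∨ v y = 0) : ip u v = 0 := by
  unfold ip
  rw [← integral_zero E3 ℝ]
  congr 1
  ext y
  rcases h y with h0 | h0
  · rw [h0, inner_zero_left]
  · rw [h0, inner_zero_right]

lemma ip_odd_even {v w : E3 → E3} (hv : ∀ y, v (-y) = -v y) (hw : ∀ y, w (-y) = w y) :
    ip v w = 0 := by
  rw [ip_comm]
  exact ip_even_odd hw hv

lemma LL_odd {v : E3 → E3} (hv : Differentiable ℝ v) (he : ∀ y, v (-y) = -v y) (y : E3) :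
    LL v (-y) = -LL v y := by
  unfold LL
  rw [fderiv_odd hv he, he, Am_neg, Am_neg, map_neg, ← neg_add]

lemma lap_odd {v : E3 → E3} (hv : ContDiff ℝ ∞ v) (he : ∀ y, v (-y) = -v y) (y : E3) :
    lap v (-y) = -lap v y := by
  unfold lap
  rw [← Finset.sum_neg_distrib]
  refine Finset.sum_congr rfl fun i _ => ?_
  have h1 : Differentiable ℝ (fun z => fderiv ℝ v z (bv i)) :=
    ((cd_fderiv hv).clm_apply contDiff_const).differentiable (by simp)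
  rw [fderiv_even h1]
  · rfl
  · intro z
    rw [fderiv_odd (hv.differentiable (by simp)) he]

/-- `a² ≤ ρ' b²` -/
structure LT (ρ' a b : ℝ) : Prop where
  a0 : 0 < a
  b0 : 0 < b
  le : a ^ 2 ≤ ρ' * b ^ 2

lemma LT.reg {ρ' a b : ℝ} (h : LT ρ' a b) (hρ : 0 < ρ') {y : E3} (hy : b ^ 2 * ‖y‖ < 1) :
    a ^ 2 * ‖y‖ < ρ' := by
  have h1 := mul_le_mul_of_nonneg_right h.le (norm_nonneg y)
  have h2 := mul_lt_mul_of_pos_left hy hρ
  nlinarith

section scale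

variable {φ ψ : E3 → E3} {ρ ρ' a b : ℝ}

lemma SF (h : Pk φ ψ ρ ρ') (ha : 0 < a) : Sm (pk a φ 1) := (Sφ h).pk ha 1

lemma SG (h : Pk φ ψ ρ ρ') (ha : 0 < a) : Sm (pk a ψ 1) := (Sψ h).pk ha 1

lemma nsm (ha : 0 < a) (y : E3) : ‖a ^ (2 * 1) • y‖ = a ^ 2 * ‖y‖ := by
  rw [norm_smul, Real.norm_of_nonneg (by positivity), mul_one]

lemma Flin (h : Pk φ ψ ρ ρ') (ha : 0 < a) {y : E3} (hy : a ^ 2 * ‖y‖ < ρ) :
    pk a φ 1 y = a ^ 5 • Am y ∧ fderiv ℝ (pk a φ 1) y = a ^ 5 • AL := by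
  have h1 : ‖a ^ (2 * 1) • y‖ < ρ := by rwa [nsm ha]
  have h2 := φ_lin h h1
  constructor
  · unfold pk
    rw [h2.1, Am_smul, smul_smul, ← pow_add]
  · rw [fderiv_pk (Sφ h).diff, h2.2]

lemma Fout (h : Pk φ ψ ρ ρ') (ha : 0 < a) {y : E3} (hy : 1 / 2 ≤ a ^ 2 * ‖y‖) :
    pk a φ 1 y = 0 := by
  unfold pk
  rw [h.outφ _ (by rwa [nsm ha]), smul_zero]

lemma DFout (h : Pk φ ψ ρ ρ') (ha : 0 < a) {y : E3} (hy : 1 / 2 < a ^ 2 * ‖y‖) :
    fderiv ℝ (pk a φ 1) y = 0 ∧ lap (pk a φ 1) y = 0 :=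
  ⟨fderiv_zero_of (open_gt (a ^ 2) (1 / 2)) (fun _ hz => Fout h ha (le_of_lt hz)) hy,
    lap_zero_of (open_gt (a ^ 2) (1 / 2)) (fun _ hz => Fout h ha (le_of_lt hz)) hy⟩

lemma Gin0 (h : Pk φ ψ ρ ρ') (ha : 0 < a) {y : E3} (hy : a ^ 2 * ‖y‖ < ρ') : pk a ψ 1 y = 0 := by
  unfold pk
  rw [h.inψ _ (by rwa [nsm ha]), smul_zero]

lemma Gin (h : Pk φ ψ ρ ρ') (ha : 0 < a) {y : E3} (hy : a ^ 2 * ‖y‖ < ρ') :
    pk a ψ 1 y = 0 ∧ fderiv ℝ (pk a ψ 1) y = 0 ∧ lap (pk a ψ 1) y = 0 :=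
  ⟨Gin0 h ha hy, fderiv_zero_of (open_lt (a ^ 2) ρ') (fun _ hz => Gin0 h ha hz) hy,
    lap_zero_of (open_lt (a ^ 2) ρ') (fun _ hz => Gin0 h ha hz) hy⟩

lemma Gout0 (h : Pk φ ψ ρ ρ') (ha : 0 < a) {y : E3} (hy : ρ / 2 ≤ a ^ 2 * ‖y‖) :
    pk a ψ 1 y = 0 := by
  unfold pk
  rw [h.outψ _ (by rwa [nsm ha]), smul_zero]

lemma Gout (h : Pk φ ψ ρ ρ') (ha : 0 < a) {y : E3} (hy : ρ / 2 < a ^ 2 * ‖y‖) :
    pk a ψ 1 y = 0 ∧ fderiv ℝ (pk a ψ 1) y = 0 ∧ lap (pk a ψ 1) y = 0 :=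
  ⟨Gout0 h ha hy.le, fderiv_zero_of (open_gt (a ^ 2) (ρ / 2)) (fun _ hz => Gout0 h ha (le_of_lt hz)) hy,
    lap_zero_of (open_gt (a ^ 2) (ρ / 2)) (fun _ hz => Gout0 h ha (le_of_lt hz)) hy⟩

lemma LLz {v : E3 → E3} {y : E3} (h0 : v y = 0) (h1 : fderiv ℝ v y = 0) : LL v y = 0 := by
  unfold LL
  rw [h0, h1, Am_zero]
  simp

lemma Fodd (h : Pk φ ψ ρ ρ') (y : E3) : pk a φ 1 (-y) = -pk a φ 1 y := pk_odd h 1 y

lemma Geven (h : Pk φ ψ ρ ρ') (y : E3) : pk a ψ 1 (-y) = pk a ψ 1 y := pk_even h 1 y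

/-- two different scales of `ψ` have disjoint supports -/
lemma GG (h : Pk φ ψ ρ ρ') (hs : LT ρ' a b) (y : E3) :
    (pk a ψ 1 y = 0 ∧ fderiv ℝ (pk a ψ 1) y = 0 ∧ lap (pk a ψ 1) y = 0) ∨
    (pk b ψ 1 y = 0 ∧ fderiv ℝ (pk b ψ 1) y = 0 ∧ lap (pk b ψ 1) y = 0) := by
  rcases lt_or_ge (b ^ 2 * ‖y‖) 1 with hy | hy
  · exact Or.inl (Gin h hs.a0 (hs.reg h.ρ0 hy))
  · refine Or.inr (Gout h hs.b0 ?_)
    have := h.ρ2
    have := h.ρ0
    have := h.ρ1
    linarith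

/-! ### Integrals of `φ` -/

lemma sep_of (h : Pk φ ψ ρ ρ') (hs : LT ρ' a b) : 1 < b / a ∧ 1 ≤ ρ' * (b / a) ^ 2 := by
  have hρ := h.ρ0
  have h1 := h.ρ1
  have h2 := h.ρ2
  have h3 : 1 ≤ ρ' * (b / a) ^ 2 := by
    rw [div_pow, ← mul_div_assoc, le_div_iff₀ (by have := hs.a0; positivity), one_mul]
    exact hs.le
  refine ⟨?_, h3⟩
  have h4 : 0 < b / a := div_pos hs.b0 hs.a0
  by_contra hcon
  push Not at hcon
  have h5 : (b / a) ^ 2 ≤ 1 := by nlinarith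
  nlinarith

lemma PP0 (s : ℝ) (φ ψ : E3 → E3) : PP s 0 φ ψ = φ := by
  ext1 y
  simp [PP]

lemma pk_mul (a b : ℝ) (v : E3 → E3) : pk (a * b) v 1 = pk a (pk b v 1) 1 := by
  ext1 y
  simp only [pk]
  rw [smul_smul, smul_smul, mul_pow, mul_pow, mul_comm (b ^ (2 * 1)) (a ^ (2 * 1))]

lemma pk_div {a b : ℝ} (ha : 0 < a) (v : E3 → E3) : pk b v 1 = pk a (pk (b / a) v 1) 1 := by
  rw [← pk_mul, mul_div_cancel₀ _ ha.ne']

lemma FF (h : Pk φ ψ ρ ρ') (hs : LT ρ' a b) : ip (pk a φ 1) (pk b φ 1) = 0 := by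
  obtain ⟨s1, s2⟩ := sep_of h hs
  rw [pk_div hs.a0 φ (b := b), ip_pk hs.a0]
  have := t5 h s1 s2 0 1 le_rfl
  rwa [PP0] at this

lemma LFF (h : Pk φ ψ ρ ρ') (hs : LT ρ' a b) : ip (LL (pk a φ 1)) (pk b φ 1) = 0 := by
  obtain ⟨s1, s2⟩ := sep_of h hs
  rw [pk_div hs.a0 φ (b := b), ip_LL_pk hs.a0 _ (Sφ h).diff]
  have := t2a h s1 s2 0 1 le_rfl
  rwa [PP0] at this

lemma LFF' (h : Pk φ ψ ρ ρ') (hs : LT ρ' a b) : ip (LL (pk b φ 1)) (pk a φ 1) = 0 := by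
  obtain ⟨s1, s2⟩ := sep_of h hs
  rw [pk_div hs.a0 φ (b := b), ip_LL_pk hs.a0 _ (Sφ1 h s1 1).diff]
  have := t2b h s1 s2 0 1 le_rfl
  rwa [PP0] at this

lemma LF (h : Pk φ ψ ρ ρ') (ha : 0 < a) :
    ip (LL (pk a φ 1)) (pk a φ 1) = ip (fun y => Am (φ y)) φ := by
  rw [ip_LL_pk ha _ (Sφ h).diff, LL_self (Sφ h)]

lemma LG (h : Pk φ ψ ρ ρ') (ha : 0 < a) :
    ip (LL (pk a ψ 1)) (pk a ψ 1) = ip (fun y => Am (ψ y)) ψ := by
  rw [ip_LL_pk ha _ (Sψ h).diff, LL_self (Sψ h)]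

lemma lFF (h : Pk φ ψ ρ ρ') (hs : LT ρ' a b) : ip (lap (pk a φ 1)) (pk b φ 1) = 0 := by
  obtain ⟨s1, s2⟩ := sep_of h hs
  rw [pk_div hs.a0 φ (b := b), ip_lap_pk hs.a0 _ (Sφ h).sm]
  have := t4 h s1 s2 0 1 le_rfl
  rw [PP0] at this
  rw [this, mul_zero]

lemma lFF' (h : Pk φ ψ ρ ρ') (hs : LT ρ' a b) : ip (lap (pk b φ 1)) (pk a φ 1) = 0 := by
  rw [ip_lap (SF h hs.b0) (SF h hs.a0), ip_comm, lFF h hs]

lemma lF (h : Pk φ ψ ρ ρ') (ha : 0 < a) : ip (lap (pk a φ 1)) (pk a φ 1) = -(a ^ 4 * dir φ) := by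
  rw [ip_lap_pk ha _ (Sφ h).sm, ip_lap_self (Sφ h), mul_one]
  ring

lemma lG (h : Pk φ ψ ρ ρ') (ha : 0 < a) : ip (lap (pk a ψ 1)) (pk a ψ 1) = -(a ^ 4 * dir ψ) := by
  rw [ip_lap_pk ha _ (Sψ h).sm, ip_lap_self (Sψ h), mul_one]
  ring

/-- `∫ (G · ∇) G · F` at the same scale -/
lemma aGGF (h : Pk φ ψ ρ ρ') (ha : 0 < a) :
    ip (adv (pk a ψ 1) (pk a ψ 1)) (pk a φ 1) = -(a ^ 5 * ip (fun y => Am (ψ y)) ψ) := by
  rw [ip_adv_pk ha _ (Sψ h).diff]
  have h4 : ip (adv ψ ψ) φ = -ip (fun y => Am (ψ y)) ψ := by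
    rw [ip_adv_anti ((Sψ h).sm.of_le (by simp)) ((Sψ h).sm.of_le (by simp))
      ((Sφ h).sm.of_le (by simp)) h.divψ (Or.inl (Sψ h).cs)]
    congr 1
    unfold ip
    congr 1
    ext y
    by_cases hy : ‖y‖ < ρ
    · unfold adv
      rw [(φ_lin h hy).2, AL_apply]
    · have : ψ y = 0 := by
        refine h.outψ y ?_
        have := h.ρ0
        have := h.ρ1
        push Not at hy
        linarith
      rw [this, inner_zero_right, inner_zero_right]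
  rw [h4]
  ring

end scale

/-! ### Packets -/

/-- the packet with a pump -/
noncomputable def W (φ ψ : E3 → E3) (α η a b : ℝ) (y : E3) : E3 :=
  α • pk a φ 1 y + η • pk b ψ 1 y

section packet

variable {φ ψ : E3 → E3} {ρ ρ' α η a b : ℝ}

lemma SW (h : Pk φ ψ ρ ρ') (ha : 0 < a) (hb : 0 < b) (α η : ℝ) : Sm (W φ ψ α η a b) :=
  ((SF h ha).smul α).add ((SG h hb).smul η)

lemma DW (h : Pk φ ψ ρ ρ') (ha : 0 < a) (hb : 0 < b) (α η : ℝ) (y : E3) :
    fderiv ℝ (W φ ψ α η a b) y = α • fderiv ℝ (pk a φ 1) y + η • fderiv ℝ (pk b ψ 1) y :=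
  ((((SF h ha).diff y).hasFDerivAt.fun_const_smul α).fun_add
    (((SG h hb).diff y).hasFDerivAt.fun_const_smul η)).fderiv

lemma LW (h : Pk φ ψ ρ ρ') (ha : 0 < a) (hb : 0 < b) (α η : ℝ) :
    LL (W φ ψ α η a b) = fun y => α • LL (pk a φ 1) y + η • LL (pk b ψ 1) y := by
  ext1 y
  unfold LL
  rw [DW h ha hb]
  unfold W
  rw [Am_add, Am_smul, Am_smul, add_apply, smul_apply, smul_apply, smul_add, smul_add]
  abel

lemma lapW (h : Pk φ ψ ρ ρ') (ha : 0 < a) (hb : 0 < b) (α η : ℝ) :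
    lap (W φ ψ α η a b) = fun y => α • lap (pk a φ 1) y + η • lap (pk b ψ 1) y := by
  ext1 y
  unfold lap
  rw [Finset.smul_sum, Finset.smul_sum, ← Finset.sum_add_distrib]
  refine Finset.sum_congr rfl fun i _ => ?_
  have h1 : (fun z => fderiv ℝ (W φ ψ α η a b) z (bv i)) =
      fun z => α • fderiv ℝ (pk a φ 1) z (bv i) + η • fderiv ℝ (pk b ψ 1) z (bv i) := by
    ext1 z
    rw [DW h ha hb]
    rfl
  rw [h1]
  have h2 := ((((SF h ha).dd (bv i)).diff y).hasFDerivAt.fun_const_smul α).fun_add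
    ((((SG h hb).dd (bv i)).diff y).hasFDerivAt.fun_const_smul η)
  rw [h2.fderiv]
  rfl

lemma divW (h : Pk φ ψ ρ ρ') (ha : 0 < a) (hb : 0 < b) (α η : ℝ) (y : E3) :
    divg (W φ ψ α η a b) y = 0 := by
  have h1 := divg_pk (s := a) (Sφ h).diff h.divφ 1 y
  have h2 := divg_pk (s := b) (Sψ h).diff h.divψ 1 y
  unfold divg at *
  simp only [DW h ha hb, add_apply, smul_apply, PiLp.add_apply, PiLp.smul_apply,
    smul_eq_mul, Finset.sum_add_distrib, ← Finset.mul_sum, h1, h2, mul_zero, add_zero]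

lemma W_out (h : Pk φ ψ ρ ρ') (hs : LT ρ' a b) (α η : ℝ) {y : E3} (hy : 1 / 2 ≤ a ^ 2 * ‖y‖) :
    W φ ψ α η a b y = 0 := by
  have hρ := h.ρ0
  have h1 := h.ρ1
  have h2 := h.ρ2
  have h3 : a ^ 2 * ‖y‖ ≤ b ^ 2 * ‖y‖ := by
    refine mul_le_mul_of_nonneg_right ?_ (norm_nonneg y)
    have := hs.le
    nlinarith [sq_nonneg b]
  unfold W
  rw [Fout h hs.a0 hy, Gout0 h hs.b0 (by linarith), smul_zero, smul_zero, add_zero]

lemma DW_out (h : Pk φ ψ ρ ρ') (hs : LT ρ' a b) (α η : ℝ) {y : E3} (hy : 1 / 2 < a ^ 2 * ‖y‖) :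
    fderiv ℝ (W φ ψ α η a b) y = 0 ∧ lap (W φ ψ α η a b) y = 0 :=
  ⟨fderiv_zero_of (open_gt (a ^ 2) (1 / 2)) (fun _ hz => W_out h hs α η (le_of_lt hz)) hy,
    lap_zero_of (open_gt (a ^ 2) (1 / 2)) (fun _ hz => W_out h hs α η (le_of_lt hz)) hy⟩

/-- the packet in the region where `φ` is linear -/
lemma W_lin (h : Pk φ ψ ρ ρ') (ha : 0 < a) (hb : 0 < b) (α η : ℝ) {y : E3} (hy : a ^ 2 * ‖y‖ < ρ) :
    W φ ψ α η a b y = (α * a ^ 5) • Am y + η • pk b ψ 1 y ∧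
      fderiv ℝ (W φ ψ α η a b) y = (α * a ^ 5) • AL + η • fderiv ℝ (pk b ψ 1) y := by
  obtain ⟨h1, h2⟩ := Flin h ha hy
  rw [DW h ha hb]
  unfold W
  rw [h1, h2, smul_smul, smul_smul]
  exact ⟨rfl, rfl⟩

/-- `∫ Am P · P` -/
lemma ip_Am_W (h : Pk φ ψ ρ ρ') (ha : 0 < a) (hb : 0 < b) (α η : ℝ) :
    ip (fun y => Am (W φ ψ α η a b y)) (W φ ψ α η a b) =
      α ^ 2 * ip (fun y => Am (φ y)) φ + η ^ 2 * ip (fun y => Am (ψ y)) ψ := by
  have hF := SF h ha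
  have hG := SG h hb
  have e1 : (fun y => Am (W φ ψ α η a b y)) =
      fun y => α • Am (pk a φ 1 y) + η • Am (pk b ψ 1 y) := by
    ext1 y
    unfold W
    rw [Am_add, Am_smul, Am_smul]
  have e2 : W φ ψ α η a b = fun y => α • pk a φ 1 y + η • pk b ψ 1 y := rfl
  rw [e1, e2, ip4 hF.Am hG.Am hF hG]
  have h4 : ip (fun y => Am (pk a φ 1 y)) (pk b ψ 1) = 0 :=
    ip_odd_even (fun y => by rw [Fodd h, Am_neg]) (Geven h)
  have h5 : ip (fun y => Am (pk b ψ 1 y)) (pk a φ 1) = 0 :=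
    ip_even_odd (fun y => by rw [Geven h]) (Fodd h)
  have h6 : ∀ (c : ℝ) (v : E3 → E3), 0 < c →
      ip (fun y => Am (pk c v 1 y)) (pk c v 1) = ip (fun y => Am (v y)) v := by
    intro c v hc
    have h2 : (fun y => Am (pk c v 1 y)) = pk c (fun y => Am (v y)) 1 := by
      ext1 y
      simp only [pk, Am_smul]
    rw [h2, ip_pk hc]
  rw [h4, h5, h6 a φ ha, h6 b ψ hb]
  ring

end packet

/-! ### The sequence of packets -/

section seq

variable {φ ψ : E3 → E3} {ρ ρ' : ℝ} {q α η : ℕ → ℝ}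

/-- the packets -/
noncomputable def Pn (φ ψ : E3 → E3) (q α η : ℕ → ℝ) (n : ℕ) : E3 → E3 :=
  W φ ψ (α n) (η n) (q n) (q (n + 1))

lemma SPn (h : Pk φ ψ ρ ρ') (hq : ∀ n, 0 < q n) (n : ℕ) : Sm (Pn φ ψ q α η n) :=
  SW h (hq n) (hq (n + 1)) _ _

lemma GGn (h : Pk φ ψ ρ ρ') (hs : ∀ m n, m < n → LT ρ' (q m) (q n)) {m n : ℕ} (hmn : m ≠ n)
    (y : E3) :
    (pk (q m) ψ 1 y = 0 ∧ fderiv ℝ (pk (q m) ψ 1) y = 0 ∧ lap (pk (q m) ψ 1) y = 0) ∨
    (pk (q n) ψ 1 y = 0 ∧ fderiv ℝ (pk (q n) ψ 1) y = 0 ∧ lap (pk (q n) ψ 1) y = 0) := by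
  rcases Nat.lt_or_gt_of_ne hmn with hlt | hlt
  · exact GG h (hs m n hlt) y
  · exact (GG h (hs n m hlt) y).symm

lemma I1 (h : Pk φ ψ ρ ρ') (hq : ∀ n, 0 < q n) (hs : ∀ m n, m < n → LT ρ' (q m) (q n)) (m n : ℕ) :
    ip (Pn φ ψ q α η m) (Pn φ ψ q α η n) =
      if m = n then α n ^ 2 * ip φ φ + η n ^ 2 * ip ψ ψ else 0 := by
  have e : ∀ k, Pn φ ψ q α η k =
      fun y => α k • pk (q k) φ 1 y + η k • pk (q (k + 1)) ψ 1 y := fun _ => rfl
  rw [e, e, ip4 (SF h (hq m)) (SG h (hq (m + 1))) (SF h (hq n)) (SG h (hq (n + 1))),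
    ip_odd_even (Fodd h) (Geven h), ip_even_odd (Geven h) (Fodd h)]
  split_ifs with hmn
  · subst hmn
    rw [ip_pk (hq m), ip_pk (hq (m + 1))]
    ring
  · have h1 : ip (pk (q m) φ 1) (pk (q n) φ 1) = 0 := by
      rcases Nat.lt_or_gt_of_ne hmn with hlt | hlt
      · exact FF h (hs m n hlt)
      · rw [ip_comm]; exact FF h (hs n m hlt)
    have h2 : ip (pk (q (m + 1)) ψ 1) (pk (q (n + 1)) ψ 1) = 0 :=
      ip_zero_of fun y => (GGn h hs (show m + 1 ≠ n + 1 by omega) y).imp (fun h => h.1) (fun h => h.1)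
    rw [h1, h2]
    ring

lemma I2 (h : Pk φ ψ ρ ρ') (hq : ∀ n, 0 < q n) (hs : ∀ m n, m < n → LT ρ' (q m) (q n)) (n j : ℕ) :
    ip (LL (Pn φ ψ q α η n)) (Pn φ ψ q α η j) =
      if n = j then α n ^ 2 * ip (fun y => Am (φ y)) φ + η n ^ 2 * ip (fun y => Am (ψ y)) ψ
      else 0 := by
  have e : Pn φ ψ q α η j =
      fun y => α j • pk (q j) φ 1 y + η j • pk (q (j + 1)) ψ 1 y := rfl
  have e2 : LL (Pn φ ψ q α η n) =
      fun y => α n • LL (pk (q n) φ 1) y + η n • LL (pk (q (n + 1)) ψ 1) y :=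
    LW h (hq n) (hq (n + 1)) _ _
  rw [e2, e, ip4 (SF h (hq n)).LL (SG h (hq (n + 1))).LL (SF h (hq j)) (SG h (hq (j + 1))),
    ip_odd_even (LL_odd (SF h (hq n)).diff (Fodd h)) (Geven h),
    ip_even_odd (LL_even (SG h (hq (n + 1))).diff (Geven h)) (Fodd h)]
  split_ifs with hmn
  · subst hmn
    rw [LF h (hq n), LG h (hq (n + 1))]
    ring
  · have h1 : ip (LL (pk (q n) φ 1)) (pk (q j) φ 1) = 0 := by
      rcases Nat.lt_or_gt_of_ne hmn with hlt | hlt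
      · exact LFF h (hs n j hlt)
      · exact LFF' h (hs j n hlt)
    have h2 : ip (LL (pk (q (n + 1)) ψ 1)) (pk (q (j + 1)) ψ 1) = 0 :=
      ip_zero_of fun y => (GGn h hs (show n + 1 ≠ j + 1 by omega) y).imp
        (fun h => LLz h.1 h.2.1) (fun h => h.1)
    rw [h1, h2]
    ring

lemma I3 (h : Pk φ ψ ρ ρ') (hq : ∀ n, 0 < q n) (hs : ∀ m n, m < n → LT ρ' (q m) (q n)) (n j : ℕ) :
    ip (LL (pk (q (n + 1)) ψ 1)) (Pn φ ψ q α η j) =
      if n = j then η n * ip (fun y => Am (ψ y)) ψ else 0 := by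
  have e : Pn φ ψ q α η j =
      fun y => α j • pk (q j) φ 1 y + η j • pk (q (j + 1)) ψ 1 y := rfl
  rw [e, ip_add (SG h (hq (n + 1))).LL.sm.continuous ((SF h (hq j)).smul _)
    ((SG h (hq (j + 1))).smul _), ip_smul, ip_smul,
    ip_even_odd (LL_even (SG h (hq (n + 1))).diff (Geven h)) (Fodd h)]
  split_ifs with hmn
  · subst hmn
    rw [LG h (hq (n + 1))]
    ring
  · have h2 : ip (LL (pk (q (n + 1)) ψ 1)) (pk (q (j + 1)) ψ 1) = 0 :=
      ip_zero_of fun y => (GGn h hs (show n + 1 ≠ j + 1 by omega) y).imp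
        (fun h => LLz h.1 h.2.1) (fun h => h.1)
    rw [h2]
    ring

lemma I4 (h : Pk φ ψ ρ ρ') (hq : ∀ n, 0 < q n) (hs : ∀ m n, m < n → LT ρ' (q m) (q n)) (n j : ℕ) :
    ip (lap (Pn φ ψ q α η n)) (Pn φ ψ q α η j) =
      if n = j then -(α n ^ 2 * q n ^ 4 * dir φ + η n ^ 2 * q (n + 1) ^ 4 * dir ψ) else 0 := by
  have e : Pn φ ψ q α η j =
      fun y => α j • pk (q j) φ 1 y + η j • pk (q (j + 1)) ψ 1 y := rfl
  have e2 : lap (Pn φ ψ q α η n) =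
      fun y => α n • lap (pk (q n) φ 1) y + η n • lap (pk (q (n + 1)) ψ 1) y :=
    lapW h (hq n) (hq (n + 1)) _ _
  rw [e2, e, ip4 (SF h (hq n)).lap (SG h (hq (n + 1))).lap (SF h (hq j)) (SG h (hq (j + 1))),
    ip_odd_even (lap_odd (SF h (hq n)).sm (Fodd h)) (Geven h),
    ip_even_odd (lap_even (SG h (hq (n + 1))).sm (Geven h)) (Fodd h)]
  split_ifs with hmn
  · subst hmn
    rw [lF h (hq n), lG h (hq (n + 1))]
    ring
  · have h1 : ip (lap (pk (q n) φ 1)) (pk (q j) φ 1) = 0 := by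
      rcases Nat.lt_or_gt_of_ne hmn with hlt | hlt
      · exact lFF h (hs n j hlt)
      · exact lFF' h (hs j n hlt)
    have h2 : ip (lap (pk (q (n + 1)) ψ 1)) (pk (q (j + 1)) ψ 1) = 0 :=
      ip_zero_of fun y => (GGn h hs (show n + 1 ≠ j + 1 by omega) y).imp
        (fun h => h.2.2) (fun h => h.1)
    rw [h1, h2]
    ring

/-- the region outside of the scale `q n` lies outside of the packet -/
lemma Pn_out (h : Pk φ ψ ρ ρ') (hs : ∀ m n, m < n → LT ρ' (q m) (q n)) {n : ℕ} {y : E3}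
    (hy : 1 / 2 ≤ q n ^ 2 * ‖y‖) : Pn φ ψ q α η n y = 0 :=
  W_out h (hs n (n + 1) (Nat.lt_succ_self n)) _ _ hy

lemma DPn_out (h : Pk φ ψ ρ ρ') (hs : ∀ m n, m < n → LT ρ' (q m) (q n)) {n : ℕ} {y : E3}
    (hy : 1 / 2 < q n ^ 2 * ‖y‖) :
    fderiv ℝ (Pn φ ψ q α η n) y = 0 ∧ lap (Pn φ ψ q α η n) y = 0 :=
  DW_out h (hs n (n + 1) (Nat.lt_succ_self n)) _ _ hy

/-- `P m` in the region of a smaller scale -/
lemma Pn_lin (h : Pk φ ψ ρ ρ') (hq : ∀ n, 0 < q n) (hs : ∀ m n, m < n → LT ρ' (q m) (q n))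
    {m n : ℕ} (hmn : m < n) {y : E3} (hy : q n ^ 2 * ‖y‖ < 1) :
    Pn φ ψ q α η m y = (α m * q m ^ 5) • Am y + η m • pk (q (m + 1)) ψ 1 y ∧
      fderiv ℝ (Pn φ ψ q α η m) y =
        (α m * q m ^ 5) • AL + η m • fderiv ℝ (pk (q (m + 1)) ψ 1) y := by
  have h1 := (hs m n hmn).reg h.ρ0 hy
  have h2 := h.ρ1
  have h3 := h.ρ0
  exact W_lin h (hq m) (hq (m + 1)) _ _ (by linarith)

/-- small scale tested against a large one -/
lemma I5a (h : Pk φ ψ ρ ρ') (hq : ∀ n, 0 < q n) (hs : ∀ m n, m < n → LT ρ' (q m) (q n))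
    {n j : ℕ} (hj : j < n) :
    ip (adv (Pn φ ψ q α η n) (Pn φ ψ q α η n)) (Pn φ ψ q α η j) =
      -(α j * q j ^ 5 * ip (fun y => Am (Pn φ ψ q α η n y)) (Pn φ ψ q α η n)) := by
  have hP : ∀ k, Sm (Pn φ ψ q α η k) := fun k => SPn h hq k
  have hd : ∀ y, divg (Pn φ ψ q α η n) y = 0 := divW h (hq n) (hq (n + 1)) _ _
  rw [ip_adv_anti ((hP n).sm.of_le (by simp)) ((hP n).sm.of_le (by simp))
    ((hP j).sm.of_le (by simp)) hd (Or.inl (hP n).cs)]
  congr 1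
  have hG := SG h (hq (j + 1))
  have hF := SF h (hq n)
  have hpt : ∀ y, inner ℝ (adv (Pn φ ψ q α η n) (Pn φ ψ q α η j) y) (Pn φ ψ q α η n y) =
      (α j * q j ^ 5) * inner ℝ (Am (Pn φ ψ q α η n y)) (Pn φ ψ q α η n y) +
        (η j * α n ^ 2) * inner ℝ (fderiv ℝ (pk (q (j + 1)) ψ 1) y (pk (q n) φ 1 y))
          (pk (q n) φ 1 y) := by
    intro y
    rcases lt_or_ge (q n ^ 2 * ‖y‖) 1 with hy | hy
    · obtain ⟨-, r2⟩ := Pn_lin (α := α) (η := η) h hq hs hj hy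
      unfold adv
      rw [r2, add_apply, smul_apply, smul_apply, AL_apply, inner_add_left, real_inner_smul_left,
        real_inner_smul_left]
      congr 1
      rw [mul_assoc]
      congr 1
      rcases lt_or_ge (q (n + 1) ^ 2 * ‖y‖) 1 with hy2 | hy2
      · have h1 := (Gin h (hq (j + 1)) ((hs (j + 1) (n + 1) (by omega)).reg h.ρ0 hy2)).2.1
        rw [h1]
        simp
      · have h1 : pk (q (n + 1)) ψ 1 y = 0 := by
          refine Gout0 h (hq (n + 1)) ?_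
          have := h.ρ2
          linarith
        have h2 : Pn φ ψ q α η n y = α n • pk (q n) φ 1 y := by
          unfold Pn W
          rw [h1, smul_zero, add_zero]
        rw [h2, map_smul, real_inner_smul_left, real_inner_smul_right]
        ring
    · have h1 : Pn φ ψ q α η n y = 0 := Pn_out h hs (by linarith)
      have h2 : pk (q n) φ 1 y = 0 := Fout h (hq n) (by linarith)
      rw [h1, h2, inner_zero_right, inner_zero_right, inner_zero_right]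
      ring
  have i1 := integ (w := fun y => Am (Pn φ ψ q α η n y)) (hP n).Am.sm.continuous (hP n)
  have hc : Continuous (fun y => fderiv ℝ (pk (q (j + 1)) ψ 1) y (pk (q n) φ 1 y)) :=
    (cd_adv hF.sm hG.sm).continuous
  have i2 := integ (w := fun y => fderiv ℝ (pk (q (j + 1)) ψ 1) y (pk (q n) φ 1 y)) hc hF
  have h0 : ∫ y, inner ℝ (fderiv ℝ (pk (q (j + 1)) ψ 1) y (pk (q n) φ 1 y)) (pk (q n) φ 1 y) = 0 := by
    refine int_odd fun y => ?_
    rw [fderiv_even hG.diff (Geven h), Fodd h]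
    simp
  unfold ip
  simp only [hpt]
  rw [integral_add (i1.const_mul _) (i2.const_mul _), integral_const_mul, integral_const_mul, h0,
    mul_zero, add_zero]

lemma I5b (h : Pk φ ψ ρ ρ') (hq : ∀ n, 0 < q n) (n : ℕ) :
    ip (adv (Pn φ ψ q α η n) (Pn φ ψ q α η n)) (Pn φ ψ q α η n) = 0 := by
  have hP : Sm (Pn φ ψ q α η n) := SPn h hq n
  have hd : ∀ y, divg (Pn φ ψ q α η n) y = 0 := divW h (hq n) (hq (n + 1)) _ _
  have h1 := ip_adv_anti (hP.sm.of_le (by simp)) (hP.sm.of_le (by simp))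
    (hP.sm.of_le (by simp)) hd (Or.inl hP.cs)
  linarith

/-- large scale tested against a small one -/
lemma I5c (h : Pk φ ψ ρ ρ') (hq : ∀ n, 0 < q n) (hs : ∀ m n, m < n → LT ρ' (q m) (q n))
    {n j : ℕ} (hj : n < j) :
    ip (adv (Pn φ ψ q α η n) (Pn φ ψ q α η n)) (Pn φ ψ q α η j) =
      if j = n + 1 then -(η n ^ 2 * (α j * q j ^ 5) * ip (fun y => Am (ψ y)) ψ) else 0 := by
  have hPj : Sm (Pn φ ψ q α η j) := SPn h hq j
  have hd : ∀ y, divg (Pn φ ψ q α η j) y = 0 := divW h (hq j) (hq (j + 1)) _ _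
  have hG := SG h (hq (n + 1))
  have hF := SF h (hq j)
  have hGj := SG h (hq (j + 1))
  have hpt : ∀ y, inner ℝ (adv (Pn φ ψ q α η n) (Pn φ ψ q α η n) y) (Pn φ ψ q α η j y) =
      (α n * q n ^ 5) ^ 2 * inner ℝ (AA y) (Pn φ ψ q α η j y) +
      (α n * q n ^ 5 * η n) * inner ℝ (LL (pk (q (n + 1)) ψ 1) y) (Pn φ ψ q α η j y) +
      η n ^ 2 * inner ℝ (adv (pk (q (n + 1)) ψ 1) (pk (q (n + 1)) ψ 1) y)
        (Pn φ ψ q α η j y) := by
    intro y
    rcases lt_or_ge (q j ^ 2 * ‖y‖) 1 with hy | hy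
    · obtain ⟨r1, r2⟩ := Pn_lin (α := α) (η := η) h hq hs hj hy
      have e : adv (Pn φ ψ q α η n) (Pn φ ψ q α η n) y =
          (α n * q n ^ 5) ^ 2 • AA y + (α n * q n ^ 5 * η n) • LL (pk (q (n + 1)) ψ 1) y +
          η n ^ 2 • adv (pk (q (n + 1)) ψ 1) (pk (q (n + 1)) ψ 1) y := by
        unfold LL adv
        rw [r1, r2, AA_apply, add_apply, smul_apply, smul_apply, AL_apply, Am_add, Am_smul,
          Am_smul, map_add, map_smul, map_smul]
        module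
      rw [e, inner_add_left, inner_add_left, real_inner_smul_left, real_inner_smul_left,
        real_inner_smul_left]
    · have h1 : Pn φ ψ q α η j y = 0 := Pn_out h hs (by linarith)
      rw [h1, inner_zero_right, inner_zero_right, inner_zero_right, inner_zero_right]
      ring
  have i1 := integ (w := fun y => AA y) AA.continuous hPj
  have i2 := integ (w := LL (pk (q (n + 1)) ψ 1)) hG.LL.sm.continuous hPj
  have i3 := integ (w := adv (pk (q (n + 1)) ψ 1) (pk (q (n + 1)) ψ 1))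
    (hG.adv hG.sm).sm.continuous hPj
  have e0 : ip (adv (Pn φ ψ q α η n) (Pn φ ψ q α η n)) (Pn φ ψ q α η j) =
      (α n * q n ^ 5) ^ 2 * ip (fun y => AA y) (Pn φ ψ q α η j) +
      (α n * q n ^ 5 * η n) * ip (LL (pk (q (n + 1)) ψ 1)) (Pn φ ψ q α η j) +
      η n ^ 2 * ip (adv (pk (q (n + 1)) ψ 1) (pk (q (n + 1)) ψ 1)) (Pn φ ψ q α η j) := by
    have i12 : Integrable (fun y => (α n * q n ^ 5) ^ 2 * inner ℝ (AA y) (Pn φ ψ q α η j y) +
        (α n * q n ^ 5 * η n) * inner ℝ (LL (pk (q (n + 1)) ψ 1) y) (Pn φ ψ q α η j y)) :=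
      (i1.const_mul _).add (i2.const_mul _)
    unfold ip
    simp only [hpt]
    rw [integral_add i12 (i3.const_mul _),
      integral_add (i1.const_mul _) (i2.const_mul _), integral_const_mul, integral_const_mul,
      integral_const_mul]
  have e1 : ip (adv (pk (q (n + 1)) ψ 1) (pk (q (n + 1)) ψ 1)) (Pn φ ψ q α η j) =
      α j * ip (adv (pk (q (n + 1)) ψ 1) (pk (q (n + 1)) ψ 1)) (pk (q j) φ 1) := by
    have e : Pn φ ψ q α η j =
      fun y => α j • pk (q j) φ 1 y + η j • pk (q (j + 1)) ψ 1 y := rfl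
    rw [e, ip_add (hG.adv hG.sm).sm.continuous (hF.smul _) (hGj.smul _), ip_smul, ip_smul]
    have h2 : ip (adv (pk (q (n + 1)) ψ 1) (pk (q (n + 1)) ψ 1)) (pk (q (j + 1)) ψ 1) = 0 :=
      ip_zero_of fun y => (GGn h hs (show n + 1 ≠ j + 1 by omega) y).imp
        (fun h => by unfold adv; rw [h.1, map_zero]) (fun h => h.1)
    rw [h2, mul_zero, add_zero]
  rw [e0, ip_Y hPj hd AA AA_sym, I3 h hq hs, if_neg (show n ≠ j by omega), e1]
  split_ifs with hj1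
  · subst hj1
    rw [aGGF h (hq (n + 1))]
    ring
  · have h3 : ip (adv (pk (q (n + 1)) ψ 1) (pk (q (n + 1)) ψ 1)) (pk (q j) φ 1) = 0 := by
      refine ip_zero_of fun y => ?_
      rcases lt_or_ge (q j ^ 2 * ‖y‖) 1 with hy | hy
      · left
        have h1 := Gin0 h (hq (n + 1)) ((hs (n + 1) j (by omega)).reg h.ρ0 hy)
        unfold adv
        rw [h1, map_zero]
      · exact Or.inr (Fout h (hq j) (by linarith))
    rw [h3]
    ring

/-- the cross terms -/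
lemma I6 (h : Pk φ ψ ρ ρ') (hq : ∀ n, 0 < q n) (hs : ∀ m n, m < n → LT ρ' (q m) (q n))
    {m n : ℕ} (hmn : m < n) (y : E3) :
    adv (Pn φ ψ q α η m) (Pn φ ψ q α η n) y + adv (Pn φ ψ q α η n) (Pn φ ψ q α η m) y =
      (α m * q m ^ 5) • LL (Pn φ ψ q α η n) y +
      if n = m + 1 then (η m * (α (m + 1) * q (m + 1) ^ 5)) • LL (pk (q (m + 1)) ψ 1) y else 0 := by
  have hρ0 := h.ρ0
  have hρ1 := h.ρ1
  have hρ2 := h.ρ2
  rcases lt_or_ge (q n ^ 2 * ‖y‖) 1 with hy | hy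
  · obtain ⟨r1, r2⟩ := Pn_lin (α := α) (η := η) h hq hs hmn hy
    have e1 : adv (Pn φ ψ q α η m) (Pn φ ψ q α η n) y + adv (Pn φ ψ q α η n) (Pn φ ψ q α η m) y =
        (α m * q m ^ 5) • LL (Pn φ ψ q α η n) y +
        η m • (adv (pk (q (m + 1)) ψ 1) (Pn φ ψ q α η n) y +
          adv (Pn φ ψ q α η n) (pk (q (m + 1)) ψ 1) y) := by
      unfold LL adv
      rw [r1, r2, add_apply, smul_apply, smul_apply, AL_apply, map_add, map_smul, map_smul]
      module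
    rw [e1]
    congr 1
    split_ifs with hn
    · subst hn
      rcases lt_or_ge (q (m + 1 + 1) ^ 2 * ‖y‖) 1 with hy2 | hy2
      · obtain ⟨z1, z2, -⟩ := Gin h (hq (m + 1)) ((hs (m + 1) (m + 1 + 1) (by omega)).reg hρ0 hy2)
        rw [LLz z1 z2]
        unfold adv
        rw [z1, z2]
        simp
      · obtain ⟨z1, z2, -⟩ := Gout h (hq (m + 1 + 1)) (y := y) (by linarith)
        have z3 : Pn φ ψ q α η (m + 1) y = α (m + 1) • pk (q (m + 1)) φ 1 y := by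
          unfold Pn W
          rw [z1, smul_zero, add_zero]
        have z4 : fderiv ℝ (Pn φ ψ q α η (m + 1)) y = α (m + 1) • fderiv ℝ (pk (q (m + 1)) φ 1) y := by
          unfold Pn
          rw [DW h (hq _) (hq _), z2]
          ext1 z
          simp
        unfold adv LL
        rw [z3, z4]
        rcases lt_or_ge (q (m + 1) ^ 2 * ‖y‖) ρ with hy3 | hy3
        · obtain ⟨z5, z6⟩ := Flin h (hq (m + 1)) hy3
          rw [z5, z6, smul_apply, smul_apply, AL_apply, map_smul, map_smul]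
          module
        · obtain ⟨z5, z6, -⟩ := Gout h (hq (m + 1)) (y := y) (by linarith)
          rw [z5, z6, Am_zero]
          simp
    · obtain ⟨z1, z2, -⟩ := Gin h (hq (m + 1)) ((hs (m + 1) n (by omega)).reg hρ0 hy)
      unfold adv
      rw [z1, z2]
      simp
  · have z1 : Pn φ ψ q α η n y = 0 := Pn_out h hs (by linarith)
    have z2 := (DPn_out (α := α) (η := η) h hs (n := n) (y := y) (by linarith)).1
    rw [LLz z1 z2]
    unfold adv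
    rw [z1, z2]
    split_ifs with hn
    · subst hn
      obtain ⟨z5, z6, -⟩ := Gout h (hq (m + 1)) (y := y) (by linarith)
      rw [LLz z5 z6]
      simp
    · simp

end seq

/-! ### Polynomial growth -/

section growth

/-- polynomial growth of a sequence of numbers -/
def Pc (q : ℕ → ℝ) (c : ℕ → ℝ) : Prop := ∃ (C : ℝ) (K : ℕ), 0 ≤ C ∧ ∀ n, |c n| ≤ C * q n ^ K

/-- polynomial growth of a sequence of fields -/
def Pg {F : Type} [NormedAddCommGroup F] (q : ℕ → ℝ) (f : ℕ → E3 → F) : Prop :=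
  ∃ (C : ℝ) (K : ℕ), 0 ≤ C ∧ ∀ n y, ‖f n y‖ ≤ C * q n ^ K

variable {q : ℕ → ℝ}

lemma Pg.congr {F : Type} [NormedAddCommGroup F] {f g : ℕ → E3 → F}
    (hf : Pg q f) (h : ∀ n y, g n y = f n y) : Pg q g := by
  obtain ⟨C, K, hC, hK⟩ := hf
  exact ⟨C, K, hC, fun n y => by rw [h]; exact hK n y⟩

lemma Pg.add {F : Type} [NormedAddCommGroup F] {f g : ℕ → E3 → F} (h1 : ∀ n, 1 ≤ q n)
    (hf : Pg q f) (hg : Pg q g) : Pg q (fun n y => f n y + g n y) := by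
  obtain ⟨C, K, hC, hf⟩ := hf
  obtain ⟨C', K', hC', hg⟩ := hg
  refine ⟨C + C', K + K', by positivity, fun n y => (norm_add_le _ _).trans ?_⟩
  have h2 : q n ^ K ≤ q n ^ (K + K') := pow_le_pow_right₀ (h1 n) (by omega)
  have h3 : q n ^ K' ≤ q n ^ (K + K') := pow_le_pow_right₀ (h1 n) (by omega)
  calc ‖f n y‖ + ‖g n y‖ ≤ C * q n ^ K + C' * q n ^ K' := add_le_add (hf n y) (hg n y)
    _ ≤ C * q n ^ (K + K') + C' * q n ^ (K + K') := by gcongr
    _ = (C + C') * q n ^ (K + K') := by ring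

lemma Pg.smul {F : Type} [NormedAddCommGroup F] [NormedSpace ℝ F] {f : ℕ → E3 → F} {c : ℕ → ℝ}
    (h1 : ∀ n, 1 ≤ q n) (hc : Pc q c) (hf : Pg q f) : Pg q (fun n y => c n • f n y) := by
  obtain ⟨C, K, hC, hc⟩ := hc
  obtain ⟨C', K', hC', hf⟩ := hf
  refine ⟨C * C', K + K', by positivity, fun n y => ?_⟩
  have h0 : 0 ≤ q n := by linarith [h1 n]
  rw [norm_smul, Real.norm_eq_abs]
  calc |c n| * ‖f n y‖ ≤ (C * q n ^ K) * (C' * q n ^ K') :=
        mul_le_mul (hc n) (hf n y) (norm_nonneg _) (by positivity)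
    _ = C * C' * q n ^ (K + K') := by ring

lemma Pg.neg {F : Type} [NormedAddCommGroup F] {f : ℕ → E3 → F} (hf : Pg q f) :
    Pg q (fun n y => -f n y) := by
  obtain ⟨C, K, hC, hf⟩ := hf
  exact ⟨C, K, hC, fun n y => by rw [norm_neg]; exact hf n y⟩

lemma Pg.sub {F : Type} [NormedAddCommGroup F] {f g : ℕ → E3 → F} (h1 : ∀ n, 1 ≤ q n)
    (hf : Pg q f) (hg : Pg q g) : Pg q (fun n y => f n y - g n y) := by
  have := hf.add h1 hg.neg
  simpa [sub_eq_add_neg] using this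

lemma Pg.adv {a b : ℕ → E3 → E3} (h1 : ∀ n, 1 ≤ q n) (ha : Pg q a)
    (hb : Pg q (fun n => fderiv ℝ (b n))) : Pg q (fun n => SC.adv (a n) (b n)) := by
  obtain ⟨C, K, hC, ha⟩ := ha
  obtain ⟨C', K', hC', hb⟩ := hb
  refine ⟨C' * C, K' + K, by positivity, fun n y => ?_⟩
  have h0 : 0 ≤ q n := by linarith [h1 n]
  unfold SC.adv
  calc ‖fderiv ℝ (b n) y (a n y)‖ ≤ ‖fderiv ℝ (b n) y‖ * ‖a n y‖ :=
        ContinuousLinearMap.le_opNorm _ _
    _ ≤ (C' * q n ^ K') * (C * q n ^ K) :=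
        mul_le_mul (hb n y) (ha n y) (norm_nonneg _) (by positivity)
    _ = C' * C * q n ^ (K' + K) := by ring

lemma Pg.shift {F : Type} [NormedAddCommGroup F] {f : ℕ → E3 → F} (h1 : ∀ n, 1 ≤ q n)
    (h2 : ∀ n, q (n + 1) ≤ q n ^ 2) (hf : Pg q f) : Pg q (fun n => f (n + 1)) := by
  obtain ⟨C, K, hC, hf⟩ := hf
  refine ⟨C, 2 * K, hC, fun n y => (hf (n + 1) y).trans ?_⟩
  rw [pow_mul]
  have h0 : 0 ≤ q (n + 1) := by linarith [h1 (n + 1)]
  gcongr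
  exact h2 n

lemma Pc.shift {c : ℕ → ℝ} (h1 : ∀ n, 1 ≤ q n)
    (h2 : ∀ n, q (n + 1) ≤ q n ^ 2) (hf : Pc q c) : Pc q (fun n => c (n + 1)) := by
  obtain ⟨C, K, hC, hf⟩ := hf
  refine ⟨C, 2 * K, hC, fun n => (hf (n + 1)).trans ?_⟩
  rw [pow_mul]
  have h0 : 0 ≤ q (n + 1) := by linarith [h1 (n + 1)]
  gcongr
  exact h2 n

lemma Pc.mul {c d : ℕ → ℝ} (h1 : ∀ n, 1 ≤ q n) (hc : Pc q c) (hd : Pc q d) :
    Pc q (fun n => c n * d n) := by
  obtain ⟨C, K, hC, hc⟩ := hc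
  obtain ⟨C', K', hC', hd⟩ := hd
  refine ⟨C * C', K + K', by positivity, fun n => ?_⟩
  have h0 : 0 ≤ q n := by linarith [h1 n]
  rw [abs_mul]
  calc |c n| * |d n| ≤ (C * q n ^ K) * (C' * q n ^ K') :=
        mul_le_mul (hc n) (hd n) (abs_nonneg _) (by positivity)
    _ = C * C' * q n ^ (K + K') := by ring

lemma Pc.add {c d : ℕ → ℝ} (h1 : ∀ n, 1 ≤ q n) (hc : Pc q c) (hd : Pc q d) :
    Pc q (fun n => c n + d n) := by
  obtain ⟨C, K, hC, hc⟩ := hc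
  obtain ⟨C', K', hC', hd⟩ := hd
  refine ⟨C + C', K + K', by positivity, fun n => (abs_add_le _ _).trans ?_⟩
  have h2 : q n ^ K ≤ q n ^ (K + K') := pow_le_pow_right₀ (h1 n) (by omega)
  have h3 : q n ^ K' ≤ q n ^ (K + K') := pow_le_pow_right₀ (h1 n) (by omega)
  calc |c n| + |d n| ≤ C * q n ^ K + C' * q n ^ K' := add_le_add (hc n) (hd n)
    _ ≤ C * q n ^ (K + K') + C' * q n ^ (K + K') := by gcongr
    _ = (C + C') * q n ^ (K + K') := by ring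

lemma Pc.const (c : ℝ) : Pc q (fun _ => c) := ⟨|c|, 0, abs_nonneg _, fun n => by simp⟩

lemma Pc.bdd {c : ℕ → ℝ} {C : ℝ} (h : ∀ n, |c n| ≤ C) : Pc q c :=
  ⟨C, 0, (abs_nonneg _).trans (h 0), fun n => by simpa using h n⟩

lemma Pc.pow (h1 : ∀ n, 1 ≤ q n) (k : ℕ) : Pc q (fun n => q n ^ k) :=
  ⟨1, k, zero_le_one, fun n => by
    have h0 : 0 ≤ q n := by linarith [h1 n]
    rw [abs_of_nonneg (by positivity), one_mul]⟩

/-- fields with compact support are bounded -/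
lemma bdd_of {F : Type} [NormedAddCommGroup F] {v : E3 → F} (h : Continuous v)
    (hc : HasCompactSupport v) : ∃ C, ∀ y, ‖v y‖ ≤ C :=
  h.bounded_above_of_compact_support hc

lemma Pg_dl {F : Type} [NormedAddCommGroup F] {v : E3 → F} (h : Continuous v)
    (hc : HasCompactSupport v) : Pg q (fun n y => v (q n ^ (2 * 1) • y)) := by
  obtain ⟨C, hC⟩ := bdd_of h hc
  exact ⟨C, 0, (norm_nonneg _).trans (hC 0), fun n y => by simpa using hC _⟩

lemma cs_LL {v : E3 → E3} (h : Sm v) : Sm (LL v) := h.LL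

/-- the growth of the dilates of a field -/
lemma Pg_pk {v : E3 → E3} (h1 : ∀ n, 1 ≤ q n) (h : Sm v) :
    Pg q (fun n => pk (q n) v 1) ∧ Pg q (fun n => fderiv ℝ (pk (q n) v 1)) ∧
    Pg q (fun n => LL (pk (q n) v 1)) ∧ Pg q (fun n => lap (pk (q n) v 1)) := by
  refine ⟨?_, ?_, ?_, ?_⟩
  · exact (Pg_dl h.sm.continuous h.cs).smul h1 (Pc.pow h1 (3 * 1))
  · exact ((Pg_dl (cd_fderiv h.sm).continuous (h.cs.fderiv (𝕜 := ℝ))).smul h1
      (Pc.pow (q := q) h1 (5 * 1))).congr fun n y => fderiv_pk h.diff 1 y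
  · exact ((Pg_dl h.LL.sm.continuous h.LL.cs).smul h1 (Pc.pow (q := q) h1 (3 * 1))).congr
      fun n y => by rw [LL_pk h.diff]; rfl
  · exact ((Pg_dl h.lap.sm.continuous h.lap.cs).smul h1 (Pc.pow (q := q) h1 (7 * 1))).congr
      fun n y => by rw [lap_pk h.sm]; rfl

/-- the growth of the iterated derivatives -/
lemma Pg_it {v : E3 → E3} (h1 : ∀ n, 1 ≤ q n) (h : Sm v) (j : ℕ) :
    Pg q (fun n => iteratedFDeriv ℝ j (pk (q n) v 1)) := by
  have hc1 : Continuous (iteratedFDeriv ℝ j v) := h.sm.continuous_iteratedFDeriv (mod_cast le_top)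
  obtain ⟨C, hC⟩ := bdd_of hc1 (h.cs.iteratedFDeriv j)
  have hC0 : 0 ≤ C := (norm_nonneg _).trans (hC 0)
  refine ⟨C, 3 + 2 * j, hC0, fun n y => ?_⟩
  have h0 : 0 ≤ q n := by linarith [h1 n]
  have e1 : pk (q n) v 1 =
      fun z => q n ^ 3 • (v ∘ ⇑(q n ^ 2 • ContinuousLinearMap.id ℝ E3)) z := by
    funext z
    rfl
  have hv' : ContDiff ℝ j v := h.sm.of_le (mod_cast le_top)
  have hc : ContDiff ℝ j (v ∘ ⇑(q n ^ 2 • ContinuousLinearMap.id ℝ E3)) :=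
    hv'.comp (ContinuousLinearMap.contDiff _)
  simp only
  rw [e1, iteratedFDeriv_const_smul_apply' hc.contDiffAt, norm_smul,
    ContinuousLinearMap.iteratedFDeriv_comp_right _ hv' y le_rfl]
  have h1 : ‖(iteratedFDeriv ℝ j v ((q n ^ 2 • ContinuousLinearMap.id ℝ E3) y)).compContinuousLinearMap
      fun _ => q n ^ 2 • ContinuousLinearMap.id ℝ E3‖ ≤ C * (q n ^ 2) ^ j := by
    refine (ContinuousMultilinearMap.norm_compContinuousLinearMap_le _ _).trans ?_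
    rw [Finset.prod_const, Finset.card_univ, Fintype.card_fin]
    have h2 : ‖q n ^ 2 • ContinuousLinearMap.id ℝ E3‖ ≤ q n ^ 2 := by
      rw [norm_smul, Real.norm_of_nonneg (by positivity)]
      exact mul_le_of_le_one_right (by positivity) ContinuousLinearMap.norm_id_le
    exact mul_le_mul (hC _) (pow_le_pow_left₀ (norm_nonneg _) h2 j) (by positivity) hC0
  rw [Real.norm_of_nonneg (by positivity)]
  calc q n ^ 3 * _ ≤ q n ^ 3 * (C * (q n ^ 2) ^ j) := by gcongr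
    _ = C * q n ^ (3 + 2 * j) := by ring

section packets

variable {φ ψ : E3 → E3} {ρ ρ' : ℝ} {α η : ℕ → ℝ}

lemma Pn_it (h : Pk φ ψ ρ ρ') (h1 : ∀ n, 1 ≤ q n) (h2 : ∀ n, q (n + 1) ≤ q n ^ 2)
    (hα : Pc q α) (hη : Pc q η) (j : ℕ) :
    Pg q (fun n => iteratedFDeriv ℝ j (Pn φ ψ q α η n)) := by
  have hq : ∀ n, 0 < q n := fun n => by linarith [h1 n]
  have g1 := (Pg_it h1 (Sφ h) j).smul h1 hα
  have g2 := ((Pg_it h1 (Sψ h) j).shift h1 h2).smul h1 hη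
  have g3 := g1.add h1 g2
  refine g3.congr fun n y => ?_
  have hF : ContDiff ℝ j (pk (q n) φ 1) := (SF h (hq n)).sm.of_le (mod_cast le_top)
  have hG : ContDiff ℝ j (pk (q (n + 1)) ψ 1) := (SG h (hq (n + 1))).sm.of_le (mod_cast le_top)
  have e : Pn φ ψ q α η n =
      fun y => α n • pk (q n) φ 1 y + η n • pk (q (n + 1)) ψ 1 y := rfl
  rw [e, fun_iteratedFDeriv_add_apply (hF.const_smul (α n)).contDiffAt
    (hG.const_smul (η n)).contDiffAt]
  rw [iteratedFDeriv_const_smul_apply' hF.contDiffAt, iteratedFDeriv_const_smul_apply' hG.contDiffAt]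

lemma Pn_gr (h : Pk φ ψ ρ ρ') (h1 : ∀ n, 1 ≤ q n) (h2 : ∀ n, q (n + 1) ≤ q n ^ 2)
    (hα : Pc q α) (hη : Pc q η) :
    Pg q (fun n => Pn φ ψ q α η n) ∧ Pg q (fun n => fderiv ℝ (Pn φ ψ q α η n)) ∧
    Pg q (fun n => LL (Pn φ ψ q α η n)) ∧ Pg q (fun n => lap (Pn φ ψ q α η n)) := by
  have hq : ∀ n, 0 < q n := fun n => by linarith [h1 n]
  obtain ⟨a1, a2, a3, a4⟩ := Pg_pk h1 (Sφ h)
  obtain ⟨b1, b2, b3, b4⟩ := Pg_pk h1 (Sψ h)
  refine ⟨(a1.smul h1 hα).add h1 ((b1.shift h1 h2).smul h1 hη), ?_, ?_, ?_⟩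
  · exact ((a2.smul h1 hα).add h1 ((b2.shift h1 h2).smul h1 hη)).congr fun n y =>
      DW h (hq n) (hq (n + 1)) _ _ y
  · exact ((a3.smul h1 hα).add h1 ((b3.shift h1 h2).smul h1 hη)).congr fun n y =>
      congrFun (LW h (hq n) (hq (n + 1)) _ _) y
  · exact ((a4.smul h1 hα).add h1 ((b4.shift h1 h2).smul h1 hη)).congr fun n y =>
      congrFun (lapW h (hq n) (hq (n + 1)) _ _) y

end packets

end growth

/-! ### The constraint fields -/

section fields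

variable {φ ψ : E3 → E3} {ρ ρ' : ℝ} {q α η Λ b V γ : ℕ → ℝ} {β lam : ℝ}

/-- the constraint fields -/
noncomputable def RF (q η Λ b V γ : ℕ → ℝ) (β lam : ℝ) (P : ℕ → E3 → E3) (ψ : E3 → E3) :
    Fin 4 × ℕ → E3 → E3
  | (0, 0) => fun y => adv (P 0) (P 0) y + (β * (b 1 * γ 0)) • P 1 y
  | (0, n + 1) => fun y => (((adv (P (n + 1)) (P (n + 1)) y - adv (P n) (P n) y) -
      (β * (b n * Λ n)) • P n y) + (β * (b (n + 2) * γ (n + 1))) • P (n + 2) y) -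
      (β * (b (n + 1) * γ n)) • P (n + 1) y
  | (1, n) => fun y => LL (P n) y + (β * b n) • P n y
  | (2, n) => fun y => lap (P n) y + (lam * V n) • P n y
  | (3, n) => fun y => (η n * Λ (n + 1)) • LL (pk (q (n + 1)) ψ 1) y - (β * (b n * γ n)) • P n y

/-- the relations between the coefficients -/
structure Co (φ ψ : E3 → E3) (q α η Λ b V γ : ℕ → ℝ) (β lam N : ℝ) : Prop where
  N0 : 0 < N
  β0 : 0 < β
  lam0 : 0 < lam
  b0 : ∀ n, 0 < b n
  η0 : η 0 = 0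
  γ0 : γ 0 = 0
  q1 : ∀ n, 1 < q n
  qm : ∀ n, q n ≤ q (n + 1)
  q2 : ∀ n, q (n + 1) ≤ q n ^ 2
  Λe : ∀ n, Λ n = α n * q n ^ 5
  Ne : ∀ n, α n ^ 2 * ip φ φ + η n ^ 2 * ip ψ ψ = N / b n
  Be : ∀ n, α n ^ 2 * ip (fun y => Am (φ y)) φ + η n ^ 2 * ip (fun y => Am (ψ y)) ψ = -(β * N)
  γe : ∀ n, η n ^ 2 * Λ (n + 1) * ip (fun y => Am (ψ y)) ψ = β * N * γ n
  Ve : ∀ n, α n ^ 2 * q n ^ 4 * dir φ + η n ^ 2 * q (n + 1) ^ 4 * dir ψ = lam * V n * (N / b n)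
  pα : Pc q α
  pη : Pc q η
  pb : Pc q b
  pV : Pc q V
  pγ : Pc q γ

lemma RF_sm (h : Pk φ ψ ρ ρ') (hq : ∀ n, 0 < q n) (p : Fin 4 × ℕ) :
    Sm (RF q η Λ b V γ β lam (Pn φ ψ q α η) ψ p) := by
  have hP : ∀ n, Sm (Pn φ ψ q α η n) := fun n => SPn h hq n
  have hadv : ∀ n, Sm (adv (Pn φ ψ q α η n) (Pn φ ψ q α η n)) := fun n => (hP n).adv (hP n).sm
  obtain ⟨i, n⟩ := p
  fin_cases i
  · cases n with
    | zero => exact (hadv 0).add ((hP 1).smul _)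
    | succ n => exact ((((hadv (n + 1)).sub (hadv n)).sub ((hP n).smul _)).add
        ((hP (n + 2)).smul _)).sub ((hP (n + 1)).smul _)
  · exact (hP n).LL.add ((hP n).smul _)
  · exact (hP n).lap.add ((hP n).smul _)
  · exact ((SG h (hq (n + 1))).LL.smul _).sub ((hP n).smul _)

lemma I5 (h : Pk φ ψ ρ ρ') (hq : ∀ n, 0 < q n) (hs : ∀ m n, m < n → LT ρ' (q m) (q n))
    {N : ℝ} (hC : Co φ ψ q α η Λ b V γ β lam N) (m n : ℕ) :
    ip (Pn φ ψ q α η m) (adv (Pn φ ψ q α η n) (Pn φ ψ q α η n)) =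
      (if m < n then Λ m * (β * N) else 0) + if m = n + 1 then -(β * N * γ n) else 0 := by
  rw [ip_comm]
  rcases lt_trichotomy m n with hlt | heq | hlt
  · rw [if_pos hlt, if_neg (by omega), I5a h hq hs hlt]
    unfold Pn
    rw [ip_Am_W h (hq n) (hq (n + 1)), hC.Be, hC.Λe]
    ring
  · subst heq
    rw [if_neg (by omega), if_neg (by omega), I5b h hq]
    ring
  · rw [if_neg (by omega), I5c h hq hs hlt, zero_add]
    split_ifs with h1
    · subst h1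
      rw [← hC.γe, hC.Λe]
    · rfl

lemma RF_orth (h : Pk φ ψ ρ ρ') (hq : ∀ n, 0 < q n) (hs : ∀ m n, m < n → LT ρ' (q m) (q n))
    {N : ℝ} (hC : Co φ ψ q α η Λ b V γ β lam N) (m : ℕ) (p : Fin 4 × ℕ) :
    ip (Pn φ ψ q α η m) (RF q η Λ b V γ β lam (Pn φ ψ q α η) ψ p) = 0 := by
  have hP : ∀ n, Sm (Pn φ ψ q α η n) := fun n => SPn h hq n
  have hadv : ∀ n, Sm (adv (Pn φ ψ q α η n) (Pn φ ψ q α η n)) := fun n => (hP n).adv (hP n).sm
  have hc := (hP m).sm.continuous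
  have J1 : ∀ n, ip (Pn φ ψ q α η m) (Pn φ ψ q α η n) = if m = n then N / b n else 0 := by
    intro n
    rw [I1 h hq hs, hC.Ne]
  have J5 := I5 h hq hs hC m
  have hb := fun n => (hC.b0 n).ne'
  obtain ⟨i, n⟩ := p
  fin_cases i
  · cases n with
    | zero =>
      change ip (Pn φ ψ q α η m) (fun y => adv (Pn φ ψ q α η 0) (Pn φ ψ q α η 0) y +
        (β * (b 1 * γ 0)) • Pn φ ψ q α η 1 y) = 0
      rw [ip_add hc (hadv 0) ((hP 1).smul _), ip_smul, J5, J1, hC.γ0]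
      simp
    | succ n =>
      change ip (Pn φ ψ q α η m) (fun y => (((adv (Pn φ ψ q α η (n + 1)) (Pn φ ψ q α η (n + 1)) y -
        adv (Pn φ ψ q α η n) (Pn φ ψ q α η n) y) - (β * (b n * Λ n)) • Pn φ ψ q α η n y) +
        (β * (b (n + 2) * γ (n + 1))) • Pn φ ψ q α η (n + 2) y) -
        (β * (b (n + 1) * γ n)) • Pn φ ψ q α η (n + 1) y) = 0
      rw [ip_sub hc ((((hadv (n + 1)).sub (hadv n)).sub ((hP n).smul _)).add
        ((hP (n + 2)).smul _)) ((hP (n + 1)).smul _),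
        ip_add hc (((hadv (n + 1)).sub (hadv n)).sub ((hP n).smul _)) ((hP (n + 2)).smul _),
        ip_sub hc ((hadv (n + 1)).sub (hadv n)) ((hP n).smul _),
        ip_sub hc (hadv (n + 1)) (hadv n), ip_smul, ip_smul, ip_smul, J5, J5, J1, J1, J1]
      have e1 := hb n
      have e2 := hb (n + 1)
      have e3 := hb (n + 2)
      rcases lt_trichotomy m n with hlt | heq | hlt
      · rw [if_pos (by omega), if_neg (by omega), if_pos hlt, if_neg (by omega), if_neg (by omega),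
          if_neg (by omega), if_neg (by omega)]
        ring
      · subst heq
        rw [if_pos (by omega), if_neg (by omega), if_neg (by omega), if_neg (by omega), if_pos rfl,
          if_neg (by omega), if_neg (by omega)]
        field_simp
        ring
      · rw [if_neg (by omega), if_neg (show ¬ m < n by omega), if_neg (show m ≠ n by omega)]
        by_cases h1 : m = n + 1
        · subst h1
          rw [if_neg (by omega), if_pos rfl, if_neg (by omega), if_pos rfl]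
          field_simp
          ring
        · by_cases h2 : m = n + 2
          · subst h2
            rw [if_pos rfl, if_neg (by omega), if_pos rfl, if_neg (by omega)]
            field_simp
            ring
          · rw [if_neg (by omega), if_neg h1, if_neg h2, if_neg h1]
            ring
  · change ip (Pn φ ψ q α η m) (fun y => LL (Pn φ ψ q α η n) y + (β * b n) • Pn φ ψ q α η n y) = 0
    rw [ip_add hc (hP n).LL ((hP n).smul _), ip_smul, ip_comm _ (LL (Pn φ ψ q α η n)),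
      I2 h hq hs, J1, hC.Be]
    have e1 := hb n
    by_cases h1 : m = n
    · subst h1
      rw [if_pos rfl, if_pos rfl]
      field_simp
      ring
    · rw [if_neg h1, if_neg (Ne.symm h1)]
      ring
  · change ip (Pn φ ψ q α η m) (fun y => lap (Pn φ ψ q α η n) y + (lam * V n) • Pn φ ψ q α η n y) = 0
    rw [ip_add hc (hP n).lap ((hP n).smul _), ip_smul, ip_comm _ (lap (Pn φ ψ q α η n)),
      I4 h hq hs, J1, hC.Ve]
    by_cases h1 : m = n
    · subst h1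
      rw [if_pos rfl, if_pos rfl]
      ring
    · rw [if_neg h1, if_neg (Ne.symm h1)]
      ring
  · change ip (Pn φ ψ q α η m) (fun y => (η n * Λ (n + 1)) • LL (pk (q (n + 1)) ψ 1) y -
      (β * (b n * γ n)) • Pn φ ψ q α η n y) = 0
    rw [ip_sub hc ((SG h (hq (n + 1))).LL.smul _) ((hP n).smul _), ip_smul, ip_smul,
      ip_comm _ (LL (pk (q (n + 1)) ψ 1)), I3 h hq hs, J1]
    have e1 := hb n
    by_cases h1 : m = n
    · subst h1
      rw [if_pos rfl, if_pos rfl]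
      have e2 := hC.γe m
      have e3 : β * (b m * γ m) * (N / b m) = β * N * γ m := by field_simp
      rw [e3]
      linear_combination e2
    · rw [if_neg h1, if_neg (Ne.symm h1)]
      ring

lemma RF_out (h : Pk φ ψ ρ ρ') (hq : ∀ n, 0 < q n) (hs : ∀ m n, m < n → LT ρ' (q m) (q n))
    (hqm : ∀ n, q n ≤ q (n + 1)) (i : Fin 4) (n : ℕ) {y : E3}
    (hy : ∀ k, k = n ∨ k + 1 = n → 1 ≤ q k ^ 2 * ‖y‖) :
    RF q η Λ b V γ β lam (Pn φ ψ q α η) ψ (i, n) y = 0 := by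
  have hmono : Monotone q := monotone_nat_of_le_succ hqm
  have hup : ∀ k, n ≤ k → 1 ≤ q k ^ 2 * ‖y‖ := by
    intro k hk
    have h1 := hy n (Or.inl rfl)
    have h2 : q n ^ 2 ≤ q k ^ 2 := pow_le_pow_left₀ (hq n).le (hmono hk) 2
    nlinarith [norm_nonneg y]
  have hP : ∀ k, 1 ≤ q k ^ 2 * ‖y‖ → Pn φ ψ q α η k y = 0 := fun k hk => Pn_out h hs (by linarith)
  have hD : ∀ k, 1 ≤ q k ^ 2 * ‖y‖ → fderiv ℝ (Pn φ ψ q α η k) y = 0 ∧
    lap (Pn φ ψ q α η k) y = 0 := fun k hk => DPn_out h hs (by linarith)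
  fin_cases i
  · cases n with
    | zero =>
      change adv (Pn φ ψ q α η 0) (Pn φ ψ q α η 0) y + (β * (b 1 * γ 0)) • Pn φ ψ q α η 1 y = 0
      unfold adv
      rw [hP 0 (hup 0 le_rfl), hP 1 (hup 1 (by omega)), map_zero]
      simp
    | succ n =>
      change (((adv (Pn φ ψ q α η (n + 1)) (Pn φ ψ q α η (n + 1)) y -
        adv (Pn φ ψ q α η n) (Pn φ ψ q α η n) y) - (β * (b n * Λ n)) • Pn φ ψ q α η n y) +
        (β * (b (n + 2) * γ (n + 1))) • Pn φ ψ q α η (n + 2) y) -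
        (β * (b (n + 1) * γ n)) • Pn φ ψ q α η (n + 1) y = 0
      unfold adv
      rw [hP n (hy n (Or.inr rfl)), hP (n + 1) (hup _ le_rfl), hP (n + 2) (hup _ (by omega)),
        map_zero, map_zero]
      simp
  · change LL (Pn φ ψ q α η n) y + (β * b n) • Pn φ ψ q α η n y = 0
    rw [LLz (hP n (hup n le_rfl)) (hD n (hup n le_rfl)).1, hP n (hup n le_rfl)]
    simp
  · change lap (Pn φ ψ q α η n) y + (lam * V n) • Pn φ ψ q α η n y = 0
    rw [(hD n (hup n le_rfl)).2, hP n (hup n le_rfl)]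
    simp
  · change (η n * Λ (n + 1)) • LL (pk (q (n + 1)) ψ 1) y -
      (β * (b n * γ n)) • Pn φ ψ q α η n y = 0
    have h1 := hup (n + 1) (by omega)
    have h2 := h.ρ2
    obtain ⟨z1, z2, -⟩ := Gout h (hq (n + 1)) (y := y) (by linarith)
    rw [LLz z1 z2, hP n (hup n le_rfl)]
    simp

lemma RF_bd (h : Pk φ ψ ρ ρ') {N : ℝ} (hC : Co φ ψ q α η Λ b V γ β lam N) :
    ∃ (C : ℝ) (K : ℕ), ∀ i n y,
      ‖RF q η Λ b V γ β lam (Pn φ ψ q α η) ψ (i, n) y‖ ≤ C * q n ^ K := by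
  have h1 : ∀ n, 1 ≤ q n := fun n => (hC.q1 n).le
  have h2 := hC.q2
  obtain ⟨a1, a2, a3, a4⟩ := Pn_gr h h1 h2 hC.pα hC.pη
  have a5 := (Pg_pk h1 (Sψ h)).2.2.1.shift h1 h2
  have hΛ : Pc q Λ := by
    have := hC.pα.mul h1 (Pc.pow h1 5)
    refine this.imp fun C => ?_
    rintro ⟨K, hK0, hK⟩
    exact ⟨K, hK0, fun n => by rw [hC.Λe]; exact hK n⟩
  have hβ : Pc q (fun _ => β) := Pc.const β
  have hl : Pc q (fun _ => lam) := Pc.const lam
  have hbs := hC.pb.shift h1 h2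
  have hbss := hbs.shift h1 h2
  have hγs := hC.pγ.shift h1 h2
  -- the five families
  have f1 : Pg q (fun n y => LL (Pn φ ψ q α η n) y + (β * b n) • Pn φ ψ q α η n y) :=
    a3.add h1 (a1.smul h1 (hβ.mul h1 hC.pb))
  have f2 : Pg q (fun n y => lap (Pn φ ψ q α η n) y + (lam * V n) • Pn φ ψ q α η n y) :=
    a4.add h1 (a1.smul h1 (hl.mul h1 hC.pV))
  have f3 : Pg q (fun n y => (η n * Λ (n + 1)) • LL (pk (q (n + 1)) ψ 1) y -
      (β * (b n * γ n)) • Pn φ ψ q α η n y) :=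
    (a5.smul h1 (hC.pη.mul h1 (hΛ.shift h1 h2))).sub h1
      (a1.smul h1 (hβ.mul h1 (hC.pb.mul h1 hC.pγ)))
  have g1 := Pg.adv h1 a1 a2
  have f0 : Pg q (fun n y => (((adv (Pn φ ψ q α η (n + 1)) (Pn φ ψ q α η (n + 1)) y -
        adv (Pn φ ψ q α η n) (Pn φ ψ q α η n) y) - (β * (b n * Λ n)) • Pn φ ψ q α η n y) +
        (β * (b (n + 2) * γ (n + 1))) • Pn φ ψ q α η (n + 2) y) -
        (β * (b (n + 1) * γ n)) • Pn φ ψ q α η (n + 1) y) :=
    ((((g1.shift h1 h2).sub h1 g1).sub h1 (a1.smul h1 (hβ.mul h1 (hC.pb.mul h1 hΛ)))).add h1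
      (((a1.shift h1 h2).shift h1 h2).smul h1 (hβ.mul h1 (hbss.mul h1 hγs)))).sub h1
      ((a1.shift h1 h2).smul h1 (hβ.mul h1 (hbs.mul h1 hC.pγ)))
  have f4 : Pg q (fun n y => adv (Pn φ ψ q α η n) (Pn φ ψ q α η n) y +
      (β * (b (n + 1) * γ n)) • Pn φ ψ q α η (n + 1) y) :=
    g1.add h1 ((a1.shift h1 h2).smul h1 (hβ.mul h1 (hbs.mul h1 hC.pγ)))
  obtain ⟨C0, K0, hC0, f0⟩ := f0
  obtain ⟨C1, K1, hC1, f1⟩ := f1
  obtain ⟨C2, K2, hC2, f2⟩ := f2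
  obtain ⟨C3, K3, hC3, f3⟩ := f3
  obtain ⟨C4, K4, hC4, f4⟩ := f4
  refine ⟨C0 + C1 + C2 + C3 + C4, K0 + K1 + K2 + K3 + K4, fun i n y => ?_⟩
  have key : ∀ (C : ℝ) (K : ℕ) (x : ℝ) (m : ℕ), 0 ≤ C → C ≤ C0 + C1 + C2 + C3 + C4 →
      K ≤ K0 + K1 + K2 + K3 + K4 → q m ≤ q n → x ≤ C * q m ^ K →
      x ≤ (C0 + C1 + C2 + C3 + C4) * q n ^ (K0 + K1 + K2 + K3 + K4) := by
    intro C K x m hC' h3 h4 h5 h6
    refine h6.trans ?_
    have h0 : 0 ≤ q m := by linarith [h1 m]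
    have h7 : q m ^ K ≤ q n ^ K := pow_le_pow_left₀ h0 h5 K
    have h8 : q n ^ K ≤ q n ^ (K0 + K1 + K2 + K3 + K4) := pow_le_pow_right₀ (h1 n) h4
    exact mul_le_mul h3 (h7.trans h8) (by positivity) (by linarith)
  fin_cases i
  · cases n with
    | zero => exact key C4 K4 _ 0 hC4 (by linarith) (by omega) le_rfl (f4 0 y)
    | succ n => exact key C0 K0 _ n hC0 (by linarith) (by omega) (hC.qm n) (f0 n y)
  · exact key C1 K1 _ n hC1 (by linarith) (by omega) le_rfl (f1 n y)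
  · exact key C2 K2 _ n hC2 (by linarith) (by omega) le_rfl (f2 n y)
  · exact key C3 K3 _ n hC3 (by linarith) (by omega) le_rfl (f3 n y)

theorem ty (h : Pk φ ψ ρ ρ') (hs : ∀ m n, m < n → LT ρ' (q m) (q n))
    {N : ℝ} (hC : Co φ ψ q α η Λ b V γ β lam N) :
    TY q Λ b V γ β lam N (Pn φ ψ q α η) (RF q η Λ b V γ β lam (Pn φ ψ q α η) ψ) := by
  have hq : ∀ n, 0 < q n := fun n => by linarith [hC.q1 n]
  have h1 : ∀ n, 1 ≤ q n := fun n => (hC.q1 n).le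
  constructor
  · exact hC.β0
  · exact hC.lam0
  · exact hC.N0
  · exact fun n => (SPn h hq n).sm
  · exact fun n y hy => Pn_out h hs hy
  · exact fun n y => divW h (hq n) (hq (n + 1)) _ _ y
  · intro j
    obtain ⟨C, K, -, hK⟩ := Pn_it h h1 hC.q2 hC.pα hC.pη j
    exact ⟨C, K, hK⟩
  · exact fun p => (RF_sm h hq p).sm
  · intro i y hy
    refine RF_out h hq hs hC.qm i 0 fun k hk => ?_
    rcases hk with hk | hk
    · rw [hk]; exact hy
    · omega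
  · intro i n y hy
    refine RF_out h hq hs hC.qm i (n + 1) fun k hk => ?_
    rcases hk with hk | hk
    · rw [hk]
      have h2 : q n ^ 2 ≤ q (n + 1) ^ 2 := pow_le_pow_left₀ (hq n).le (hC.qm n) 2
      nlinarith [norm_nonneg y]
    · have : k = n := by omega
      rw [this]; exact hy
  · exact RF_bd h hC
  · intro m n
    rw [I1 h hq hs, hC.Ne]
  · exact fun m p => RF_orth h hq hs hC m p
  · -- pd
    intro n y
    induction n with
    | zero =>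
      rw [Finset.sum_range_one, Finset.sum_range_zero]
      change adv (Pn φ ψ q α η 0) (Pn φ ψ q α η 0) y =
        (adv (Pn φ ψ q α η 0) (Pn φ ψ q α η 0) y + (β * (b 1 * γ 0)) • Pn φ ψ q α η 1 y) +
        β • (0 - (b 1 * γ 0) • Pn φ ψ q α η 1 y)
      module
    | succ n ih =>
      rw [Finset.sum_range_succ (fun k => RF q η Λ b V γ β lam (Pn φ ψ q α η) ψ (0, k) y) (n + 1),
        Finset.sum_range_succ (fun j => (b j * Λ j) • Pn φ ψ q α η j y) n]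
      have e1 : RF q η Λ b V γ β lam (Pn φ ψ q α η) ψ (0, n + 1) y =
        (((adv (Pn φ ψ q α η (n + 1)) (Pn φ ψ q α η (n + 1)) y -
        adv (Pn φ ψ q α η n) (Pn φ ψ q α η n) y) - (β * (b n * Λ n)) • Pn φ ψ q α η n y) +
        (β * (b (n + 2) * γ (n + 1))) • Pn φ ψ q α η (n + 2) y) -
        (β * (b (n + 1) * γ n)) • Pn φ ψ q α η (n + 1) y := rfl
      rw [e1, ih]
      module
  · -- pc
    intro m n y hmn
    rw [I6 h hq hs hmn]
    have e1 : RF q η Λ b V γ β lam (Pn φ ψ q α η) ψ (1, n) y =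
      LL (Pn φ ψ q α η n) y + (β * b n) • Pn φ ψ q α η n y := rfl
    have e3 : RF q η Λ b V γ β lam (Pn φ ψ q α η) ψ (3, m) y =
      (η m * Λ (m + 1)) • LL (pk (q (m + 1)) ψ 1) y - (β * (b m * γ m)) • Pn φ ψ q α η m y := rfl
    rw [e1, e3, hC.Λe m, hC.Λe (m + 1)]
    split_ifs with hn
    · module
    · module
  · intro n y
    change lap (Pn φ ψ q α η n) y = (lap (Pn φ ψ q α η n) y + (lam * V n) • Pn φ ψ q α η n y) -
      (lam * V n) • Pn φ ψ q α η n y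
    rw [add_sub_cancel_right]

end fields

end X

end Pool.Agent.N976.UE
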