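import Pool.Agent.N976.UE.Def
import Pool.Agent.N976.SC.T5b

/-!
# (Z1) Regularity of the flow (written by helper891)
-/

open Set Filter Topology MeasureTheory
open scoped ContDiff InnerProductSpace

set_option autoImplicit false

namespace Pool.Agent.N976.UE

open Pool.Agent.N976.SC Pool.Agent.N976.EN

namespace Z1

open T5b (xe xe_of_nonneg hasDerivAt_xe)

section

variable {F : Type} [NormedAddCommGroup F] [NormedSpace ℝ F]

/-- Sequences of smooth functions with support in the ball of radius `1/2` and polynomially bounded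
derivatives. -/
structure GQ (q : ℕ → ℝ) (G : ℕ → E3 → F) : Prop where
  sm : ∀ n, ContDiff ℝ ∞ (G n)
  out : ∀ n y, 1 / 2 < ‖y‖ → G n y = 0
  bd : ∀ j : ℕ, ∃ (C : ℝ) (K : ℕ), 0 ≤ C ∧ ∀ n y, ‖iteratedFDeriv ℝ j (G n) y‖ ≤ C * q n ^ K

theorem GQ.fd {q : ℕ → ℝ} {G : ℕ → E3 → F} (h : GQ q G) : GQ q (fun n => fderiv ℝ (G n)) := by
  refine ⟨fun n => (contDiff_infty_iff_fderiv.1 (h.sm n)).2, ?_, fun j => ?_⟩
  · intro n y hy
    have h1 : G n =ᶠ[𝓝 y] fun _ => 0 := by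
      have hopen : IsOpen {z : E3 | 1 / 2 < ‖z‖} := isOpen_lt continuous_const continuous_norm
      filter_upwards [hopen.mem_nhds hy] with z hz
      exact h.out n z hz
    rw [h1.fderiv_eq]
    simp
  · obtain ⟨C, K, hC, hb⟩ := h.bd (j + 1)
    refine ⟨C, K, hC, fun n y => ?_⟩
    rw [norm_iteratedFDeriv_fderiv]
    exact hb n y

theorem GQ.app {q : ℕ → ℝ} {G : ℕ → E3 → F} (h : GQ q G) (v : E3) :
    GQ q (fun n y => fderiv ℝ (G n) y v) := by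
  refine ⟨fun n => (h.fd.sm n).clm_apply contDiff_const, fun n y hy => ?_, fun j => ?_⟩
  · rw [h.fd.out n y hy]
    simp
  · obtain ⟨C, K, hC, hb⟩ := h.fd.bd j
    refine ⟨‖ContinuousLinearMap.apply ℝ F v‖ * C, K, by positivity, fun n y => ?_⟩
    have h1 := (ContinuousLinearMap.apply ℝ F v).norm_iteratedFDeriv_comp_left
      (f := fderiv ℝ (G n)) (x := y) (N := (∞ : WithTop ℕ∞)) (n := j) (h.fd.sm n).contDiffAt
      (by exact_mod_cast le_top)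
    calc ‖iteratedFDeriv ℝ j (fun y => fderiv ℝ (G n) y v) y‖
        ≤ ‖ContinuousLinearMap.apply ℝ F v‖ * ‖iteratedFDeriv ℝ j (fderiv ℝ (G n)) y‖ := h1
      _ ≤ ‖ContinuousLinearMap.apply ℝ F v‖ * (C * q n ^ K) := by
          gcongr
          exact hb n y
      _ = _ := by ring

theorem GQ.b0 {q : ℕ → ℝ} {G : ℕ → E3 → F} (h : GQ q G) :
    ∃ (C : ℝ) (K : ℕ), 0 ≤ C ∧ ∀ n y, ‖G n y‖ ≤ C * q n ^ K := by
  obtain ⟨C, K, hC, hb⟩ := h.bd 0
  refine ⟨C, K, hC, fun n y => ?_⟩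
  rw [← norm_iteratedFDeriv_zero (𝕜 := ℝ) (f := G n) (x := y)]
  exact hb n y

/-! ### Weights -/

theorem q_ge {q : ℕ → ℝ} (h4 : ∀ n, 4 ≤ q n) (hq : ∀ n, 4 * q n ≤ q (n + 1)) (n : ℕ) :
    (4 : ℝ) ^ n ≤ q n := by
  induction n with
  | zero => rw [pow_zero]; linarith [h4 0]
  | succ n ih => rw [pow_succ]; linarith [hq n]

theorem geo_sum (M : ℝ) : Summable fun n : ℕ => M * (4⁻¹ : ℝ) ^ n :=
  (summable_geometric_of_lt_one (by norm_num) (by norm_num)).mul_left M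

theorem geo_tsum (M : ℝ) : ∑' n : ℕ, M * (4⁻¹ : ℝ) ^ n = M * (4 / 3) := by
  rw [tsum_mul_left, tsum_geometric_of_lt_one (by norm_num) (by norm_num)]
  norm_num

theorem w_bd {q : ℕ → ℝ} (hq : ∀ n : ℕ, (4 : ℝ) ^ n ≤ q n) {k : ℕ} {a M : ℝ} {n : ℕ}
    (h : q n ^ (k + 1) * |a| ≤ M) : |a| * q n ^ k ≤ M * (4⁻¹ : ℝ) ^ n := by
  have h4 : (0 : ℝ) < 4 ^ n := by positivity
  have hq0 : 0 < q n := h4.trans_le (hq n)
  rw [inv_pow, ← div_eq_mul_inv, le_div_iff₀ h4]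
  calc |a| * q n ^ k * 4 ^ n ≤ |a| * q n ^ k * q n := by
        have := hq n
        gcongr
    _ = q n ^ (k + 1) * |a| := by ring
    _ ≤ M := h

theorem rq_bd {q : ℕ → ℝ} (hq : ∀ n : ℕ, (4 : ℝ) ^ n ≤ q n) {T : ℝ} {x : ℕ → ℝ → ℝ}
    (hx : RQT q T x) (k : ℕ) {T' : ℝ} (hT' : T' < T) :
    ∃ M, 0 ≤ M ∧ ∀ t ∈ Icc 0 T', ∀ n, |x n t| * q n ^ k ≤ M * (4⁻¹ : ℝ) ^ n := by
  obtain ⟨M, hM⟩ := hx (k + 1) T' hT'
  exact ⟨max M 0, le_max_right _ _, fun t ht n => w_bd hq ((hM t ht n).trans (le_max_left _ _))⟩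

/-! ### The series in space and time -/

/-- The series in space and time. -/
noncomputable def SS (G : ℕ → E3 → F) (b : ℕ → ℝ → ℝ) (z : ℝ × E3) : F :=
  ∑' n, b n z.1 • G n z.2

/-- The derivative of the `n`-th term. -/
noncomputable def Fd (G : ℕ → E3 → F) (b b' : ℕ → ℝ → ℝ) (n : ℕ) (z : ℝ × E3) :
    ℝ × E3 →L[ℝ] F :=
  xe b b' n z.1 • (fderiv ℝ (G n) z.2).comp (ContinuousLinearMap.snd ℝ ℝ E3) +
    (b' n (max z.1 0) • ContinuousLinearMap.fst ℝ ℝ E3).smulRight (G n z.2)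

theorem hasFDerivAt_term {q : ℕ → ℝ} {T : ℝ} {G : ℕ → E3 → F} (hG : GQ q G) {b b' : ℕ → ℝ → ℝ}
    (hb : ∀ n, ∀ t ∈ Ico 0 T, HasDerivWithinAt (b n) (b' n t) (Ico 0 T) t) (hT : 0 < T)
    (n : ℕ) (z : ℝ × E3) (hz : z.1 < T) :
    HasFDerivAt (fun z : ℝ × E3 => xe b b' n z.1 • G n z.2) (Fd G b b' n z) z := by
  have h1 : HasFDerivAt (fun z : ℝ × E3 => xe b b' n z.1)
      (b' n (max z.1 0) • ContinuousLinearMap.fst ℝ ℝ E3) z :=
    (hasDerivAt_xe hb hT n hz).comp_hasFDerivAt z hasFDerivAt_fst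
  have h0 : HasFDerivAt (G n) (fderiv ℝ (G n) z.2) z.2 :=
    ((hG.sm n).differentiable (by simp) _).hasFDerivAt
  have h2 : HasFDerivAt (fun z : ℝ × E3 => G n z.2)
      ((fderiv ℝ (G n) z.2).comp (ContinuousLinearMap.snd ℝ ℝ E3)) z :=
    h0.comp z hasFDerivAt_snd
  exact h1.smul h2

theorem Fd_bd {q : ℕ → ℝ} (hq : ∀ n : ℕ, (4 : ℝ) ^ n ≤ q n) {T : ℝ} {G : ℕ → E3 → F}
    (hG : GQ q G) {b b' : ℕ → ℝ → ℝ}
    (hrb : RQT q T b) (hrb' : RQT q T b') {T' : ℝ} (hT0 : 0 < T') (hT' : T' < T) :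
    ∃ M, ∀ n, ∀ z ∈ Ioo (-1) T' ×ˢ (univ : Set E3), ‖Fd G b b' n z‖ ≤ M * (4⁻¹ : ℝ) ^ n := by
  obtain ⟨C, K, hC0, hC⟩ := hG.b0
  obtain ⟨D, K', hD0, hD⟩ := hG.fd.b0
  obtain ⟨M1, hM10, hM1⟩ := rq_bd hq hrb K' hT'
  obtain ⟨M2, hM20, hM2⟩ := rq_bd hq hrb' K' hT'
  obtain ⟨M3, hM30, hM3⟩ := rq_bd hq hrb' K hT'
  refine ⟨(M1 + M2) * D + M3 * C, fun n z hz => ?_⟩
  have hz1 : z.1 ∈ Ioo (-1) T' := hz.1
  have hmax : max z.1 0 ∈ Icc 0 T' := ⟨le_max_right _ _, max_le hz1.2.le hT0.le⟩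
  have hq0 : 0 ≤ q n := le_trans (by positivity) (hq n)
  have hxe : |xe b b' n z.1| * q n ^ K' ≤ (M1 + M2) * (4⁻¹ : ℝ) ^ n := by
    have h1 := hM1 _ hmax n
    have h2 := hM2 0 ⟨le_rfl, hT0.le⟩ n
    have h3 : |min z.1 0| ≤ 1 := by
      rw [abs_le]
      constructor
      · exact le_min hz1.1.le (by norm_num)
      · exact (min_le_right _ _).trans (by norm_num)
    have h4 : |xe b b' n z.1| ≤ |b n (max z.1 0)| + |b' n 0| := by
      unfold xe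
      refine (abs_add_le _ _).trans ?_
      rw [abs_mul]
      have := mul_le_mul_of_nonneg_right h3 (abs_nonneg (b' n 0))
      linarith
    calc |xe b b' n z.1| * q n ^ K' ≤ (|b n (max z.1 0)| + |b' n 0|) * q n ^ K' :=
          mul_le_mul_of_nonneg_right h4 (by positivity)
      _ = |b n (max z.1 0)| * q n ^ K' + |b' n 0| * q n ^ K' := by ring
      _ ≤ M1 * (4⁻¹ : ℝ) ^ n + M2 * (4⁻¹ : ℝ) ^ n := add_le_add h1 h2
      _ = _ := by ring
  have hA : ‖xe b b' n z.1 • (fderiv ℝ (G n) z.2).comp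
      (ContinuousLinearMap.snd ℝ ℝ E3)‖ ≤ (M1 + M2) * (4⁻¹ : ℝ) ^ n * D := by
    rw [norm_smul, Real.norm_eq_abs]
    have h6 : ‖(fderiv ℝ (G n) z.2).comp
        (ContinuousLinearMap.snd ℝ ℝ E3)‖ ≤ D * q n ^ K' := by
      refine (ContinuousLinearMap.opNorm_comp_le _ _).trans ?_
      have h7 : ‖ContinuousLinearMap.snd ℝ ℝ E3‖ ≤ 1 := ContinuousLinearMap.norm_snd_le ..
      calc _ ≤ (D * q n ^ K') * 1 := mul_le_mul (hD _ _) h7 (norm_nonneg _) (by positivity)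
        _ = _ := mul_one _
    calc |xe b b' n z.1| * _ ≤ |xe b b' n z.1| * (D * q n ^ K') :=
          mul_le_mul_of_nonneg_left h6 (abs_nonneg _)
      _ = |xe b b' n z.1| * q n ^ K' * D := by ring
      _ ≤ _ := mul_le_mul_of_nonneg_right hxe hD0
  have hB : ‖(b' n (max z.1 0) • ContinuousLinearMap.fst ℝ ℝ E3).smulRight
      (G n z.2)‖ ≤ M3 * (4⁻¹ : ℝ) ^ n * C := by
    rw [ContinuousLinearMap.norm_smulRight_apply, norm_smul, Real.norm_eq_abs]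
    have h7 : ‖ContinuousLinearMap.fst ℝ ℝ E3‖ ≤ 1 := ContinuousLinearMap.norm_fst_le ..
    have h9 := hM3 _ hmax n
    calc |b' n (max z.1 0)| * ‖ContinuousLinearMap.fst ℝ ℝ E3‖ * ‖G n z.2‖
        ≤ |b' n (max z.1 0)| * 1 * (C * q n ^ K) := by
          refine mul_le_mul (mul_le_mul_of_nonneg_left h7 (abs_nonneg _))
            (hC _ _) (norm_nonneg _) (by positivity)
      _ = |b' n (max z.1 0)| * q n ^ K * C := by ring
      _ ≤ _ := mul_le_mul_of_nonneg_right h9 hC0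
  calc ‖Fd G b b' n z‖ ≤ (M1 + M2) * (4⁻¹ : ℝ) ^ n * D + M3 * (4⁻¹ : ℝ) ^ n * C :=
        (norm_add_le _ _).trans (add_le_add hA hB)
    _ = _ := by ring

theorem S_summable [CompleteSpace F] {q : ℕ → ℝ} (hq : ∀ n : ℕ, (4 : ℝ) ^ n ≤ q n)
    {G : ℕ → E3 → F} (hG : GQ q G) {a : ℕ → ℝ}
    (ha : ∀ k : ℕ, ∃ M, ∀ n, q n ^ k * |a n| ≤ M) (y : E3) : Summable fun n => a n • G n y := by
  obtain ⟨C, K, hC0, hC⟩ := hG.b0
  obtain ⟨M, hM⟩ := ha (K + 1)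
  refine Summable.of_norm_bounded (geo_sum (M * C)) fun n => ?_
  have hq0 : 0 ≤ q n := le_trans (by positivity) (hq n)
  rw [norm_smul, Real.norm_eq_abs]
  calc |a n| * ‖G n y‖ ≤ |a n| * (C * q n ^ K) :=
        mul_le_mul_of_nonneg_left (hC _ _) (abs_nonneg _)
    _ = |a n| * q n ^ K * C := by ring
    _ ≤ M * (4⁻¹ : ℝ) ^ n * C := mul_le_mul_of_nonneg_right (w_bd hq (hM n)) hC0
    _ = _ := by ring

theorem rq_rap {q : ℕ → ℝ} {T : ℝ} {b : ℕ → ℝ → ℝ} (hb : RQT q T b) {t : ℝ} (ht : t ∈ Ico 0 T) :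
    ∀ k : ℕ, ∃ M, ∀ n, q n ^ k * |b n t| ≤ M := by
  intro k
  obtain ⟨M, hM⟩ := hb k t ht.2
  exact ⟨M, fun n => hM t ⟨ht.1, le_rfl⟩ n⟩

/-- The derivative of the series. -/
noncomputable def LL (G : ℕ → E3 → F) (b b' : ℕ → ℝ → ℝ) (z : ℝ × E3) : ℝ × E3 →L[ℝ] F :=
  (SS (fun n => fderiv ℝ (G n)) b z).comp (ContinuousLinearMap.snd ℝ ℝ E3) +
    (ContinuousLinearMap.fst ℝ ℝ E3).smulRight (SS G b' z)

theorem tsum_Fd [CompleteSpace F] {q : ℕ → ℝ} (hq : ∀ n : ℕ, (4 : ℝ) ^ n ≤ q n) {T : ℝ}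
    {G : ℕ → E3 → F} (hG : GQ q G)
    {b b' : ℕ → ℝ → ℝ} (hrb : RQT q T b) (hrb' : RQT q T b') {z : ℝ × E3}
    (hz : z.1 ∈ Ico 0 T) : ∑' n, Fd G b b' n z = LL G b b' z := by
  have h1 := (S_summable hq hG.fd (rq_rap hrb hz) z.2).hasSum
  have h2 := (S_summable hq hG (rq_rap hrb' hz) z.2).hasSum
  have h3 := ((ContinuousLinearMap.compL ℝ (ℝ × E3) E3 F).flip
    (ContinuousLinearMap.snd ℝ ℝ E3)).hasSum h1
  have h4 := (ContinuousLinearMap.smulRightL ℝ (ℝ × E3) F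
    (ContinuousLinearMap.fst ℝ ℝ E3)).hasSum h2
  have h5 := h3.add h4
  have h6 : (fun n => Fd G b b' n z) = fun n =>
      ((ContinuousLinearMap.compL ℝ (ℝ × E3) E3 F).flip (ContinuousLinearMap.snd ℝ ℝ E3))
        (b n z.1 • fderiv ℝ (G n) z.2) +
      (ContinuousLinearMap.smulRightL ℝ (ℝ × E3) F (ContinuousLinearMap.fst ℝ ℝ E3))
        (b' n z.1 • G n z.2) := by
    funext n
    unfold Fd
    rw [xe_of_nonneg b b' n hz.1, max_eq_left hz.1]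
    congr 1
    refine ContinuousLinearMap.ext fun v => ?_
    show (b' n z.1 * v.1) • G n z.2 = v.1 • (b' n z.1 • G n z.2)
    rw [smul_smul, mul_comm]
  rw [h6]
  exact h5.tsum_eq

theorem SS_hasFDerivWithinAt [CompleteSpace F] {q : ℕ → ℝ} (hq : ∀ n : ℕ, (4 : ℝ) ^ n ≤ q n)
    {T : ℝ} {G : ℕ → E3 → F} (hG : GQ q G)
    {b b' : ℕ → ℝ → ℝ} (hrb : RQT q T b) (hrb' : RQT q T b')
    (hb : ∀ n, ∀ t ∈ Ico 0 T, HasDerivWithinAt (b n) (b' n t) (Ico 0 T) t) {z : ℝ × E3}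
    (hz : z.1 ∈ Ico 0 T) :
    HasFDerivWithinAt (SS G b) (LL G b b' z) (Ico 0 T ×ˢ univ) z := by
  obtain ⟨T', hT1, hT'⟩ := exists_between hz.2
  have hT0 : 0 < T' := lt_of_le_of_lt hz.1 hT1
  have hT : 0 < T := hT0.trans hT'
  have key : HasFDerivAt (fun z : ℝ × E3 => ∑' n, xe b b' n z.1 • G n z.2)
        (∑' n, Fd G b b' n z) z := by
    obtain ⟨M, hM⟩ := Fd_bd hq hG hrb hrb' hT0 hT'
    have ho' : IsOpen (Ioo (-1) T' ×ˢ (univ : Set E3)) := isOpen_Ioo.prod isOpen_univ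
    have hpc : IsPreconnected (Ioo (-1) T' ×ˢ (univ : Set E3)) :=
      isPreconnected_Ioo.prod isPreconnected_univ
    have hz0 : ((0 : ℝ), (0 : E3)) ∈ Ioo (-1) T' ×ˢ (univ : Set E3) :=
      ⟨⟨by norm_num, hT0⟩, mem_univ _⟩
    refine hasFDerivAt_tsum_of_isPreconnected (geo_sum M) ho' hpc
      (fun n w hw => hasFDerivAt_term hG hb hT n w (lt_trans hw.1.2 hT'))
      (fun n w hw => hM n w hw) hz0 ?_ ⟨⟨by linarith [hz.1], hT1⟩, mem_univ _⟩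
    have h1 : (fun n => xe b b' n ((0 : ℝ), (0 : E3)).1 • G n ((0 : ℝ), (0 : E3)).2) =
        fun n => b n ((0 : ℝ), (0 : E3)).1 • G n ((0 : ℝ), (0 : E3)).2 := by
      funext n
      rw [xe_of_nonneg b b' n le_rfl]
    rw [h1]
    exact S_summable hq hG (rq_rap hrb ⟨le_rfl, hT⟩) _
  rw [tsum_Fd hq hG hrb hrb' hz] at key
  refine key.hasFDerivWithinAt.congr (fun w hw => ?_) ?_
  · unfold SS
    congr 1
    ext1 n
    rw [xe_of_nonneg b b' n hw.1.1]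
  · unfold SS
    congr 1
    ext1 n
    rw [xe_of_nonneg b b' n hz.1]

end

theorem SS_contDiffOn {q : ℕ → ℝ} (hq : ∀ n : ℕ, (4 : ℝ) ^ n ≤ q n) {T : ℝ} (N : ℕ) :
    ∀ (F : Type) [NormedAddCommGroup F] [NormedSpace ℝ F] [CompleteSpace F] (G : ℕ → E3 → F)
      (y : ℕ → ℕ → ℝ → ℝ), GQ q G → (∀ k, RQT q T (y k)) →
      (∀ k n, ∀ t ∈ Ico 0 T, HasDerivWithinAt (y k n) (y (k + 1) n t) (Ico 0 T) t) →
      ContDiffOn ℝ N (SS G (y 0)) (Ico 0 T ×ˢ univ) := by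
  induction N with
  | zero =>
    intro F _ _ _ G y hG hr hd
    rw [Nat.cast_zero, contDiffOn_zero]
    intro z hz
    exact (SS_hasFDerivWithinAt hq hG (hr 0) (hr 1) (fun n => hd 0 n) hz.1).continuousWithinAt
  | succ N ih =>
    intro F _ _ _ G y hG hr hd
    have hu : UniqueDiffOn ℝ (Ico (0 : ℝ) T ×ˢ (univ : Set E3)) :=
      (uniqueDiffOn_Ico 0 T).prod uniqueDiffOn_univ
    rw [Nat.cast_add, Nat.cast_one, contDiffOn_succ_iff_hasFDerivWithinAt_of_uniqueDiffOn hu]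
    refine ⟨by simp, LL G (y 0) (y 1), ?_, fun z hz =>
      SS_hasFDerivWithinAt hq hG (hr 0) (hr 1) (fun n => hd 0 n) hz.1⟩
    have h1 : ContDiffOn ℝ N (SS (fun n => fderiv ℝ (G n)) (y 0)) (Ico 0 T ×ˢ univ) :=
      ih (E3 →L[ℝ] F) (fun n => fderiv ℝ (G n)) y hG.fd hr hd
    have h2 : ContDiffOn ℝ N (SS G (y 1)) (Ico 0 T ×ˢ univ) :=
      ih F G (fun k => y (k + 1)) hG (fun k => hr (k + 1)) (fun k => hd (k + 1))
    have h3 := ((ContinuousLinearMap.compL ℝ (ℝ × E3) E3 F).flip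
      (ContinuousLinearMap.snd ℝ ℝ E3)).contDiff.comp_contDiffOn h1
    have h4 := (ContinuousLinearMap.smulRightL ℝ (ℝ × E3) F
      (ContinuousLinearMap.fst ℝ ℝ E3)).contDiff.comp_contDiffOn h2
    exact h3.add h4

/-! ### The series in space -/

section space

variable {F : Type} [NormedAddCommGroup F] [NormedSpace ℝ F]

/-- The series in space. -/
noncomputable def S (G : ℕ → E3 → F) (a : ℕ → ℝ) (y : E3) : F := ∑' n, a n • G n y

theorem S_hasFDerivAt [CompleteSpace F] {q : ℕ → ℝ} (hq : ∀ n : ℕ, (4 : ℝ) ^ n ≤ q n)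
    {G : ℕ → E3 → F} (hG : GQ q G) {a : ℕ → ℝ}
    (ha : ∀ k : ℕ, ∃ M, ∀ n, q n ^ k * |a n| ≤ M) (y : E3) :
    HasFDerivAt (S G a) (S (fun n => fderiv ℝ (G n)) a y) y := by
  obtain ⟨C, K, hC0, hC⟩ := hG.fd.b0
  obtain ⟨M, hM⟩ := ha (K + 1)
  refine hasFDerivAt_tsum (u := fun n => M * C * (4⁻¹ : ℝ) ^ n)
    (f := fun n y => a n • G n y)
    (f' := fun n y => a n • fderiv ℝ (G n) y) (x₀ := 0)
    (geo_sum (M * C)) ?_ ?_ (S_summable hq hG ha 0) y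
  · intro n x
    exact (((hG.sm n).differentiable (by simp)).differentiableAt.hasFDerivAt).const_smul (a n)
  · intro n x
    have hq0 : 0 ≤ q n := le_trans (by positivity) (hq n)
    rw [norm_smul, Real.norm_eq_abs]
    calc |a n| * ‖fderiv ℝ (G n) x‖ ≤ |a n| * (C * q n ^ K) :=
          mul_le_mul_of_nonneg_left (hC _ _) (abs_nonneg _)
      _ = |a n| * q n ^ K * C := by ring
      _ ≤ M * (4⁻¹ : ℝ) ^ n * C := mul_le_mul_of_nonneg_right (w_bd hq (hM n)) hC0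
      _ = _ := by ring

theorem S_out {q : ℕ → ℝ} {G : ℕ → E3 → F} (hG : GQ q G) {a : ℕ → ℝ} {y : E3}
    (hy : 1 / 2 < ‖y‖) : S G a y = 0 := by
  unfold S
  have : ∀ n, a n • G n y = 0 := fun n => by rw [hG.out n y hy, smul_zero]
  simp [this]

/-- The bound of the series, uniformly in the coefficients. -/
theorem S_dec {q : ℕ → ℝ} (hq : ∀ n : ℕ, (4 : ℝ) ^ n ≤ q n) {G : ℕ → E3 → F} (hG : GQ q G) :
    ∃ (C : ℝ) (K : ℕ), 0 ≤ C ∧ ∀ (a : ℕ → ℝ) (M : ℝ), (∀ n, q n ^ K * |a n| ≤ M) →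
      ∀ y, (1 + ‖y‖) ^ 2 * ‖S G a y‖ ≤ C * M := by
  obtain ⟨C, K, hC0, hC⟩ := hG.b0
  refine ⟨3 * C, K + 1, by positivity, fun a M hM y => ?_⟩
  have hM0 : 0 ≤ M := by
    refine le_trans ?_ (hM 0)
    have : 0 ≤ q 0 := le_trans (by positivity) (hq 0)
    positivity
  by_cases hy : ‖y‖ ≤ 1 / 2
  · have h1 : ‖S G a y‖ ≤ M * C * (4 / 3) := by
      rw [← geo_tsum]
      refine tsum_of_norm_bounded (geo_sum (M * C)).hasSum fun n => ?_
      have hq0 : 0 ≤ q n := le_trans (by positivity) (hq n)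
      rw [norm_smul, Real.norm_eq_abs]
      calc |a n| * ‖G n y‖ ≤ |a n| * (C * q n ^ K) :=
            mul_le_mul_of_nonneg_left (hC _ _) (abs_nonneg _)
        _ = |a n| * q n ^ K * C := by ring
        _ ≤ M * (4⁻¹ : ℝ) ^ n * C := mul_le_mul_of_nonneg_right (w_bd hq (hM n)) hC0
        _ = _ := by ring
    have h3 : (1 + ‖y‖) ^ 2 ≤ 9 / 4 := by nlinarith [norm_nonneg y]
    calc _ ≤ 9 / 4 * (M * C * (4 / 3)) := mul_le_mul h3 h1 (norm_nonneg _) (by norm_num)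
      _ = _ := by ring
  · rw [S_out hG (not_le.1 hy), norm_zero, mul_zero]
    positivity

end space

/-- the packets -/
theorem packets {q Λ b V γ : ℕ → ℝ} {β lam N : ℝ} {P : ℕ → E3 → E3}
    {r : Fin 4 × ℕ → E3 → E3} (hT : TY q Λ b V γ β lam N P r) (h4 : ∀ n, 4 ≤ q n) : GQ q P := by
  refine ⟨hT.sm, fun n y hy => hT.out n y ?_, fun j => ?_⟩
  · have h1 : 1 ≤ q n ^ 2 := by nlinarith [h4 n]
    nlinarith [norm_nonneg y]
  · obtain ⟨C, K, h⟩ := hT.pbd j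
    refine ⟨|C|, K, abs_nonneg _, fun n y => (h n y).trans ?_⟩
    have : 0 ≤ q n ^ K := pow_nonneg (by linarith [h4 n]) K
    exact mul_le_mul_of_nonneg_right (le_abs_self C) this

end Z1

open Z1 in
/-- (Z1) Regularity of the flow. -/
theorem t_Z1 : S_Z1 := by
  intro T q Λ b V γ β lam N P r X hT0 hTY h4 hqq hsm
  have hq := q_ge h4 hqq
  have hG := packets hTY h4
  obtain ⟨y, hy0, hyr, hyd⟩ := hsm
  have hX : RQT q T X := hy0 ▸ hyr 0
  have hd0 : ∀ n, ∀ t ∈ Ico 0 T, HasDerivWithinAt (X n) (y 1 n t) (Ico 0 T) t := by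
    intro n t ht
    have := hyd 0 n t ht
    rwa [hy0] at this
  have hu : UniqueDiffOn ℝ (Ico (0 : ℝ) T) := uniqueDiffOn_Ico 0 T
  have hfd : ∀ t ∈ Ico 0 T, ∀ z, fderiv ℝ (gU P X t) z =
      Z1.S (fun n => fderiv ℝ (P n)) (fun n => X n t) z := by
    intro t ht z
    exact (S_hasFDerivAt hq hG (rq_rap hX ht) z).fderiv
  have hfdv : ∀ t ∈ Ico 0 T, ∀ v, (fun z => fderiv ℝ (gU P X t) z v) =
      Z1.S (fun n z => fderiv ℝ (P n) z v) (fun n => X n t) := by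
    intro t ht v
    funext z
    rw [hfd t ht z]
    exact (ContinuousLinearMap.apply ℝ E3 v).map_tsum (S_summable hq hG.fd (rq_rap hX ht) z)
  have hdt : ∀ t ∈ Ico 0 T, ∀ z, dt T (gU P X) t z = Z1.S P (fun n => y 1 n t) z := by
    intro t ht z
    have h1 := SS_hasFDerivWithinAt hq hG hX (hyr 1) hd0 (z := (t, z)) ht
    have h2 : HasDerivWithinAt (fun τ : ℝ => (τ, z)) ((1 : ℝ), (0 : E3)) (Ico 0 T) t :=
      (hasDerivWithinAt_id t _).prodMk (hasDerivWithinAt_const t _ z)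
    have hmap : MapsTo (fun τ : ℝ => (τ, z)) (Ico 0 T) (Ico 0 T ×ˢ (univ : Set E3)) :=
      fun τ hτ => ⟨hτ, mem_univ _⟩
    have h3 := h1.comp_hasDerivWithinAt t h2 hmap
    have h4 : LL P X (y 1) (t, z) ((1 : ℝ), (0 : E3)) = Z1.S P (fun n => y 1 n t) z := by
      unfold LL
      show SS (fun n => fderiv ℝ (P n)) X (t, z) (0 : E3) + (1 : ℝ) • SS P (y 1) (t, z) = _
      rw [map_zero, zero_add, one_smul]
      rfl
    rw [h4] at h3
    exact h3.derivWithin (hu t ht)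
  refine ⟨?_, fun t ht => ⟨?_, ?_, ?_⟩, ?_⟩
  · rw [contDiffOn_infty]
    intro M
    have h := SS_contDiffOn (T := T) hq M E3 P y hG hyr hyd
    rw [hy0] at h
    exact h
  · intro z hz
    show ∑' n, X n t • P n z = 0
    have : ∀ n, X n t • P n z = 0 := fun n => by
      rw [hTY.out n z, smul_zero]
      have h1 : 1 ≤ q n ^ 2 := by nlinarith [h4 n]
      nlinarith [norm_nonneg z]
    simp [this]
  · intro z
    unfold divg
    rw [hfd t ht z]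
    obtain ⟨φ, hφ⟩ : ∃ φ : (E3 →L[ℝ] E3) →L[ℝ] ℝ, ∀ A, φ A = ∑ i : Fin 3, (A (bv i)) i := by
      refine ⟨∑ i : Fin 3, (EuclideanSpace.proj i : E3 →L[ℝ] ℝ).comp
        (ContinuousLinearMap.apply ℝ E3 (bv i)), fun A => ?_⟩
      simp
    rw [← hφ]
    have h1 := φ.map_tsum (S_summable hq hG.fd (rq_rap hX ht) z)
    have h2 : φ (Z1.S (fun n => fderiv ℝ (P n)) (fun n => X n t) z) =
        ∑' n, φ (X n t • fderiv ℝ (P n) z) := h1
    rw [h2]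
    have h3 : ∀ n, φ (X n t • fderiv ℝ (P n) z) = 0 := by
      intro n
      rw [map_smul, hφ]
      have := hTY.div n z
      unfold divg at this
      rw [this, smul_zero]
    simp [h3]
  · intro z
    rw [hdt t ht z]
    unfold Z1.S sp
    congr 1
    funext n
    show y 1 n t • P n z = derivWithin (X n) (Ico 0 T) t • P n z
    rw [(hd0 n t ht).derivWithin (hu t ht)]
  · intro T' hT'
    obtain ⟨C0, K0, hC0, h0⟩ := Z1.S_dec hq hG
    obtain ⟨C1, K1, hC1, h1⟩ := Z1.S_dec hq hG.fd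
    choose C2 K2 hC2 h2 using fun i : Fin 3 => Z1.S_dec hq (hG.app (bv i)).fd
    obtain ⟨M0, hM0⟩ := hX K0 T' hT'
    obtain ⟨M1, hM1⟩ := hX K1 T' hT'
    choose M2 hM2 using fun i : Fin 3 => hX (K2 i) T' hT'
    obtain ⟨M3, hM3⟩ := hyr 1 K0 T' hT'
    refine ⟨|C0 * M0| + |C1 * M1| + ∑ i : Fin 3, |C2 i * M2 i| + |C0 * M3|,
      fun t ht => ⟨⟨?_, ?_, ?_⟩, ?_⟩⟩
    · intro z
      refine (h0 (fun n => X n t) M0 (fun n => hM0 t ht n) z).trans ?_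
      have e1 := le_abs_self (C0 * M0)
      have e2 := abs_nonneg (C1 * M1)
      have e3 : 0 ≤ ∑ i : Fin 3, |C2 i * M2 i| := Finset.sum_nonneg fun _ _ => abs_nonneg _
      have e4 := abs_nonneg (C0 * M3)
      linarith
    · intro z
      rw [hfd t ⟨ht.1, ht.2.trans_lt hT'⟩ z]
      refine (h1 (fun n => X n t) M1 (fun n => hM1 t ht n) z).trans ?_
      have e1 := abs_nonneg (C0 * M0)
      have e2 := le_abs_self (C1 * M1)
      have e3 : 0 ≤ ∑ i : Fin 3, |C2 i * M2 i| := Finset.sum_nonneg fun _ _ => abs_nonneg _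
      have e4 := abs_nonneg (C0 * M3)
      linarith
    · intro z i j
      have htT : t ∈ Ico 0 T := ⟨ht.1, ht.2.trans_lt hT'⟩
      rw [hfdv t htT (bv i), (S_hasFDerivAt hq (hG.app (bv i)) (rq_rap hX htT) z).fderiv]
      have h5 := h2 i (fun n => X n t) (M2 i) (fun n => hM2 i t ht n) z
      have h6 : ‖bv j‖ = 1 := by
        unfold bv
        simp
      have h7 := (Z1.S (fun n => fderiv ℝ (fun z => fderiv ℝ (P n) z (bv i)))
        (fun n => X n t) z).le_opNorm (bv j)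
      rw [h6, mul_one] at h7
      have e1 := abs_nonneg (C0 * M0)
      have e2 := abs_nonneg (C1 * M1)
      have e3 : |C2 i * M2 i| ≤ ∑ i : Fin 3, |C2 i * M2 i| :=
        Finset.single_le_sum (f := fun i => |C2 i * M2 i|) (fun _ _ => abs_nonneg _)
          (Finset.mem_univ i)
      have e4 := abs_nonneg (C0 * M3)
      have e5 := le_abs_self (C2 i * M2 i)
      calc _ ≤ (1 + ‖z‖) ^ 2 * ‖Z1.S (fun n => fderiv ℝ (fun z => fderiv ℝ (P n) z (bv i)))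
            (fun n => X n t) z‖ := by gcongr
        _ ≤ C2 i * M2 i := h5
        _ ≤ _ := by linarith
    · intro z
      rw [hdt t ⟨ht.1, ht.2.trans_lt hT'⟩ z]
      refine (h0 (fun n => y 1 n t) M3 (fun n => hM3 t ht n) z).trans ?_
      have e1 := abs_nonneg (C0 * M0)
      have e2 := abs_nonneg (C1 * M1)
      have e3 : 0 ≤ ∑ i : Fin 3, |C2 i * M2 i| := Finset.sum_nonneg fun _ _ => abs_nonneg _
      have e4 := le_abs_self (C0 * M3)
      linarith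

end Pool.Agent.N976.UE
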