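import Pool.Agent.N976.UE.Def

/-!
# Energy concentration without force: the residual is the sum of the reaction forces
-/

open Set Filter Topology MeasureTheory
open scoped ContDiff InnerProductSpace

set_option autoImplicit false
set_option linter.unusedSectionVars false

namespace Pool.Agent.N976.UE

open Pool.Agent.N976.SC Pool.Agent.N976.EN

namespace Z2

/-- The scales. -/
structure Lac (q : ℕ → ℝ) : Prop where
  q2 : ∀ n, 4 ≤ q n
  qq : ∀ n, 4 * q n ≤ q (n + 1)

namespace Lac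

variable {q : ℕ → ℝ} (hq : Lac q)
include hq

theorem pos (n : ℕ) : 0 < q n := by linarith [hq.q2 n]

theorem one_le (n : ℕ) : 1 ≤ q n := by linarith [hq.q2 n]

theorem grow (n m : ℕ) : 4 ^ m * q n ≤ q (n + m) := by
  induction m with
  | zero => simp
  | succ m ih =>
    have h := hq.qq (n + m)
    rw [pow_succ]
    calc (4 : ℝ) ^ m * 4 * q n = 4 * (4 ^ m * q n) := by ring
      _ ≤ 4 * q (n + m) := by linarith
      _ ≤ q (n + (m + 1)) := h

theorem mono {m n : ℕ} (h : m ≤ n) : q m ≤ q n := by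
  obtain ⟨j, rfl⟩ := Nat.exists_eq_add_of_le h
  refine le_trans ?_ (hq.grow m j)
  have h1 := hq.pos m
  have h2 : (1 : ℝ) ≤ 4 ^ j := one_le_pow₀ (by norm_num)
  nlinarith

theorem four_pow (n : ℕ) : (4 : ℝ) ^ n ≤ q n := by
  have h := hq.grow 0 n
  rw [zero_add] at h
  refine le_trans ?_ h
  have h1 := hq.one_le 0
  have h2 : (0 : ℝ) ≤ 4 ^ n := by positivity
  nlinarith

theorem nat_le (n : ℕ) : (n : ℝ) ≤ q n := by
  refine le_trans ?_ (hq.four_pow n)
  exact_mod_cast (Nat.lt_pow_self (by norm_num : 1 < 4)).le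

end Lac

/-- Rapid decay. -/
def Ra (q a : ℕ → ℝ) : Prop := ∀ k : ℕ, ∃ M, ∀ n, q n ^ k * |a n| ≤ M

/-- Polynomial bounds. -/
def Po {V : Type} [NormedAddCommGroup V] (q : ℕ → ℝ) (X : ℕ → V) : Prop :=
  ∃ (C : ℝ) (K : ℕ), 0 ≤ C ∧ ∀ n, ‖X n‖ ≤ C * q n ^ K

section po

variable {V : Type} [NormedAddCommGroup V] [NormedSpace ℝ V] {q : ℕ → ℝ} (hq : Lac q)
include hq

theorem Po.of_le {X : ℕ → V} {C : ℝ} {K : ℕ} (h : ∀ n, ‖X n‖ ≤ C * q n ^ K) : Po q X := by
  refine ⟨C, K, ?_, h⟩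
  have h1 := (norm_nonneg _).trans (h 0)
  have h2 := hq.pos 0
  by_contra hc
  have : C * q 0 ^ K < 0 := mul_neg_of_neg_of_pos (not_le.1 hc) (by positivity)
  linarith

theorem Po.add {X Y : ℕ → V} (hX : Po q X) (hY : Po q Y) : Po q (fun n => X n + Y n) := by
  obtain ⟨C, K, hC, h⟩ := hX
  obtain ⟨D, L, hD, h'⟩ := hY
  refine ⟨C + D, K + L, by positivity, fun n => ?_⟩
  have h1 := hq.one_le n
  have h2 : q n ^ K ≤ q n ^ (K + L) := pow_le_pow_right₀ h1 (by omega)
  have h3 : q n ^ L ≤ q n ^ (K + L) := pow_le_pow_right₀ h1 (by omega)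
  calc ‖X n + Y n‖ ≤ ‖X n‖ + ‖Y n‖ := norm_add_le _ _
    _ ≤ C * q n ^ K + D * q n ^ L := add_le_add (h n) (h' n)
    _ ≤ C * q n ^ (K + L) + D * q n ^ (K + L) := by gcongr
    _ = _ := by ring

omit [NormedSpace ℝ V] hq in
theorem Po.neg {X : ℕ → V} (hX : Po q X) : Po q (fun n => -X n) := by
  obtain ⟨C, K, hC, h⟩ := hX
  exact ⟨C, K, hC, fun n => by rw [norm_neg]; exact h n⟩

theorem Po.sub {X Y : ℕ → V} (hX : Po q X) (hY : Po q Y) : Po q (fun n => X n - Y n) := by
  have := hX.add hq hY.neg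
  simpa only [← sub_eq_add_neg] using this

theorem Po.const (v : V) : Po q (fun _ => v) :=
  ⟨‖v‖, 0, norm_nonneg _, fun n => by simp⟩

theorem Po.smul {c : ℕ → ℝ} {X : ℕ → V} (hc : Po q c) (hX : Po q X) :
    Po q (fun n => c n • X n) := by
  obtain ⟨C, K, hC, h⟩ := hX
  obtain ⟨D, L, hD, h'⟩ := hc
  refine ⟨D * C, L + K, by positivity, fun n => ?_⟩
  have h1 := hq.pos n
  rw [norm_smul]
  calc ‖c n‖ * ‖X n‖ ≤ (D * q n ^ L) * (C * q n ^ K) := by
        gcongr
        · exact h' n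
        · exact h n
    _ = _ := by ring

theorem Po.sum {X : ℕ → V} (hX : Po q X) : Po q (fun n => ∑ j ∈ Finset.range n, X j) := by
  obtain ⟨C, K, hC, h⟩ := hX
  refine ⟨C, K + 1, hC, fun n => ?_⟩
  have h1 := hq.pos n
  calc ‖∑ j ∈ Finset.range n, X j‖ ≤ ∑ j ∈ Finset.range n, ‖X j‖ := norm_sum_le _ _
    _ ≤ ∑ j ∈ Finset.range n, C * q n ^ K := by
        refine Finset.sum_le_sum fun j hj => (h j).trans ?_
        have h2 := hq.mono (Finset.mem_range.1 hj).le
        have h3 := hq.pos j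
        gcongr
    _ = n * (C * q n ^ K) := by rw [Finset.sum_const, Finset.card_range, nsmul_eq_mul]
    _ ≤ q n * (C * q n ^ K) := by
        gcongr
        exact hq.nat_le n
    _ = _ := by ring

omit hq in
theorem Po.norm {X : ℕ → V} (hX : Po q X) : Po q (fun n => ‖X n‖) := by
  obtain ⟨C, K, hC, h⟩ := hX
  exact ⟨C, K, hC, fun n => by rw [norm_norm]; exact h n⟩

theorem Ra.po {a : ℕ → ℝ} (ha : Ra q a) : Po q a := by
  obtain ⟨M, hM⟩ := ha 0
  exact Po.of_le hq (C := M) (K := 0) fun n => by simpa using hM n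

theorem Ra.mul {a c : ℕ → ℝ} (ha : Ra q a) (hc : Po q c) : Ra q (fun n => c n * a n) := by
  obtain ⟨C, K, hC, h⟩ := hc
  intro k
  obtain ⟨M, hM⟩ := ha (k + K)
  refine ⟨C * M, fun n => ?_⟩
  have h1 := hq.pos n
  have h2 : |c n| ≤ C * q n ^ K := h n
  calc q n ^ k * |c n * a n| = q n ^ k * (|c n| * |a n|) := by rw [abs_mul]
    _ ≤ q n ^ k * ((C * q n ^ K) * |a n|) := by gcongr
    _ = C * (q n ^ (k + K) * |a n|) := by ring
    _ ≤ C * M := by gcongr; exact hM n

theorem Ra.sum {a : ℕ → ℝ} (ha : Ra q a) {X : ℕ → V} (hX : Po q X) :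
    Summable fun n => ‖a n • X n‖ := by
  obtain ⟨C, K, hC, h⟩ := hX
  obtain ⟨M, hM⟩ := ha (K + 1)
  have hgeo : Summable (fun n : ℕ => C * M * (1 / 4 : ℝ) ^ n) :=
    (summable_geometric_of_lt_one (by norm_num) (by norm_num)).mul_left _
  refine Summable.of_nonneg_of_le (fun n => norm_nonneg _) (fun n => ?_) hgeo
  have h1 := hq.pos n
  have h4 := hq.four_pow n
  rw [norm_smul, Real.norm_eq_abs]
  have h5 : |a n| * q n ^ K ≤ M / q n := by
    rw [le_div_iff₀ h1]
    calc |a n| * q n ^ K * q n = q n ^ (K + 1) * |a n| := by ring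
      _ ≤ M := hM n
  have hM0 : 0 ≤ M := by
    refine le_trans ?_ (hM 0)
    have := hq.pos 0
    positivity
  calc |a n| * ‖X n‖ ≤ |a n| * (C * q n ^ K) := by gcongr; exact h n
    _ = C * (|a n| * q n ^ K) := by ring
    _ ≤ C * (M / q n) := by gcongr
    _ ≤ C * (M / 4 ^ n) := by gcongr
    _ = _ := by rw [one_div, inv_pow]; ring

theorem Ra.sq {a : ℕ → ℝ} (ha : Ra q a) : Ra q (fun n => a n ^ 2) := by
  have := ha.mul hq (ha.po hq)
  simpa only [← pow_two] using this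

theorem Ra.tail_aux {a : ℕ → ℝ} (ha : Ra q a) (k : ℕ) :
    ∃ M, 0 ≤ M ∧ ∀ n m, q n ^ k * a (n + m) ^ 2 ≤ M * (1 / 4 : ℝ) ^ m := by
  obtain ⟨M, hM⟩ := ha.sq hq (k + 1)
  have hM0 : 0 ≤ M := by
    refine le_trans ?_ (hM 0)
    have := hq.pos 0
    positivity
  refine ⟨M, hM0, fun n m => ?_⟩
  have h1 := hq.pos n
  have h2 := hq.pos (n + m)
  have h3 := hM (n + m)
  rw [abs_of_nonneg (sq_nonneg _)] at h3
  have h4 : 4 ^ m * q n ^ k ≤ q (n + m) ^ (k + 1) := by
    rw [pow_succ, mul_comm]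
    have h5 := hq.mono (Nat.le_add_right n m)
    have h6 : (4 : ℝ) ^ m ≤ q (n + m) := by
      refine le_trans ?_ (hq.grow n m)
      have := hq.one_le n
      have h7 : (0 : ℝ) < 4 ^ m := by positivity
      nlinarith
    gcongr
  rw [one_div, inv_pow, ← div_eq_mul_inv, le_div_iff₀ (by positivity)]
  calc q n ^ k * a (n + m) ^ 2 * 4 ^ m = (4 ^ m * q n ^ k) * a (n + m) ^ 2 := by ring
    _ ≤ q (n + m) ^ (k + 1) * a (n + m) ^ 2 := by gcongr
    _ ≤ M := h3

theorem Ra.tail_sum {a : ℕ → ℝ} (ha : Ra q a) (n : ℕ) : Summable fun m => a (n + m) ^ 2 := by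
  obtain ⟨M, hM0, hM⟩ := ha.tail_aux hq 0
  refine Summable.of_nonneg_of_le (fun m => sq_nonneg _) (fun m => ?_)
    ((summable_geometric_of_lt_one (by norm_num) (by norm_num : (1 / 4 : ℝ) < 1)).mul_left M)
  simpa using hM n m

theorem Ra.tail {a : ℕ → ℝ} (ha : Ra q a) : Ra q (fun n => ∑' m : ℕ, a (n + m) ^ 2) := by
  intro k
  obtain ⟨M, hM0, hM⟩ := ha.tail_aux hq k
  have hgeo : Summable (fun n : ℕ => M * (1 / 4 : ℝ) ^ n) :=
    (summable_geometric_of_lt_one (by norm_num) (by norm_num)).mul_left _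
  refine ⟨∑' m, M * (1 / 4 : ℝ) ^ m, fun n => ?_⟩
  rw [abs_of_nonneg (tsum_nonneg fun m => sq_nonneg _), ← tsum_mul_left]
  exact (((ha.tail_sum hq n).mul_left _).tsum_le_tsum (fun m => hM n m) hgeo)

/-- Rapid decay after a shift of the index. -/
theorem Ra.shift {a : ℕ → ℝ} (ha : Ra q a) : Ra q (fun n => a (n + 1)) := by
  intro k
  obtain ⟨M, hM⟩ := ha k
  refine ⟨M, fun n => le_trans ?_ (hM (n + 1))⟩
  have h1 := hq.pos n
  have h2 := hq.mono (Nat.le_add_right n 1)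
  gcongr

end po

section sums

variable {V : Type} [NormedAddCommGroup V] [NormedSpace ℝ V] [CompleteSpace V] {q : ℕ → ℝ}

theorem Ra.hs (hq : Lac q) {a : ℕ → ℝ} (ha : Ra q a) {X : ℕ → V} (hX : Po q X) :
    HasSum (fun n => a n • X n) (∑' n, a n • X n) := (ha.sum hq hX).of_norm.hasSum

omit [NormedSpace ℝ V] [CompleteSpace V] in
/-- Shift of a series. -/
theorem shift {f : ℕ → V} {S : V} (h : HasSum f S) :
    HasSum (fun n => if n = 0 then 0 else f (n - 1)) S := by
  have := (hasSum_nat_add_iff (f := fun n => if n = 0 then 0 else f (n - 1)) 1).1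
    (by simpa using h)
  simpa using this

/-- Exchange of summation. -/
theorem tri (hq : Lac q) {a : ℕ → ℝ} (ha : Ra q a) {c : ℕ → V} (hc : Po q c) :
    ∃ S : V, HasSum (fun n => a n ^ 2 • ∑ j ∈ Finset.range (n + 1), c j) S ∧
      HasSum (fun j => (∑' m : ℕ, a (j + m) ^ 2) • c j) S := by
  obtain ⟨C, K, hC, h⟩ := hc
  obtain ⟨M, hM0, hM⟩ := ha.tail_aux hq (K + 1)
  set g : ℕ × ℕ → V := fun p => a (p.1 + p.2) ^ 2 • c p.1 with hg
  have hgeo : Summable (fun n : ℕ => (1 / 4 : ℝ) ^ n) :=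
    summable_geometric_of_lt_one (by norm_num) (by norm_num)
  have hgs : Summable g := by
    have hgg : Summable fun p : ℕ × ℕ => C * M * ((1 / 4 : ℝ) ^ p.1 * (1 / 4 : ℝ) ^ p.2) :=
      (hgeo.mul_of_nonneg hgeo (fun _ => by positivity) (fun _ => by positivity)).mul_left _
    refine Summable.of_norm_bounded hgg fun p => ?_
    have h1 := hq.pos p.1
    have h2 := hq.four_pow p.1
    simp only [hg]
    rw [norm_smul, Real.norm_eq_abs, abs_of_nonneg (sq_nonneg _)]
    have h3 : q p.1 ^ K * a (p.1 + p.2) ^ 2 ≤ M * (1 / 4 : ℝ) ^ p.2 * (1 / 4 : ℝ) ^ p.1 := by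
      have h4 := hM p.1 p.2
      have h5 : (1 / 4 : ℝ) ^ p.1 = 1 / 4 ^ p.1 := by rw [one_div, inv_pow, one_div]
      rw [h5, mul_one_div, le_div_iff₀ (by positivity)]
      calc q p.1 ^ K * a (p.1 + p.2) ^ 2 * 4 ^ p.1
          ≤ q p.1 ^ K * a (p.1 + p.2) ^ 2 * q p.1 := by gcongr
        _ = q p.1 ^ (K + 1) * a (p.1 + p.2) ^ 2 := by ring
        _ ≤ _ := h4
    calc a (p.1 + p.2) ^ 2 * ‖c p.1‖ ≤ a (p.1 + p.2) ^ 2 * (C * q p.1 ^ K) := by
          gcongr
          exact h p.1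
      _ = C * (q p.1 ^ K * a (p.1 + p.2) ^ 2) := by ring
      _ ≤ C * (M * (1 / 4 : ℝ) ^ p.2 * (1 / 4 : ℝ) ^ p.1) := by gcongr
      _ = _ := by ring
  refine ⟨∑' p, g p, ?_, ?_⟩
  · have h1 : HasSum (g ∘ Finset.HasAntidiagonal.sigmaAntidiagonalEquivProd) (∑' p, g p) :=
      (Finset.HasAntidiagonal.sigmaAntidiagonalEquivProd.hasSum_iff).2 hgs.hasSum
    have h2 := h1.sigma (fun n => hasSum_fintype _)
    have h3 : (fun n => a n ^ 2 • ∑ j ∈ Finset.range (n + 1), c j) =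
        fun n => ∑ c : Finset.HasAntidiagonal.antidiagonal n,
        (g ∘ Finset.HasAntidiagonal.sigmaAntidiagonalEquivProd) ⟨n, c⟩ := by
      funext n
      have h4 : ∑ c : Finset.HasAntidiagonal.antidiagonal n,
          (g ∘ Finset.HasAntidiagonal.sigmaAntidiagonalEquivProd) ⟨n, c⟩ =
          ∑ p ∈ Finset.HasAntidiagonal.antidiagonal n, g p :=
        Finset.sum_coe_sort (Finset.HasAntidiagonal.antidiagonal n) g
      rw [h4, Finset.Nat.sum_antidiagonal_eq_sum_range_succ_mk]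
      simp only [hg]
      rw [Finset.smul_sum]
      refine Finset.sum_congr rfl fun j hj => ?_
      have h5 : j + (n - j) = n := by
        have := Finset.mem_range.1 hj
        omega
      rw [h5]
    rw [h3]
    exact h2
  · refine hgs.hasSum.prod_fiberwise fun n => ?_
    exact (ha.tail_sum hq n).hasSum.smul_const (c n)

/-- Exchange of summation, strict version. -/
theorem tri' (hq : Lac q) {a : ℕ → ℝ} (ha : Ra q a) {c : ℕ → V} (hc : Po q c) :
    ∃ S : V, HasSum (fun n => a n ^ 2 • ∑ j ∈ Finset.range n, c j) S ∧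
      HasSum (fun j => (∑' m : ℕ, a (j + 1 + m) ^ 2) • c j) S := by
  obtain ⟨S, h1, h2⟩ := tri hq (ha.shift hq) hc
  refine ⟨S, ?_, ?_⟩
  · refine (shift h1).congr_fun fun n => ?_
    rcases n with _ | n
    · simp
    · simp
  · refine h2.congr_fun fun j => ?_
    have : ∀ m, j + 1 + m = j + m + 1 := fun m => by omega
    simp only [this]

omit [NormedSpace ℝ V] in
/-- A double series, split into the diagonal and the rest. -/
theorem split {G : ℕ × ℕ → V} {A : V} (hG : Summable fun p => ‖G p‖) (hA : HasSum G A) :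
    ∃ D L : V, HasSum (fun n => G (n, n)) D ∧
      HasSum (fun n => ∑ m ∈ Finset.range n, (G (m, n) + G (n, m))) L ∧ A = D + L := by
  classical
  have hGs : Summable G := hG.of_norm
  have hsw : Summable fun p : ℕ × ℕ => G p.swap :=
    ((Equiv.prodComm ℕ ℕ).summable_iff (f := G)).2 hGs
  set D : ℕ × ℕ → V := {p | p.1 = p.2}.indicator G with hD
  set L1 : ℕ × ℕ → V := {p | p.1 < p.2}.indicator G with hL1
  set L2 : ℕ × ℕ → V := {p | p.1 < p.2}.indicator fun p => G p.swap with hL2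
  have hDs : Summable D := hGs.indicator _
  have hL1s : Summable L1 := hGs.indicator _
  have hL2s : Summable L2 := hsw.indicator _
  have hL2h : HasSum (fun p : ℕ × ℕ => L2 p.swap) (∑' p, L2 p) :=
    ((Equiv.prodComm ℕ ℕ).hasSum_iff (f := L2)).2 hL2s.hasSum
  refine ⟨∑' p, D p, ∑' p, (L1 p + L2 p), ?_, ?_, ?_⟩
  · have hinj : Function.Injective (fun n : ℕ => (n, n)) := fun m n hmn => by
      simpa using congrArg Prod.fst hmn
    have h1 := (hinj.hasSum_iff (f := D) (a := ∑' p, D p) ?_).2 hDs.hasSum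
    · refine h1.congr_fun fun n => ?_
      simp [hD]
    · intro p hp
      rw [hD, Set.indicator_of_notMem]
      intro h2
      exact hp ⟨p.1, Prod.ext rfl h2⟩
  · have h1 : HasSum (fun p : ℕ × ℕ => (L1 p.swap + L2 p.swap)) (∑' p, (L1 p + L2 p)) :=
      ((Equiv.prodComm ℕ ℕ).hasSum_iff (f := fun p => L1 p + L2 p)).2 (hL1s.add hL2s).hasSum
    refine h1.prod_fiberwise fun n => ?_
    have h2 : ∑ m ∈ Finset.range n, (G (m, n) + G (n, m)) =
        ∑ m ∈ Finset.range n, (L1 (m, n) + L2 (m, n)) := by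
      refine Finset.sum_congr rfl fun m hm => ?_
      have h3 : m < n := Finset.mem_range.1 hm
      simp [hL1, hL2, h3]
    rw [h2]
    refine hasSum_sum_of_ne_finset_zero fun m hm => ?_
    have h3 : ¬ m < n := by simpa using hm
    simp [hL1, hL2, h3]
  · have h1 : HasSum (fun p => D p + (L1 p + L2 p.swap)) (∑' p, D p + (∑' p, L1 p + ∑' p, L2 p)) :=
      hDs.hasSum.add (hL1s.hasSum.add hL2h)
    rw [hL1s.tsum_add hL2s]
    refine hA.unique (h1.congr_fun fun p => ?_)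
    rcases lt_trichotomy p.1 p.2 with h | h | h
    · simp [hD, hL1, hL2, h, h.ne, h.le.not_gt]
    · simp [hD, hL1, hL2, h]
    · simp [hD, hL1, hL2, h, h.ne', h.le.not_gt]

omit [NormedSpace ℝ V] [CompleteSpace V] in
/-- A series over `Fin 4 × ℕ`. -/
theorem four {f : Fin 4 × ℕ → V} {g : Fin 4 → V} (h : ∀ i, HasSum (fun n => f (i, n)) (g i)) :
    HasSum f (∑ i, g i) := by
  have h1 : ∀ i : Fin 4, HasSum (fun p : Fin 4 × ℕ => if p.1 = i then f p else 0) (g i) := by
    intro i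
    have hinj : Function.Injective (fun n : ℕ => ((i, n) : Fin 4 × ℕ)) := by
      intro m n hmn
      simpa using hmn
    refine (hinj.hasSum_iff ?_).1 ?_
    · rintro ⟨j, n⟩ hp
      rw [if_neg]
      intro h2
      exact hp ⟨n, by rw [← h2]⟩
    · refine (h i).congr_fun fun n => ?_
      simp
  have h2 := hasSum_sum (s := (Finset.univ : Finset (Fin 4))) fun i _ => h1 i
  refine h2.congr_fun fun p => ?_
  simp

end sums

section an

variable {q Λ b V γ : ℕ → ℝ} {β lam N : ℝ} {P : ℕ → E3 → E3} {r : Fin 4 × ℕ → E3 → E3}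

theorem bd0 (hT : TY q Λ b V γ β lam N P r) :
    ∃ (C : ℝ) (K : ℕ), ∀ n y, ‖P n y‖ ≤ C * q n ^ K := by
  obtain ⟨C, K, h⟩ := hT.pbd 0
  exact ⟨C, K, fun n y => by rw [← norm_iteratedFDeriv_zero (𝕜 := ℝ)]; exact h n y⟩

theorem bd1 (hT : TY q Λ b V γ β lam N P r) :
    ∃ (C : ℝ) (K : ℕ), ∀ n y, ‖fderiv ℝ (P n) y‖ ≤ C * q n ^ K := by
  obtain ⟨C, K, h⟩ := hT.pbd 1
  exact ⟨C, K, fun n y => by rw [← norm_iteratedFDeriv_one]; exact h n y⟩

theorem df1 (hT : TY q Λ b V γ β lam N P r) (n : ℕ) (y : E3) :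
    HasFDerivAt (P n) (fderiv ℝ (P n) y) y :=
  ((hT.sm n).differentiable (by simp) y).hasFDerivAt

theorem df2 (hT : TY q Λ b V γ β lam N P r) (n : ℕ) (i : Fin 3) (y : E3) :
    HasFDerivAt (fun z => fderiv ℝ (P n) z (bv i))
      ((fderiv ℝ (fderiv ℝ (P n)) y).flip (bv i)) y := by
  have h2 : ContDiff ℝ 1 (fderiv ℝ (P n)) := (hT.sm n).fderiv_right (by norm_cast)
  have hc : HasFDerivAt (fderiv ℝ (P n)) (fderiv ℝ (fderiv ℝ (P n)) y) y :=
    ((h2.differentiable (by norm_num)) y).hasFDerivAt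
  simpa using hc.clm_apply (hasFDerivAt_const (bv i) y)

theorem bd2 (hT : TY q Λ b V γ β lam N P r) :
    ∃ (C : ℝ) (K : ℕ), ∀ n (i : Fin 3) y,
      ‖fderiv ℝ (fun z => fderiv ℝ (P n) z (bv i)) y‖ ≤ C * q n ^ K := by
  obtain ⟨C, K, h⟩ := hT.pbd 2
  refine ⟨C, K, fun n i y => ?_⟩
  rw [(df2 hT n i y).fderiv]
  refine (ContinuousLinearMap.le_opNorm _ _).trans ?_
  have h1 : ‖bv i‖ = 1 := by simp [bv]
  rw [h1, mul_one, ContinuousLinearMap.opNorm_flip]
  refine le_trans (le_of_eq ?_) (h n y)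
  rw [← norm_iteratedFDeriv_one, norm_iteratedFDeriv_fderiv]

theorem cpo (hq : Lac q) (C : ℝ) (K : ℕ) : Po q (fun n => C * q n ^ K) :=
  Po.of_le hq (C := |C|) (K := K) fun n => by
    have := hq.pos n
    rw [Real.norm_eq_abs, abs_mul, abs_of_pos (pow_pos this K)]

/-- Termwise differentiation. -/
theorem term {W : Type} [NormedAddCommGroup W] [NormedSpace ℝ W] [CompleteSpace W] (hq : Lac q)
    {f : ℕ → E3 → W} {f' : ℕ → E3 → E3 →L[ℝ] W} {C D : ℝ} {K L : ℕ}
    (h0 : ∀ n y, ‖f n y‖ ≤ C * q n ^ K) (h1 : ∀ n y, ‖f' n y‖ ≤ D * q n ^ L)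
    (hf : ∀ n y, HasFDerivAt (f n) (f' n y) y) {a : ℕ → ℝ} (ha : Ra q a) (y : E3) :
    HasFDerivAt (fun z => ∑' n, a n • f n z) (∑' n, a n • f' n y) y := by
  refine hasFDerivAt_tsum (u := fun n => ‖a n • (D * q n ^ L)‖)
    (f := fun n z => a n • f n z) (f' := fun n z => a n • f' n z) (x₀ := 0)
    (ha.sum hq (cpo hq D L)) (fun n x => (hf n x).const_smul (a n)) (fun n x => ?_) ?_ y
  · have h3 := h1 n x
    rw [norm_smul, norm_smul]
    gcongr
    exact h3.trans (le_abs_self _)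
  · exact (ha.sum hq (Po.of_le hq fun n => h0 n 0)).of_norm

theorem sp_fd (hq : Lac q) (hT : TY q Λ b V γ β lam N P r) {a : ℕ → ℝ} (ha : Ra q a) (y : E3) :
    HasSum (fun n => a n • fderiv ℝ (P n) y) (fderiv ℝ (sp P a) y) := by
  obtain ⟨C, K, h0⟩ := bd0 hT
  obtain ⟨D, L, h1⟩ := bd1 hT
  have h2 := term hq h0 h1 (df1 hT) ha y
  have h3 : fderiv ℝ (sp P a) y = ∑' n, a n • fderiv ℝ (P n) y := h2.fderiv
  rw [h3]
  exact ha.hs hq (Po.of_le hq fun n => h1 n y)

theorem sp_lap (hq : Lac q) (hT : TY q Λ b V γ β lam N P r) {a : ℕ → ℝ} (ha : Ra q a) (y : E3) :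
    HasSum (fun n => a n • lap (P n) y) (lap (sp P a) y) := by
  obtain ⟨C, K, h0⟩ := bd1 hT
  obtain ⟨D, L, h1⟩ := bd2 hT
  have hbv : ∀ i : Fin 3, ‖bv i‖ = 1 := fun i => by simp [bv]
  have key : ∀ i : Fin 3, HasSum (fun n => a n • fderiv ℝ (fun z => fderiv ℝ (P n) z (bv i)) y (bv i))
      (fderiv ℝ (fun z => fderiv ℝ (sp P a) z (bv i)) y (bv i)) := by
    intro i
    have e1 : (fun z => fderiv ℝ (sp P a) z (bv i)) =
        fun z => ∑' n, a n • fderiv ℝ (P n) z (bv i) := by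
      funext z
      have h2 := (sp_fd hq hT ha z).mapL (ContinuousLinearMap.apply ℝ E3 (bv i))
      simpa using h2.tsum_eq.symm
    have h2 := term (f := fun n z => fderiv ℝ (P n) z (bv i)) hq (C := C) (K := K) (D := D) (L := L)
      (fun n z => by
        refine (ContinuousLinearMap.le_opNorm _ _).trans ?_
        rw [hbv, mul_one]
        exact h0 n z)
      (fun n z => h1 n i z) (fun n z => (df2 hT n i z).differentiableAt.hasFDerivAt) ha y
    rw [e1, h2.fderiv]
    have h3 : HasSum (fun n => a n • fderiv ℝ (fun z => fderiv ℝ (P n) z (bv i)) y)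
        (∑' n, a n • fderiv ℝ (fun z => fderiv ℝ (P n) z (bv i)) y) :=
      ha.hs hq (Po.of_le hq fun n => h1 n i y)
    simpa using h3.mapL (ContinuousLinearMap.apply ℝ E3 (bv i))
  have h3 := hasSum_sum (s := (Finset.univ : Finset (Fin 3))) fun i _ => key i
  refine h3.congr_fun fun n => ?_
  rw [lap, Finset.smul_sum]

theorem sp_hs (hq : Lac q) (hT : TY q Λ b V γ β lam N P r) {a : ℕ → ℝ} (ha : Ra q a) (y : E3) :
    HasSum (fun n => a n • P n y) (sp P a y) := by
  obtain ⟨C, K, h0⟩ := bd0 hT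
  exact ha.hs hq (Po.of_le hq fun n => h0 n y)

theorem sp_adv (hq : Lac q) (hT : TY q Λ b V γ β lam N P r) {a : ℕ → ℝ} (ha : Ra q a) (y : E3) :
    (Summable fun p : ℕ × ℕ => ‖(a p.1 * a p.2) • adv (P p.1) (P p.2) y‖) ∧
    HasSum (fun p : ℕ × ℕ => (a p.1 * a p.2) • adv (P p.1) (P p.2) y)
      (adv (sp P a) (sp P a) y) := by
  obtain ⟨C, K, h0⟩ := bd0 hT
  obtain ⟨D, L, h1⟩ := bd1 hT
  have s1 := ha.sum hq (X := fun n => P n y) (Po.of_le hq fun n => h0 n y)
  have s2 := ha.sum hq (X := fun n => fderiv ℝ (P n) y) (Po.of_le hq fun n => h1 n y)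
  have s12 := s1.mul_of_nonneg s2 (fun _ => norm_nonneg _) (fun _ => norm_nonneg _)
  set F : ℕ × ℕ → E3 := fun p => (a p.2 • fderiv ℝ (P p.2) y) (a p.1 • P p.1 y) with hF
  have hFe : ∀ p, F p = (a p.1 * a p.2) • adv (P p.1) (P p.2) y := by
    intro p
    simp only [hF, adv, smul_apply, map_smul, smul_smul]
  have hFn : Summable fun p => ‖F p‖ := by
    refine Summable.of_nonneg_of_le (fun _ => norm_nonneg _) (fun p => ?_) s12
    refine (ContinuousLinearMap.le_opNorm _ _).trans (le_of_eq ?_)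
    rw [mul_comm]
  have hrow : ∀ m, HasSum (fun n => F (m, n)) (fderiv ℝ (sp P a) y (a m • P m y)) := by
    intro m
    have h2 := (sp_fd hq hT ha y).mapL (ContinuousLinearMap.apply ℝ E3 (a m • P m y))
    simpa only [hF, ContinuousLinearMap.apply_apply] using h2
  have h2 := hFn.of_norm.hasSum.prod_fiberwise hrow
  have h3 : HasSum (fun m => fderiv ℝ (sp P a) y (a m • P m y))
      (fderiv ℝ (sp P a) y (sp P a y)) := (sp_hs hq hT ha y).mapL (fderiv ℝ (sp P a) y)
  have h5 : adv (sp P a) (sp P a) y = fderiv ℝ (sp P a) y (sp P a y) := rfl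
  refine ⟨?_, ?_⟩
  · simpa only [hFe] using hFn
  · rw [h5, h3.unique h2]
    refine hFn.of_norm.hasSum.congr_fun fun p => ?_
    exact (hFe p).symm

end an

section main

variable {ν : ℝ} {q Λ b V γ : ℕ → ℝ} {β lam N : ℝ} {P : ℕ → E3 → E3} {r : Fin 4 × ℕ → E3 → E3}

theorem lam_po (hq : Lac q) (hC : Cf q Λ b V γ) : Po q Λ :=
  Po.of_le hq (C := 2) (K := 5) fun n => by
    have h2 := hq.one_le n
    have h3 : q n ^ 4 ≤ q n ^ 5 := pow_le_pow_right₀ h2 (by norm_num)
    have h4 := abs_le.1 (hC.lam n)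
    have h5 : 0 < q n ^ 5 := pow_pos (hq.pos n) 5
    rw [Real.norm_eq_abs, abs_le]
    constructor <;> linarith [h4.1, h4.2]

theorem b_po (hq : Lac q) (hC : Cf q Λ b V γ) : Po q b :=
  Po.of_le hq (C := 2) (K := 0) fun n => by
    have h2 := hq.one_le n
    have h3 : 1 / q n ≤ 1 := by
      rw [div_le_one (hq.pos n)]
      exact h2
    have h4 := abs_le.1 (hC.bb n)
    rw [Real.norm_eq_abs, abs_le, pow_zero]
    constructor <;> linarith [h4.1, h4.2]

theorem g_ra (hq : Lac q) (hC : Cf q Λ b V γ) {a : ℕ → ℝ} (ha : Ra q a) :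
    Ra q (fun n => γ n * a (n + 1)) := by
  have hγ : ∀ n, |γ n| ≤ q (n + 1) ^ 6 := by
    intro n
    rcases n with _ | n
    · rw [hC.g0, abs_zero]
      exact (pow_pos (hq.pos _) 6).le
    · have h1 := hC.g1 n
      have h2 := hC.g2 n
      have h3 : 0 < Real.exp (-(Real.pi / 2 * q n)) := Real.exp_pos _
      have h4 : Real.exp (-(Real.pi / 2 * q n)) ≤ 1 := by
        rw [Real.exp_le_one_iff]
        have := hq.pos n
        have := Real.pi_pos
        have : 0 < Real.pi / 2 * q n := by positivity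
        linarith
      rw [abs_of_nonneg (h3.le.trans h1)]
      refine h2.trans ?_
      have h5 : 0 < q (n + 2) ^ 6 := pow_pos (hq.pos _) 6
      calc q (n + 2) ^ 6 * Real.exp (-(Real.pi / 2 * q n)) ≤ q (n + 2) ^ 6 * 1 := by gcongr
        _ = _ := by rw [mul_one]
  intro k
  obtain ⟨M, hM⟩ := ha (k + 6)
  refine ⟨M, fun n => le_trans ?_ (hM (n + 1))⟩
  have h1 := hq.pos n
  have h2 := hq.mono (Nat.le_add_right n 1)
  have h3 := hγ n
  have h4 := hq.pos (n + 1)
  calc q n ^ k * |γ n * a (n + 1)| = q n ^ k * (|γ n| * |a (n + 1)|) := by rw [abs_mul]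
    _ ≤ q (n + 1) ^ k * (q (n + 1) ^ 6 * |a (n + 1)|) := by gcongr
    _ = _ := by ring

theorem ra_ly (hq : Lac q) (hC : Cf q Λ b V γ) {a : ℕ → ℝ} (ha : Ra q a) (i : Fin 4) :
    Ra q (fun n => ly ν Λ a (i, n)) := by
  fin_cases i
  · exact ha.tail hq
  · have h1 := ha.mul hq (Po.sum hq ((lam_po hq hC).smul hq (ha.po hq)))
    have h2 : (fun n => ly ν Λ a (1, n)) =
        fun n => (∑ i ∈ Finset.range n, Λ i • a i) * a n := by
      funext n
      simp only [ly, smul_eq_mul]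
      exact mul_comm _ _
    exact h2 ▸ h1
  · have h1 := ha.mul hq (Po.const hq (-ν))
    have h2 : (fun n => ly ν Λ a (2, n)) = fun n => -ν * a n := by
      funext n
      show -(ν * a n) = _
      ring
    exact h2 ▸ h1
  · have h1 := (ha.shift hq).mul hq (ha.po hq)
    exact h1

theorem w_po (hq : Lac q) (hT : TY q Λ b V γ β lam N P r) (hC : Cf q Λ b V γ) (y : E3) :
    Po q (fun n => (b (n + 1) * γ n) • P (n + 1) y) := by
  obtain ⟨C0, K0, h0⟩ := bd0 hT
  obtain ⟨C1, K1, h1⟩ := bd1 hT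
  obtain ⟨C2, K2, h2⟩ := hT.rbd
  have hP : Po q (fun n => P n y) := Po.of_le hq fun n => h0 n y
  have hr : Po q (fun n => r (0, n) y) := Po.of_le hq fun n => h2 0 n y
  have hrs : Po q (fun n => ∑ k ∈ Finset.range (n + 1), r (0, k) y) := by
    have := (Po.sum hq hr).add hq hr
    simpa only [Finset.sum_range_succ] using this
  have hs : Po q (fun n => ∑ j ∈ Finset.range n, (b j * Λ j) • P j y) :=
    Po.sum hq (((b_po hq hC).smul hq (lam_po hq hC)).smul hq hP)
  have hadv : Po q (fun n => adv (P n) (P n) y) := by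
    refine Po.of_le hq (C := C1 * C0) (K := K1 + K0) fun n => ?_
    refine (ContinuousLinearMap.le_opNorm _ _).trans ?_
    calc ‖fderiv ℝ (P n) y‖ * ‖P n y‖ ≤ (C1 * q n ^ K1) * (C0 * q n ^ K0) := by
          gcongr
          · exact (norm_nonneg _).trans (h1 n y)
          · exact h1 n y
          · exact h0 n y
      _ = _ := by ring
  have h3 := ((Po.const hq β⁻¹).smul hq (hrs.sub hq hadv)).add hq hs
  refine Eq.mp ?_ h3
  congr 1
  funext n
  have h4 := hT.pd n y
  have h5 := hT.β0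
  rw [h4]
  have h6 : ∀ (R T W : E3), β⁻¹ • (R - (R + β • (T - W))) + T = W := by
    intro R T W
    have h7 : β⁻¹ • (R - (R + β • (T - W))) + T = (β⁻¹ * β) • (W - T) + T := by module
    rw [h7, inv_mul_cancel₀ h5.ne']
    module
  exact h6 _ _ _

theorem off (hT : TY q Λ b V γ β lam N P r) (a : ℕ → ℝ) (y : E3) (n : ℕ) :
    ∑ m ∈ Finset.range n, ((a m * a n) • adv (P m) (P n) y + (a n * a m) • adv (P n) (P m) y) =
    (a n * ∑ i ∈ Finset.range n, Λ i * a i) • (r (1, n) y - (β * b n) • P n y) +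
    if n = 0 then 0 else (a (n - 1) * a n) • (r (3, n - 1) y +
      (β * b (n - 1) * γ (n - 1)) • P (n - 1) y) := by
  have h1 : ∀ m ∈ Finset.range n,
      ((a m * a n) • adv (P m) (P n) y + (a n * a m) • adv (P n) (P m) y) =
      (a n * (Λ m * a m)) • (r (1, n) y - (β * b n) • P n y) +
      if n = m + 1 then (a m * a n) • (r (3, m) y + (β * b m * γ m) • P m y) else 0 := by
    intro m hm
    rw [mul_comm (a n) (a m), ← smul_add, hT.pc m n y (Finset.mem_range.1 hm)]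
    split_ifs
    · module
    · module
  rw [Finset.sum_congr rfl h1, Finset.sum_add_distrib, ← Finset.sum_smul, ← Finset.mul_sum]
  congr 1
  rcases n with _ | n
  · simp
  · rw [Finset.sum_eq_single n]
    · simp
    · intro m _ hmn
      rw [if_neg]
      omega
    · intro h
      exact absurd (Finset.mem_range.2 (Nat.lt_succ_self n)) h

/-- The residual at a point. -/
theorem point (hq : Lac q) (hT : TY q Λ b V γ β lam N P r) (hC : Cf q Λ b V γ) {a a' : ℕ → ℝ}
    (ha : Ra q a) (ha' : Ra q a')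
    (haa : ∀ n, a' n = -(ν * lam * V n * a n) + β * b n * yq Λ γ a n) (y : E3) :
    HasSum (fun p => ly ν Λ a p • r p y)
    (sp P a' y + adv (sp P a) (sp P a) y - ν • lap (sp P a) y) := by
  obtain ⟨C0, K0, h0⟩ := bd0 hT
  obtain ⟨C2, K2, h2⟩ := hT.rbd
  have hP : Po q (fun n => P n y) := Po.of_le hq fun n => h0 n y
  have hr : ∀ i, Po q (fun n => r (i, n) y) := fun i => Po.of_le hq fun n => h2 i n y
  have hbΛ : Po q (fun j => (b j * Λ j) • P j y) :=
    ((b_po hq hC).smul hq (lam_po hq hC)).smul hq hP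
  have hL := fun i => (ra_ly (ν := ν) hq hC ha i).hs hq (hr i)
  have H0 := sp_hs hq hT ha' y
  obtain ⟨hn, H⟩ := sp_adv hq hT ha y
  obtain ⟨D, L, H1, H2, hA⟩ := split hn H
  have H3 := sp_lap hq hT ha y
  obtain ⟨S0, H4, H5⟩ := tri hq ha (hr 0)
  obtain ⟨T0, H6, H7⟩ := tri' hq ha hbΛ
  have H11 := (ha.sq hq).hs hq (w_po hq hT hC y)
  have H12 := ((g_ra hq hC ha).mul hq ((b_po hq hC).smul hq (ha.po hq))).hs hq hP
  have e0 := (hL 0).unique H5
  -- the two sides
  have A1 := (H0.add (H1.add H2)).sub (H3.const_smul ν)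
  have A2 := (((H4.add (hL 1)).add (hL 2)).add (shift (hL 3))).add
    ((((H6.sub H7).add ((shift H11).sub H11)).add ((shift H12).sub H12)).const_smul β)
  have A3 := A1.unique (A2.congr_fun fun n => ?_)
  · have A4 := four (f := fun p => ly ν Λ a p • r p y) hL
    rw [Fin.sum_univ_four, e0] at A4
    rw [hA, A3]
    simpa only [sub_self, add_zero, smul_zero] using A4
  · have e1 : ∀ n, ly ν Λ a (1, n) = a n * ∑ i ∈ Finset.range n, Λ i * a i := fun _ => rfl
    have e2 : ∀ n, ly ν Λ a (2, n) = -(ν * a n) := fun _ => rfl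
    have e3 : ∀ n, ly ν Λ a (3, n) = a n * a (n + 1) := fun _ => rfl
    simp only [smul_eq_mul, e1, e2, e3]
    rw [off hT a y n, hT.pd n y, hT.pl n y, haa n, yq]
    rcases n with _ | n
    · simp only [if_true]
      module
    · simp only [Nat.add_eq_zero_iff, one_ne_zero, and_false, if_false, Nat.add_sub_cancel]
      module

theorem second (hq : Lac q) (hT : TY q Λ b V γ β lam N P r) (hC : Cf q Λ b V γ) {a a' : ℕ → ℝ}
    (ha : Ra q a) (ha' : Ra q a')
    (haa : ∀ n, a' n = -(ν * lam * V n * a n) + β * b n * yq Λ γ a n) {v : E3 → E3}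
    (hv : LocallyIntegrable v volume) (hvr : ∀ p, ip v (r p) = 0) :
    ip v (fun y => sp P a' y + adv (sp P a) (sp P a) y - ν • lap (sp P a) y) = 0 := by
  obtain ⟨C, K, h2⟩ := hT.rbd
  set g : E3 → ℝ := (Metric.closedBall (0 : E3) 1).indicator (fun y => ‖v y‖) with hg
  have hgi : Integrable g volume := by
    rw [hg, integrable_indicator_iff Metric.isClosed_closedBall.measurableSet]
    exact (hv.integrableOn_isCompact (isCompact_closedBall (0 : E3) 1)).norm
  set F : Fin 4 × ℕ → E3 → ℝ := fun p y => inner ℝ (v y) (ly ν Λ a p • r p y) with hF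
  set B : Fin 4 × ℕ → ℝ := fun p => ‖ly ν Λ a p • (C * q p.2 ^ K)‖ with hB
  have hout : ∀ (p : Fin 4 × ℕ) (y : E3), 1 < ‖y‖ → r p y = 0 := by
    rintro ⟨i, n⟩ y hy
    have hsq : ∀ n, 1 ≤ q n ^ 2 * ‖y‖ := by
      intro n
      have := hq.one_le n
      have h3 : 1 ≤ q n ^ 2 := one_le_pow₀ this
      nlinarith
    rcases n with _ | n
    · exact hT.rout0 i y (hsq 0)
    · exact hT.rout i n y (hsq n)
  have hbd : ∀ p y, ‖F p y‖ ≤ B p * g y := by
    intro p y
    by_cases hy : y ∈ Metric.closedBall (0 : E3) 1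
    · rw [hg, Set.indicator_of_mem hy]
      simp only [hF, hB]
      refine (norm_inner_le_norm _ _).trans ?_
      rw [norm_smul, norm_smul, mul_comm]
      gcongr
      exact (h2 p.1 p.2 y).trans (le_abs_self _)
    · have h3 : 1 < ‖y‖ := by simpa using hy
      rw [hg, Set.indicator_of_notMem hy]
      simp [hF, hout p y h3]
  have hFm : ∀ p, AEStronglyMeasurable (F p) volume := fun p =>
    hv.aestronglyMeasurable.inner
      (((hT.rsm p).continuous.const_smul (ly ν Λ a p)).aestronglyMeasurable)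
  have hFi : ∀ p, Integrable (F p) volume := fun p =>
    Integrable.mono' (hgi.const_mul (B p)) (hFm p) (ae_of_all _ (hbd p))
  have hBs : Summable B := by
    have h3 : ∀ i : Fin 4, HasSum (fun n => B (i, n)) (∑' n, B (i, n)) := fun i =>
      ((ra_ly (ν := ν) hq hC ha i).sum hq (cpo hq C K)).hasSum
    exact (four h3).summable
  have hFs : Summable fun p => ∫ y, ‖F p y‖ := by
    refine Summable.of_nonneg_of_le (fun p => integral_nonneg fun y => norm_nonneg _)
      (fun p => ?_) (hBs.mul_right (∫ y, g y))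
    rw [← integral_const_mul]
    exact integral_mono (hFi p).norm (hgi.const_mul (B p)) (hbd p)
  have h3 := hasSum_integral_of_summable_integral_norm hFi hFs
  have h4 : ∀ p, ∫ y, F p y = 0 := by
    intro p
    have h5 : ∀ y, F p y = ly ν Λ a p * inner ℝ (v y) (r p y) := fun y => by
      simp only [hF, inner_smul_right]
    simp only [h5]
    rw [integral_const_mul]
    have h6 := hvr p
    unfold ip at h6
    rw [h6, mul_zero]
  have h5 : ∀ y, ∑' p, F p y = inner ℝ (v y)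
      (sp P a' y + adv (sp P a) (sp P a) y - ν • lap (sp P a) y) := by
    intro y
    have h6 := (point hq hT hC ha ha' haa y).mapL (innerSL ℝ (v y))
    simpa only [innerSL_apply_apply] using h6.tsum_eq
  simp only [h4, h5] at h3
  exact h3.unique hasSum_zero

end main

end Z2

/-- **(Z2) The residual is the sum of the reaction forces.** -/
theorem t_Z2 : S_Z2 := by
  intro ν q Λ b V γ β lam N P r hT hC h4 hqq a a' ha ha' haa
  exact ⟨fun y => Z2.point ⟨h4, hqq⟩ hT hC ha ha' haa y,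
    fun v hv hvr => Z2.second ⟨h4, hqq⟩ hT hC ha ha' haa hv hvr⟩

end Pool.Agent.N976.UE
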