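import Pool.Agent.N976.UE.Def

/-!
# (Z3), (Z4): products, the energy outside of small balls, the weak limit
-/

open Set Filter Topology MeasureTheory
open scoped ContDiff InnerProductSpace

set_option autoImplicit false

namespace Pool.Agent.N976.UE

open Pool.Agent.N976.SC Pool.Agent.N976.EN

namespace Z34

/-- rapid decay -/
def RD (q : ℕ → ℝ) (a : ℕ → ℝ) : Prop := ∀ k : ℕ, ∃ M, ∀ n, q n ^ k * |a n| ≤ M

lemma q4 {q : ℕ → ℝ} (h4 : ∀ n, 4 ≤ q n) (hq : ∀ n, 4 * q n ≤ q (n + 1)) (n : ℕ) :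
    (4 : ℝ) ^ (n + 1) ≤ q n := by
  induction n with
  | zero => simpa using h4 0
  | succ n ih =>
    calc (4 : ℝ) ^ (n + 1 + 1) = 4 * 4 ^ (n + 1) := by ring
      _ ≤ 4 * q n := by linarith
      _ ≤ q (n + 1) := hq n

lemma RD_sum {q a : ℕ → ℝ} (h4 : ∀ n, 4 ≤ q n) (hq : ∀ n, 4 * q n ≤ q (n + 1)) (ha : RD q a) (K : ℕ) :
    Summable fun n => |a n| * q n ^ K := by
  obtain ⟨M, hM⟩ := ha (K + 1)
  have hM0 : 0 ≤ M := le_trans (mul_nonneg (pow_nonneg (by linarith [h4 0]) _) (abs_nonneg _)) (hM 0)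
  have hs : Summable fun n : ℕ => M * (1 / 4 : ℝ) ^ n :=
    (summable_geometric_of_lt_one (by norm_num) (by norm_num)).mul_left M
  refine Summable.of_nonneg_of_le (fun n => mul_nonneg (abs_nonneg _) (pow_nonneg (by linarith [h4 n]) _))
    (fun n => ?_) hs
  have hqn : 0 < q n := by linarith [h4 n]
  have h1 : (4 : ℝ) ^ n ≤ q n := by
    refine le_trans ?_ (q4 h4 hq n)
    exact pow_le_pow_right₀ (by norm_num) (Nat.le_succ n)
  have h2 : q n * (|a n| * q n ^ K) ≤ M := by
    calc q n * (|a n| * q n ^ K) = q n ^ (K + 1) * |a n| := by ring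
      _ ≤ M := hM n
  have h3 : (4 : ℝ) ^ n * (|a n| * q n ^ K) ≤ M :=
    le_trans (mul_le_mul_of_nonneg_right h1 (mul_nonneg (abs_nonneg _) (pow_nonneg hqn.le _))) h2
  have h4' : (0 : ℝ) < 4 ^ n := by positivity
  rw [one_div, inv_pow, ← div_eq_mul_inv, le_div_iff₀ h4']
  linarith

lemma RD_of_le {q a b : ℕ → ℝ} (h4 : ∀ n, 4 ≤ q n) (ha : RD q a) (h : ∀ n, |b n| ≤ |a n|) : RD q b := by
  intro k
  obtain ⟨M, hM⟩ := ha k
  refine ⟨M, fun n => le_trans (mul_le_mul_of_nonneg_left (h n) (pow_nonneg (by linarith [h4 n]) _)) (hM n)⟩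

section
variable {q Λ b V γ : ℕ → ℝ} {β lam N : ℝ} {P : ℕ → E3 → E3} {r : Fin 4 × ℕ → E3 → E3}

lemma P_bd (hT : TY q Λ b V γ β lam N P r) (h4 : ∀ n, 4 ≤ q n) :
    ∃ (C : ℝ) (K : ℕ), 0 ≤ C ∧ ∀ n y, ‖P n y‖ ≤ C * q n ^ K := by
  obtain ⟨C, K, h⟩ := hT.pbd 0
  refine ⟨C, K, ?_, fun n y => ?_⟩
  · have h0 := h 0 0
    have h1 : 0 < q 0 ^ K := pow_pos (by linarith [h4 0]) _
    by_contra hC
    have : C * q 0 ^ K < 0 := mul_neg_of_neg_of_pos (not_le.1 hC) h1
    linarith [norm_nonneg (iteratedFDeriv ℝ 0 (P 0) 0)]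
  · have := h n y
    rwa [norm_iteratedFDeriv_zero] at this

lemma P_supp (hT : TY q Λ b V γ β lam N P r) (h4 : ∀ n, 4 ≤ q n) (n : ℕ) (y : E3) (hy : 1 ≤ ‖y‖) :
    P n y = 0 := by
  refine hT.out n y ?_
  have h1 : (16 : ℝ) ≤ q n ^ 2 := by nlinarith [h4 n]
  nlinarith

lemma P_cs (hT : TY q Λ b V γ β lam N P r) (h4 : ∀ n, 4 ≤ q n) (n : ℕ) : HasCompactSupport (P n) := by
  refine HasCompactSupport.intro (isCompact_closedBall (0 : E3) 1) fun y hy => ?_
  refine P_supp hT h4 n y ?_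
  rw [mem_closedBall_zero_iff, not_le] at hy
  exact hy.le

lemma P_sum (hT : TY q Λ b V γ β lam N P r) (h4 : ∀ n, 4 ≤ q n) (hq : ∀ n, 4 * q n ≤ q (n + 1))
    {a : ℕ → ℝ} (ha : RD q a) : ∃ u : ℕ → ℝ, Summable u ∧ (∀ n, 0 ≤ u n) ∧
    ∀ n y, ‖a n • P n y‖ ≤ u n := by
  obtain ⟨C, K, hC, h⟩ := P_bd hT h4
  refine ⟨fun n => C * (|a n| * q n ^ K), (RD_sum h4 hq ha K).mul_left C, fun n => ?_, fun n y => ?_⟩
  · exact mul_nonneg hC (mul_nonneg (abs_nonneg _) (pow_nonneg (by linarith [h4 n]) _))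
  · rw [norm_smul, Real.norm_eq_abs]
    calc |a n| * ‖P n y‖ ≤ |a n| * (C * q n ^ K) := mul_le_mul_of_nonneg_left (h n y) (abs_nonneg _)
      _ = C * (|a n| * q n ^ K) := by ring

lemma sp_cont (hT : TY q Λ b V γ β lam N P r) (h4 : ∀ n, 4 ≤ q n) (hq : ∀ n, 4 * q n ≤ q (n + 1))
    {a : ℕ → ℝ} (ha : RD q a) : Continuous (sp P a) := by
  obtain ⟨u, hu, _, h⟩ := P_sum hT h4 hq ha
  exact continuous_tsum (fun n => ((hT.sm n).continuous).const_smul (a n)) hu h

lemma sp_out (hT : TY q Λ b V γ β lam N P r) (h4 : ∀ n, 4 ≤ q n) (a : ℕ → ℝ) (y : E3) (hy : 1 ≤ ‖y‖) :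
    sp P a y = 0 := by
  unfold sp
  have : ∀ n, a n • P n y = 0 := fun n => by rw [P_supp hT h4 n y hy, smul_zero]
  simp [this]

lemma sp_cs (hT : TY q Λ b V γ β lam N P r) (h4 : ∀ n, 4 ≤ q n) (a : ℕ → ℝ) :
    HasCompactSupport (sp P a) := by
  refine HasCompactSupport.intro (isCompact_closedBall (0 : E3) 1) fun y hy => ?_
  refine sp_out hT h4 a y ?_
  rw [mem_closedBall_zero_iff, not_le] at hy
  exact hy.le

/-- products with locally integrable fields -/
lemma ip_sum (hT : TY q Λ b V γ β lam N P r) (h4 : ∀ n, 4 ≤ q n) (hq : ∀ n, 4 * q n ≤ q (n + 1))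
    {a : ℕ → ℝ} (ha : RD q a) {w : E3 → E3} (hw : LocallyIntegrable w volume) :
    HasSum (fun n => a n * ip (P n) w) (ip (sp P a) w) := by
  obtain ⟨u, hu, hu0, h⟩ := P_sum hT h4 hq ha
  have hwi : IntegrableOn w (Metric.closedBall (0 : E3) 1) volume :=
    hw.integrableOn_isCompact (isCompact_closedBall _ _)
  set W : E3 → ℝ := fun y => (Metric.closedBall (0 : E3) 1).indicator (fun y => ‖w y‖) y with hW
  have hWi : Integrable W volume := by
    rw [hW, integrable_indicator_iff measurableSet_closedBall]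
    exact hwi.norm
  have hws : AEStronglyMeasurable w volume := hw.aestronglyMeasurable
  have hbd : ∀ n y, ‖inner ℝ (a n • P n y) (w y)‖ ≤ u n * W y := by
    intro n y
    by_cases hy : y ∈ Metric.closedBall (0 : E3) 1
    · rw [hW]
      simp only [Set.indicator_of_mem hy]
      exact le_trans (norm_inner_le_norm _ _) (mul_le_mul_of_nonneg_right (h n y) (norm_nonneg _))
    · have hy' : 1 ≤ ‖y‖ := by
        rw [mem_closedBall_zero_iff, not_le] at hy
        exact hy.le
      rw [P_supp hT h4 n y hy', smul_zero, inner_zero_left, norm_zero]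
      refine mul_nonneg (hu0 n) ?_
      rw [hW]
      exact Set.indicator_nonneg (fun _ _ => norm_nonneg _) _
  have hms : ∀ n, AEStronglyMeasurable (fun y => inner ℝ (a n • P n y) (w y)) volume := by
    intro n
    exact ((((hT.sm n).continuous).const_smul (a n)).aestronglyMeasurable).inner hws
  have hint : ∀ n, Integrable (fun y => inner ℝ (a n • P n y) (w y)) volume := by
    intro n
    exact (hWi.const_mul (u n)).mono' (hms n) (Eventually.of_forall fun y => hbd n y)
  have hsum : Summable fun n => ∫ y, ‖inner ℝ (a n • P n y) (w y)‖ := by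
    refine Summable.of_nonneg_of_le (fun n => integral_nonneg fun y => norm_nonneg _) (fun n => ?_)
      (hu.mul_right (∫ y, W y))
    rw [← integral_const_mul]
    exact integral_mono (hint n).norm (hWi.const_mul (u n)) (hbd n)
  have h1 := hasSum_integral_of_summable_integral_norm hint hsum
  have h2 : ∀ y, ∑' n, inner ℝ (a n • P n y) (w y) = inner ℝ (sp P a y) (w y) := by
    intro y
    have hs : Summable fun n => a n • P n y := Summable.of_norm_bounded hu fun n => h n y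
    have := ((innerSL ℝ (w y)).hasSum hs.hasSum)
    simp only [innerSL_apply_apply] at this
    have h3 := this.tsum_eq
    rw [sp, real_inner_comm, ← h3]
    exact tsum_congr fun n => real_inner_comm _ _
  have h3 : ∀ n, ∫ y, inner ℝ (a n • P n y) (w y) = a n * ip (P n) w := by
    intro n
    rw [ip, ← integral_const_mul]
    refine integral_congr_ae (Eventually.of_forall fun y => ?_)
    simp only [inner_smul_left, conj_trivial]
  simp only [h3, h2] at h1
  exact h1

lemma ip_comm' (v w : E3 → E3) : ip v w = ip w v := by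
  unfold ip
  refine integral_congr_ae (Eventually.of_forall fun y => ?_)
  exact real_inner_comm _ _

lemma ip_P (hT : TY q Λ b V γ β lam N P r) (h4 : ∀ n, 4 ≤ q n) (hq : ∀ n, 4 * q n ≤ q (n + 1))
    {a : ℕ → ℝ} (ha : RD q a) (m : ℕ) : ip (sp P a) (P m) = a m * (N / b m) := by
  have h1 := ip_sum hT h4 hq ha ((hT.sm m).continuous.locallyIntegrable (μ := volume))
  have h2 : (fun n => a n * ip (P n) (P m)) = fun n => if n = m then a m * (N / b m) else 0 := by
    ext n
    rw [hT.norm]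
    split_ifs with h
    · subst h; rfl
    · rw [mul_zero]
  rw [h2] at h1
  exact h1.unique (hasSum_ite_eq m _)

lemma ip_self (hT : TY q Λ b V γ β lam N P r) (h4 : ∀ n, 4 ≤ q n) (hq : ∀ n, 4 * q n ≤ q (n + 1))
    {a : ℕ → ℝ} (ha : RD q a) : ip (sp P a) (sp P a) = N * ∑' n, a n ^ 2 / b n := by
  have h1 := ip_sum hT h4 hq ha ((sp_cont hT h4 hq ha).locallyIntegrable (μ := volume))
  have h2 : (fun n => a n * ip (P n) (sp P a)) = fun n => N * (a n ^ 2 / b n) := by
    ext n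
    rw [ip_comm', ip_P hT h4 hq ha n]
    ring
  rw [h2] at h1
  rw [← h1.tsum_eq, tsum_mul_left]

lemma b_bd (hC : Cf q Λ b V γ) (h4 : ∀ n, 4 ≤ q n) (n : ℕ) : 3 / 4 ≤ b n ∧ b n ≤ 5 / 4 := by
  have h1 := hC.bb n
  have h2 : 1 / q n ≤ 1 / 4 := one_div_le_one_div_of_le (by norm_num) (h4 n)
  have h3 := abs_le.1 (h1.trans h2)
  constructor <;> linarith [h3.1, h3.2]

end

end Z34

open Z34

theorem t_Z3 : S_Z3 := by
  intro q Λ b V γ β lam N P r hT hC h4 hq a ha
  refine ⟨ip_self hT h4 hq ha, fun i => ?_, fun δ n₀ hδ hn₀ => ?_⟩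
  · have h1 := ip_sum hT h4 hq ha ((hT.rsm i).continuous.locallyIntegrable (μ := volume))
    have h2 : (fun n => a n * ip (P n) (r i)) = fun _ => (0 : ℝ) := by
      ext n
      rw [hT.orth, mul_zero]
    rw [h2] at h1
    exact h1.unique hasSum_zero
  · set a' : ℕ → ℝ := fun n => if n < n₀ then a n else 0 with ha'
    have hRa' : RD q a' := by
      refine RD_of_le h4 ha fun n => ?_
      rw [ha']
      simp only
      split_ifs
      · exact le_refl _
      · rw [abs_zero]; exact abs_nonneg _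
    have h1 : ∀ y ∈ {y : E3 | δ ≤ ‖y‖}, ‖sp P a y‖ ^ 2 = ‖sp P a' y‖ ^ 2 := by
      intro y hy
      have hy' : δ ≤ ‖y‖ := hy
      have h2 : sp P a y = sp P a' y := by
        unfold sp
        refine tsum_congr fun n => ?_
        rw [ha']
        simp only
        split_ifs with h
        · rfl
        · have h3 : 1 / 2 ≤ q n ^ 2 * ‖y‖ := le_trans (hn₀ n (not_lt.1 h))
            (mul_le_mul_of_nonneg_left hy' (sq_nonneg _))
          rw [hT.out n y h3, smul_zero, smul_zero]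
      rw [h2]
    have hms : MeasurableSet {y : E3 | δ ≤ ‖y‖} := measurableSet_le measurable_const measurable_norm
    rw [setIntegral_congr_fun hms h1]
    have hcont : Continuous fun y => ‖sp P a' y‖ ^ 2 := ((sp_cont hT h4 hq hRa').norm).pow 2
    have hcs : HasCompactSupport fun y => ‖sp P a' y‖ ^ 2 :=
      (sp_cs hT h4 a').comp_left (g := fun v : E3 => ‖v‖ ^ 2) (by simp)
    have hint : Integrable (fun y => ‖sp P a' y‖ ^ 2) volume := hcont.integrable_of_hasCompactSupport hcs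
    refine le_trans (setIntegral_le_integral hint (Eventually.of_forall fun y => sq_nonneg _)) ?_
    have h5 : ∫ y, ‖sp P a' y‖ ^ 2 = ip (sp P a') (sp P a') := by
      unfold ip
      refine integral_congr_ae (Eventually.of_forall fun y => ?_)
      simp only [real_inner_self_eq_norm_sq]
    rw [h5, ip_self hT h4 hq hRa']
    have h6 : ∑' n, a' n ^ 2 / b n = ∑ n ∈ Finset.range n₀, a n ^ 2 / b n := by
      rw [tsum_eq_sum (s := Finset.range n₀)]
      · refine Finset.sum_congr rfl fun n hn => ?_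
        rw [ha']
        simp only [Finset.mem_range.1 hn, if_true]
      · intro n hn
        rw [ha']
        simp only
        rw [if_neg (by simpa using hn)]
        simp
    rw [h6, mul_comm 2 N, mul_assoc]
    refine mul_le_mul_of_nonneg_left ?_ hT.N0.le
    rw [Finset.mul_sum]
    refine Finset.sum_le_sum fun n _ => ?_
    have hb := b_bd hC h4 n
    rw [div_le_iff₀ (by linarith [hb.1])]
    nlinarith [sq_nonneg (a n), hb.1]

namespace Z34

section
variable {ε ν β lam N T A : ℝ} {q Λ b V γ : ℕ → ℝ} {P : ℕ → E3 → E3} {r : Fin 4 × ℕ → E3 → E3}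
  {X : ℕ → ℝ → ℝ}

lemma RDt (F : Fu ε ν β lam N q Λ b V γ P r T A X) {t : ℝ} (ht : t ∈ Ico 0 T) :
    RD q (fun n => X n t) := by
  obtain ⟨y, hy0, hR, _⟩ := F.smr
  intro k
  obtain ⟨M, hM⟩ := hR 0 k t ht.2
  rw [hy0] at hM
  exact ⟨M, fun n => hM t ⟨ht.1, le_refl _⟩ n⟩

lemma RD_sq {a : ℕ → ℝ} (h4 : ∀ n, 4 ≤ q n) (hq : ∀ n, 4 * q n ≤ q (n + 1)) (ha : RD q a) :
    Summable fun n => a n ^ 2 := by
  obtain ⟨M, hM⟩ := ha 0
  have h0 := (RD_sum h4 hq ha 0).mul_left M
  refine Summable.of_nonneg_of_le (fun n => sq_nonneg _) (fun n => ?_) h0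
  have h1 := hM n
  rw [pow_zero, one_mul] at h1
  rw [pow_zero, mul_one, ← sq_abs, sq]
  exact mul_le_mul_of_nonneg_right h1 (abs_nonneg _)

/-- the bound of the energy -/
noncomputable def En (ε A : ℝ) : ℝ := 5 / 4 * (A ^ 2 * (1 + ε))

lemma en_le (F : Fu ε ν β lam N q Λ b V γ P r T A X) {t : ℝ} (ht : t ∈ Ico 0 T) :
    (Summable fun n => X n t ^ 2) ∧ ∑' n, X n t ^ 2 ≤ En ε A := by
  have hs := RD_sq F.q2 F.qq (RDt F ht)
  refine ⟨hs, ?_⟩
  have hb := b_bd F.cf F.q2
  have hs2 : Summable fun n => X n t ^ 2 / b n := by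
    refine Summable.of_nonneg_of_le (fun n => div_nonneg (sq_nonneg _) (by linarith [(hb n).1]))
      (fun n => ?_) (hs.mul_left (4 / 3))
    rw [div_le_iff₀ (by linarith [(hb n).1])]
    nlinarith [sq_nonneg (X n t), (hb n).1]
  have h1 : ∑' n, X n t ^ 2 ≤ ∑' n, 5 / 4 * (X n t ^ 2 / b n) := by
    refine hs.tsum_le_tsum (fun n => ?_) (hs2.mul_left (5 / 4))
    rw [mul_div_assoc', le_div_iff₀ (by linarith [(hb n).1])]
    nlinarith [sq_nonneg (X n t), (hb n).2]
  rw [tsum_mul_left] at h1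
  unfold En
  linarith [F.upp t ht]

lemma En_nonneg (F : Fu ε ν β lam N q Λ b V γ P r T A X) : 0 ≤ En ε A := by
  have := F.ε0
  unfold En
  positivity

lemma X_le (F : Fu ε ν β lam N q Λ b V γ P r T A X) {t : ℝ} (ht : t ∈ Ico 0 T) (n : ℕ) :
    |X n t| ≤ √(En ε A) := by
  obtain ⟨hs, hE⟩ := en_le F ht
  rw [← Real.sqrt_sq_eq_abs]
  refine Real.sqrt_le_sqrt (le_trans ?_ hE)
  exact hs.le_tsum n fun m _ => sq_nonneg _

lemma tail_le (F : Fu ε ν β lam N q Λ b V γ P r T A X) {t : ℝ} (ht : t ∈ Ico 0 T) (n : ℕ) :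
    0 ≤ ∑' m, X (n + 1 + m) t ^ 2 ∧ ∑' m, X (n + 1 + m) t ^ 2 ≤ En ε A := by
  obtain ⟨hs, hE⟩ := en_le F ht
  refine ⟨tsum_nonneg fun m => sq_nonneg _, le_trans ?_ hE⟩
  exact tsum_comp_le_tsum_of_inj (f := fun n => X n t ^ 2) hs (fun n => sq_nonneg _)
    (i := fun m => n + 1 + m) (fun a c h => by simpa using h)

/-- the bound of the derivative -/
noncomputable def Db (ε ν β lam A : ℝ) (Λ b V γ : ℕ → ℝ) (n : ℕ) : ℝ :=
  |ν * lam * V n| * √(En ε A) + |β * b n| * (√(En ε A) * (∑ i ∈ Finset.range n, |Λ i| * √(En ε A))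
    + |Λ n| * En ε A + |γ n| * √(En ε A) * √(En ε A) + |γ (n - 1)| * √(En ε A) ^ 2)

lemma Db_le (F : Fu ε ν β lam N q Λ b V γ P r T A X) {t : ℝ} (ht : t ∈ Ico 0 T) (n : ℕ) :
    |-(ν * lam * V n * X n t) + β * b n * yq Λ γ (fun m => X m t) n| ≤ Db ε ν β lam A Λ b V γ n := by
  have hX := X_le F ht
  have hR : 0 ≤ √(En ε A) := Real.sqrt_nonneg _
  have hy : |yq Λ γ (fun m => X m t) n| ≤ √(En ε A) * (∑ i ∈ Finset.range n, |Λ i| * √(En ε A))
    + |Λ n| * En ε A + |γ n| * √(En ε A) * √(En ε A) + |γ (n - 1)| * √(En ε A) ^ 2 := by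
    unfold yq
    refine (abs_add_le _ _).trans (add_le_add ((abs_sub _ _).trans (add_le_add
      ((abs_sub _ _).trans (add_le_add ?_ ?_)) ?_)) ?_)
    · rw [abs_mul]
      refine mul_le_mul (hX n) ?_ (abs_nonneg _) hR
      refine (Finset.abs_sum_le_sum_abs _ _).trans (Finset.sum_le_sum fun i _ => ?_)
      rw [abs_mul]
      exact mul_le_mul_of_nonneg_left (hX i) (abs_nonneg _)
    · rw [abs_mul]
      refine mul_le_mul_of_nonneg_left ?_ (abs_nonneg _)
      rw [abs_of_nonneg (tail_le F ht n).1]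
      exact (tail_le F ht n).2
    · rw [abs_mul, abs_mul]
      exact mul_le_mul (mul_le_mul_of_nonneg_left (hX n) (abs_nonneg _)) (hX (n + 1)) (abs_nonneg _)
        (mul_nonneg (abs_nonneg _) hR)
    · split_ifs
      · rw [abs_zero]; positivity
      · rw [abs_mul, abs_pow]
        exact mul_le_mul_of_nonneg_left (pow_le_pow_left₀ (abs_nonneg _) (hX _) 2) (abs_nonneg _)
  refine (abs_add_le _ _).trans ?_
  rw [abs_neg, abs_mul, abs_mul (β * b n)]
  unfold Db
  exact add_le_add (mul_le_mul_of_nonneg_left (hX n) (abs_nonneg _))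
    (mul_le_mul_of_nonneg_left hy (abs_nonneg _))

/-- the limits of the modes -/
lemma X_lim (F : Fu ε ν β lam N q Λ b V γ P r T A X) (n : ℕ) :
    ∃ x, Tendsto (X n) (𝓝[<] T) (𝓝 x) ∧ |x| ≤ A * (ε / 2 ^ n) := by
  have hD0 : 0 ≤ Db ε ν β lam A Λ b V γ n :=
    le_trans (abs_nonneg _) (Db_le F (t := 0) ⟨le_refl _, F.T0⟩ n)
  have hL : LipschitzOnWith (Real.toNNReal (Db ε ν β lam A Λ b V γ n)) (X n) (Ico 0 T) := by
    refine (convex_Ico 0 T).lipschitzOnWith_of_nnnorm_hasDerivWithin_le (fun t ht => F.ode n t ht)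
      fun t ht => ?_
    rw [← NNReal.coe_le_coe, coe_nnnorm, Real.coe_toNNReal _ hD0, Real.norm_eq_abs]
    exact Db_le F ht n
  obtain ⟨g, hg, he⟩ := hL.extend_real
  have hmem : Ico 0 T ∈ 𝓝[<] T := Ico_mem_nhdsLT F.T0
  have hlim : Tendsto (X n) (𝓝[<] T) (𝓝 (g T)) := by
    refine Tendsto.congr' ?_ ((hg.continuous.tendsto T).mono_left nhdsWithin_le_nhds)
    filter_upwards [hmem] with t ht using (he ht).symm
  refine ⟨g T, hlim, ?_⟩
  obtain ⟨t₀, ht₀, hl⟩ := F.left n
  refine le_of_tendsto hlim.abs ?_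
  filter_upwards [Ico_mem_nhdsLT ht₀] with t ht using hl t ht

/-- `0 ≤ ∫ |v - c w|²` -/
lemma ip_quad {v w : E3 → E3} (hv : MemLp v 2 volume) (hw : MemLp w 2 volume) (c : ℝ) :
    0 ≤ ip v v - 2 * c * ip w v + c ^ 2 * ip w w := by
  have h1 : Integrable (fun y => ‖v y‖ ^ 2) volume := (memLp_two_iff_integrable_sq_norm hv.1).1 hv
  have h2 : Integrable (fun y => ‖w y‖ ^ 2) volume := (memLp_two_iff_integrable_sq_norm hw.1).1 hw
  have h3 : Integrable (fun y => inner ℝ (w y) (v y)) volume := by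
    refine (h1.add h2).mono' (hw.1.inner hv.1) (Eventually.of_forall fun y => ?_)
    refine (norm_inner_le_norm _ _).trans ?_
    simp only [Pi.add_apply]
    nlinarith [sq_nonneg (‖v y‖ - ‖w y‖), norm_nonneg (v y), norm_nonneg (w y)]
  have h4 : ip v v - 2 * c * ip w v + c ^ 2 * ip w w = ∫ y, ‖v y - c • w y‖ ^ 2 := by
    have e1 : ip v v = ∫ y, ‖v y‖ ^ 2 := by
      unfold ip
      exact integral_congr_ae (Eventually.of_forall fun y => real_inner_self_eq_norm_sq _)
    have e2 : ip w w = ∫ y, ‖w y‖ ^ 2 := by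
      unfold ip
      exact integral_congr_ae (Eventually.of_forall fun y => real_inner_self_eq_norm_sq _)
    have h5 : Integrable (fun y => ‖v y‖ ^ 2 - 2 * c * inner ℝ (w y) (v y)) volume :=
      h1.sub (h3.const_mul _)
    rw [e1, e2, ip, ← integral_const_mul, ← integral_const_mul, ← integral_sub h1 (h3.const_mul _),
      ← integral_add h5 (h2.const_mul _)]
    refine integral_congr_ae (Eventually.of_forall fun y => ?_)
    simp only
    rw [norm_sub_sq_real, inner_smul_right, norm_smul, mul_pow, Real.norm_eq_abs, sq_abs,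
      real_inner_comm (v y) (w y)]
    ring
  rw [h4]
  exact integral_nonneg fun y => sq_nonneg _

/-- Bessel -/
lemma bessel (hT : TY q Λ b V γ β lam N P r) (hC : Cf q Λ b V γ) (h4 : ∀ n, 4 ≤ q n)
    (hq : ∀ n, 4 * q n ≤ q (n + 1)) {v : E3 → E3} (hv : MemLp v 2 volume) (M : ℕ) :
    ∑ n ∈ Finset.range M, ip (P n) v ^ 2 ≤ 4 / 3 * (N * ip v v) := by
  have hb := b_bd hC h4
  set a : ℕ → ℝ := fun n => if n < M then b n * ip (P n) v else 0 with ha
  have hRa : RD q a := by
    intro k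
    refine ⟨∑ n ∈ Finset.range M, q n ^ k * |a n|, fun n => ?_⟩
    have h0 : ∀ m, 0 ≤ q m ^ k * |a m| := fun m =>
      mul_nonneg (pow_nonneg (by linarith [h4 m]) _) (abs_nonneg _)
    by_cases hn : n < M
    · exact Finset.single_le_sum (f := fun n => q n ^ k * |a n|) (fun m _ => h0 m) (Finset.mem_range.2 hn)
    · have : a n = 0 := by rw [ha]; simp only [if_neg hn]
      rw [this, abs_zero, mul_zero]
      exact Finset.sum_nonneg fun m _ => h0 m
  set S : ℝ := ∑ n ∈ Finset.range M, b n * ip (P n) v ^ 2 with hS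
  have hcont := sp_cont hT h4 hq hRa
  have hw : MemLp (sp P a) 2 volume := hcont.memLp_of_hasCompactSupport (sp_cs hT h4 a)
  have h1 : ip (sp P a) v = S := by
    have hh := ip_sum hT h4 hq hRa (hv.locallyIntegrable (by norm_num))
    rw [← hh.tsum_eq, tsum_eq_sum (s := Finset.range M)]
    · refine Finset.sum_congr rfl fun n hn => ?_
      rw [ha]
      simp only [Finset.mem_range.1 hn, if_true]
      ring
    · intro n hn
      rw [ha]
      simp only
      rw [if_neg (by simpa using hn), zero_mul]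
  have h2 : ip (sp P a) (sp P a) = N * S := by
    rw [ip_self hT h4 hq hRa, tsum_eq_sum (s := Finset.range M)]
    · congr 1
      refine Finset.sum_congr rfl fun n hn => ?_
      rw [ha]
      simp only [Finset.mem_range.1 hn, if_true]
      have : b n ≠ 0 := by have := (hb n).1; intro h; rw [h] at this; linarith
      field_simp
    · intro n hn
      rw [ha]
      simp only
      rw [if_neg (by simpa using hn)]
      simp
  have hN := hT.N0
  have h3 := ip_quad hv hw (1 / N)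
  rw [h1, h2] at h3
  have h4' : ip v v - 2 * (1 / N) * S + (1 / N) ^ 2 * (N * S) = ip v v - S / N := by
    field_simp
    ring
  rw [h4'] at h3
  have h5 : S ≤ N * ip v v := by
    have : S / N ≤ ip v v := by linarith
    rwa [div_le_iff₀ hN, mul_comm] at this
  have h6 : ∑ n ∈ Finset.range M, ip (P n) v ^ 2 ≤ 4 / 3 * S := by
    rw [hS, Finset.mul_sum]
    refine Finset.sum_le_sum fun n _ => ?_
    nlinarith [sq_nonneg (ip (P n) v), (hb n).1]
  linarith

end

end Z34

theorem t_Z4 : S_Z4 := by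
  intro ε ν β lam N q Λ b V γ P r T A X F v hv
  set B : ℕ → ℝ := fun n => ip (P n) v with hB
  have hT := F.tab
  have hbes : ∀ M, ∑ n ∈ Finset.range M, B n ^ 2 ≤ 4 / 3 * (N * ip v v) :=
    fun M => bessel hT F.cf F.q2 F.qq hv M
  have hBs : Summable fun n => B n ^ 2 :=
    summable_of_sum_range_le (fun n => sq_nonneg _) hbes
  choose x hx hxb using X_lim F
  have hE0 := En_nonneg F
  have hAε : 0 ≤ A * ε := mul_nonneg F.A0.le F.ε0.le
  have hx2 : ∀ n, x n ^ 2 ≤ (A * ε) ^ 2 * (1 / 4 : ℝ) ^ n := by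
    intro n
    have h1 := hxb n
    have h2 : A * (ε / 2 ^ n) = (A * ε) * (1 / 2) ^ n := by
      rw [one_div, inv_pow]; ring
    rw [h2] at h1
    rw [← sq_abs]
    calc |x n| ^ 2 ≤ ((A * ε) * (1 / 2) ^ n) ^ 2 := pow_le_pow_left₀ (abs_nonneg _) h1 2
      _ = (A * ε) ^ 2 * (1 / 4 : ℝ) ^ n := by
        rw [mul_pow, ← pow_mul, mul_comm n 2, pow_mul]; norm_num
  have hgs : Summable fun n : ℕ => (A * ε) ^ 2 * (1 / 4 : ℝ) ^ n :=
    (summable_geometric_of_lt_one (by norm_num) (by norm_num)).mul_left _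
  have hxs : Summable fun n => x n ^ 2 := Summable.of_nonneg_of_le (fun n => sq_nonneg _) hx2 hgs
  have hxB : Summable fun n => x n * B n := by
    refine Summable.of_norm_bounded (hxs.add hBs) fun n => ?_
    rw [Real.norm_eq_abs, abs_mul]
    nlinarith [sq_nonneg (|x n| - |B n|), abs_nonneg (x n), abs_nonneg (B n), sq_abs (x n), sq_abs (B n)]
  have hxsum : ∀ M, ∑ n ∈ Finset.range M, x n ^ 2 ≤ 4 / 3 * (A * ε) ^ 2 := by
    intro M
    have h1 : ∑ n ∈ Finset.range M, x n ^ 2 ≤ ∑' n : ℕ, (A * ε) ^ 2 * (1 / 4 : ℝ) ^ n :=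
      le_trans (Finset.sum_le_sum fun n _ => hx2 n)
        (hgs.sum_le_tsum _ fun n _ => by positivity)
    rw [tsum_mul_left, tsum_geometric_of_lt_one (by norm_num) (by norm_num)] at h1
    linarith
  refine ⟨∑' n, x n * B n, ?_, ?_⟩
  · -- convergence
    have hunif : TendstoUniformlyOnFilter (fun (M : ℕ) (t : ℝ) => ∑ n ∈ Finset.range M, X n t * B n)
        (fun t => ip (gU P X t) v) atTop (𝓝[<] T) := by
      rw [Metric.tendstoUniformlyOnFilter_iff]
      intro η hη
      set tl : ℕ → ℝ := fun M => ∑' n, B n ^ 2 - ∑ n ∈ Finset.range M, B n ^ 2 with htl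
      have htl0 : Tendsto (fun M => √(En ε A * tl M)) atTop (𝓝 0) := by
        have h1 : Tendsto tl atTop (𝓝 0) := by
          have := (tendsto_const_nhds (x := ∑' n, B n ^ 2)).sub hBs.hasSum.tendsto_sum_nat
          rwa [sub_self] at this
        have h2 := (h1.const_mul (En ε A)).sqrt
        rwa [mul_zero, Real.sqrt_zero] at h2
      have hev : ∀ᶠ M in atTop, √(En ε A * tl M) < η := htl0.eventually_lt_const hη
      have hmem : ∀ᶠ t in 𝓝[<] T, t ∈ Ico 0 T := Ico_mem_nhdsLT F.T0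
      refine (hev.prod_mk hmem).mono ?_
      rintro ⟨M, t⟩ ⟨hM, ht⟩
      simp only at hM ht ⊢
      refine lt_of_le_of_lt ?_ hM
      have hsum := ip_sum hT F.q2 F.qq (RDt F ht) (hv.locallyIntegrable (by norm_num))
      have hlim : Tendsto (fun M' => dist (∑ n ∈ Finset.range M', X n t * B n)
          (∑ n ∈ Finset.range M, X n t * B n)) atTop
          (𝓝 (dist (ip (gU P X t) v) (∑ n ∈ Finset.range M, X n t * B n))) :=
        (hsum.tendsto_sum_nat).dist tendsto_const_nhds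
      refine le_of_tendsto hlim ?_
      filter_upwards [eventually_ge_atTop M] with M' hM'
      rw [Real.dist_eq, ← Finset.sum_Ico_eq_sub _ hM']
      refine Real.abs_le_sqrt ?_
      refine (Finset.sum_mul_sq_le_sq_mul_sq _ _ _).trans ?_
      obtain ⟨hs, hE⟩ := en_le F ht
      refine mul_le_mul ?_ ?_ (Finset.sum_nonneg fun n _ => sq_nonneg _) hE0
      · exact (hs.sum_le_tsum _ fun n _ => sq_nonneg _).trans hE
      · rw [Finset.sum_Ico_eq_sub _ hM', htl]
        simp only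
        have := hBs.sum_le_tsum (Finset.range M') fun n _ => sq_nonneg _
        linarith
    refine hunif.tendsto_of_eventually_tendsto (L := fun M => ∑ n ∈ Finset.range M, x n * B n)
      (Eventually.of_forall fun M => ?_) hxB.hasSum.tendsto_sum_nat
    exact tendsto_finsetSum _ fun n _ => (hx n).mul_const (B n)
  · -- bound
    have hlim : Tendsto (fun M => (∑ n ∈ Finset.range M, x n * B n) ^ 2) atTop
        (𝓝 ((∑' n, x n * B n) ^ 2)) := hxB.hasSum.tendsto_sum_nat.pow 2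
    refine le_of_tendsto' hlim fun M => ?_
    have hv0 : 0 ≤ ip v v := by
      unfold ip
      exact integral_nonneg fun y => real_inner_self_nonneg
    have hN := hT.N0
    calc (∑ n ∈ Finset.range M, x n * B n) ^ 2
        ≤ (∑ n ∈ Finset.range M, x n ^ 2) * ∑ n ∈ Finset.range M, B n ^ 2 :=
          Finset.sum_mul_sq_le_sq_mul_sq _ _ _
      _ ≤ (4 / 3 * (A * ε) ^ 2) * (4 / 3 * (N * ip v v)) :=
          mul_le_mul (hxsum M) (hbes M) (Finset.sum_nonneg fun n _ => sq_nonneg _) (by positivity)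
      _ ≤ 4 * ε ^ 2 * A ^ 2 * N * ip v v := by
          have h0 : 0 ≤ ε ^ 2 * A ^ 2 * N * ip v v := by positivity
          nlinarith [h0]

end Pool.Agent.N976.UE
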