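import Pool.Agent.N976.EN.Def4

/-!
# Energy concentration without force

Packets at doubly exponential scales, each of which contains a tiny seed of the next one. The
cascade: mode `n` hands over its energy to mode `n + 1` and, when the angle `π / 2` is reached,
mode `n + 2` takes over.
-/

open Set Filter Topology MeasureTheory
open scoped ContDiff InnerProductSpace

set_option autoImplicit false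

namespace Pool.Agent.N976.UE

open Pool.Agent.N976.SC Pool.Agent.N976.EN

/-- The coefficients of the reduced system. -/
structure Cf (q Λ b V γ : ℕ → ℝ) : Prop where
  lam : ∀ n, |Λ n - q n ^ 5| ≤ q n ^ 4
  bb : ∀ n, |b n - 1| ≤ 1 / q n
  vv : ∀ n, q n ^ 4 / 2 ≤ V n ∧ V n ≤ 2 * q n ^ 4
  g0 : γ 0 = 0
  g1 : ∀ n, Real.exp (-(Real.pi / 2 * q n)) ≤ γ (n + 1)
  g2 : ∀ n, γ (n + 1) ≤ q (n + 2) ^ 6 * Real.exp (-(Real.pi / 2 * q n))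

/-- The quadratic part of the system with the modes `0, …, N - 1`. -/
noncomputable def yN (Λ γ : ℕ → ℝ) (N : ℕ) (x : ℕ → ℝ) (n : ℕ) : ℝ :=
  x n * ∑ i ∈ Finset.range n, Λ i * x i - Λ n * ∑ m ∈ Finset.Ico (n + 1) N, x m ^ 2
  - γ n * x n * x (n + 1) + if n = 0 then 0 else γ (n - 1) * x (n - 1) ^ 2

/-- The quadratic part of the reduced system. -/
noncomputable def yq (Λ γ : ℕ → ℝ) (x : ℕ → ℝ) (n : ℕ) : ℝ :=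
  x n * ∑ i ∈ Finset.range n, Λ i * x i - Λ n * ∑' m : ℕ, x (n + 1 + m) ^ 2
  - γ n * x n * x (n + 1) + if n = 0 then 0 else γ (n - 1) * x (n - 1) ^ 2

/-- Solutions on `[0, ∞)` of the system with the modes `0, …, N - 1`. -/
structure FS (Λ b V γ : ℕ → ℝ) (N : ℕ) (x : ℕ → ℝ → ℝ) : Prop where
  zero : ∀ n ≥ N, ∀ t, x n t = 0
  ode : ∀ n < N, ∀ t ∈ Ici (0 : ℝ), HasDerivWithinAt (x n)
    (-(V n * x n t) + b n * yN Λ γ N (fun m => x m t) n) (Ici 0) t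

/-- Upper bound for the modes which are not yet active. -/
noncomputable def up (q : ℕ → ℝ) (m : ℕ) : ℝ :=
  Real.exp (-(Real.pi / 2 * q (m - 2)) + √(q (m - 2)))

/-- Lower bound for the modes which are not yet active. -/
noncomputable def lo (q : ℕ → ℝ) (m : ℕ) : ℝ := -Real.exp (-(3 * q (m - 2)))

/-- The visible amplitude. -/
noncomputable def rr (q : ℕ → ℝ) (n : ℕ) : ℝ := q n ^ (-(1 / 2 : ℝ))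

/-- (Y1) Global solutions of the finite systems. -/
def S_Y1 : Prop := ∀ (Λ b V γ : ℕ → ℝ) (N : ℕ) (a : ℕ → ℝ), (∀ n, 0 < b n) → (∀ n, 0 ≤ V n) →
  (∀ n ≥ N, a n = 0) → ∃ x : ℕ → ℝ → ℝ, FS Λ b V γ N x ∧ ∀ n, x n 0 = a n

/-- (Y2) One stage. -/
def S_Y2 : Prop := ∃ Q₁ : ℝ, 2 ≤ Q₁ ∧ ∀ Q ≥ Q₁, ∀ (Λ b V γ : ℕ → ℝ) (N : ℕ) (x : ℕ → ℝ → ℝ),
  Cf (qs Q) Λ b V γ → FS Λ b V γ N x → ∀ n : ℕ, n + 3 ≤ N → ∀ τ : ℝ, 0 ≤ τ →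
  ∑ m ∈ Finset.range N, x m τ ^ 2 / b m ≤ 51 / 50 → 9 / 10 ≤ x n τ →
  x (n + 1) τ = rr (qs Q) n →
  (∀ m ≥ n + 2, lo (qs Q) m ≤ x m τ ∧ x m τ ≤ up (qs Q) m) →
  ∃ τ' > τ, 1 / qs Q n ^ 5 ≤ τ' - τ ∧ τ' - τ ≤ 2 * Real.log (qs Q n) / qs Q n ^ 5 ∧
    x (n + 2) τ' = rr (qs Q) (n + 1) ∧ |x n τ'| ≤ 2 * qs Q n ^ (-(1 / 10 : ℝ)) ∧
    0 < x (n + 1) τ' ∧ ∀ t ∈ Icc τ τ', |x (n + 2) t| ≤ rr (qs Q) (n + 1) ∧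
      (∀ m ≥ n + 3, lo (qs Q) m ≤ x m t ∧ x m t ≤ up (qs Q) m) ∧
      ∑ m ∈ Finset.range N, x m τ ^ 2 / b m - qs Q n ^ (-(1 / 10 : ℝ)) ≤
        ∑ m ∈ Finset.range N, x m t ^ 2 / b m

/-- The cascade in the system with the modes `0, …, N - 1`. -/
structure CN (ε : ℝ) (q Λ b V γ : ℕ → ℝ) (N : ℕ) (σ : ℕ → ℝ) (x : ℕ → ℝ → ℝ) : Prop where
  fs : FS Λ b V γ N x
  ini0 : x 0 0 = 1
  ini1 : x 1 0 = rr q 0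
  ini : ∀ n, x (n + 2) 0 = 0
  σ0 : σ 0 = 0
  σ1 : ∀ n, n + 3 ≤ N → 1 / q n ^ 5 ≤ σ (n + 1) - σ n ∧
    σ (n + 1) - σ n ≤ 2 * Real.log (q n) / q n ^ 5
  act : ∀ n, n + 3 ≤ N → ∀ t ∈ Icc 0 (σ (n + 1)), ∀ m ≥ n + 3, |x m t| ≤ up q m
  low : ∀ n, n + 3 ≤ N → ∀ t ∈ Icc 0 (σ (n + 1)), 1 - ε ≤ ∑ m ∈ Finset.range N, x m t ^ 2 / b m
  upp : ∀ t, 0 ≤ t → ∑ m ∈ Finset.range N, x m t ^ 2 / b m ≤ 1 + ε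
  left : ∀ m n, m ≤ n → n + 3 ≤ N → ∀ t ∈ Icc (σ (m + 1)) (σ (n + 1)), |x m t| ≤ ε / 2 ^ m

/-- (Y3) The cascade in the finite systems. -/
def S_Y3 : Prop := ∀ ε : ℝ, 0 < ε → ∃ Q₀ : ℝ, ∀ Q ≥ Q₀, ∀ (Λ b V γ : ℕ → ℝ),
  Cf (qs Q) Λ b V γ → ∀ N ≥ 3, ∃ (σ : ℕ → ℝ) (x : ℕ → ℝ → ℝ), CN ε (qs Q) Λ b V γ N σ x

/-- The cascade. -/
structure CI (ε : ℝ) (q Λ b V γ : ℕ → ℝ) (T : ℝ) (σ : ℕ → ℝ) (x : ℕ → ℝ → ℝ) : Prop where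
  T0 : 0 < T
  σ0 : σ 0 = 0
  σm : StrictMono σ
  σT : ∀ n, σ n < T
  σl : Tendsto σ atTop (𝓝 T)
  ini0 : x 0 0 = 1
  ini1 : x 1 0 = rr q 0
  ini : ∀ n, x (n + 2) 0 = 0
  ode : ∀ n, ∀ t ∈ Ico 0 T, HasDerivWithinAt (x n)
    (-(V n * x n t) + b n * yq Λ γ (fun m => x m t) n) (Ico 0 T) t
  act : ∀ n, ∀ t ∈ Icc 0 (σ (n + 1)), ∀ m ≥ n + 3, |x m t| ≤ up q m
  low : ∀ t ∈ Ico 0 T, 1 - ε ≤ ∑' m, x m t ^ 2 / b m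
  upp : ∀ t ∈ Ico 0 T, ∑' m, x m t ^ 2 / b m ≤ 1 + ε
  left : ∀ m, ∀ t ∈ Ico (σ (m + 1)) T, |x m t| ≤ ε / 2 ^ m

/-- (Y4) The limit `N → ∞`. -/
def S_Y4 : Prop := ∀ (ε Q : ℝ) (Λ b V γ : ℕ → ℝ), 2 ≤ Q → 0 < ε → Cf (qs Q) Λ b V γ →
  (∀ N ≥ 3, ∃ (σ : ℕ → ℝ) (x : ℕ → ℝ → ℝ), CN ε (qs Q) Λ b V γ N σ x) →
  ∃ (T : ℝ) (σ : ℕ → ℝ) (x : ℕ → ℝ → ℝ), CI ε (qs Q) Λ b V γ T σ x

/-! ### Rapid decay -/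

/-- Rapid decay, locally uniform in time. -/
def RQT (q : ℕ → ℝ) (T : ℝ) (x : ℕ → ℝ → ℝ) : Prop :=
  ∀ k : ℕ, ∀ T' < T, ∃ M, ∀ t ∈ Icc 0 T', ∀ n, q n ^ k * |x n t| ≤ M

/-- The sequence is smooth in time and all its derivatives are rapidly decreasing. -/
def SmR (q : ℕ → ℝ) (T : ℝ) (x : ℕ → ℝ → ℝ) : Prop :=
  ∃ y : ℕ → ℕ → ℝ → ℝ, y 0 = x ∧ (∀ k, RQT q T (y k)) ∧
    ∀ k n, ∀ t ∈ Ico 0 T, HasDerivWithinAt (y k n) (y (k + 1) n t) (Ico 0 T) t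

/-- (Y5) The cascade is smooth in time with rapid decay. -/
def S_Y5 : Prop := ∀ (ε Q T : ℝ) (Λ b V γ : ℕ → ℝ) (σ : ℕ → ℝ) (x : ℕ → ℝ → ℝ), 2 ≤ Q →
  Cf (qs Q) Λ b V γ → CI ε (qs Q) Λ b V γ T σ x → SmR (qs Q) T x

/-! ### The flow -/

/-- The packets `P n` and their interactions modulo the constraint fields `r`. -/
structure TY (q Λ b V γ : ℕ → ℝ) (β lam N : ℝ) (P : ℕ → E3 → E3)
    (r : Fin 4 × ℕ → E3 → E3) : Prop where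
  β0 : 0 < β
  lam0 : 0 < lam
  N0 : 0 < N
  sm : ∀ n, ContDiff ℝ ∞ (P n)
  out : ∀ n y, 1 / 2 ≤ q n ^ 2 * ‖y‖ → P n y = 0
  div : ∀ n y, divg (P n) y = 0
  pbd : ∀ j : ℕ, ∃ (C : ℝ) (K : ℕ), ∀ n y, ‖iteratedFDeriv ℝ j (P n) y‖ ≤ C * q n ^ K
  rsm : ∀ i, ContDiff ℝ ∞ (r i)
  rout0 : ∀ i y, 1 ≤ q 0 ^ 2 * ‖y‖ → r (i, 0) y = 0
  rout : ∀ i n y, 1 ≤ q n ^ 2 * ‖y‖ → r (i, n + 1) y = 0
  rbd : ∃ (C : ℝ) (K : ℕ), ∀ i n y, ‖r (i, n) y‖ ≤ C * q n ^ K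
  norm : ∀ m n, ip (P m) (P n) = if m = n then N / b n else 0
  orth : ∀ m i, ip (P m) (r i) = 0
  pd : ∀ n y, adv (P n) (P n) y = ∑ k ∈ Finset.range (n + 1), r (0, k) y +
    β • (∑ j ∈ Finset.range n, (b j * Λ j) • P j y - (b (n + 1) * γ n) • P (n + 1) y)
  pc : ∀ m n y, m < n → adv (P m) (P n) y + adv (P n) (P m) y =
    Λ m • (r (1, n) y - (β * b n) • P n y) +
    if n = m + 1 then r (3, m) y + (β * b m * γ m) • P m y else 0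
  pl : ∀ n y, lap (P n) y = r (2, n) y - (lam * V n) • P n y

/-- (X) The table. -/
def S_X : Prop := ∃ Q₁ β lam N : ℝ, ∀ Q ≥ Q₁, ∃ (Λ b V γ : ℕ → ℝ) (P : ℕ → E3 → E3)
  (r : Fin 4 × ℕ → E3 → E3), Cf (qs Q) Λ b V γ ∧ TY (qs Q) Λ b V γ β lam N P r

/-- Sums of packets. -/
noncomputable def sp (P : ℕ → E3 → E3) (a : ℕ → ℝ) (y : E3) : E3 := ∑' n, a n • P n y

/-- The velocity. -/
noncomputable def gU (P : ℕ → E3 → E3) (X : ℕ → ℝ → ℝ) (t : ℝ) (y : E3) : E3 :=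
  sp P (fun n => X n t) y

/-- The reaction coefficients. -/
noncomputable def ly (ν : ℝ) (Λ : ℕ → ℝ) (a : ℕ → ℝ) (p : Fin 4 × ℕ) : ℝ :=
  ![∑' m, a (p.2 + m) ^ 2, a p.2 * ∑ i ∈ Finset.range p.2, Λ i * a i, -(ν * a p.2),
    a p.2 * a (p.2 + 1)] p.1

/-- The data of the flow with the viscosity `ν`. -/
structure Fu (ε ν β lam N : ℝ) (q Λ b V γ : ℕ → ℝ) (P : ℕ → E3 → E3)
    (r : Fin 4 × ℕ → E3 → E3) (T A : ℝ) (X : ℕ → ℝ → ℝ) : Prop where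
  ε0 : 0 < ε
  ν0 : 0 < ν
  T0 : 0 < T
  A0 : 0 < A
  tab : TY q Λ b V γ β lam N P r
  cf : Cf q Λ b V γ
  q2 : ∀ n, 4 ≤ q n
  qq : ∀ n, 4 * q n ≤ q (n + 1)
  ini0 : X 0 0 = A
  ini1 : X 1 0 = A * rr q 0
  ini : ∀ n, X (n + 2) 0 = 0
  ode : ∀ n, ∀ t ∈ Ico 0 T, HasDerivWithinAt (X n)
    (-(ν * lam * V n * X n t) + β * b n * yq Λ γ (fun m => X m t) n) (Ico 0 T) t
  smr : SmR q T X
  low : ∀ t ∈ Ico 0 T, A ^ 2 * (1 - ε) ≤ ∑' m, X m t ^ 2 / b m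
  upp : ∀ t ∈ Ico 0 T, ∑' m, X m t ^ 2 / b m ≤ A ^ 2 * (1 + ε)
  left : ∀ n, ∃ t₀ < T, ∀ t ∈ Ico t₀ T, |X n t| ≤ A * (ε / 2 ^ n)

/-- (Z0) Scaling of the cascade. -/
def S_Z0 : Prop := ∀ (ε ν β lam N T : ℝ) (q Λ b V γ : ℕ → ℝ) (P : ℕ → E3 → E3)
  (r : Fin 4 × ℕ → E3 → E3) (σ : ℕ → ℝ) (x : ℕ → ℝ → ℝ), 0 < ε → 0 < ν →
  TY q Λ b V γ β lam N P r → Cf q Λ b V γ → (∀ n, 4 ≤ q n) → (∀ n, 4 * q n ≤ q (n + 1)) →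
  CI ε q Λ b V γ T σ x → SmR q T x →
  Fu ε ν β lam N q Λ b V γ P r (T / (ν * lam)) (ν * lam / β)
    (fun n t => ν * lam / β * x n (ν * lam * t))

/-- (Z1) Regularity of the flow. -/
def S_Z1 : Prop := ∀ (T : ℝ) (q Λ b V γ : ℕ → ℝ) (β lam N : ℝ) (P : ℕ → E3 → E3)
  (r : Fin 4 × ℕ → E3 → E3) (X : ℕ → ℝ → ℝ), 0 < T → TY q Λ b V γ β lam N P r →
  (∀ n, 4 ≤ q n) → (∀ n, 4 * q n ≤ q (n + 1)) → SmR q T X →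
  ContDiffOn ℝ ∞ (fun z : ℝ × E3 => gU P X z.1 z.2) (Ico 0 T ×ˢ univ) ∧
  (∀ t ∈ Ico 0 T, (∀ y, 1 / 2 ≤ ‖y‖ → gU P X t y = 0) ∧ (∀ y, divg (gU P X t) y = 0) ∧
    ∀ y, dt T (gU P X) t y = sp P (fun n => derivWithin (X n) (Ico 0 T) t) y) ∧
  ∀ T' < T, ∃ M, ∀ t ∈ Icc 0 T', Dec M (gU P X t) ∧ ∀ y, (1 + ‖y‖) ^ 2 * ‖dt T (gU P X) t y‖ ≤ M

/-- (Z2) The residual is the sum of the reaction forces. -/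
def S_Z2 : Prop := ∀ (ν : ℝ) (q Λ b V γ : ℕ → ℝ) (β lam N : ℝ) (P : ℕ → E3 → E3)
  (r : Fin 4 × ℕ → E3 → E3), TY q Λ b V γ β lam N P r → Cf q Λ b V γ → (∀ n, 4 ≤ q n) →
  (∀ n, 4 * q n ≤ q (n + 1)) → ∀ a a' : ℕ → ℝ,
  (∀ k : ℕ, ∃ M, ∀ n, q n ^ k * |a n| ≤ M) → (∀ k : ℕ, ∃ M, ∀ n, q n ^ k * |a' n| ≤ M) →
  (∀ n, a' n = -(ν * lam * V n * a n) + β * b n * yq Λ γ a n) →
  (∀ y, HasSum (fun p => ly ν Λ a p • r p y)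
    (sp P a' y + adv (sp P a) (sp P a) y - ν • lap (sp P a) y)) ∧
  ∀ v : E3 → E3, LocallyIntegrable v volume → (∀ p, ip v (r p) = 0) →
    ip v (fun y => sp P a' y + adv (sp P a) (sp P a) y - ν • lap (sp P a) y) = 0

/-- (Z3) Products, energy outside of small balls. -/
def S_Z3 : Prop := ∀ (q Λ b V γ : ℕ → ℝ) (β lam N : ℝ) (P : ℕ → E3 → E3)
  (r : Fin 4 × ℕ → E3 → E3), TY q Λ b V γ β lam N P r → Cf q Λ b V γ → (∀ n, 4 ≤ q n) →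
  (∀ n, 4 * q n ≤ q (n + 1)) → ∀ a : ℕ → ℝ, (∀ k : ℕ, ∃ M, ∀ n, q n ^ k * |a n| ≤ M) →
  ip (sp P a) (sp P a) = N * ∑' n, a n ^ 2 / b n ∧ (∀ i, ip (sp P a) (r i) = 0) ∧
  ∀ (δ : ℝ) (n₀ : ℕ), 0 < δ → (∀ n ≥ n₀, 1 / 2 ≤ q n ^ 2 * δ) →
    ∫ y in {y : E3 | δ ≤ ‖y‖}, ‖sp P a y‖ ^ 2 ≤ 2 * N * ∑ n ∈ Finset.range n₀, a n ^ 2

/-- (Z4) The weak limit. -/
def S_Z4 : Prop := ∀ (ε ν β lam N : ℝ) (q Λ b V γ : ℕ → ℝ) (P : ℕ → E3 → E3)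
  (r : Fin 4 × ℕ → E3 → E3) (T A : ℝ) (X : ℕ → ℝ → ℝ), Fu ε ν β lam N q Λ b V γ P r T A X →
  ∀ v : E3 → E3, MemLp v 2 volume →
    ∃ c, Tendsto (fun t => ip (gU P X t) v) (𝓝[<] T) (𝓝 c) ∧
      c ^ 2 ≤ 4 * ε ^ 2 * A ^ 2 * N * ip v v

/-- (Z5) Dilation and translation; now there are infinitely many reaction forces. -/
def S_Z5 : Prop := ∀ (ι : Type) (ε ν T : ℝ) (r : ι → E3 → E3) (f U : ℝ → E3 → E3),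
  0 < ν → (∀ i, ContDiff ℝ ∞ (r i)) → (∀ i y, 1 ≤ ‖y‖ → r i y = 0) →
  (∀ t ∈ Ico 0 T, ∀ y, 1 / 2 ≤ ‖y‖ → U t y = 0) → (∀ t y, 1 / 2 ≤ ‖y‖ → f t y = 0) →
  FlowF univ ν T r f U → Conc ε ν T f U →
  ∀ (Ω : Set E3) (x₀ : E3) (ℓ : ℝ), 0 < ℓ → IsOpen Ω → Metric.closedBall x₀ ℓ ⊆ Ω →
  FlowF Ω ν (ℓ ^ 2 * T) (Pool.Agent.N976.DI.cf x₀ ℓ r)
    (fun t x => (ℓ⁻¹) ^ 3 • f (t / ℓ ^ 2) (ℓ⁻¹ • (x - x₀)))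
    (fun t x => ℓ⁻¹ • U (t / ℓ ^ 2) (ℓ⁻¹ • (x - x₀))) ∧
  Conc ε ν (ℓ ^ 2 * T) (fun t x => (ℓ⁻¹) ^ 3 • f (t / ℓ ^ 2) (ℓ⁻¹ • (x - x₀)))
    (fun t x => ℓ⁻¹ • U (t / ℓ ^ 2) (ℓ⁻¹ • (x - x₀)))

end Pool.Agent.N976.UE
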