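import Pool.Agent.N976.UE.Def
import Pool.Agent.N976.EN.L3

/-!
# (Z0) scaling of the cascade, (Z5) dilation and translation (helper833)
-/

open Set Filter Topology MeasureTheory
open scoped ContDiff InnerProductSpace

set_option autoImplicit false

namespace Pool.Agent.N976.UE

open Pool.Agent.N976.SC Pool.Agent.N976.EN
open Pool.Agent.N976.DI (mv Con cf)
open Pool.Agent.N976.DI.D34 (sc hfd fderiv_sc divg_sc adv_sc lap_sc int_sc ip_sc dir_sc)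
open H772R2.NS (jac IsTest L2V L2M L2sigma H1graph M3)

namespace Z05

lemma map_Ico {c T : ℝ} (hc : 0 < c) {t : ℝ} (ht : t ∈ Ico 0 (T / c)) : c * t ∈ Ico 0 T := by
  refine ⟨mul_nonneg hc.le ht.1, ?_⟩
  have := (lt_div_iff₀ hc).1 ht.2
  rwa [mul_comm]

lemma tsum_sq (A : ℝ) (x : ℕ → ℝ) : ∑' m, (A * x m) ^ 2 = A ^ 2 * ∑' m, x m ^ 2 := by
  rw [← tsum_mul_left]
  refine tsum_congr fun m => ?_
  ring

lemma tsum_sqb (A : ℝ) (x b : ℕ → ℝ) :
    ∑' m, (A * x m) ^ 2 / b m = A ^ 2 * ∑' m, x m ^ 2 / b m := by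
  rw [← tsum_mul_left]
  refine tsum_congr fun m => ?_
  ring

/-- the quadratic part is homogeneous -/
lemma yq_smul (Λ γ : ℕ → ℝ) (A : ℝ) (x : ℕ → ℝ) (n : ℕ) :
    yq Λ γ (fun m => A * x m) n = A ^ 2 * yq Λ γ x n := by
  unfold yq
  have e1 : ∑ i ∈ Finset.range n, Λ i * (A * x i) = A * ∑ i ∈ Finset.range n, Λ i * x i := by
    rw [Finset.mul_sum]
    exact Finset.sum_congr rfl fun i _ => by ring
  rw [e1, tsum_sq A (fun m => x (n + 1 + m))]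
  split_ifs <;> ring

/-- scaling of smooth rapidly decreasing sequences -/
lemma smr {q : ℕ → ℝ} {T c A : ℝ} (hc : 0 < c) (hA : 0 < A) {x : ℕ → ℝ → ℝ}
    (h : SmR q T x) : SmR q (T / c) (fun n t => A * x n (c * t)) := by
  obtain ⟨y, h0, hR, hd⟩ := h
  refine ⟨fun k n t => A * c ^ k * y k n (c * t), ?_, fun k j T' hT' => ?_, fun k n t ht => ?_⟩
  · funext n t
    show A * c ^ 0 * y 0 n (c * t) = A * x n (c * t)
    rw [h0, pow_zero, mul_one]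
  · have h1 : c * T' < T := by
      have := (lt_div_iff₀ hc).1 hT'
      rwa [mul_comm]
    obtain ⟨M, hM⟩ := hR k j (c * T') h1
    refine ⟨A * c ^ k * M, fun t ht n => ?_⟩
    have h2 := hM (c * t) ⟨mul_nonneg hc.le ht.1, mul_le_mul_of_nonneg_left ht.2 hc.le⟩ n
    have h3 : 0 < A * c ^ k := by positivity
    rw [abs_mul, abs_of_pos h3]
    calc q n ^ j * (A * c ^ k * |y k n (c * t)|) = A * c ^ k * (q n ^ j * |y k n (c * t)|) := by
          ring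
      _ ≤ A * c ^ k * M := mul_le_mul_of_nonneg_left h2 h3.le
  · have h1 := hd k n (c * t) (map_Ico hc ht)
    have h2 : HasDerivWithinAt (fun t : ℝ => c * t) c (Ico 0 (T / c)) t := by
      simpa using ((hasDerivAt_id t).const_mul c).hasDerivWithinAt
    have h3 := (HasDerivWithinAt.comp (h₂ := y k n) t h1 h2
      (fun t ht => map_Ico hc ht)).const_mul (A * c ^ k)
    refine h3.congr_deriv ?_
    show A * c ^ k * (y (k + 1) n (c * t) * c) = A * c ^ (k + 1) * y (k + 1) n (c * t)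
    rw [pow_succ]
    ring

/-- change of variables -/
lemma int_comp {Ω : Set E3} {ℓ : ℝ} (hℓ : 0 < ℓ) (x₀ : E3) (hΩ : MeasurableSet Ω) (v W : E3 → E3) :
    ∫ x in Ω, ⟪v x, W (ℓ⁻¹ • (x - x₀))⟫_ℝ =
      ℓ ^ 3 * ∫ y, ⟪Ω.indicator v (x₀ + ℓ • y), W y⟫_ℝ := by
  rw [← int_sc hℓ x₀ (fun y => ⟪Ω.indicator v (x₀ + ℓ • y), W y⟫_ℝ), ← integral_indicator hΩ]
  congr 1
  funext x
  rw [smul_smul, mul_inv_cancel₀ hℓ.ne', one_smul, add_sub_cancel]
  by_cases hx : x ∈ Ω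
  · rw [indicator_of_mem hx, indicator_of_mem hx]
  · rw [indicator_of_notMem hx, indicator_of_notMem hx, inner_zero_left]

/-- the rescaled test field -/
lemma exists_field {ι : Type} {Ω : Set E3} {ℓ : ℝ} (hℓ : 0 < ℓ) (x₀ : E3) (hΩ : MeasurableSet Ω)
    (v : L2V Ω) (r : ι → E3 → E3) (hv : Con (cf x₀ ℓ r) v) :
    ∃ v' : L2V (univ : Set E3),
      v' =ᵐ[volume.restrict univ] (fun y => Ω.indicator v (x₀ + ℓ • y)) ∧ Con r v' := by
  have h1 : MemLp (Ω.indicator v) 2 volume :=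
    (memLp_indicator_iff_restrict hΩ).2 (Lp.memLp v)
  have h2 : MemLp (fun y => Ω.indicator v (x₀ + ℓ • y)) 2 (volume.restrict univ) := by
    rw [Measure.restrict_univ]
    exact L3.memLp_comp hℓ x₀ h1
  refine ⟨h2.toLp _, h2.coeFn_toLp, fun i => ?_⟩
  have h3 : ∫ x in (univ : Set E3), ⟪(h2.toLp _ : L2V univ) x, r i x⟫_ℝ =
      ∫ y, ⟪Ω.indicator v (x₀ + ℓ • y), r i y⟫_ℝ := by
    rw [← setIntegral_univ (f := fun y => ⟪Ω.indicator v (x₀ + ℓ • y), r i y⟫_ℝ)]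
    refine integral_congr_ae ?_
    filter_upwards [h2.coeFn_toLp] with y hy
    rw [hy]
  rw [h3]
  have h5 := int_comp hℓ x₀ hΩ v (r i)
  have h6 : ∫ x in Ω, ⟪v x, r i (ℓ⁻¹ • (x - x₀))⟫_ℝ = 0 := hv i
  rw [h6] at h5
  have h7 : (0 : ℝ) < ℓ ^ 3 := by positivity
  rcases mul_eq_zero.1 h5.symm with h8 | h8
  · exact absurd h8 h7.ne'
  · exact h8

end Z05

theorem t_Z0 : S_Z0 := by
  intro ε ν β lam N T q Λ b V γ P r σ x hε hν hTY hCf hq2 hqq hC hS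
  have hβ := hTY.β0
  have hlam := hTY.lam0
  obtain ⟨c, hc'⟩ : ∃ c : ℝ, c = ν * lam := ⟨_, rfl⟩
  rw [← hc']
  have hc : 0 < c := by rw [hc']; positivity
  obtain ⟨A, hA'⟩ : ∃ A : ℝ, A = c / β := ⟨_, rfl⟩
  rw [← hA']
  have hA : 0 < A := by rw [hA']; positivity
  have hβA : β * A = c := by rw [hA']; field_simp
  exact
  { ε0 := hε
    ν0 := hν
    T0 := div_pos hC.T0 hc
    A0 := hA
    tab := hTY
    cf := hCf
    q2 := hq2
    qq := hqq
    ini0 := by rw [mul_zero, hC.ini0, mul_one]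
    ini1 := by rw [mul_zero, hC.ini1]
    ini := fun n => by rw [mul_zero, hC.ini, mul_zero]
    ode := by
      intro n t ht
      have h1 := hC.ode n (c * t) (Z05.map_Ico hc ht)
      have h2 : HasDerivWithinAt (fun t : ℝ => c * t) c (Ico 0 (T / c)) t := by
        simpa using ((hasDerivAt_id t).const_mul c).hasDerivWithinAt
      have h3 := (HasDerivWithinAt.comp (h₂ := x n) t h1 h2
        (fun t ht => Z05.map_Ico hc ht)).const_mul A
      refine h3.congr_deriv ?_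
      rw [Z05.yq_smul Λ γ A (fun m => x m (c * t)) n, ← hc']
      linear_combination (-(A * b n * yq Λ γ (fun m => x m (c * t)) n)) * hβA
    smr := Z05.smr hc hA hS
    low := by
      intro t ht
      rw [Z05.tsum_sqb A (fun m => x m (c * t)) b]
      exact mul_le_mul_of_nonneg_left (hC.low (c * t) (Z05.map_Ico hc ht)) (sq_nonneg _)
    upp := by
      intro t ht
      rw [Z05.tsum_sqb A (fun m => x m (c * t)) b]
      exact mul_le_mul_of_nonneg_left (hC.upp (c * t) (Z05.map_Ico hc ht)) (sq_nonneg _)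
    left := by
      intro n
      refine ⟨σ (n + 1) / c, div_lt_div_of_pos_right (hC.σT (n + 1)) hc, fun t ht => ?_⟩
      rw [abs_mul, abs_of_pos hA]
      refine mul_le_mul_of_nonneg_left (hC.left n (c * t) ⟨?_, ?_⟩) hA.le
      · have := (div_le_iff₀ hc).1 ht.1
        rwa [mul_comm]
      · have := (lt_div_iff₀ hc).1 ht.2
        rwa [mul_comm] }

open L3 in
theorem t_Z5 : S_Z5 := by
  intro ι ε ν T r f U hν hrsm hrout hUout hfout hF hC Ω x₀ ℓ hℓ hΩ hball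
  have hT : 0 < T := hF.T0
  have hℓ2 : 0 < ℓ ^ 2 := by positivity
  have hmap : ∀ t ∈ Ico 0 (ℓ ^ 2 * T), t / ℓ ^ 2 ∈ Ico 0 T := by
    intro t ht
    refine ⟨div_nonneg ht.1 hℓ2.le, ?_⟩
    rw [div_lt_iff₀ hℓ2]
    linarith [ht.2, mul_comm (ℓ ^ 2) T]
  have hsmt : ∀ t ∈ Ico 0 T, ContDiff ℝ ∞ (U t) := by
    intro t ht
    rw [← contDiffOn_univ]
    have h1 : ContDiffOn ℝ ∞ (fun x : E3 => ((t, x) : ℝ × E3)) univ :=
      (contDiff_const.prodMk contDiff_id).contDiffOn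
    exact hF.sm.comp h1 (fun x _ => ⟨ht, mem_univ _⟩)
  have hdf : ∀ t ∈ Ico 0 T, Differentiable ℝ (U t) := fun t ht =>
    (hsmt t ht).differentiable (by simp)
  obtain ⟨V, hV⟩ : ∃ V : ℝ → E3 → E3, V = fun t x => ℓ⁻¹ • U (t / ℓ ^ 2) (ℓ⁻¹ • (x - x₀)) :=
    ⟨_, rfl⟩
  obtain ⟨g, hg⟩ : ∃ g : ℝ → E3 → E3,
    g = fun t x => (ℓ⁻¹) ^ 3 • f (t / ℓ ^ 2) (ℓ⁻¹ • (x - x₀)) := ⟨_, rfl⟩
  rw [← hV, ← hg]
  have hVsc : ∀ t, V t = sc x₀ ℓ (U (t / ℓ ^ 2)) := fun t => by rw [hV]; rfl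
  have hdt : ∀ t ∈ Ico 0 (ℓ ^ 2 * T), ∀ x, dt (ℓ ^ 2 * T) V t x =
      (ℓ⁻¹ * ℓ⁻¹ * ℓ⁻¹) • dt T U (t / ℓ ^ 2) (ℓ⁻¹ • (x - x₀)) := by
    intro t ht x
    obtain ⟨y, hy⟩ : ∃ y, y = ℓ⁻¹ • (x - x₀) := ⟨_, rfl⟩
    have h1 : ContDiffOn ℝ ∞ (fun τ : ℝ => U τ y) (Ico 0 T) := by
      have h2 : ContDiffOn ℝ ∞ (fun τ : ℝ => ((τ, y) : ℝ × E3)) (Ico 0 T) :=
        (contDiff_id.prodMk contDiff_const).contDiffOn
      exact hF.sm.comp h2 (fun τ hτ => ⟨hτ, mem_univ _⟩)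
    have h2 : HasDerivWithinAt (fun τ : ℝ => U τ y) (dt T U (t / ℓ ^ 2) y) (Ico 0 T) (t / ℓ ^ 2) :=
      ((h1.differentiableOn (by simp)) _ (hmap t ht)).hasDerivWithinAt
    have h3 : HasDerivWithinAt (fun t : ℝ => t / ℓ ^ 2) (1 / ℓ ^ 2) (Ico 0 (ℓ ^ 2 * T)) t :=
      ((hasDerivAt_id t).div_const (ℓ ^ 2)).hasDerivWithinAt
    have h4 := (h2.scomp t h3 hmap).const_smul ℓ⁻¹
    have h5 := h4.derivWithin (uniqueDiffOn_Ico 0 (ℓ ^ 2 * T) t ht)
    unfold dt at h5 ⊢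
    rw [hV, ← hy]
    simp only [← hy]
    rw [smul_smul] at h5
    have e : ℓ⁻¹ * (1 / ℓ ^ 2) = ℓ⁻¹ * ℓ⁻¹ * ℓ⁻¹ := by
      field_simp
    rw [e] at h5
    exact h5
  have hout : ∀ x : E3, x ∉ Metric.closedBall x₀ (ℓ / 2) → 1 / 2 ≤ ‖ℓ⁻¹ • (x - x₀)‖ := by
    intro x hx
    rw [Metric.mem_closedBall, not_le, dist_eq_norm] at hx
    rw [norm_smul, norm_inv, Real.norm_of_nonneg hℓ.le, inv_mul_eq_div, le_div_iff₀ hℓ]
    linarith
  have hV0 : ip (V 0) (V 0) = ℓ * ip (U 0) (U 0) := by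
    rw [hVsc, zero_div, ip_sc_sc hℓ]
  refine ⟨⟨by positivity, ?_, ?_, ?_, ?_, ?_, ?_⟩, ⟨?_, ?_, ?_⟩⟩
  · have h1 : ContDiffOn ℝ ∞ (fun z : ℝ × E3 => ((z.1 / ℓ ^ 2, ℓ⁻¹ • (z.2 - x₀)) : ℝ × E3))
        (Ico 0 (ℓ ^ 2 * T) ×ˢ univ) :=
      ((contDiff_fst.div_const _).prodMk ((contDiff_snd.sub contDiff_const).const_smul _)).contDiffOn
    have h2 := (hF.sm.comp h1 (fun z hz => ⟨hmap z.1 hz.1, mem_univ _⟩)).const_smul ℓ⁻¹
    rw [hV]
    exact h2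
  · have h1 : ContDiff ℝ ∞ (fun z : ℝ × E3 => ((z.1 / ℓ ^ 2, ℓ⁻¹ • (z.2 - x₀)) : ℝ × E3)) :=
      (contDiff_fst.div_const _).prodMk ((contDiff_snd.sub contDiff_const).const_smul _)
    have h2 := (hF.fsm.comp h1).const_smul ((ℓ⁻¹) ^ 3)
    rw [hg]
    exact h2
  · refine ⟨Metric.closedBall x₀ (ℓ / 2), isCompact_closedBall _ _,
      (Metric.closedBall_subset_closedBall (by linarith)).trans hball, fun t ht x hx => ?_,
      fun t x hx => ?_⟩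
    · rw [hV]
      simp only
      rw [hUout _ (hmap t ht) _ (hout x hx), smul_zero]
    · rw [hg]
      simp only
      rw [hfout _ _ (hout x hx), smul_zero]
  · intro t ht x
    rw [hVsc, divg_sc (hdf _ (hmap t ht)), hF.div _ (hmap t ht), mul_zero]
  · intro t ht i
    rw [hVsc]
    have h1 := ip_sc hℓ x₀ (U (t / ℓ ^ 2)) (r i)
    rw [hF.con _ (hmap t ht) i, mul_zero] at h1
    exact h1
  · intro t ht v hv
    obtain ⟨τ, hτ⟩ : ∃ τ, τ = t / ℓ ^ 2 := ⟨_, rfl⟩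
    have hτm : τ ∈ Ico 0 T := by rw [hτ]; exact hmap t ht
    obtain ⟨W, hW⟩ : ∃ W : E3 → E3,
        W = fun y => dt T U τ y + adv (U τ) (U τ) y - ν • lap (U τ) y - f τ y := ⟨_, rfl⟩
    have hres : ∀ x, dt (ℓ ^ 2 * T) V t x + adv (V t) (V t) x - ν • lap (V t) x - g t x =
        (ℓ⁻¹) ^ 3 • W (ℓ⁻¹ • (x - x₀)) := by
      intro x
      rw [hdt t ht, hVsc, adv_sc (hdf _ (hmap t ht)), lap_sc (hsmt _ (hmap t ht)), ← hτ, hg, hW]
      simp only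
      rw [← hτ]
      generalize ℓ⁻¹ • (x - x₀) = y
      rw [smul_sub, smul_sub, smul_add, smul_comm ν]
      congr 2
      · congr 1
        · congr 1
          ring
        · congr 1
          ring
      · congr 1
        ring
    simp only [hres, real_inner_smul_right]
    rw [integral_const_mul, Z05.int_comp hℓ x₀ hΩ.measurableSet]
    obtain ⟨v', hv', hcon⟩ := Z05.exists_field hℓ x₀ hΩ.measurableSet v r hv
    have h1 := hF.res τ hτm v' hcon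
    have h2 : ∫ y, ⟪Ω.indicator v (x₀ + ℓ • y), W y⟫_ℝ = 0 := by
      rw [← h1, ← setIntegral_univ (f := fun y => ⟪Ω.indicator v (x₀ + ℓ • y), W y⟫_ℝ)]
      refine integral_congr_ae ?_
      filter_upwards [hv'] with y hy
      rw [hy, hW]
    rw [h2, mul_zero, mul_zero]
  · intro t ht
    have h1 : ∫ s in (0 : ℝ)..t, dir (V s) = ∫ s in (0 : ℝ)..t, ℓ⁻¹ * dir (U (s / ℓ ^ 2)) := by
      apply intervalIntegral.integral_congr
      intro s hs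
      rw [uIcc_of_le ht.1] at hs
      simp only
      rw [hVsc, dir_sc hℓ x₀ (hdf _ (hmap s ⟨hs.1, hs.2.trans_lt ht.2⟩))]
    rw [h1, intervalIntegral.integral_const_mul,
      intervalIntegral.integral_comp_div (fun s => dir (U s)) hℓ2.ne', zero_div, hV0, smul_eq_mul]
    have h2 := hC.dis _ (hmap t ht)
    have e : ν * (ℓ⁻¹ * (ℓ ^ 2 * ∫ s in (0 : ℝ)..t / ℓ ^ 2, dir (U s))) =
        ℓ * (ν * ∫ s in (0 : ℝ)..t / ℓ ^ 2, dir (U s)) := by
      field_simp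
    rw [e]
    calc _ ≤ ℓ * (ε * ip (U 0) (U 0)) := mul_le_mul_of_nonneg_left h2 hℓ.le
      _ = _ := by ring
  · intro t ht
    have h1 : ∫ s in (0 : ℝ)..t, ip (V s) (g s) =
        ∫ s in (0 : ℝ)..t, ℓ⁻¹ * ip (U (s / ℓ ^ 2)) (f (s / ℓ ^ 2)) := by
      apply intervalIntegral.integral_congr
      intro s hs
      simp only
      have h3 : g s = fun x => (ℓ⁻¹) ^ 3 • (fun x => f (s / ℓ ^ 2) (ℓ⁻¹ • (x - x₀))) x := by
        rw [hg]
      rw [hVsc, h3, ip_smul_right, ip_sc hℓ]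
      field_simp
    rw [h1, intervalIntegral.integral_const_mul,
      intervalIntegral.integral_comp_div (fun s => ip (U s) (f s)) hℓ2.ne', zero_div, hV0,
      smul_eq_mul]
    have h2 := hC.wrk _ (hmap t ht)
    have e : ℓ⁻¹ * (ℓ ^ 2 * ∫ s in (0 : ℝ)..t / ℓ ^ 2, ip (U s) (f s)) =
        ℓ * ∫ s in (0 : ℝ)..t / ℓ ^ 2, ip (U s) (f s) := by
      field_simp
    rw [e, abs_mul, abs_of_pos hℓ]
    calc _ ≤ ℓ * (ε * ip (U 0) (U 0)) := mul_le_mul_of_nonneg_left h2 hℓ.le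
      _ = _ := by ring
  · intro v hv
    obtain ⟨c, hc, hc2⟩ := hC.wlim (fun y => v (x₀ + ℓ • y)) (memLp_comp hℓ x₀ hv)
    refine ⟨ℓ ^ 2 * c, ?_, ?_⟩
    · have h1 : Tendsto (fun t : ℝ => t / ℓ ^ 2) (𝓝[<] (ℓ ^ 2 * T)) (𝓝[<] T) := by
        apply tendsto_nhdsWithin_of_tendsto_nhds_of_eventually_within
        · have h2 : Tendsto (fun t : ℝ => t / ℓ ^ 2) (𝓝 (ℓ ^ 2 * T)) (𝓝 (ℓ ^ 2 * T / ℓ ^ 2)) :=
            (continuous_id.div_const _).tendsto _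
          rw [mul_div_cancel_left₀ _ hℓ2.ne'] at h2
          exact h2.mono_left nhdsWithin_le_nhds
        · filter_upwards [self_mem_nhdsWithin] with t ht
          rw [mem_Iio] at ht ⊢
          rw [div_lt_iff₀ hℓ2]
          linarith [mul_comm (ℓ ^ 2) T]
      have h2 := (hc.comp h1).const_mul (ℓ ^ 2)
      refine h2.congr fun t => ?_
      rw [hVsc, ip_comp' hℓ]
      rfl
    · rw [hV0, ip_comp hℓ x₀ v]
      calc (ℓ ^ 2 * c) ^ 2 = ℓ ^ 4 * c ^ 2 := by ring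
        _ ≤ ℓ ^ 4 * (ε * ip (U 0) (U 0) *
            ip (fun y => v (x₀ + ℓ • y)) (fun y => v (x₀ + ℓ • y))) :=
          mul_le_mul_of_nonneg_left hc2 (by positivity)
        _ = _ := by ring

end Pool.Agent.N976.UE
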