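import Pool.Agent.N976.UE.X1

/-! (X) The table of the interactions of packets with pumps at the scales `Q ^ ((6/5) ^ n)`. -/

open Set Filter Topology MeasureTheory
open scoped ContDiff

set_option autoImplicit false

namespace Pool.Agent.N976.UE

open Pool.Agent.N976.SC Pool.Agent.N976.EN

namespace X

open Pool.Agent.N976.SC.T4

/-! ### The coefficients -/

section coef

/-- the squares of the sizes of the seeds -/
noncomputable def ee (q : ℕ → ℝ) : ℕ → ℝ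
  | 0 => 0
  | n + 1 => Real.exp (-(Real.pi / 2 * q n))

/-- the amplitude of the profile `φ` -/
noncomputable def aa (q : ℕ → ℝ) (c : ℝ) (n : ℕ) : ℝ := √(1 + ee q n * c)

/-- the amplitude of the seed -/
noncomputable def et (q : ℕ → ℝ) (n : ℕ) : ℝ := √(ee q n)

/-- `Λ` -/
noncomputable def cΛ (q : ℕ → ℝ) (c : ℝ) (n : ℕ) : ℝ := aa q c n * q n ^ 5

/-- `b` -/
noncomputable def cb (q : ℕ → ℝ) (c d : ℝ) (n : ℕ) : ℝ := 1 / (1 + ee q n * c + ee q n * d)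

/-- `V` -/
noncomputable def cV (q : ℕ → ℝ) (c d m : ℝ) (n : ℕ) : ℝ :=
  cb q c d n * ((1 + ee q n * c) * q n ^ 4 + ee q n * q (n + 1) ^ 4 * m)

/-- `γ` -/
noncomputable def cγ (q : ℕ → ℝ) (c : ℝ) (n : ℕ) : ℝ := ee q n * cΛ q c (n + 1) * c

variable {q : ℕ → ℝ} {c d m : ℝ}

lemma ee0 (n : ℕ) : 0 ≤ ee q n := by
  cases n with
  | zero => exact le_rfl
  | succ n => exact (Real.exp_pos _).le

lemma et_sq (n : ℕ) : et q n ^ 2 = ee q n := Real.sq_sqrt (ee0 n)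

lemma aa_sq (hc : 0 ≤ c) (n : ℕ) : aa q c n ^ 2 = 1 + ee q n * c :=
  Real.sq_sqrt (by have := mul_nonneg (ee0 (q := q) n) hc; linarith)

lemma aa_ge (hc : 0 ≤ c) (n : ℕ) : 1 ≤ aa q c n := by
  unfold aa
  rw [Real.one_le_sqrt]
  have := mul_nonneg (ee0 (q := q) n) hc
  linarith

lemma aa_le (hc : 0 ≤ c) (n : ℕ) : aa q c n ≤ 1 + ee q n * c := by
  have h1 := aa_ge (q := q) hc n
  have h2 := aa_sq (q := q) hc n
  nlinarith

lemma cb_pos (hc : 0 ≤ c) (hd : 0 ≤ d) (n : ℕ) : 0 < cb q c d n := by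
  unfold cb
  have h1 := mul_nonneg (ee0 (q := q) n) hc
  have h2 := mul_nonneg (ee0 (q := q) n) hd
  positivity

lemma cb_le (hc : 0 ≤ c) (hd : 0 ≤ d) (n : ℕ) : cb q c d n ≤ 1 := by
  unfold cb
  have h1 := mul_nonneg (ee0 (q := q) n) hc
  have h2 := mul_nonneg (ee0 (q := q) n) hd
  rw [div_le_one (by positivity)]
  linarith

lemma cb_ge (hc : 0 ≤ c) (hd : 0 ≤ d) (n : ℕ) : 1 - (ee q n * c + ee q n * d) ≤ cb q c d n := by
  unfold cb
  have h1 := mul_nonneg (ee0 (q := q) n) hc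
  have h2 := mul_nonneg (ee0 (q := q) n) hd
  rw [le_div_iff₀ (by positivity)]
  nlinarith

/-- smallness -/
structure Sml (q : ℕ → ℝ) (c d m : ℝ) : Prop where
  c0 : 0 < c
  d0 : 0 ≤ d
  m0 : 0 ≤ m
  q2 : ∀ n, 2 ≤ q n
  qm : ∀ n, q n ≤ q (n + 1)
  qs : ∀ n, q (n + 1) ≤ q n ^ 2
  qc : ∀ n, 2 * c ≤ q n
  qc' : ∀ n, 1 / c ≤ q n
  sm : ∀ n, (1 + 2 * c + 2 * d + 2 * m) * (ee q n * q (n + 1) ^ 5) ≤ 1

namespace Sml

variable (h : Sml q c d m)
include h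

lemma q0 (n : ℕ) : 0 < q n := by linarith [h.q2 n]

lemma gen {x y : ℝ} (n : ℕ) (hx : 0 ≤ x) (hx1 : x ≤ 1 + 2 * c + 2 * d + 2 * m)
    (hy : 0 ≤ y) (hy1 : y ≤ q (n + 1) ^ 5) : ee q n * x * y ≤ 1 := by
  have h1 := ee0 (q := q) n
  have h2 := h.q0 (n + 1)
  have h3 : 0 ≤ ee q n * (1 + 2 * c + 2 * d + 2 * m) := mul_nonneg h1 (hx.trans hx1)
  calc ee q n * x * y ≤ ee q n * (1 + 2 * c + 2 * d + 2 * m) * q (n + 1) ^ 5 := by
        gcongr
    _ = (1 + 2 * c + 2 * d + 2 * m) * (ee q n * q (n + 1) ^ 5) := by ring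
    _ ≤ 1 := h.sm n

lemma qle5 (n : ℕ) : q n ≤ q (n + 1) ^ 5 := by
  have h1 := h.q2 (n + 1)
  have h2 : q (n + 1) ≤ q (n + 1) ^ 5 := le_self_pow₀ (by linarith) (by norm_num)
  linarith [h.qm n]

lemma q4le5 (n : ℕ) : q (n + 1) ^ 4 ≤ q (n + 1) ^ 5 :=
  pow_le_pow_right₀ (by linarith [h.q2 (n + 1)]) (by norm_num)

lemma one_le5 (n : ℕ) : 1 ≤ q (n + 1) ^ 5 := one_le_pow₀ (by linarith [h.q2 (n + 1)])

lemma ee1 (n : ℕ) : ee q n ≤ 1 := by
  have := h.gen n (x := 1) (y := 1) zero_le_one (by linarith [h.c0, h.d0, h.m0]) zero_le_one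
    (h.one_le5 n)
  linarith

lemma ec (n : ℕ) : 2 * (ee q n * c) ≤ 1 := by
  have := h.gen n (x := 2 * c) (y := 1) (by linarith [h.c0]) (by linarith [h.d0, h.m0])
    zero_le_one (h.one_le5 n)
  linarith

lemma aa2 (n : ℕ) : aa q c n ≤ 2 := by
  have h1 := aa_le (q := q) h.c0.le n
  have h2 := h.ec n
  linarith

lemma lam (n : ℕ) : |cΛ q c n - q n ^ 5| ≤ q n ^ 4 := by
  unfold cΛ
  have h1 := aa_le (q := q) h.c0.le n
  have h2 := aa_ge (q := q) h.c0.le n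
  have h3 := h.gen n (x := c) (y := q n) h.c0.le (by linarith [h.c0, h.d0, h.m0]) (h.q0 n).le
    (h.qle5 n)
  have h4 : 0 < q n ^ 4 := pow_pos (h.q0 n) 4
  have h5 : 0 < q n ^ 5 := pow_pos (h.q0 n) 5
  have e : aa q c n * q n ^ 5 - q n ^ 5 = (aa q c n - 1) * q n ^ 5 := by ring
  rw [e, abs_of_nonneg (mul_nonneg (by linarith) h5.le)]
  calc (aa q c n - 1) * q n ^ 5 ≤ (ee q n * c) * q n ^ 5 := by gcongr; linarith
    _ = (ee q n * c * q n) * q n ^ 4 := by ring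
    _ ≤ 1 * q n ^ 4 := by gcongr
    _ = q n ^ 4 := one_mul _

lemma bb (n : ℕ) : |cb q c d n - 1| ≤ 1 / q n := by
  have h1 := cb_le (q := q) h.c0.le h.d0 n
  have h2 := cb_ge (q := q) h.c0.le h.d0 n
  have h3 := h.gen n (x := c + d) (y := q n) (by linarith [h.c0, h.d0])
    (by linarith [h.c0, h.d0, h.m0]) (h.q0 n).le (h.qle5 n)
  have h4 := h.q0 n
  rw [abs_sub_comm, abs_of_nonneg (by linarith), le_div_iff₀ h4]
  have h5 : (1 - cb q c d n) * q n ≤ (ee q n * c + ee q n * d) * q n := by gcongr; linarith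
  linarith

lemma vv (n : ℕ) : q n ^ 4 / 2 ≤ cV q c d m n ∧ cV q c d m n ≤ 2 * q n ^ 4 := by
  have h0 := ee0 (q := q) n
  have h1 := cb_le (q := q) h.c0.le h.d0 n
  have h2 := h.bb n
  have h3 := h.q0 n
  have h4 : 1 / q n ≤ 1 / 2 := one_div_le_one_div_of_le (by norm_num) (h.q2 n)
  have h5 : 1 / 2 ≤ cb q c d n := by linarith [(abs_le.1 h2).1]
  have h6 : 1 ≤ q n ^ 4 := one_le_pow₀ (by linarith [h.q2 n])
  have h7 : 0 ≤ ee q n * c := mul_nonneg h0 h.c0.le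
  have h9 : 0 < q (n + 1) := h.q0 (n + 1)
  have h8 : 0 ≤ ee q n * q (n + 1) ^ 4 * m := mul_nonneg (by positivity) h.m0
  have h10 := h.ec n
  have h11 := h.gen n (x := 2 * m) (y := q (n + 1) ^ 4) (by linarith [h.m0])
    (by linarith [h.c0, h.d0]) (by positivity) (h.q4le5 n)
  unfold cV
  constructor
  · calc q n ^ 4 / 2 = 1 / 2 * q n ^ 4 := by ring
      _ ≤ cb q c d n * ((1 + ee q n * c) * q n ^ 4 + ee q n * q (n + 1) ^ 4 * m) := by
        refine mul_le_mul h5 ?_ (by positivity) (by linarith)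
        nlinarith
  · have h12 : 0 ≤ (1 + ee q n * c) * q n ^ 4 + ee q n * q (n + 1) ^ 4 * m := by positivity
    calc cb q c d n * ((1 + ee q n * c) * q n ^ 4 + ee q n * q (n + 1) ^ 4 * m)
        ≤ 1 * ((1 + ee q n * c) * q n ^ 4 + ee q n * q (n + 1) ^ 4 * m) := by gcongr
      _ ≤ 2 * q n ^ 4 := by nlinarith

lemma g1 (n : ℕ) : Real.exp (-(Real.pi / 2 * q n)) ≤ cγ q c (n + 1) := by
  have e : cγ q c (n + 1) = Real.exp (-(Real.pi / 2 * q n)) *
      (aa q c (n + 2) * (q (n + 2) ^ 5 * c)) := by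
    unfold cγ cΛ
    simp only [ee]
    ring
  rw [e]
  refine le_mul_of_one_le_right (Real.exp_pos _).le ?_
  have h1 := aa_ge (q := q) h.c0.le (n + 2)
  have h2 : 1 ≤ q (n + 2) ^ 5 * c := by
    have h3 := h.qc' (n + 2)
    have h4 : q (n + 2) ≤ q (n + 2) ^ 5 :=
      le_self_pow₀ (by linarith [h.q2 (n + 2)]) (by norm_num)
    have h5 : 1 / c * c = 1 := one_div_mul_cancel h.c0.ne'
    have h6 := h.c0
    nlinarith
  nlinarith

lemma g2 (n : ℕ) : cγ q c (n + 1) ≤ q (n + 2) ^ 6 * Real.exp (-(Real.pi / 2 * q n)) := by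
  have e : cγ q c (n + 1) = (aa q c (n + 2) * c) * q (n + 2) ^ 5 *
      Real.exp (-(Real.pi / 2 * q n)) := by
    unfold cγ cΛ
    simp only [ee]
    ring
  rw [e]
  refine mul_le_mul_of_nonneg_right ?_ (Real.exp_pos _).le
  have h1 := h.aa2 (n + 2)
  have h2 := h.qc (n + 2)
  have h3 : 0 < q (n + 2) ^ 5 := pow_pos (h.q0 (n + 2)) 5
  have h4 := h.c0
  have h5 : aa q c (n + 2) * c ≤ q (n + 2) := by nlinarith
  calc aa q c (n + 2) * c * q (n + 2) ^ 5 ≤ q (n + 2) * q (n + 2) ^ 5 := by gcongr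
    _ = q (n + 2) ^ 6 := by ring

lemma γ0 : cγ q c 0 = 0 := by
  have := h.c0
  unfold cγ
  simp only [ee]
  ring

lemma cf : Cf q (cΛ q c) (cb q c d) (cV q c d m) (cγ q c) :=
  ⟨h.lam, h.bb, h.vv, h.γ0, h.g1, h.g2⟩

lemma γb (n : ℕ) : |cγ q c n| ≤ 2 := by
  have h0 := ee0 (q := q) n
  have h1 := aa_ge (q := q) h.c0.le (n + 1)
  have h2 := h.aa2 (n + 1)
  have h3 := h.gen n (x := c) (y := q (n + 1) ^ 5) h.c0.le (by linarith [h.c0, h.d0, h.m0])
    (pow_pos (h.q0 (n + 1)) 5).le le_rfl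
  have h4 : 0 ≤ ee q n * c * q (n + 1) ^ 5 :=
    mul_nonneg (mul_nonneg h0 h.c0.le) (pow_pos (h.q0 (n + 1)) 5).le
  have e : cγ q c n = (ee q n * c * q (n + 1) ^ 5) * aa q c (n + 1) := by
    unfold cγ cΛ
    ring
  rw [e, abs_of_nonneg (by positivity)]
  nlinarith

end Sml

/-- the coefficients satisfy all the relations -/
lemma co {φ ψ : E3 → E3} {b0 κ N Nψ μ μψ : ℝ}
    (hb0 : 0 < b0) (hN : 0 < N) (hμ : 0 < μ)
    (e1 : ip (fun y => Am (φ y)) φ = -b0) (e2 : ip (fun y => Am (ψ y)) ψ = κ)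
    (e3 : ip φ φ = N) (e4 : ip ψ ψ = Nψ) (e5 : dir φ = μ) (e6 : dir ψ = μψ)
    (h : Sml q (κ / b0) (Nψ / N) (μψ / μ)) :
    Co φ ψ q (aa q (κ / b0)) (et q) (cΛ q (κ / b0)) (cb q (κ / b0) (Nψ / N))
      (cV q (κ / b0) (Nψ / N) (μψ / μ)) (cγ q (κ / b0)) (b0 / N) (μ / N) N := by
  have hcb := cb_pos (q := q) h.c0.le h.d0
  constructor
  · exact hN
  · positivity
  · positivity
  · exact hcb
  · unfold et
    simp only [ee]
    exact Real.sqrt_zero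
  · exact h.γ0
  · exact fun n => by linarith [h.q2 n]
  · exact h.qm
  · exact h.qs
  · exact fun n => rfl
  · intro n
    rw [aa_sq h.c0.le, et_sq, e3, e4]
    unfold cb
    have h1 := mul_nonneg (ee0 (q := q) n) h.c0.le
    have h2 := mul_nonneg (ee0 (q := q) n) h.d0
    have h3 : (1 + ee q n * (κ / b0) + ee q n * (Nψ / N)) ≠ 0 := by positivity
    rw [one_div, div_inv_eq_mul]
    field_simp
  · intro n
    rw [aa_sq h.c0.le, et_sq, e1, e2]
    field_simp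
    ring
  · intro n
    rw [et_sq, e2]
    unfold cγ
    field_simp
  · intro n
    rw [aa_sq h.c0.le, et_sq, e5, e6]
    unfold cV
    have h3 := (hcb n).ne'
    field_simp
  · exact Pc.bdd (C := 2) fun n => by
      rw [abs_of_nonneg (by linarith [aa_ge (q := q) h.c0.le n])]
      exact h.aa2 n
  · exact Pc.bdd (C := 1) fun n => by
      unfold et
      rw [abs_of_nonneg (Real.sqrt_nonneg _)]
      exact Real.sqrt_le_one.2 (h.ee1 n)
  · exact Pc.bdd (C := 1) fun n => by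
      rw [abs_of_pos (hcb n)]
      exact cb_le h.c0.le h.d0 n
  · refine ⟨2, 4, by norm_num, fun n => ?_⟩
    obtain ⟨h1, h2⟩ := h.vv n
    have h3 : 0 < q n ^ 4 := pow_pos (h.q0 n) 4
    rw [abs_of_nonneg (by linarith)]
    exact h2
  · exact Pc.bdd h.γb

end coef

/-! ### The scales -/

section scales

lemma qs_ge {Q : ℝ} (hQ : 1 ≤ Q) (n : ℕ) : Q ≤ qs Q n := by
  unfold qs
  have h1 : (1 : ℝ) ≤ (6 / 5 : ℝ) ^ n := one_le_pow₀ (by norm_num)
  calc Q = Q ^ (1 : ℝ) := (Real.rpow_one Q).symm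
    _ ≤ Q ^ ((6 / 5 : ℝ) ^ n) := Real.rpow_le_rpow_of_exponent_le hQ h1

lemma qs_succ {Q : ℝ} (hQ : 0 < Q) (n : ℕ) : qs Q (n + 1) = qs Q n * qs Q n ^ (1 / 5 : ℝ) := by
  unfold qs
  rw [← Real.rpow_mul hQ.le, ← Real.rpow_add hQ]
  congr 1
  ring

lemma qs_step {Q C : ℝ} (hC : 0 ≤ C) (hQ : 1 ≤ Q) (h : C ^ 5 ≤ Q) (n : ℕ) :
    C * qs Q n ≤ qs Q (n + 1) := by
  have h1 := qs_ge hQ n
  have h0 : 0 < qs Q n := by linarith
  rw [qs_succ (by linarith), mul_comm]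
  refine mul_le_mul_of_nonneg_left ?_ h0.le
  calc C = (C ^ 5) ^ (1 / 5 : ℝ) := by
        rw [← Real.rpow_natCast, ← Real.rpow_mul hC]
        norm_num
    _ ≤ qs Q n ^ (1 / 5 : ℝ) :=
        Real.rpow_le_rpow (by positivity) (h.trans h1) (by norm_num)

lemma qs_le {Q : ℝ} (hQ : 1 ≤ Q) (n : ℕ) : qs Q (n + 1) ≤ qs Q n ^ 2 := by
  have h1 := qs_ge hQ n
  rw [qs_succ (by linarith), pow_two]
  refine mul_le_mul_of_nonneg_left ?_ (by linarith)
  calc qs Q n ^ (1 / 5 : ℝ) ≤ qs Q n ^ (1 : ℝ) :=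
        Real.rpow_le_rpow_of_exponent_le (by linarith) (by norm_num)
    _ = qs Q n := Real.rpow_one _

/-- eventually, the exponential beats the power -/
lemma exp_small (C : ℝ) : ∃ X₀ : ℝ, ∀ x ≥ X₀, C * (Real.exp (-(Real.pi / 2 * x)) * x ^ 20) ≤ 1 := by
  have h1 : Tendsto (fun x : ℝ => x ^ 20 * Real.exp (-x)) atTop (𝓝 0) :=
    Real.tendsto_pow_mul_exp_neg_atTop_nhds_zero 20
  have h2 : Tendsto (fun x : ℝ => |C| * (x ^ 20 * Real.exp (-x))) atTop (𝓝 (|C| * 0)) :=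
    h1.const_mul _
  rw [mul_zero] at h2
  have h3 := (h2.eventually (gt_mem_nhds one_pos)).and (eventually_ge_atTop (0 : ℝ))
  obtain ⟨X₀, hX⟩ := eventually_atTop.1 h3
  refine ⟨X₀, fun x hx => ?_⟩
  obtain ⟨h4, h5⟩ := hX x hx
  have h6 : Real.exp (-(Real.pi / 2 * x)) ≤ Real.exp (-x) := by
    refine Real.exp_le_exp.2 ?_
    have := Real.pi_gt_three
    nlinarith
  have h7 : 0 ≤ x ^ 20 := by positivity
  calc C * (Real.exp (-(Real.pi / 2 * x)) * x ^ 20)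
      ≤ |C| * (Real.exp (-(Real.pi / 2 * x)) * x ^ 20) := by
        refine mul_le_mul_of_nonneg_right (le_abs_self C) ?_
        positivity
    _ ≤ |C| * (Real.exp (-x) * x ^ 20) := by gcongr
    _ = |C| * (x ^ 20 * Real.exp (-x)) := by ring
    _ ≤ 1 := h4.le

lemma sep {C ρ' : ℝ} {q : ℕ → ℝ} (hρ : 0 < ρ') (hC : 2 + 1 / ρ' ≤ C) (hq0 : ∀ n, 0 < q n)
    (hq : ∀ n, C * q n ≤ q (n + 1)) (m n : ℕ) (hmn : m < n) : LT ρ' (q m) (q n) := by
  have h1 : 0 < 1 / ρ' := by positivity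
  have hmono : Monotone q := monotone_nat_of_le_succ fun n => by
    have := hq n
    nlinarith [hq0 n]
  have h2 : C * q m ≤ q n := (hq m).trans (hmono hmn)
  refine ⟨hq0 m, hq0 n, ?_⟩
  have h3 := hq0 m
  have h4 : (2 + 1 / ρ') * q m ≤ q n := (mul_le_mul_of_nonneg_right hC h3.le).trans h2
  have h5 : ((2 + 1 / ρ') * q m) ^ 2 ≤ q n ^ 2 := pow_le_pow_left₀ (by positivity) h4 2
  have h6 : 1 ≤ ρ' * (2 + 1 / ρ') ^ 2 := by
    have e : ρ' * (2 + 1 / ρ') ^ 2 = 4 * ρ' + 4 + 1 / ρ' := by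
      field_simp
      ring
    rw [e]
    linarith
  calc q m ^ 2 = 1 * q m ^ 2 := (one_mul _).symm
    _ ≤ ρ' * (2 + 1 / ρ') ^ 2 * q m ^ 2 := by gcongr
    _ = ρ' * ((2 + 1 / ρ') * q m) ^ 2 := by ring
    _ ≤ ρ' * q n ^ 2 := by gcongr

end scales

/-- the integrals of the packet -/
lemma consts {φ ψ : E3 → E3} {ρ ρ' : ℝ} (h : Pk φ ψ ρ ρ') : 0 < ip φ φ ∧ 0 < dir φ := by
  have hP := Sφ h
  have hb := h.bpos
  constructor
  · have hne : ∃ y, φ y ≠ 0 := by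
      by_contra hcon
      push Not at hcon
      have : ip (fun y => Am (φ y)) φ = 0 := by
        unfold ip
        simp [hcon]
      linarith
    obtain ⟨y, hy⟩ := hne
    unfold ip
    refine int_pos_of (hP.sm.continuous.inner hP.sm.continuous) ?_ (fun y => ?_) (y := y) ?_
    · refine hP.cs.mono ?_
      intro y hy
      simp only [Function.mem_support] at hy ⊢
      intro h0
      exact hy (by rw [h0, inner_zero_right])
    · rw [real_inner_self_eq_norm_sq]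
      positivity
    · rw [real_inner_self_eq_norm_sq]
      have := norm_pos_iff.2 hy
      positivity
  · unfold dir
    have hci : ∀ i : Fin 3, Continuous (fun y => fderiv ℝ φ y (bv i)) := fun i =>
      (hP.dd (bv i)).sm.continuous
    refine int_pos_of (y := 0) ?_ ?_ (fun y => by positivity) ?_
    · exact continuous_finsetSum _ fun i _ => ((hci i).norm.pow 2)
    · refine (hP.cs.fderiv (𝕜 := ℝ)).mono ?_
      intro y hy
      simp only [Function.mem_support] at hy ⊢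
      intro h0
      exact hy (by simp [h0])
    · have h3 : fderiv ℝ φ 0 = AL := by
        refine (φ_lin h ?_).2
        rw [norm_zero]
        have := h.ρ0
        have := h.ρ1
        linarith
      rw [h3]
      have h4 : ‖AL (bv 0)‖ ^ 2 = 1 := by
        rw [AL_apply, ← real_inner_self_eq_norm_sq, inner_E3]
        simp [Am, bv]
      have h5 : 0 < ∑ i : Fin 3, ‖AL (bv i)‖ ^ 2 := by
        rw [Fin.sum_univ_three, h4]
        positivity
      exact h5.ne'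

lemma ip_nonneg (v : E3 → E3) : 0 ≤ ip v v := by
  unfold ip
  refine integral_nonneg fun y => ?_
  change 0 ≤ inner ℝ (v y) (v y)
  rw [real_inner_self_eq_norm_sq]
  positivity

lemma dir_nonneg (v : E3 → E3) : 0 ≤ dir v := by
  unfold dir
  exact integral_nonneg fun y => by positivity

/-- smallness of the seeds for large `Q` -/
lemma sml {c d m : ℝ} (hc : 0 < c) (hd : 0 ≤ d) (hm : 0 ≤ m) (ρ' : ℝ) (hρ : 0 < ρ') :
    ∃ Q₁ : ℝ, ∀ Q ≥ Q₁, Sml (qs Q) c d m ∧ ∀ i j, i < j → LT ρ' (qs Q i) (qs Q j) := by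
  obtain ⟨X₀, hX⟩ := exp_small (1 + 2 * c + 2 * d + 2 * m)
  obtain ⟨C, hC⟩ : ∃ C, C = 2 + 1 / ρ' := ⟨_, rfl⟩
  have hρi : 0 < 1 / ρ' := by positivity
  have hC2 : 2 ≤ C := by rw [hC]; linarith
  refine ⟨max (max X₀ (C ^ 5)) (max 2 (max (2 * c) (1 / c))), fun Q hQ => ?_⟩
  have r1 : X₀ ≤ Q := (le_max_left _ _).trans ((le_max_left _ _).trans hQ)
  have r2 : C ^ 5 ≤ Q := (le_max_right _ _).trans ((le_max_left _ _).trans hQ)
  have r3 : 2 ≤ Q := (le_max_left _ _).trans ((le_max_right _ _).trans hQ)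
  have r4 : 2 * c ≤ Q :=
    (le_max_left _ _).trans ((le_max_right _ _).trans ((le_max_right _ _).trans hQ))
  have r5 : 1 / c ≤ Q :=
    (le_max_right _ _).trans ((le_max_right _ _).trans ((le_max_right _ _).trans hQ))
  have hQ1 : 1 ≤ Q := by linarith
  have hge : ∀ n, Q ≤ qs Q n := qs_ge hQ1
  have hst : ∀ n, C * qs Q n ≤ qs Q (n + 1) := qs_step (by linarith) hQ1 r2
  have h0 : ∀ n, 0 < qs Q n := fun n => by linarith [hge n]
  have hm1 : ∀ n, qs Q n ≤ qs Q (n + 1) := fun n => by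
    have := hst n
    nlinarith [h0 n]
  refine ⟨⟨hc, hd, hm, fun n => r3.trans (hge n), hm1, qs_le hQ1, fun n => r4.trans (hge n),
    fun n => r5.trans (hge n), fun n => ?_⟩, sep hρ hC.ge h0 hst⟩
  cases n with
  | zero =>
    simp only [ee]
    rw [zero_mul, mul_zero]
    exact zero_le_one
  | succ n =>
    simp only [ee]
    refine le_trans ?_ (hX (qs Q n) (r1.trans (hge n)))
    have h1 : qs Q (n + 1 + 1) ≤ qs Q n ^ 4 := by
      calc qs Q (n + 1 + 1) ≤ qs Q (n + 1) ^ 2 := qs_le hQ1 (n + 1)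
        _ ≤ (qs Q n ^ 2) ^ 2 := pow_le_pow_left₀ (h0 (n + 1)).le (qs_le hQ1 n) 2
        _ = qs Q n ^ 4 := by ring
    have h2 : qs Q (n + 1 + 1) ^ 5 ≤ qs Q n ^ 20 := by
      calc qs Q (n + 1 + 1) ^ 5 ≤ (qs Q n ^ 4) ^ 5 := pow_le_pow_left₀ (h0 (n + 1 + 1)).le h1 5
        _ = qs Q n ^ 20 := by ring
    have h3 : 0 ≤ 1 + 2 * c + 2 * d + 2 * m := by linarith
    gcongr

end X

open X in
/-- (X) The table. -/
theorem t_X : S_X := by
  obtain ⟨φ, ψ, ρ, ρ', h⟩ := SC.T1.t_PK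
  obtain ⟨hN, hμ⟩ := consts h
  have hb := h.bpos
  have hκ := h.κpos
  have hNψ := ip_nonneg ψ
  have hμψ := dir_nonneg ψ
  obtain ⟨Q₁, hQ₁⟩ := sml (c := ip (fun y => Am (ψ y)) ψ / -ip (fun y => Am (φ y)) φ)
    (d := ip ψ ψ / ip φ φ) (m := dir ψ / dir φ) (by positivity) (by positivity) (by positivity)
    ρ' h.ρ0
  refine ⟨Q₁, -ip (fun y => Am (φ y)) φ / ip φ φ, dir φ / ip φ φ, ip φ φ, fun Q hQ => ?_⟩
  obtain ⟨hs, hlt⟩ := hQ₁ Q hQ
  exact ⟨_, _, _, _, _, _, hs.cf,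
    ty h hlt (co hb hN hμ (neg_neg _).symm rfl rfl rfl rfl rfl hs)⟩

end Pool.Agent.N976.UE
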