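import Pool.Agent.N976.UE.Y2c

/-! # (Y2) One stage: the three active modes. -/

open Set Filter Topology

set_option autoImplicit false

namespace Pool.Agent.N976.UE.Y2

/-- The three active modes on `[τ, τ₁]`. -/
structure H (q v z y K τ τ₁ a g : ℝ) (p r w Θ M Ep Er μ e : ℝ → ℝ) : Prop where
  big : Big q v z y K
  le : τ ≤ τ₁
  D : τ₁ - τ ≤ 2 * Real.log q / q ^ 5
  pc : ContinuousOn p (Icc τ τ₁)
  rc : ContinuousOn r (Icc τ τ₁)
  wc : ContinuousOn w (Icc τ τ₁)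
  Θc : ContinuousOn Θ (Icc τ τ₁)
  Mc : ContinuousOn M (Icc τ τ₁)
  pd : ∀ t ∈ Ioo τ τ₁, HasDerivAt p (-(a * r t) * r t + Ep t) t
  rd : ∀ t ∈ Ioo τ τ₁, HasDerivAt r (a * r t * p t + Er t) t
  wd : ∀ t ∈ Ioo τ τ₁, HasDerivAt w (μ t * w t + (g * r t ^ 2 - e t)) t
  Θd : ∀ t ∈ Ioo τ τ₁, HasDerivAt Θ (a * r t) t
  Md : ∀ t ∈ Ioo τ τ₁, HasDerivAt M (μ t) t
  Θ0 : Θ τ = 0
  M0 : M τ = 0
  a1 : 99 / 100 * q ^ 5 ≤ a
  a2 : a ≤ 101 / 100 * q ^ 5
  g1 : 99 / 100 * Real.exp (-(Real.pi / 2 * q)) ≤ g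
  g2 : g ≤ 101 / 100 * (z ^ 6 * Real.exp (-(Real.pi / 2 * q)))
  E : ∀ t ∈ Ioo τ τ₁, |Ep t| + |Er t| ≤ 6 * v ^ 4
  mu : ∀ t ∈ Ioo τ τ₁, |μ t - q * (a * r t)| ≤ 2 * z ^ 4 + 6 * q ^ 5
  e1 : ∀ t ∈ Ioo τ τ₁, 0 ≤ e t
  e2 : ∀ t ∈ Ioo τ τ₁, e t ≤ Real.exp (-(4 * q))
  pb : ∀ t ∈ Icc τ τ₁, |p t| ≤ 51 / 50
  rb : ∀ t ∈ Icc τ τ₁, |r t| ≤ 51 / 50
  wb : ∀ t ∈ Icc τ τ₁, |w t| ≤ v ^ (-(1 / 2 : ℝ))
  lowr : ∀ t ∈ Ioo τ τ₁, 0 ≤ r t →
    -((2 * v ^ 4 + q ^ 3 * v + 2) * r t) - 2 * q ^ 6 * (w t ^ 2 + Real.exp (-(3 * v))) ≤ Er t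
  upr : ∀ t ∈ Ioo τ τ₁, 0 ≤ r t → Er t ≤ q ^ 3 * v * r t + 3
  p0 : 9 / 10 ≤ p τ
  r0 : r τ = q ^ (-(1 / 2 : ℝ))
  w1 : -Real.exp (-(3 * q)) ≤ w τ
  w2 : w τ ≤ Real.exp (-(Real.pi / 2 * q) + √q)

namespace H

variable {q v z y K τ τ₁ a g : ℝ} {p r w Θ M Ep Er μ e : ℝ → ℝ}

lemma restrict (h : H q v z y K τ τ₁ a g p r w Θ M Ep Er μ e) {τ₂ : ℝ} (h2 : τ₂ ∈ Icc τ τ₁) :
    H q v z y K τ τ₂ a g p r w Θ M Ep Er μ e := by
  have hI : Icc τ τ₂ ⊆ Icc τ τ₁ := Icc_subset_Icc_right h2.2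
  have hO : Ioo τ τ₂ ⊆ Ioo τ τ₁ := Ioo_subset_Ioo_right h2.2
  exact {
    big := h.big
    le := h2.1
    D := by have := h.D; linarith [h2.2]
    pc := h.pc.mono hI
    rc := h.rc.mono hI
    wc := h.wc.mono hI
    Θc := h.Θc.mono hI
    Mc := h.Mc.mono hI
    pd := fun t ht => h.pd t (hO ht)
    rd := fun t ht => h.rd t (hO ht)
    wd := fun t ht => h.wd t (hO ht)
    Θd := fun t ht => h.Θd t (hO ht)
    Md := fun t ht => h.Md t (hO ht)
    Θ0 := h.Θ0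
    M0 := h.M0
    a1 := h.a1
    a2 := h.a2
    g1 := h.g1
    g2 := h.g2
    E := fun t ht => h.E t (hO ht)
    mu := fun t ht => h.mu t (hO ht)
    e1 := fun t ht => h.e1 t (hO ht)
    e2 := fun t ht => h.e2 t (hO ht)
    pb := fun t ht => h.pb t (hI ht)
    rb := fun t ht => h.rb t (hI ht)
    wb := fun t ht => h.wb t (hI ht)
    lowr := fun t ht => h.lowr t (hO ht)
    upr := fun t ht => h.upr t (hO ht)
    p0 := h.p0
    r0 := h.r0
    w1 := h.w1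
    w2 := h.w2 }

variable (h : H q v z y K τ τ₁ a g p r w Θ M Ep Er μ e)

include h

lemma q0 : 0 < q := by linarith [h.big.b1]

lemma v0 : 0 < v := by linarith [h.big.b1, h.big.b2]

lemma z0 : 0 < z := by linarith [h.big.b1, h.big.b2, h.big.b2']

lemma a0 : 0 < a := by
  have := h.a1
  have h5 : 0 < q ^ 5 := by have := h.q0; positivity
  linarith

lemma g0 : 0 < g := by
  have := h.g1
  have h5 := Real.exp_pos (-(Real.pi / 2 * q))
  linarith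

lemma Dt {t : ℝ} (ht : t ∈ Icc τ τ₁) : t - τ ≤ 2 * Real.log q / q ^ 5 := by
  have := h.D
  linarith [ht.2]

lemma mem0 : τ ∈ Icc τ τ₁ := ⟨le_rfl, h.le⟩

/-- rotation -/
lemma rotp {t : ℝ} (ht : t ∈ Icc τ τ₁) :
    |p t - (p τ * Real.cos (Θ t) - r τ * Real.sin (Θ t))| ≤
      12 * v ^ 4 * (2 * Real.log q / q ^ 5) := by
  have h1 := (rot h.pc h.rc h.Θc h.pd h.rd h.Θd h.Θ0 h.E ht).1
  have h2 : 2 * (6 * v ^ 4) * (t - τ) ≤ 12 * v ^ 4 * (2 * Real.log q / q ^ 5) := by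
    have := h.Dt ht
    have h4 : 0 ≤ v ^ 4 := by have := h.v0; positivity
    nlinarith
  linarith

lemma rotr {t : ℝ} (ht : t ∈ Icc τ τ₁) :
    |r t - (p τ * Real.sin (Θ t) + r τ * Real.cos (Θ t))| ≤
      12 * v ^ 4 * (2 * Real.log q / q ^ 5) := by
  have h1 := (rot h.pc h.rc h.Θc h.pd h.rd h.Θd h.Θ0 h.E ht).2
  have h2 : 2 * (6 * v ^ 4) * (t - τ) ≤ 12 * v ^ 4 * (2 * Real.log q / q ^ 5) := by
    have := h.Dt ht
    have h4 : 0 ≤ v ^ 4 := by have := h.v0; positivity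
    nlinarith
  linarith

/-- the exponent -/
lemma Mq {t : ℝ} (ht : t ∈ Icc τ τ₁) : |M t - q * Θ t| ≤ K := by
  have h1 := lip (f := fun t => M t - q * Θ t) (f' := fun t => μ t - q * (a * r t))
    (c := 2 * z ^ 4 + 6 * q ^ 5) (h.Mc.sub (continuousOn_const.mul h.Θc))
    (fun t ht => (h.Md t ht).fun_sub ((h.Θd t ht).const_mul q)) h.mu h.mem0 ht ht.1
  simp only [h.Θ0, h.M0, mul_zero, sub_zero] at h1
  have h2 : (2 * z ^ 4 + 6 * q ^ 5) * (t - τ) ≤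
      (2 * z ^ 4 + 6 * q ^ 5) * (2 * Real.log q / q ^ 5) := by
    have h3 := h.Dt ht
    have h4 : 0 ≤ 2 * z ^ 4 + 6 * q ^ 5 := by have := h.z0; have := h.q0; positivity
    gcongr
  linarith [h.big.b4]

/-! Now `0 ≤ r`. -/

lemma mono (hr : ∀ t ∈ Icc τ τ₁, 0 ≤ r t) : MonotoneOn Θ (Icc τ τ₁) :=
  mono_of h.Θc h.Θd fun t ht => mul_nonneg h.a0.le (hr t (Ioo_subset_Icc_self ht))

lemma Θpos (hr : ∀ t ∈ Icc τ τ₁, 0 ≤ r t) {t : ℝ} (ht : t ∈ Icc τ τ₁) : 0 ≤ Θ t := by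
  have := h.mono hr h.mem0 ht ht.1
  rwa [h.Θ0] at this

lemma Mlow (hr : ∀ t ∈ Icc τ τ₁, 0 ≤ r t) {t : ℝ} (ht : t ∈ Icc τ τ₁) : -K ≤ M t := by
  have h1 := (abs_le.1 (h.Mq ht)).1
  have h2 := mul_nonneg h.q0.le (h.Θpos hr ht)
  linarith

lemma Wc : ContinuousOn (fun t => w t * Real.exp (-M t)) (Icc τ τ₁) :=
  h.wc.mul (Real.continuous_exp.comp_continuousOn h.Mc.neg)

lemma Wd {t : ℝ} (ht : t ∈ Ioo τ τ₁) : HasDerivAt (fun t => w t * Real.exp (-M t))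
    (Real.exp (-M t) * (g * r t ^ 2 - e t)) t := by
  have := (h.wd t ht).fun_mul ((h.Md t ht).neg.exp)
  refine this.congr_deriv ?_
  simp only [Pi.neg_apply]
  ring

lemma expM (hr : ∀ t ∈ Icc τ τ₁, 0 ≤ r t) {t : ℝ} (ht : t ∈ Icc τ τ₁) :
    Real.exp (-M t) ≤ Real.exp K := Real.exp_le_exp.2 (by linarith [h.Mlow hr ht])

lemma rsq {t : ℝ} (ht : t ∈ Icc τ τ₁) : r t ^ 2 ≤ (51 / 50) ^ 2 := by
  rw [← sq_abs]
  have := h.rb t ht
  gcongr

lemma grb {t : ℝ} (ht : t ∈ Icc τ τ₁) :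
    g * r t ^ 2 ≤ 2 * (z ^ 6 * Real.exp (-(Real.pi / 2 * q))) := by
  have h1 := h.rsq ht
  have h2 := h.g2
  have h3 : 0 ≤ z ^ 6 * Real.exp (-(Real.pi / 2 * q)) := by have := h.z0; positivity
  have h4 : 0 ≤ r t ^ 2 := sq_nonneg _
  calc g * r t ^ 2 ≤ (101 / 100 * (z ^ 6 * Real.exp (-(Real.pi / 2 * q)))) * (51 / 50) ^ 2 := by
        gcongr
    _ ≤ _ := by linarith

/-- upper bound for `W` -/
lemma Wup (hr : ∀ t ∈ Icc τ τ₁, 0 ≤ r t) {t : ℝ} (ht : t ∈ Icc τ τ₁) :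
    w t * Real.exp (-M t) ≤ Real.exp (-(Real.pi / 2 * q) + 2 * K) := by
  have h1 := growth' (f := fun t => w t * Real.exp (-M t))
    (f' := fun t => Real.exp (-M t) * (g * r t ^ 2 - e t))
    (c := Real.exp K * (2 * (z ^ 6 * Real.exp (-(Real.pi / 2 * q))))) h.Wc (fun t ht => h.Wd ht)
    (fun s hs => by
      have hs' := Ioo_subset_Icc_self hs
      have a1 := h.expM hr hs'
      have a2 := h.grb hs'
      have a3 := h.e1 s hs
      have a4 : 0 ≤ g * r s ^ 2 := mul_nonneg h.g0.le (sq_nonneg _)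
      calc Real.exp (-M s) * (g * r s ^ 2 - e s) ≤ Real.exp (-M s) * (g * r s ^ 2) := by
            gcongr
            linarith
        _ ≤ _ := by gcongr) h.mem0 ht ht.1
  simp only [h.M0, neg_zero, Real.exp_zero, mul_one] at h1
  have h2 : Real.exp K * (2 * (z ^ 6 * Real.exp (-(Real.pi / 2 * q)))) * (t - τ) ≤
      2 * Real.log q / q ^ 5 * (Real.exp K * (2 * (z ^ 6 * Real.exp (-(Real.pi / 2 * q))))) := by
    rw [mul_comm]
    have h3 := h.Dt ht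
    have h4 : 0 ≤ Real.exp K * (2 * (z ^ 6 * Real.exp (-(Real.pi / 2 * q)))) := by
      have := h.z0; positivity
    gcongr
  linarith [h.big.b14, h.w2]

/-- almost monotone -/
lemma Wmono (hr : ∀ t ∈ Icc τ τ₁, 0 ≤ r t) {s t : ℝ} (hs : s ∈ Icc τ τ₁) (ht : t ∈ Icc τ τ₁)
    (hst : s ≤ t) : w s * Real.exp (-M s) - Real.exp K * Real.exp (-(4 * q)) * (t - s) ≤
      w t * Real.exp (-M t) := by
  have h1 := growth (f := fun t => w t * Real.exp (-M t))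
    (f' := fun t => Real.exp (-M t) * (g * r t ^ 2 - e t))
    (c := -(Real.exp K * Real.exp (-(4 * q)))) h.Wc (fun t ht => h.Wd ht)
    (fun s hs => by
      have hs' := Ioo_subset_Icc_self hs
      have a1 := h.expM hr hs'
      have a3 := h.e2 s hs
      have a5 := h.e1 s hs
      have a4 : 0 ≤ g * r s ^ 2 := mul_nonneg h.g0.le (sq_nonneg _)
      have a6 : Real.exp (-M s) * e s ≤ Real.exp K * Real.exp (-(4 * q)) := by gcongr
      have a7 := mul_nonneg (Real.exp_pos (-M s)).le a4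
      nlinarith) hs ht hst
  linarith

/-- lower bound for `W` -/
lemma Wlow (hr : ∀ t ∈ Icc τ τ₁, 0 ≤ r t) {t : ℝ} (ht : t ∈ Icc τ τ₁) :
    -Real.exp (-(29 / 10 * q)) ≤ w t * Real.exp (-M t) := by
  have h1 := h.Wmono hr h.mem0 ht ht.1
  simp only [h.M0, neg_zero, Real.exp_zero, mul_one] at h1
  have h2 : Real.exp K * Real.exp (-(4 * q)) * (t - τ) ≤
      2 * Real.log q / q ^ 5 * (Real.exp K * Real.exp (-(4 * q))) := by
    rw [mul_comm]
    have h3 := h.Dt ht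
    gcongr
  linarith [h.big.b15, h.w1]

omit h in
lemma wW (t : ℝ) : w t = Real.exp (M t) * (w t * Real.exp (-M t)) := by
  rw [mul_comm (w t), ← mul_assoc, ← Real.exp_add]
  simp

lemma wup (hr : ∀ t ∈ Icc τ τ₁, 0 ≤ r t) {t : ℝ} (ht : t ∈ Icc τ τ₁) :
    w t ≤ Real.exp (q * (Θ t - Real.pi / 2) + 3 * K) := by
  rw [wW (w := w) (M := M) t]
  have h1 := h.Wup hr ht
  have h2 := (abs_le.1 (h.Mq ht)).2
  calc Real.exp (M t) * (w t * Real.exp (-M t)) ≤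
      Real.exp (M t) * Real.exp (-(Real.pi / 2 * q) + 2 * K) := by gcongr
    _ = Real.exp (M t + (-(Real.pi / 2 * q) + 2 * K)) := (Real.exp_add _ _).symm
    _ ≤ _ := Real.exp_le_exp.2 (by linarith)

lemma wlow (hr : ∀ t ∈ Icc τ τ₁, 0 ≤ r t) {t : ℝ} (ht : t ∈ Icc τ τ₁) :
    -Real.exp (q * Θ t + K - 29 / 10 * q) ≤ w t := by
  have h1 := h.Wlow hr ht
  have h2 := (abs_le.1 (h.Mq ht)).2
  have h3 : -(Real.exp (M t) * Real.exp (-(29 / 10 * q))) ≤ w t := by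
    rw [wW (w := w) (M := M) t]
    have := mul_le_mul_of_nonneg_left h1 (Real.exp_pos (M t)).le
    linarith
  have h4 : Real.exp (M t) * Real.exp (-(29 / 10 * q)) ≤
      Real.exp (q * Θ t + K - 29 / 10 * q) := by
    rw [← Real.exp_add]
    exact Real.exp_le_exp.2 (by linarith)
  linarith

/-- phase A -/
lemma wA (hr : ∀ t ∈ Icc τ τ₁, 0 ≤ r t) {t : ℝ} (ht : t ∈ Icc τ τ₁) (hΘ : Θ t ≤ 1) :
    w t ^ 2 ≤ Real.exp (-(4 / 5 * q)) := by
  have h1 := h.wup hr ht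
  have h2 := h.wlow hr ht
  have hq := h.q0
  have hK := h.big.b18
  have hpi := pi314
  have a1 : Real.exp (q * (Θ t - Real.pi / 2) + 3 * K) ≤ Real.exp (-(2 / 5 * q)) := by
    apply Real.exp_le_exp.2
    nlinarith
  have a2 : Real.exp (q * Θ t + K - 29 / 10 * q) ≤ Real.exp (-(2 / 5 * q)) := by
    apply Real.exp_le_exp.2
    nlinarith
  have a3 : |w t| ≤ Real.exp (-(2 / 5 * q)) := abs_le.2 ⟨by linarith, by linarith⟩
  calc w t ^ 2 = |w t| ^ 2 := (sq_abs _).symm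
    _ ≤ Real.exp (-(2 / 5 * q)) ^ 2 := by gcongr
    _ = Real.exp (-(4 / 5 * q)) := by
        rw [← Real.exp_nat_mul]
        congr 1
        push_cast
        ring

lemma r01 : 0 < r τ := by
  rw [h.r0]
  have := h.q0
  positivity

lemma r02 : r τ ≤ 1 / 1000 := by
  rw [h.r0]
  exact h.big.b21

lemma pA {t : ℝ} (ht : t ∈ Icc τ τ₁) (hΘ0 : 0 ≤ Θ t) (hΘ : Θ t ≤ 1) : 11 / 25 ≤ p t := by
  have h1 := (abs_le.1 (h.rotp ht)).1
  have h2 := Real.one_sub_sq_div_two_le_cos (x := Θ t)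
  have h3 : 1 / 2 ≤ Real.cos (Θ t) := by nlinarith
  have h4 := h.p0
  have h5 := h.big.b6
  have h6 := h.r01
  have h7 := h.r02
  have h8 := Real.sin_le_one (Θ t)
  nlinarith

lemma rA (hr : ∀ t ∈ Icc τ τ₁, 0 ≤ r t) {t : ℝ} (ht : t ∈ Icc τ τ₁) (hΘ : Θ t ≤ 1) :
    r τ / 100 + 99 / 100 * r τ * Real.exp (39 / 100 * q ^ 5 * (t - τ)) ≤ r t := by
  have hq := h.q0
  have hI : Icc τ t ⊆ Icc τ τ₁ := Icc_subset_Icc_right ht.2
  have hO : Ioo τ t ⊆ Ioo τ τ₁ := Ioo_subset_Ioo_right ht.2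
  have key : ∀ s ∈ Ioo τ t, 39 / 100 * q ^ 5 * (r s - r τ / 100) ≤ a * r s * p s + Er s := by
    intro s hs
    have hs1 : s ∈ Icc τ τ₁ := hI (Ioo_subset_Icc_self hs)
    have hΘs : Θ s ≤ 1 := (h.mono hr hs1 ht hs.2.le).trans hΘ
    have b1 := h.pA hs1 (h.Θpos hr hs1) hΘs
    have b2 := h.wA hr hs1 hΘs
    have b3 := h.lowr s (hO hs) (hr s hs1)
    have b4 := hr s hs1
    have b5 := h.a1
    have b6 := h.big.b19
    have b7 := h.big.b20
    have hv : Real.exp (-(3 * v)) ≤ Real.exp (-(4 / 5 * q)) := by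
      apply Real.exp_le_exp.2
      linarith [h.big.b2]
    rw [← h.r0] at b7
    have b8 : 2 * q ^ 6 * (w s ^ 2 + Real.exp (-(3 * v))) ≤
        39 / 100 * q ^ 5 * (r τ / 100) := by
      calc 2 * q ^ 6 * (w s ^ 2 + Real.exp (-(3 * v))) ≤
          2 * q ^ 6 * (Real.exp (-(4 / 5 * q)) + Real.exp (-(4 / 5 * q))) := by gcongr
        _ = 4 * q ^ 6 * Real.exp (-(4 / 5 * q)) := by ring
        _ ≤ _ := b7
    have b0 := h.a0
    have b9 : 99 / 100 * q ^ 5 * r s * (11 / 25) ≤ a * r s * p s := by gcongr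
    have b10 : (2 * v ^ 4 + q ^ 3 * v + 2) * r s ≤ q ^ 5 / 200 * r s := by gcongr
    have b11 : 0 ≤ q ^ 5 * r s := by positivity
    nlinarith
  have h1 := mono_of (f := fun s => (r s - r τ / 100) * Real.exp (-(39 / 100 * q ^ 5 * (s - τ))))
    (f' := fun s => (a * r s * p s + Er s - 39 / 100 * q ^ 5 * (r s - r τ / 100)) *
      Real.exp (-(39 / 100 * q ^ 5 * (s - τ)))) (a := τ) (b := t)
    (((h.rc.mono hI).sub continuousOn_const).mul
      (by fun_prop))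
    (fun s hs => by
      have h2 := ((h.rd s (hO hs)).sub_const (r τ / 100)).fun_mul
        ((((hasDerivAt_id' s).sub_const τ).const_mul (39 / 100 * q ^ 5)).fun_neg.exp)
      exact h2.congr_deriv (by ring))
    (fun s hs => mul_nonneg (by linarith [key s hs]) (Real.exp_pos _).le)
  have h2 := h1 ⟨le_rfl, ht.1⟩ ⟨ht.1, le_rfl⟩ ht.1
  simp only [sub_self, mul_zero, neg_zero, Real.exp_zero, mul_one] at h2
  have h3 := mul_le_mul_of_nonneg_right h2 (Real.exp_pos (39 / 100 * q ^ 5 * (t - τ))).le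
  have h4 : (r t - r τ / 100) * Real.exp (-(39 / 100 * q ^ 5 * (t - τ))) *
      Real.exp (39 / 100 * q ^ 5 * (t - τ)) = r t - r τ / 100 := by
    rw [mul_assoc, ← Real.exp_add]
    simp
  rw [h4] at h3
  linarith

lemma rA' (hr : ∀ t ∈ Icc τ τ₁, 0 ≤ r t) {t : ℝ} (ht : t ∈ Icc τ τ₁) (hΘ : Θ t ≤ 1) :
    r τ ≤ r t := by
  have h1 := h.rA hr ht hΘ
  have h2 := h.r01
  have h3 : 1 ≤ Real.exp (39 / 100 * q ^ 5 * (t - τ)) := by
    apply Real.one_le_exp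
    have := h.q0
    have := ht.1
    have : 0 ≤ t - τ := by linarith
    positivity
  nlinarith

/-- `Θ` is large after the time `3 log q / (2 q⁵)`. -/
lemma late (hr : ∀ t ∈ Icc τ τ₁, 0 ≤ r t) {t : ℝ} (ht : t ∈ Icc τ τ₁)
    (h1 : 3 / 2 * Real.log q / q ^ 5 ≤ t - τ) : 1 < Θ t := by
  by_contra hcon
  have h2 := h.rA hr ht (not_lt.1 hcon)
  have h3 := (abs_le.1 (h.rb t ht)).2
  have h4 := h.big.b22
  rw [← h.r0] at h4
  have h5 : Real.exp (39 / 100 * q ^ 5 * (3 / 2 * Real.log q / q ^ 5)) ≤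
      Real.exp (39 / 100 * q ^ 5 * (t - τ)) := by
    apply Real.exp_le_exp.2
    have := h.q0
    gcongr
  have h6 := h.r01
  nlinarith

omit h in
lemma exp11 : Real.exp (11 / 10) ≤ 31 / 10 := by
  have h1 : Real.exp (11 / 10) = Real.exp 1 * Real.exp (1 / 10) := by
    rw [← Real.exp_add]; norm_num
  have h2 : Real.exp (1 / 10) ≤ 10 / 9 := by
    have h3 := Real.one_sub_le_exp_neg (1 / 10)
    have h4 : Real.exp (1 / 10) * Real.exp (-(1 / 10)) = 1 := by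
      rw [← Real.exp_add]; simp
    have h5 := Real.exp_pos (1 / 10 : ℝ)
    nlinarith
  have h3 := Real.exp_one_lt_d9
  have h4 := Real.exp_pos (1 / 10 : ℝ)
  have h5 := Real.exp_pos (1 : ℝ)
  rw [h1]
  nlinarith

/-- early times -/
lemma early (hr : ∀ t ∈ Icc τ τ₁, 0 ≤ r t) {t : ℝ} (ht : t ∈ Icc τ τ₁)
    (h1 : t - τ ≤ 1 / q ^ 5) : r t ≤ 4 * r τ := by
  have hq := h.q0
  have hI : Icc τ t ⊆ Icc τ τ₁ := Icc_subset_Icc_right ht.2
  have hO : Ioo τ t ⊆ Ioo τ τ₁ := Ioo_subset_Ioo_right ht.2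
  have hq5 : 0 < q ^ 5 := by positivity
  have key : ∀ s ∈ Ioo τ t, a * r s * p s + Er s ≤ 11 / 10 * q ^ 5 * (r s + 3 / q ^ 5) := by
    intro s hs
    have hs1 : s ∈ Icc τ τ₁ := hI (Ioo_subset_Icc_self hs)
    have b3 := h.upr s (hO hs) (hr s hs1)
    have b4 := hr s hs1
    have b5 := h.a2
    have b6 := h.big.b19
    have b7 := (abs_le.1 (h.pb s hs1)).2
    have b0 := h.a0
    have b9 : a * r s * p s ≤ 101 / 100 * q ^ 5 * r s * (51 / 50) := by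
      calc a * r s * p s ≤ a * r s * (51 / 50) := by gcongr
        _ ≤ _ := by gcongr
    have hv := h.v0
    have b10 : q ^ 3 * v * r s ≤ q ^ 5 / 200 * r s := by
      have : q ^ 3 * v ≤ q ^ 5 / 200 := by
        have : 0 ≤ v ^ 4 := by positivity
        linarith
      gcongr
    have b11 : 0 ≤ q ^ 5 * r s := by positivity
    have b12 : 11 / 10 * q ^ 5 * (r s + 3 / q ^ 5) = 11 / 10 * (q ^ 5 * r s) + 33 / 10 := by
      field_simp
      ring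
    rw [b12]
    nlinarith
  have h2 := mono_of (f := fun s => -((r s + 3 / q ^ 5) * Real.exp (-(11 / 10 * q ^ 5 * (s - τ)))))
    (f' := fun s => (11 / 10 * q ^ 5 * (r s + 3 / q ^ 5) - (a * r s * p s + Er s)) *
      Real.exp (-(11 / 10 * q ^ 5 * (s - τ)))) (a := τ) (b := t)
    (((h.rc.mono hI).add continuousOn_const).mul
      (by fun_prop)).neg
    (fun s hs => by
      have h2 := (((h.rd s (hO hs)).add_const (3 / q ^ 5)).fun_mul
        ((((hasDerivAt_id' s).sub_const τ).const_mul (11 / 10 * q ^ 5)).fun_neg.exp)).fun_neg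
      exact h2.congr_deriv (by ring))
    (fun s hs => mul_nonneg (by linarith [key s hs]) (Real.exp_pos _).le)
  have h3 := h2 ⟨le_rfl, ht.1⟩ ⟨ht.1, le_rfl⟩ ht.1
  simp only [sub_self, mul_zero, neg_zero, Real.exp_zero, mul_one] at h3
  have h4 := mul_le_mul_of_nonneg_right h3 (Real.exp_pos (11 / 10 * q ^ 5 * (t - τ))).le
  have h5 : (r t + 3 / q ^ 5) * Real.exp (-(11 / 10 * q ^ 5 * (t - τ))) *
      Real.exp (11 / 10 * q ^ 5 * (t - τ)) = r t + 3 / q ^ 5 := by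
    rw [mul_assoc, ← Real.exp_add]
    simp
  have h6 : Real.exp (11 / 10 * q ^ 5 * (t - τ)) ≤ 31 / 10 := by
    refine le_trans (Real.exp_le_exp.2 ?_) exp11
    calc 11 / 10 * q ^ 5 * (t - τ) ≤ 11 / 10 * q ^ 5 * (1 / q ^ 5) := by gcongr
      _ = 11 / 10 := by field_simp
  have h7 := h.big.b21'
  rw [← h.r0] at h7
  have h8 := h.r01
  have h9 : 0 < 3 / q ^ 5 := by positivity
  have h10 : (r τ + 3 / q ^ 5) * Real.exp (11 / 10 * q ^ 5 * (t - τ)) ≤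
      (r τ + r τ / 4) * (31 / 10) := by gcongr
  linarith

lemma earlyΘ (hr : ∀ t ∈ Icc τ τ₁, 0 ≤ r t) {t : ℝ} (ht : t ∈ Icc τ τ₁)
    (h1 : t - τ ≤ 1 / q ^ 5) : Θ t ≤ 5 * r τ := by
  have hq := h.q0
  have hq5 : 0 < q ^ 5 := by positivity
  have hI : Icc τ t ⊆ Icc τ τ₁ := Icc_subset_Icc_right ht.2
  have hO : Ioo τ t ⊆ Ioo τ τ₁ := Ioo_subset_Ioo_right ht.2
  have h2 := growth' (c := 101 / 100 * q ^ 5 * (4 * r τ)) (h.Θc.mono hI)
    (fun s hs => h.Θd s (hO hs)) (fun s hs => by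
      have hs1 : s ∈ Icc τ τ₁ := hI (Ioo_subset_Icc_self hs)
      have := h.early hr hs1 (by linarith [hs.2])
      have := h.a2
      have := hr s hs1
      gcongr) ⟨le_rfl, ht.1⟩ ⟨ht.1, le_rfl⟩ ht.1
  rw [h.Θ0] at h2
  have h3 := h.r01
  have h4 : 101 / 100 * q ^ 5 * (4 * r τ) * (t - τ) ≤
      101 / 100 * q ^ 5 * (4 * r τ) * (1 / q ^ 5) := by gcongr
  have h5 : 101 / 100 * q ^ 5 * (4 * r τ) * (1 / q ^ 5) = 101 / 25 * r τ := by
    field_simp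
    ring
  linarith

lemma r0sq : r τ ^ 2 = 1 / q := by
  rw [h.r0, pn h.q0 _ 2 (-1) (by norm_num), Real.rpow_neg_one]
  simp

/-- lower bound for `W` after the time `1 / q⁵` -/
lemma Wlow2 (hr : ∀ t ∈ Icc τ τ₁, 0 ≤ r t) {t : ℝ} (ht : t ∈ Icc τ τ₁)
    (h1 : 1 / q ^ 5 ≤ t - τ) :
    Real.exp (-(Real.pi / 2 * q) - 3 * K) ≤ w t * Real.exp (-M t) := by
  have hq := h.q0
  have hq5 : 0 < 1 / q ^ 5 := by positivity
  have hs : τ + 1 / q ^ 5 ∈ Icc τ τ₁ := ⟨by linarith, by linarith [ht.2]⟩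
  have hI : Icc τ (τ + 1 / q ^ 5) ⊆ Icc τ τ₁ := Icc_subset_Icc_right hs.2
  have hO : Ioo τ (τ + 1 / q ^ 5) ⊆ Ioo τ τ₁ := Ioo_subset_Ioo_right hs.2
  have h2 := growth (f := fun t => w t * Real.exp (-M t))
    (f' := fun t => Real.exp (-M t) * (g * r t ^ 2 - e t))
    (c := Real.exp (-(2 * K)) * (99 / 100 * Real.exp (-(Real.pi / 2 * q)) * (1 / q)) -
      Real.exp K * Real.exp (-(4 * q))) (h.Wc.mono hI) (fun t ht => h.Wd (hO ht))
    (fun s hs => by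
      have hs1 : s ∈ Icc τ τ₁ := hI (Ioo_subset_Icc_self hs)
      have a1 := h.expM hr hs1
      have a3 := h.e2 s (hO hs)
      have a5 := h.e1 s (hO hs)
      have a6 : Real.exp (-M s) * e s ≤ Real.exp K * Real.exp (-(4 * q)) := by gcongr
      have b1 := h.earlyΘ hr hs1 (by linarith [hs.2])
      have b2 : M s ≤ 2 * K := by
        have := (abs_le.1 (h.Mq hs1)).2
        have h16 := h.big.b16
        rw [← h.r0] at h16
        have : q * Θ s ≤ q * (5 * r τ) := by gcongr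
        linarith
      have b3 : Real.exp (-(2 * K)) ≤ Real.exp (-M s) := Real.exp_le_exp.2 (by linarith)
      have b4 := h.rA' hr hs1 (by linarith [h.r02])
      have b5 : 1 / q ≤ r s ^ 2 := by
        rw [← h.r0sq]
        have := h.r01
        gcongr
      have b6 := h.g1
      have b7 := h.g0
      have b8 : Real.exp (-(2 * K)) * (99 / 100 * Real.exp (-(Real.pi / 2 * q)) * (1 / q)) ≤
          Real.exp (-M s) * (g * r s ^ 2) := by gcongr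
      linarith) ⟨le_rfl, hs.1⟩ ⟨hs.1, le_rfl⟩ hs.1
  simp only [h.M0, neg_zero, Real.exp_zero, mul_one] at h2
  have h3 := h.Wmono hr hs ht (by linarith)
  have h4 := h.w1
  have h5 := h.big.b15
  have h6 := h.big.b17
  have h7 : Real.exp K * Real.exp (-(4 * q)) * (t - τ) ≤
      2 * Real.log q / q ^ 5 * (Real.exp K * Real.exp (-(4 * q))) := by
    rw [mul_comm]
    have h3 := h.Dt ht
    gcongr
  have h8 : Real.exp (-(2 * K)) * (99 / 100 * Real.exp (-(Real.pi / 2 * q)) * (1 / q)) *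
      (1 / q ^ 5) = 99 / 100 * Real.exp (-(2 * K) - Real.pi / 2 * q) / q ^ 6 := by
    have : Real.exp (-(2 * K) - Real.pi / 2 * q) =
      Real.exp (-(2 * K)) * Real.exp (-(Real.pi / 2 * q)) := by rw [← Real.exp_add]; ring_nf
    rw [this]
    field_simp
  have h9 : 9 / 10 * Real.exp (-(2 * K) - Real.pi / 2 * q) / q ^ 6 ≤
      99 / 100 * Real.exp (-(2 * K) - Real.pi / 2 * q) / q ^ 6 := by
    apply div_le_div_of_nonneg_right _ (by positivity)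
    have := Real.exp_pos (-(2 * K) - Real.pi / 2 * q)
    linarith
  have h10 : τ + 1 / q ^ 5 - τ = 1 / q ^ 5 := by ring
  rw [h10] at h2
  linarith

lemma wlow2 (hr : ∀ t ∈ Icc τ τ₁, 0 ≤ r t) {t : ℝ} (ht : t ∈ Icc τ τ₁)
    (h1 : 1 / q ^ 5 ≤ t - τ) : Real.exp (q * (Θ t - Real.pi / 2) - 4 * K) ≤ w t := by
  have h2 := h.Wlow2 hr ht h1
  have h3 := (abs_le.1 (h.Mq ht)).1
  rw [wW (w := w) (M := M) t]
  calc Real.exp (q * (Θ t - Real.pi / 2) - 4 * K) ≤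
      Real.exp (M t + (-(Real.pi / 2 * q) - 3 * K)) := Real.exp_le_exp.2 (by linarith)
    _ = Real.exp (M t) * Real.exp (-(Real.pi / 2 * q) - 3 * K) := Real.exp_add _ _
    _ ≤ _ := by gcongr

lemma r1lt : v ^ (-(1 / 2 : ℝ)) ≤ 1 := by
  apply Real.rpow_le_one_of_one_le_of_nonpos
  · linarith [h.big.b1, h.big.b2]
  · norm_num

lemma Θup (hr : ∀ t ∈ Icc τ τ₁, 0 ≤ r t) {t : ℝ} (ht : t ∈ Icc τ τ₁) :
    Θ t ≤ Real.pi / 2 + 4 * K / q := by
  have hq := h.q0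
  have hK := h.big.K0
  rcases le_total (t - τ) (1 / q ^ 5) with h1 | h1
  · have h2 := h.earlyΘ hr ht h1
    have h3 := h.r02
    have h4 := pi3
    have : 0 < 4 * K / q := by positivity
    linarith
  · have h2 := h.wlow2 hr ht h1
    have h3 := (abs_le.1 (h.wb t ht)).2
    have h4 := h.r1lt
    have h5 : Real.exp (q * (Θ t - Real.pi / 2) - 4 * K) ≤ 1 := by linarith
    rw [Real.exp_le_one_iff] at h5
    have h6 : Θ t - Real.pi / 2 ≤ 4 * K / q := by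
      rw [le_div_iff₀ hq]
      linarith
    linarith

lemma Kq : 4 * K / q ≤ 1 / 100 := by
  rw [div_le_iff₀ h.q0]
  linarith [h.big.b18]

lemma Θup' (hr : ∀ t ∈ Icc τ τ₁, 0 ≤ r t) {t : ℝ} (ht : t ∈ Icc τ τ₁) : Θ t ≤ 8 / 5 := by
  have h1 := h.Θup hr ht
  have h2 := h.Kq
  have h3 := pi315
  linarith

lemma rB (hr : ∀ t ∈ Icc τ τ₁, 0 ≤ r t) {t : ℝ} (ht : t ∈ Icc τ τ₁) (hΘ : 1 ≤ Θ t) :
    7 / 10 ≤ r t := by
  have h1 := (abs_le.1 (h.rotr ht)).1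
  have h2 := h.Θup hr ht
  have h22 := h.Kq
  have h3 := pi314
  have h4 := pi315
  have h5 := Real.one_sub_sq_div_two_le_cos (x := Real.pi / 2 - Θ t)
  rw [Real.cos_pi_div_two_sub] at h5
  have h6 : (Real.pi / 2 - Θ t) ^ 2 ≤ (6 / 10) ^ 2 :=
    sq_le_sq' (by linarith) (by linarith)
  have h7 : 8 / 10 ≤ Real.sin (Θ t) := by linarith
  have h8 := h.p0
  have h9 := h.big.b6
  have h10 := h.r01
  have h11 := h.r02
  have h12 := Real.neg_one_le_cos (Θ t)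
  nlinarith

/-- all of it, as long as `r` is nonnegative -/
lemma rpos (hr : ∀ t ∈ Icc τ τ₁, 0 ≤ r t) {t : ℝ} (ht : t ∈ Icc τ τ₁) : r τ ≤ r t := by
  rcases le_total (Θ t) 1 with h1 | h1
  · exact h.rA' hr ht h1
  · have := h.rB hr ht h1
    linarith [h.r02]

/-- `r` is nonnegative -/
theorem rnn : ∀ t ∈ Icc τ τ₁, 0 ≤ r t := by
  by_contra hcon
  push Not at hcon
  obtain ⟨t, ht, htr⟩ := hcon
  obtain ⟨s, hs, hs1, hs2⟩ := first_time (f := fun t => -r t) (c := 0) h.rc.neg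
    (by linarith [h.r01]) ⟨t, ht, by linarith⟩
  have hs' : s ∈ Icc τ τ₁ := Ioc_subset_Icc_self hs
  have h1 := (h.restrict hs').rpos (fun u hu => by linarith [hs2 u hu]) ⟨hs.1.le, le_rfl⟩
  linarith [h.r01]

theorem rge {t : ℝ} (ht : t ∈ Icc τ τ₁) : r τ ≤ r t := h.rpos h.rnn ht

/-- the time is short -/
theorem short : τ₁ - τ < 2 * Real.log q / q ^ 5 := by
  by_contra hcon
  rw [not_lt] at hcon
  have hr := h.rnn
  have hq := h.q0
  have hl := h.big.b23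
  have hq5 : 0 < q ^ 5 := by positivity
  have hpos : 0 < Real.log q / q ^ 5 := by positivity
  have e1 : 2 * Real.log q / q ^ 5 = 2 * (Real.log q / q ^ 5) := by ring
  have e2 : 3 / 2 * Real.log q / q ^ 5 = 3 / 2 * (Real.log q / q ^ 5) := by ring
  rw [e1] at hcon
  have hs : τ + 3 / 2 * Real.log q / q ^ 5 ∈ Icc τ τ₁ := by
    rw [e2]
    exact ⟨by linarith, by linarith⟩
  have hI : Icc (τ + 3 / 2 * Real.log q / q ^ 5) τ₁ ⊆ Icc τ τ₁ := Icc_subset_Icc_left hs.1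
  have hO : Ioo (τ + 3 / 2 * Real.log q / q ^ 5) τ₁ ⊆ Ioo τ τ₁ := Ioo_subset_Ioo_left hs.1
  have h1 := growth (c := 99 / 100 * q ^ 5 * (7 / 10)) (h.Θc.mono hI)
    (fun s hs => h.Θd s (hO hs)) (fun s hs' => by
      have hs1 : s ∈ Icc τ τ₁ := hI (Ioo_subset_Icc_self hs')
      have h2 := h.late hr hs1 (by linarith [hs'.1])
      have h3 := h.rB hr hs1 h2.le
      have := h.a1
      have := h.a0
      gcongr) ⟨le_rfl, hs.2⟩ ⟨hs.2, le_rfl⟩ hs.2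
  have h2 := h.late hr hs (by linarith)
  have h3 := h.Θup' hr (t := τ₁) ⟨h.le, le_rfl⟩
  have h4 : 99 / 100 * q ^ 5 * (7 / 10) * (τ₁ - (τ + 3 / 2 * Real.log q / q ^ 5)) ≥
      99 / 100 * q ^ 5 * (7 / 10) * (1 / 2 * (Real.log q / q ^ 5)) := by
    rw [e2]
    apply mul_le_mul_of_nonneg_left _ (by positivity)
    linarith
  have h5 : 99 / 100 * q ^ 5 * (7 / 10) * (1 / 2 * (Real.log q / q ^ 5)) =
      693 / 2000 * Real.log q := by
    field_simp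
    ring
  linarith

/-- `w` is not too negative -/
theorem wge {t : ℝ} (ht : t ∈ Icc τ τ₁) : -Real.exp (-q) ≤ w t := by
  have h1 := h.wlow h.rnn ht
  have h2 := h.Θup' h.rnn ht
  have h3 : Real.exp (q * Θ t + K - 29 / 10 * q) ≤ Real.exp (-q) := by
    apply Real.exp_le_exp.2
    have := h.q0
    have := h.big.b18
    nlinarith
  linarith

/-- at the end -/
theorem fin (hw : w τ₁ = v ^ (-(1 / 2 : ℝ))) (hv : v = q ^ (6 / 5 : ℝ)) :
    |p τ₁| ≤ 2 * q ^ (-(1 / 10 : ℝ)) ∧ 0 < r τ₁ ∧ 1 / q ^ 5 ≤ τ₁ - τ := by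
  have hr := h.rnn
  have hq := h.q0
  have ht : τ₁ ∈ Icc τ τ₁ := ⟨h.le, le_rfl⟩
  have h1 := h.wup hr ht
  have h2 := h.Θup hr ht
  rw [hw, hv, ← Real.rpow_mul hq.le, Real.rpow_def_of_pos hq, Real.exp_le_exp] at h1
  have h25 := h.big.b25
  have hK := h.big.K0
  have h3 : -(4 * K / q) ≤ Θ τ₁ - Real.pi / 2 := by
    rw [neg_le_iff_add_nonneg, ← sub_neg_eq_add, sub_nonneg, neg_le]
    rw [neg_sub, sub_le_iff_le_add]
    have : Real.pi / 2 - Θ τ₁ ≤ 4 * K / q := by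
      rw [le_div_iff₀ hq]
      linarith
    linarith
  have h4 : |Real.cos (Θ τ₁)| ≤ 4 * K / q := by
    rw [← Real.sin_pi_div_two_sub]
    refine Real.abs_sin_le_abs.trans ?_
    rw [abs_le]
    constructor <;> linarith
  refine ⟨?_, ?_, ?_⟩
  · have h5 := h.rotp ht
    have h6 := h.big.b24
    have h7 := h.pb τ h.mem0
    have h8 : |p τ * Real.cos (Θ τ₁) - r τ * Real.sin (Θ τ₁)| ≤
        51 / 50 * (4 * K / q) + q ^ (-(1 / 2 : ℝ)) := by
      calc _ ≤ |p τ * Real.cos (Θ τ₁)| + |r τ * Real.sin (Θ τ₁)| := abs_sub _ _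
        _ = |p τ| * |Real.cos (Θ τ₁)| + |r τ| * |Real.sin (Θ τ₁)| := by rw [abs_mul, abs_mul]
        _ ≤ 51 / 50 * (4 * K / q) + |r τ| * 1 := by
            gcongr
            exact Real.abs_sin_le_one _
        _ = _ := by rw [mul_one, abs_of_pos h.r01, h.r0]
    have h9 : |p τ₁| ≤ |p τ₁ - (p τ * Real.cos (Θ τ₁) - r τ * Real.sin (Θ τ₁))| +
        |p τ * Real.cos (Θ τ₁) - r τ * Real.sin (Θ τ₁)| := by
      have := abs_add_le (p τ₁ - (p τ * Real.cos (Θ τ₁) - r τ * Real.sin (Θ τ₁)))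
        (p τ * Real.cos (Θ τ₁) - r τ * Real.sin (Θ τ₁))
      rwa [sub_add_cancel] at this
    linarith
  · exact h.r01.trans_le (h.rge ht)
  · by_contra hcon
    have h5 := h.earlyΘ hr ht (not_le.1 hcon).le
    have h6 := h.r02
    have h7 := h.Kq
    have h8 := pi3
    linarith

end H

end Pool.Agent.N976.UE.Y2
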