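import Pool.Agent.N976.UE.Def
import Pool.Agent.N976.UE.Y2d

/-! # (Y2) One stage of the cascade. -/

open Set Filter Topology

set_option autoImplicit false

namespace Pool.Agent.N976.UE.Y2

open Pool.Agent.N976.EN

/-! ### The scales -/

lemma qs_pow {Q : ℝ} (hQ : 0 < Q) (m k : ℕ) : qs Q (m + k) = qs Q m ^ ((6 / 5 : ℝ) ^ k) := by
  unfold qs
  rw [← Real.rpow_mul hQ.le, pow_add]

lemma qs_ge {Q : ℝ} (hQ : 1 ≤ Q) (n : ℕ) : Q ≤ qs Q n := by
  unfold qs
  calc Q = Q ^ (1 : ℝ) := (Real.rpow_one Q).symm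
    _ ≤ Q ^ ((6 / 5 : ℝ) ^ n) :=
      Real.rpow_le_rpow_of_exponent_le hQ (one_le_pow₀ (by norm_num))

lemma bigs : ∃ Q₁ : ℝ, 2 ≤ Q₁ ∧ ∀ Q ≥ Q₁, ∀ m, Big (qs Q m) (qs Q (m + 1)) (qs Q (m + 2))
    (qs Q (m + 3)) (qs Q m ^ (4 / 5 : ℝ)) := by
  obtain ⟨Q₀, hQ₀⟩ := eventually_atTop.1 big
  refine ⟨max Q₀ 2, le_max_right _ _, fun Q hQ m => ?_⟩
  have h2 : 2 ≤ Q := (le_max_right _ _).trans hQ
  have h0 : 0 < Q := by linarith
  have := hQ₀ (qs Q m) (((le_max_left _ _).trans hQ).trans (qs_ge (by linarith) m))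
  rw [qs_pow h0 m 1, qs_pow h0 m 2, qs_pow h0 m 3]
  have e1 : ((6 / 5 : ℝ) ^ 1) = 6 / 5 := by norm_num
  have e2 : ((6 / 5 : ℝ) ^ 2) = 36 / 25 := by norm_num
  have e3 : ((6 / 5 : ℝ) ^ 3) = 216 / 125 := by norm_num
  rw [e1, e2, e3]
  exact this

/-! ### The energy -/

theorem tri (N : ℕ) (f : ℕ → ℕ → ℝ) :
    ∑ n ∈ Finset.range N, ∑ i ∈ Finset.range n, f n i =
      ∑ i ∈ Finset.range N, ∑ n ∈ Finset.Ico (i + 1) N, f n i := by
  refine Finset.sum_comm' ?_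
  intro x y
  simp only [Finset.mem_range, Finset.mem_Ico]
  omega

theorem yN_sum (Λ γ : ℕ → ℝ) (N : ℕ) (x : ℕ → ℝ) (hx : x N = 0) :
    ∑ n ∈ Finset.range N, x n * yN Λ γ N x n = 0 := by
  have e : ∀ n, x n * yN Λ γ N x n =
      ((∑ i ∈ Finset.range n, x n ^ 2 * (Λ i * x i)) -
        ∑ m ∈ Finset.Ico (n + 1) N, x m ^ 2 * (Λ n * x n)) +
      ((if n = 0 then 0 else γ (n - 1) * x (n - 1) ^ 2 * x n) -
        (if n + 1 = 0 then 0 else γ (n + 1 - 1) * x (n + 1 - 1) ^ 2 * x (n + 1))) := by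
    intro n
    unfold yN
    rw [← Finset.mul_sum, ← Finset.sum_mul]
    simp only [Nat.add_eq_zero_iff, one_ne_zero, and_false, if_false, Nat.add_sub_cancel]
    split_ifs <;> ring
  simp_rw [e]
  rw [Finset.sum_add_distrib, Finset.sum_sub_distrib, tri N (fun n i => x n ^ 2 * (Λ i * x i)),
    sub_self, zero_add, Finset.sum_range_sub' (fun n => if n = 0 then 0 else
      γ (n - 1) * x (n - 1) ^ 2 * x n)]
  simp [hx]

/-- The assumptions at the beginning of the stage. -/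
structure St (q Λ b V γ : ℕ → ℝ) (N : ℕ) (x : ℕ → ℝ → ℝ) (n : ℕ) (τ : ℝ) : Prop where
  B : ∀ m, Big (q m) (q (m + 1)) (q (m + 2)) (q (m + 3)) (q m ^ (4 / 5 : ℝ))
  cf : Cf q Λ b V γ
  fs : FS Λ b V γ N x
  nN : n + 3 ≤ N
  τ0 : 0 ≤ τ
  en : ∑ m ∈ Finset.range N, x m τ ^ 2 / b m ≤ 51 / 50
  ini0 : 9 / 10 ≤ x n τ
  ini1 : x (n + 1) τ = rr q n
  ini : ∀ m ≥ n + 2, lo q m ≤ x m τ ∧ x m τ ≤ up q m

namespace St

variable {q Λ b V γ : ℕ → ℝ} {N : ℕ} {x : ℕ → ℝ → ℝ} {n : ℕ} {τ : ℝ}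
variable (h : St q Λ b V γ N x n τ)

include h

lemma q1000 (m : ℕ) : 1000 ≤ q m := (h.B m).b1
lemma q0 (m : ℕ) : 0 < q m := by linarith [h.q1000 m]

lemma b1 (m : ℕ) : 999 / 1000 ≤ b m := by
  have h1 := (abs_le.1 (h.cf.bb m)).1
  have h2 : 1 / q m ≤ 1 / 1000 := one_div_le_one_div_of_le (by norm_num) (h.q1000 m)
  linarith

lemma b2 (m : ℕ) : b m ≤ 1001 / 1000 := by
  have h1 := (abs_le.1 (h.cf.bb m)).2
  have h2 : 1 / q m ≤ 1 / 1000 := one_div_le_one_div_of_le (by norm_num) (h.q1000 m)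
  linarith

lemma b0 (m : ℕ) : 0 < b m := by linarith [h.b1 m]

lemma q45 (m : ℕ) : q m ^ 4 ≤ q m ^ 5 / 1000 := by
  have h1 := h.q1000 m
  have h2 : 0 ≤ q m ^ 4 := by have := h.q0 m; positivity
  nlinarith

lemma l1 (m : ℕ) : 999 / 1000 * q m ^ 5 ≤ Λ m := by
  have h1 := (abs_le.1 (h.cf.lam m)).1
  have h2 := h.q45 m
  linarith

lemma l2 (m : ℕ) : Λ m ≤ 1001 / 1000 * q m ^ 5 := by
  have h1 := (abs_le.1 (h.cf.lam m)).2
  have h2 := h.q45 m
  linarith

lemma l0 (m : ℕ) : 0 < Λ m := by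
  have := h.l1 m
  have h5 : 0 < q m ^ 5 := by have := h.q0 m; positivity
  linarith

lemma γ0 (m : ℕ) : 0 ≤ γ m := by
  rcases m with _ | m
  · rw [h.cf.g0]
  · exact (Real.exp_pos _).le.trans (h.cf.g1 m)

lemma γ1 (m : ℕ) : γ m ≤ 1 := by
  rcases m with _ | m
  · rw [h.cf.g0]; norm_num
  · exact (h.cf.g2 m).trans (h.B m).b9

lemma qstep (m : ℕ) : 4 * q m ≤ q (m + 1) := (h.B m).b2

lemma qmono : Monotone q := monotone_nat_of_le_succ fun m => by
  linarith [h.qstep m, h.q0 m]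

omit h in
lemma up0 (m : ℕ) : 0 < up q m := Real.exp_pos _

omit h in
lemma lo0 (m : ℕ) : lo q m < 0 := neg_lt_zero.2 (Real.exp_pos _)

lemma loup (m : ℕ) : -up q m ≤ lo q m := by
  unfold up lo
  apply neg_le_neg
  apply Real.exp_le_exp.2
  have h1 := h.q0 (m - 2)
  have h2 := Real.sqrt_nonneg (q (m - 2))
  have h3 := pi315
  nlinarith

lemma xc (m : ℕ) : ContinuousOn (x m) (Ici 0) := by
  rcases lt_or_ge m N with hm | hm
  · exact fun t ht => (h.fs.ode m hm t ht).continuousWithinAt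
  · have : x m = fun _ => 0 := funext fun t => h.fs.zero m hm t
    rw [this]
    exact continuousOn_const

lemma xd {m : ℕ} (hm : m < N) {t : ℝ} (ht : 0 < t) : HasDerivAt (x m)
    (-(V m * x m t) + b m * yN Λ γ N (fun m => x m t) m) t :=
  (h.fs.ode m hm t ht.le).hasDerivAt (Ici_mem_nhds ht)

/-- derivative of the energy -/
lemma Ed {t : ℝ} (ht : 0 < t) : HasDerivAt (fun t => ∑ m ∈ Finset.range N, x m t ^ 2 / b m)
    (-(2 * ∑ m ∈ Finset.range N, V m * x m t ^ 2 / b m)) t := by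
  have h1 : HasDerivAt (fun t => ∑ m ∈ Finset.range N, x m t ^ 2 / b m)
      (∑ m ∈ Finset.range N, 2 * x m t * (-(V m * x m t) +
        b m * yN Λ γ N (fun m => x m t) m) / b m) t := by
    apply HasDerivAt.fun_sum
    intro m hm
    have := ((h.xd (Finset.mem_range.1 hm) ht).fun_pow 2).div_const (b m)
    refine this.congr_deriv ?_
    push_cast
    ring
  refine h1.congr_deriv ?_
  have h2 : ∀ m ∈ Finset.range N, 2 * x m t * (-(V m * x m t) +
        b m * yN Λ γ N (fun m => x m t) m) / b m =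
        -(2 * (V m * x m t ^ 2 / b m)) + 2 * (x m t * yN Λ γ N (fun m => x m t) m) := by
    intro m _
    have := (h.b0 m).ne'
    field_simp
  rw [Finset.sum_congr rfl h2, Finset.sum_add_distrib, Finset.sum_neg_distrib, ← Finset.mul_sum,
    ← Finset.mul_sum, yN_sum Λ γ N (fun m => x m t) (h.fs.zero N le_rfl t)]
  ring

lemma Ec : ContinuousOn (fun t => ∑ m ∈ Finset.range N, x m t ^ 2 / b m) (Ici 0) :=
  continuousOn_finsetSum _ fun m _ => ((h.xc m).pow 2).div_const _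

lemma Vpos (m : ℕ) : 0 ≤ V m := by
  have := (h.cf.vv m).1
  have h4 : 0 ≤ q m ^ 4 := by have := h.q0 m; positivity
  linarith

lemma Ebd {t : ℝ} (ht : τ ≤ t) : ∑ m ∈ Finset.range N, x m t ^ 2 / b m ≤ 51 / 50 := by
  have hI : Icc τ t ⊆ Ici 0 := fun s hs => h.τ0.trans hs.1
  have h1 := growth' (f := fun t => ∑ m ∈ Finset.range N, x m t ^ 2 / b m)
    (f' := fun t => -(2 * ∑ m ∈ Finset.range N, V m * x m t ^ 2 / b m)) (c := 0)
    (h.Ec.mono hI) (fun s hs => h.Ed (h.τ0.trans_lt hs.1))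
    (fun s hs => by
      have : 0 ≤ ∑ m ∈ Finset.range N, V m * x m s ^ 2 / b m :=
        Finset.sum_nonneg fun m _ => by
          have := h.Vpos m
          have := h.b0 m
          positivity
      linarith) (left_mem_Icc.2 ht) (right_mem_Icc.2 ht) ht
  have := h.en
  linarith

lemma xb (m : ℕ) {t : ℝ} (ht : τ ≤ t) : |x m t| ≤ 51 / 50 := by
  rcases lt_or_ge m N with hm | hm
  · have h1 := h.Ebd ht
    have h2 : x m t ^ 2 / b m ≤ ∑ m ∈ Finset.range N, x m t ^ 2 / b m :=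
      Finset.single_le_sum (f := fun m => x m t ^ 2 / b m)
        (fun m _ => by have := h.b0 m; positivity) (Finset.mem_range.2 hm)
    have h3 : x m t ^ 2 / b m ≤ 51 / 50 := h2.trans h1
    rw [div_le_iff₀ (h.b0 m)] at h3
    have h4 := h.b2 m
    apply abs_le_of_sq_le_sq _ (by norm_num)
    linarith
  · rw [h.fs.zero m hm t]
    norm_num

/-- sums of the coefficients -/
lemma sq5 (m : ℕ) : ∑ i ∈ Finset.range m, q i ^ 5 ≤ q m ^ 3 * q (m + 1) / 4 := by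
  induction m with
  | zero =>
    have := h.q0 0
    have := h.q0 1
    simp
    positivity
  | succ m ih =>
    rw [Finset.sum_range_succ]
    have := (h.B m).b3
    linarith

lemma Sabs {t : ℝ} (ht : τ ≤ t) (m : ℕ) :
    ∑ i ∈ Finset.range m, |Λ i * x i t| ≤ q m ^ 3 * q (m + 1) / 3 := by
  have h1 : ∑ i ∈ Finset.range m, |Λ i * x i t| ≤
      ∑ i ∈ Finset.range m, 1001 / 1000 * (51 / 50) * q i ^ 5 := by
    apply Finset.sum_le_sum
    intro i _
    have a1 := h.l2 i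
    have a2 := h.l0 i
    have a3 := h.xb i ht
    have a4 : 0 < q i := h.q0 i
    rw [abs_mul, abs_of_pos a2]
    calc Λ i * |x i t| ≤ 1001 / 1000 * q i ^ 5 * (51 / 50) := by gcongr
      _ = _ := by ring
  rw [← Finset.mul_sum] at h1
  have h2 := h.sq5 m
  have h3 : 0 ≤ q m ^ 3 * q (m + 1) := by
    have := h.q0 m
    have := h.q0 (m + 1)
    positivity
  nlinarith

lemma Sb {t : ℝ} (ht : τ ≤ t) (m : ℕ) :
    |∑ i ∈ Finset.range m, Λ i * x i t| ≤ q m ^ 3 * q (m + 1) / 3 :=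
  (Finset.abs_sum_le_sum_abs _ _).trans (h.Sabs ht m)

/-! ### The tail -/

lemma tail_aux (d : ℕ) : ∀ j : ℕ, ∑ k ∈ Finset.Ico (j + 2) (j + 2 + d), 100 * q k ^ 8 * up q k ^ 2 ≤
    Real.exp (-(3 * q j)) := by
  induction d with
  | zero =>
    intro j
    simp
    exact (Real.exp_pos _).le
  | succ d ih =>
    intro j
    rw [Finset.sum_eq_sum_Ico_succ_bot (by omega)]
    have h1 := ih (j + 1)
    have e : j + 1 + 2 + d = j + 2 + (d + 1) := by ring
    rw [e] at h1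
    have h2 := (h.B j).b12
    have e2 : up q (j + 2) = Real.exp (-(Real.pi / 2 * q j) + √(q j)) := by
      unfold up
      rw [Nat.add_sub_cancel]
    rw [e2]
    have e3 : j + 1 + 2 = j + 2 + 1 := by ring
    rw [e3] at h1
    linarith

lemma tail (j : ℕ) : ∑ k ∈ Finset.Ico (j + 2) N, 100 * q k ^ 8 * up q k ^ 2 ≤
    Real.exp (-(3 * q j)) := by
  rcases le_total N (j + 2) with h1 | h1
  · rw [Finset.Ico_eq_empty_of_le h1]
    simp
    exact (Real.exp_pos _).le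
  · have := h.tail_aux (N - (j + 2)) j
    rwa [Nat.add_sub_cancel' h1] at this

lemma tailx {t : ℝ} (hP : ∀ m ≥ n + 3, lo q m ≤ x m t ∧ x m t ≤ up q m) {j : ℕ}
    (hj : n + 1 ≤ j) : ∑ k ∈ Finset.Ico (j + 2) N, 100 * q k ^ 8 * x k t ^ 2 ≤
    Real.exp (-(3 * q j)) := by
  refine le_trans (Finset.sum_le_sum fun k hk => ?_) (h.tail j)
  rw [Finset.mem_Ico] at hk
  have h1 := hP k (by omega)
  have h2 : |x k t| ≤ up q k := abs_le.2 ⟨(h.loup k).trans h1.1, h1.2⟩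
  have h3 : x k t ^ 2 ≤ up q k ^ 2 := by
    rw [← sq_abs]
    gcongr
  have := h.q0 k
  gcongr

lemma tailx1 {t : ℝ} (hP : ∀ m ≥ n + 3, lo q m ≤ x m t ∧ x m t ≤ up q m) {j : ℕ}
    (hj : n + 1 ≤ j) : ∑ k ∈ Finset.Ico (j + 2) N, x k t ^ 2 ≤ Real.exp (-(3 * q j)) := by
  refine le_trans (Finset.sum_le_sum fun k hk => ?_) (h.tailx hP hj)
  have h1 := h.q1000 k
  have h2 : 1 ≤ q k ^ 8 := one_le_pow₀ (by linarith)
  have h3 := sq_nonneg (x k t)
  nlinarith

/-- the linear coefficients of the modes which are not yet active -/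
lemma Tm {t : ℝ} (ht : τ ≤ t) (hP : ∀ m ≥ n + 3, lo q m ≤ x m t ∧ x m t ≤ up q m)
    (hw : |x (n + 2) t| ≤ q (n + 1) ^ (-(1 / 2 : ℝ))) (m : ℕ) (hm : n + 3 ≤ m) :
    ∑ i ∈ Finset.range m, |Λ i * x i t| ≤ q m ^ 4 / 8 := by
  induction m, hm using Nat.le_induction with
  | base =>
    rw [Finset.sum_range_succ, Finset.sum_range_succ, Finset.sum_range_succ]
    have h1 := h.Sabs ht n
    have h2 := (h.B n).b7
    have a : ∀ i, |Λ i * x i t| ≤ 2 * q i ^ 5 := by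
      intro i
      have a1 := h.l2 i
      have a2 := h.l0 i
      have a3 := h.xb i ht
      have a4 : 0 < q i := h.q0 i
      have a5 : 0 < q i ^ 5 := by positivity
      rw [abs_mul, abs_of_pos a2]
      calc Λ i * |x i t| ≤ 1001 / 1000 * q i ^ 5 * (51 / 50) := by gcongr
        _ ≤ _ := by linarith
    have a1 := a n
    have a2 := a (n + 1)
    have a3 : |Λ (n + 2) * x (n + 2) t| ≤ 2 * q (n + 2) ^ 5 * q (n + 1) ^ (-(1 / 2 : ℝ)) := by
      have a1 := h.l2 (n + 2)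
      have a2 := h.l0 (n + 2)
      have a4 : 0 < q (n + 2) := h.q0 _
      have a5 : 0 < q (n + 2) ^ 5 := by positivity
      rw [abs_mul, abs_of_pos a2]
      have : Λ (n + 2) ≤ 2 * q (n + 2) ^ 5 := by linarith
      gcongr
    have h3 : 0 ≤ q n ^ 3 * q (n + 1) := by
      have := h.q0 n
      have := h.q0 (n + 1)
      positivity
    have h4 : 0 ≤ q (n + 3) ^ 4 := by
      have := h.q0 (n + 3)
      positivity
    linarith
  | succ m hm ih =>
    rw [Finset.sum_range_succ]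
    obtain ⟨j, rfl⟩ : ∃ j, m = j + 2 := ⟨m - 2, by omega⟩
    have h1 := hP (j + 2) hm
    have h2 : |x (j + 2) t| ≤ up q (j + 2) := abs_le.2 ⟨(h.loup _).trans h1.1, h1.2⟩
    have h3 : |Λ (j + 2) * x (j + 2) t| ≤ 1 := by
      have a1 := h.l2 (j + 2)
      have a2 := h.l0 (j + 2)
      have a4 : 0 < q (j + 2) := h.q0 _
      have a5 : 0 < q (j + 2) ^ 5 := by positivity
      rw [abs_mul, abs_of_pos a2]
      have a6 : Λ (j + 2) ≤ 2 * q (j + 2) ^ 5 := by linarith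
      have a7 := (h.B j).b8
      have e2 : up q (j + 2) = Real.exp (-(Real.pi / 2 * q j) + √(q j)) := by
        unfold up
        rw [Nat.add_sub_cancel]
      rw [← e2] at a7
      calc Λ (j + 2) * |x (j + 2) t| ≤ 2 * q (j + 2) ^ 5 * up q (j + 2) := by gcongr
        _ ≤ 1 := a7
    have h4 := h.qstep (j + 2)
    have h5 := h.q1000 (j + 2)
    have h6 : (4 * q (j + 2)) ^ 4 ≤ q (j + 2 + 1) ^ 4 := by
      have := h.q0 (j + 2)
      gcongr
    have h7 : 1 ≤ q (j + 2) ^ 4 := one_le_pow₀ (by linarith)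
    nlinarith

/-- the derivative of a mode which is not yet active -/
lemma kap {t : ℝ} (ht : τ ≤ t) (hP : ∀ m ≥ n + 3, lo q m ≤ x m t ∧ x m t ≤ up q m)
    (hw : |x (n + 2) t| ≤ q (n + 1) ^ (-(1 / 2 : ℝ))) (m : ℕ) (hm : n + 3 ≤ m) :
    q m ^ 4 / 4 ≤ V m - b m * ∑ i ∈ Finset.range m, Λ i * x i t + b m * γ m * x (m + 1) t := by
  have h1 := (h.cf.vv m).1
  have h2 := (Finset.abs_sum_le_sum_abs _ _).trans (h.Tm ht hP hw m hm)
  have h3 := h.b0 m
  have h4 := h.b2 m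
  have h5 := h.γ0 m
  have h6 := h.γ1 m
  have h7 := h.xb (m + 1) ht
  have h8 : b m * ∑ i ∈ Finset.range m, Λ i * x i t ≤ 1001 / 1000 * (q m ^ 4 / 8) := by
    calc b m * ∑ i ∈ Finset.range m, Λ i * x i t ≤ b m * (q m ^ 4 / 8) := by
          gcongr
          exact (abs_le.1 h2).2
      _ ≤ _ := by
          have : 0 ≤ q m ^ 4 / 8 := by have := h.q0 m; positivity
          gcongr
  have h9 : |b m * γ m * x (m + 1) t| ≤ 2 := by
    rw [abs_mul, abs_mul, abs_of_pos h3, abs_of_nonneg h5]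
    calc b m * γ m * |x (m + 1) t| ≤ 1001 / 1000 * 1 * (51 / 50) := by gcongr
      _ ≤ 2 := by norm_num
  have h10 := (abs_le.1 h9).1
  have h11 : 1000 ^ 4 ≤ q m ^ 4 := pow_le_pow_left₀ (by norm_num) (h.q1000 m) 4
  linarith

lemma at_up {t : ℝ} (ht : τ ≤ t) (hP : ∀ m ≥ n + 3, lo q m ≤ x m t ∧ x m t ≤ up q m)
    (hw : |x (n + 2) t| ≤ q (n + 1) ^ (-(1 / 2 : ℝ))) (m : ℕ) (hm : n + 3 ≤ m)
    (hx : x m t = up q m) : -(V m * x m t) + b m * yN Λ γ N (fun m => x m t) m < 0 := by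
  have h1 := h.kap ht hP hw m hm
  obtain ⟨j, rfl⟩ : ∃ j, m = j + 2 := ⟨m - 2, by omega⟩
  unfold yN
  simp only [Nat.add_eq_zero_iff, OfNat.ofNat_ne_zero, and_false, if_false]
  have e1 : j + 2 - 1 = j + 1 := by omega
  rw [e1]
  have h2 : 0 ≤ Λ (j + 2) * ∑ m ∈ Finset.Ico (j + 2 + 1) N, x m t ^ 2 :=
    mul_nonneg (h.l0 _).le (Finset.sum_nonneg fun _ _ => sq_nonneg _)
  have h3 := h.b0 (j + 2)
  have h4 := h.b2 (j + 2)
  have h5 : γ (j + 1) * x (j + 1) t ^ 2 ≤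
      q (j + 2) ^ 6 * Real.exp (-(Real.pi / 2 * q j)) * (51 / 50) ^ 2 := by
    have a1 := h.cf.g2 j
    have a2 := h.xb (j + 1) ht
    have a3 : x (j + 1) t ^ 2 ≤ (51 / 50) ^ 2 := by
      rw [← sq_abs]
      gcongr
    have a4 : 0 ≤ q (j + 2) ^ 6 * Real.exp (-(Real.pi / 2 * q j)) := by
      have := h.q0 (j + 2)
      positivity
    have a5 := sq_nonneg (x (j + 1) t)
    gcongr
  have e2 : up q (j + 2) = Real.exp (-(Real.pi / 2 * q j)) * Real.exp (√(q j)) := by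
    unfold up
    rw [Nat.add_sub_cancel, Real.exp_add]
  have h6 : 2 * (q (j + 2) ^ 6 * Real.exp (-(Real.pi / 2 * q j))) <
      q (j + 2) ^ 4 / 4 * up q (j + 2) := by
    rw [e2]
    have a1 := (h.B j).b10
    have a2 : 0 < q (j + 2) ^ 4 / 4 * Real.exp (-(Real.pi / 2 * q j)) := by
      have := h.q0 (j + 2)
      positivity
    calc 2 * (q (j + 2) ^ 6 * Real.exp (-(Real.pi / 2 * q j))) =
        (q (j + 2) ^ 4 / 4 * Real.exp (-(Real.pi / 2 * q j))) * (8 * q (j + 2) ^ 2) := by ring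
      _ < (q (j + 2) ^ 4 / 4 * Real.exp (-(Real.pi / 2 * q j))) * Real.exp (√(q j)) := by
          gcongr
      _ = _ := by ring
  have h7 : q (j + 2) ^ 4 / 4 * x (j + 2) t ≤ (V (j + 2) -
      b (j + 2) * ∑ i ∈ Finset.range (j + 2), Λ i * x i t +
      b (j + 2) * γ (j + 2) * x (j + 2 + 1) t) * x (j + 2) t := by
    have : 0 ≤ x (j + 2) t := by rw [hx]; exact (up0 _).le
    gcongr
  have h8 : b (j + 2) * (γ (j + 1) * x (j + 1) t ^ 2) ≤
      2 * (q (j + 2) ^ 6 * Real.exp (-(Real.pi / 2 * q j))) := by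
    have a4 : 0 ≤ q (j + 2) ^ 6 * Real.exp (-(Real.pi / 2 * q j)) := by
      have := h.q0 (j + 2)
      positivity
    calc b (j + 2) * (γ (j + 1) * x (j + 1) t ^ 2) ≤
        1001 / 1000 * (q (j + 2) ^ 6 * Real.exp (-(Real.pi / 2 * q j)) * (51 / 50) ^ 2) := by
          have : 0 ≤ γ (j + 1) * x (j + 1) t ^ 2 := mul_nonneg (h.γ0 _) (sq_nonneg _)
          gcongr
      _ ≤ _ := by linarith
  have h9 : 0 ≤ b (j + 2) * (Λ (j + 2) * ∑ m ∈ Finset.Ico (j + 2 + 1) N, x m t ^ 2) :=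
    mul_nonneg h3.le h2
  rw [← hx] at h6
  linarith

lemma at_lo {t : ℝ} (ht : τ ≤ t) (hP : ∀ m ≥ n + 3, lo q m ≤ x m t ∧ x m t ≤ up q m)
    (hw : |x (n + 2) t| ≤ q (n + 1) ^ (-(1 / 2 : ℝ))) (m : ℕ) (hm : n + 3 ≤ m)
    (hx : x m t = lo q m) : 0 < -(V m * x m t) + b m * yN Λ γ N (fun m => x m t) m := by
  have h1 := h.kap ht hP hw m hm
  obtain ⟨j, rfl⟩ : ∃ j, m = j + 2 := ⟨m - 2, by omega⟩
  unfold yN
  simp only [Nat.add_eq_zero_iff, OfNat.ofNat_ne_zero, and_false, if_false]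
  have e1 : j + 2 - 1 = j + 1 := by omega
  rw [e1]
  have h2 : ∑ m ∈ Finset.Ico (j + 2 + 1) N, x m t ^ 2 ≤ Real.exp (-(3 * q (j + 1))) := by
    have := h.tailx1 hP (j := j + 1) (by omega)
    have e : j + 1 + 2 = j + 2 + 1 := by ring
    rwa [e] at this
  have h3 := h.b0 (j + 2)
  have h4 := h.b2 (j + 2)
  have h5 : 0 ≤ γ (j + 1) * x (j + 1) t ^ 2 := mul_nonneg (h.γ0 _) (sq_nonneg _)
  have h6 := (h.B j).b11
  have e2 : lo q (j + 2) = -Real.exp (-(3 * q j)) := by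
    unfold lo
    rw [Nat.add_sub_cancel]
  have h7 : b (j + 2) * (Λ (j + 2) * ∑ m ∈ Finset.Ico (j + 2 + 1) N, x m t ^ 2) <
      q (j + 2) ^ 4 / 4 * Real.exp (-(3 * q j)) := by
    have a1 := h.l2 (j + 2)
    have a2 := h.l0 (j + 2)
    have a4 : 0 < q (j + 2) := h.q0 _
    have a5 : 0 < q (j + 2) ^ 5 := by positivity
    have a6 := Real.exp_pos (-(3 * q (j + 1)))
    have a7 : 0 ≤ ∑ m ∈ Finset.Ico (j + 2 + 1) N, x m t ^ 2 :=
      Finset.sum_nonneg fun _ _ => sq_nonneg _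
    calc b (j + 2) * (Λ (j + 2) * ∑ m ∈ Finset.Ico (j + 2 + 1) N, x m t ^ 2) ≤
        1001 / 1000 * (1001 / 1000 * q (j + 2) ^ 5 * Real.exp (-(3 * q (j + 1)))) := by gcongr
      _ ≤ q (j + 2) ^ 4 / 4 * (8 * q (j + 2) * Real.exp (-(3 * q (j + 1)))) := by
          have : 0 ≤ q (j + 2) ^ 5 * Real.exp (-(3 * q (j + 1))) := by positivity
          nlinarith
      _ < _ := by gcongr
  have h8 : q (j + 2) ^ 4 / 4 * (-x (j + 2) t) ≤ (V (j + 2) -
      b (j + 2) * ∑ i ∈ Finset.range (j + 2), Λ i * x i t +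
      b (j + 2) * γ (j + 2) * x (j + 2 + 1) t) * (-x (j + 2) t) := by
    have : 0 ≤ -x (j + 2) t := by rw [hx]; linarith [lo0 (q := q) (j + 2)]
    gcongr
  have h9 : 0 ≤ b (j + 2) * (γ (j + 1) * x (j + 1) t ^ 2) := mul_nonneg h3.le h5
  have h10 : -x (j + 2) t = Real.exp (-(3 * q j)) := by rw [hx, e2, neg_neg]
  rw [← h10] at h7
  linarith

omit h in
lemma ev_lt {f : ℝ → ℝ} {f' t : ℝ} (hf : HasDerivWithinAt f f' (Ioi t) t) (h0 : f' < 0) :
    ∀ᶠ s in 𝓝[>] t, f s < f t := by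
  filter_upwards [hf.limsup_slope_le' (by simp) h0, self_mem_nhdsWithin] with s hs hst
  rw [slope_def_field, div_lt_iff₀ (sub_pos.2 hst)] at hs
  linarith

/-- The barrier. -/
theorem barrier {τ₁ : ℝ} (hw : ∀ t ∈ Icc τ τ₁, |x (n + 2) t| ≤ q (n + 1) ^ (-(1 / 2 : ℝ))) :
    ∀ t ∈ Icc τ τ₁, ∀ m ≥ n + 3, lo q m ≤ x m t ∧ x m t ≤ up q m := by
  have hz : ∀ m ≥ N, ∀ t, lo q m ≤ x m t ∧ x m t ≤ up q m := by
    intro m hm t
    rw [h.fs.zero m hm t]
    exact ⟨(lo0 m).le, (up0 m).le⟩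
  have hI : Icc τ τ₁ ⊆ Ici 0 := fun s hs => h.τ0.trans hs.1
  have key : Icc τ τ₁ ⊆ {t | ∀ m ∈ Finset.Ico (n + 3) N, x m t ∈ Icc (lo q m) (up q m)} := by
    apply IsClosed.Icc_subset_of_forall_mem_nhdsWithin
    · have e : {t | ∀ m ∈ Finset.Ico (n + 3) N, x m t ∈ Icc (lo q m) (up q m)} ∩ Icc τ τ₁ =
          Icc τ τ₁ ∩ ⋂ m ∈ Finset.Ico (n + 3) N,
            (Icc τ τ₁ ∩ x m ⁻¹' Icc (lo q m) (up q m)) := by
        ext t
        simp only [mem_inter_iff, mem_ofPred_eq, mem_iInter, mem_preimage]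
        constructor
        · rintro ⟨h1, h2⟩
          exact ⟨h2, fun m hm => ⟨h2, h1 m hm⟩⟩
        · rintro ⟨h1, h2⟩
          exact ⟨fun m hm => (h2 m hm).2, h1⟩
      rw [e]
      exact isClosed_Icc.inter (isClosed_biInter fun m _ =>
        ((h.xc m).mono hI).preimage_isClosed_of_isClosed isClosed_Icc isClosed_Icc)
    · intro m hm
      rw [Finset.mem_Ico] at hm
      exact h.ini m (by omega)
    · rintro t ⟨h1, h2⟩
      have hP : ∀ m ≥ n + 3, lo q m ≤ x m t ∧ x m t ≤ up q m := by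
        intro m hm
        rcases lt_or_ge m N with h3 | h3
        · exact h1 m (Finset.mem_Ico.2 ⟨hm, h3⟩)
        · exact hz m h3 t
      have hwt := hw t ⟨h2.1, h2.2.le⟩
      have ht0 : 0 ≤ t := h.τ0.trans h2.1
      have hle : 𝓝[>] t ≤ 𝓝[Ici 0] t := nhdsWithin_mono _ fun s hs => ht0.trans (le_of_lt hs)
      have : ∀ᶠ s in 𝓝[>] t, ∀ m ∈ Finset.Ico (n + 3) N, x m s ∈ Icc (lo q m) (up q m) := by
        rw [Filter.eventually_all_finset]
        intro m hm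
        rw [Finset.mem_Ico] at hm
        have hode := (h.fs.ode m hm.2 t ht0).mono
          (show Ioi t ⊆ Ici 0 from fun s hs => ht0.trans (le_of_lt hs))
        have hcont : Tendsto (x m) (𝓝[>] t) (𝓝 (x m t)) := ((h.xc m) t ht0).mono_left hle
        have hm2 := hP m hm.1
        have a1 : ∀ᶠ s in 𝓝[>] t, lo q m ≤ x m s := by
          rcases hm2.1.lt_or_eq with h3 | h3
          · filter_upwards [hcont.eventually (lt_mem_nhds h3)] with s hs using hs.le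
          · have h4 := h.at_lo h2.1 hP hwt m hm.1 h3.symm
            have h5 := ev_lt hode.neg (by linarith)
            filter_upwards [h5] with s hs
            simp only [Pi.neg_apply] at hs
            linarith
        have a2 : ∀ᶠ s in 𝓝[>] t, x m s ≤ up q m := by
          rcases hm2.2.lt_or_eq with h3 | h3
          · filter_upwards [hcont.eventually (gt_mem_nhds h3)] with s hs using hs.le
          · have h4 := h.at_up h2.1 hP hwt m hm.1 h3
            have h5 := ev_lt hode h4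
            filter_upwards [h5] with s hs
            linarith
        filter_upwards [a1, a2] with s s1 s2 using ⟨s1, s2⟩
      exact this
  intro t ht m hm
  rcases lt_or_ge m N with h3 | h3
  · exact key ht m (Finset.mem_Ico.2 ⟨hm, h3⟩)
  · exact hz m h3 t

/-! ### The active modes -/

lemma sum1 (t : ℝ) : ∑ m ∈ Finset.Ico (n + 1) N, x m t ^ 2 =
    x (n + 1) t ^ 2 + (x (n + 2) t ^ 2 + ∑ m ∈ Finset.Ico (n + 3) N, x m t ^ 2) := by
  have := h.nN
  rw [Finset.sum_eq_sum_Ico_succ_bot (by omega), Finset.sum_eq_sum_Ico_succ_bot (by omega)]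

lemma sum2 (t : ℝ) : ∑ m ∈ Finset.Ico (n + 1 + 1) N, x m t ^ 2 =
    x (n + 2) t ^ 2 + ∑ m ∈ Finset.Ico (n + 3) N, x m t ^ 2 := by
  have := h.nN
  rw [Finset.sum_eq_sum_Ico_succ_bot (by omega)]

lemma dn (t : ℝ) : yN Λ γ N (fun m => x m t) n = x n t * ∑ i ∈ Finset.range n, Λ i * x i t -
    Λ n * (x (n + 1) t ^ 2 + (x (n + 2) t ^ 2 + ∑ m ∈ Finset.Ico (n + 3) N, x m t ^ 2)) -
    γ n * x n t * x (n + 1) t + if n = 0 then 0 else γ (n - 1) * x (n - 1) t ^ 2 := by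
  unfold yN
  rw [h.sum1 t]

lemma dn1 (t : ℝ) : yN Λ γ N (fun m => x m t) (n + 1) =
    x (n + 1) t * (∑ i ∈ Finset.range n, Λ i * x i t + Λ n * x n t) -
    Λ (n + 1) * (x (n + 2) t ^ 2 + ∑ m ∈ Finset.Ico (n + 3) N, x m t ^ 2) -
    γ (n + 1) * x (n + 1) t * x (n + 2) t + γ n * x n t ^ 2 := by
  unfold yN
  rw [h.sum2 t, Finset.sum_range_succ]
  simp

omit h in
lemma dn2 (t : ℝ) : yN Λ γ N (fun m => x m t) (n + 2) =
    x (n + 2) t * (∑ i ∈ Finset.range n, Λ i * x i t + Λ n * x n t + Λ (n + 1) * x (n + 1) t) -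
    Λ (n + 2) * (∑ m ∈ Finset.Ico (n + 3) N, x m t ^ 2) -
    γ (n + 2) * x (n + 2) t * x (n + 3) t + γ (n + 1) * x (n + 1) t ^ 2 := by
  unfold yN
  rw [Finset.sum_range_succ, Finset.sum_range_succ]
  simp

lemma xsq (m : ℕ) {t : ℝ} (ht : τ ≤ t) : x m t ^ 2 ≤ 21 / 20 := by
  have h1 := h.xb m ht
  calc x m t ^ 2 = |x m t| ^ 2 := (sq_abs _).symm
    _ ≤ (51 / 50) ^ 2 := by gcongr
    _ ≤ _ := by norm_num

lemma xx (m k : ℕ) {t : ℝ} (ht : τ ≤ t) : |x m t * x k t| ≤ 21 / 20 := by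
  rw [abs_mul]
  have h1 := h.xb m ht
  have h2 := h.xb k ht
  calc |x m t| * |x k t| ≤ 51 / 50 * (51 / 50) := by gcongr
    _ ≤ _ := by norm_num

lemma bγ (m k : ℕ) : b m * γ k ≤ 1001 / 1000 := by
  have h1 := h.b2 m
  have h2 := h.b0 m
  have h3 := h.γ0 k
  have h4 := h.γ1 k
  nlinarith

lemma bγ0 (m k : ℕ) : 0 ≤ b m * γ k := mul_nonneg (h.b0 m).le (h.γ0 k)

lemma bl2 (m k : ℕ) : b m * Λ k ≤ 101 / 100 * q k ^ 5 := by
  have h1 := h.b2 m
  have h2 := h.b0 m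
  have h3 := h.l0 k
  have h4 := h.l2 k
  have h5 : 0 < q k ^ 5 := by have := h.q0 k; positivity
  calc b m * Λ k ≤ 1001 / 1000 * (1001 / 1000 * q k ^ 5) := by gcongr
    _ ≤ _ := by linarith

lemma bl1 (m k : ℕ) : 99 / 100 * q k ^ 5 ≤ b m * Λ k := by
  have h1 := h.b1 m
  have h2 := h.b0 m
  have h3 := h.l0 k
  have h4 := h.l1 k
  have h5 : 0 < q k ^ 5 := by have := h.q0 k; positivity
  calc 99 / 100 * q k ^ 5 ≤ 999 / 1000 * (999 / 1000 * q k ^ 5) := by linarith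
    _ ≤ _ := by gcongr

/-- facts about a time of the stage -/
lemma w2b {t : ℝ} (hw : |x (n + 2) t| ≤ q (n + 1) ^ (-(1 / 2 : ℝ))) :
    x (n + 2) t ^ 2 ≤ 1 / q (n + 1) := by
  calc x (n + 2) t ^ 2 = |x (n + 2) t| ^ 2 := (sq_abs _).symm
    _ ≤ (q (n + 1) ^ (-(1 / 2 : ℝ))) ^ 2 := by gcongr
    _ = 1 / q (n + 1) := by
        rw [pn (h.q0 _) _ 2 (-1) (by norm_num), Real.rpow_neg_one, one_div]

lemma t3 {t : ℝ} (hP : ∀ m ≥ n + 3, lo q m ≤ x m t ∧ x m t ≤ up q m) :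
    ∑ m ∈ Finset.Ico (n + 3) N, x m t ^ 2 ≤ Real.exp (-(3 * q (n + 1))) :=
  h.tailx1 hP (j := n + 1) le_rfl

omit h in
lemma t30 (t : ℝ) : 0 ≤ ∑ m ∈ Finset.Ico (n + 3) N, x m t ^ 2 :=
  Finset.sum_nonneg fun _ _ => sq_nonneg _

lemma e3 : Real.exp (-(3 * q (n + 1))) ≤ 1 / q (n + 1) := by
  have h1 := h.q0 (n + 1)
  rw [Real.exp_neg, ← one_div]
  apply one_div_le_one_div_of_le h1
  have := Real.add_one_le_exp (3 * q (n + 1))
  linarith

lemma GG (t : ℝ) (ht : τ ≤ t) : 0 ≤ (if n = 0 then 0 else γ (n - 1) * x (n - 1) t ^ 2) ∧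
    (if n = 0 then 0 else γ (n - 1) * x (n - 1) t ^ 2) ≤ 21 / 20 := by
  split_ifs
  · norm_num
  · have h1 := h.γ0 (n - 1)
    have h2 := h.γ1 (n - 1)
    have h3 := h.xsq (n - 1) ht
    have h4 := sq_nonneg (x (n - 1) t)
    constructor
    · positivity
    · nlinarith

lemma Epb {t : ℝ} (ht : τ ≤ t) (hP : ∀ m ≥ n + 3, lo q m ≤ x m t ∧ x m t ≤ up q m)
    (hw : |x (n + 2) t| ≤ q (n + 1) ^ (-(1 / 2 : ℝ))) :
    |-(V n * x n t) + b n * yN Λ γ N (fun m => x m t) n +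
      b (n + 1) * Λ n * x (n + 1) t * x (n + 1) t| ≤ q (n + 1) ^ 4 := by
  have e : -(V n * x n t) + b n * yN Λ γ N (fun m => x m t) n +
      b (n + 1) * Λ n * x (n + 1) t * x (n + 1) t =
      -(V n * x n t) + b n * (x n t * ∑ i ∈ Finset.range n, Λ i * x i t) -
      b n * Λ n * (x (n + 2) t ^ 2 + ∑ m ∈ Finset.Ico (n + 3) N, x m t ^ 2) +
      (b (n + 1) - b n) * Λ n * x (n + 1) t ^ 2 - b n * γ n * (x n t * x (n + 1) t) +
      b n * (if n = 0 then 0 else γ (n - 1) * x (n - 1) t ^ 2) := by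
    rw [h.dn t]
    ring
  have hq := h.q0 n
  have hv := h.q0 (n + 1)
  have c1 : |V n * x n t| ≤ 2 * q n ^ 4 * (51 / 50) := by
    rw [abs_mul, abs_of_nonneg (h.Vpos n)]
    have := (h.cf.vv n).2
    have := h.xb n ht
    gcongr
  have c2 : |b n * (x n t * ∑ i ∈ Finset.range n, Λ i * x i t)| ≤
      1001 / 1000 * (51 / 50 * (q n ^ 3 * q (n + 1) / 3)) := by
    rw [abs_mul, abs_mul, abs_of_pos (h.b0 n)]
    have := h.b2 n
    have := h.xb n ht
    have := h.Sb ht n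
    gcongr
  have c3 : |b n * Λ n * (x (n + 2) t ^ 2 + ∑ m ∈ Finset.Ico (n + 3) N, x m t ^ 2)| ≤
      101 / 100 * q n ^ 5 * (2 / q (n + 1)) := by
    have a1 := h.w2b hw
    have a2 := h.t3 hP
    have a3 := t30 (N := N) (x := x) (n := n) t
    have a4 := h.e3
    have a5 := h.bl2 n n
    have a6 := mul_pos (h.b0 n) (h.l0 n)
    have a7 : 2 / q (n + 1) = 1 / q (n + 1) + 1 / q (n + 1) := by ring
    rw [abs_of_nonneg (by positivity), a7]
    have a8 : x (n + 2) t ^ 2 + ∑ m ∈ Finset.Ico (n + 3) N, x m t ^ 2 ≤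
      1 / q (n + 1) + 1 / q (n + 1) := by linarith
    gcongr
  have c4 : |(b (n + 1) - b n) * Λ n * x (n + 1) t ^ 2| ≤ 21 / 10 * q n ^ 4 + q n ^ 4 / 10 := by
    have a1 : |b (n + 1) - b n| ≤ 2 / q n := by
      have a1 := abs_le.1 (h.cf.bb n)
      have a2 := abs_le.1 (h.cf.bb (n + 1))
      have a3 : 1 / q (n + 1) ≤ 1 / q n := one_div_le_one_div_of_le hq (h.qmono (by omega))
      have a4 : 2 / q n = 1 / q n + 1 / q n := by ring
      rw [abs_le, a4]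
      constructor <;> linarith
    rw [abs_mul, abs_mul, abs_of_pos (h.l0 n), abs_of_nonneg (sq_nonneg (x (n + 1) t))]
    calc |b (n + 1) - b n| * Λ n * x (n + 1) t ^ 2 ≤
        2 / q n * (1001 / 1000 * q n ^ 5) * (21 / 20) := by
          have := h.l2 n
          have := h.l0 n
          have := h.xsq (n + 1) ht
          gcongr
      _ = 2 * (1001 / 1000) * (21 / 20) * q n ^ 4 := by field_simp
      _ ≤ _ := by
          have : 0 < q n ^ 4 := by positivity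
          linarith
  have c5 : |b n * γ n * (x n t * x (n + 1) t)| ≤ 1001 / 1000 * (21 / 20) := by
    rw [abs_mul, abs_of_nonneg (h.bγ0 n n)]
    have := h.bγ n n
    have := h.xx n (n + 1) ht
    gcongr
  have c6 : |b n * (if n = 0 then 0 else γ (n - 1) * x (n - 1) t ^ 2)| ≤
      1001 / 1000 * (21 / 20) := by
    have a1 := h.GG t ht
    rw [abs_mul, abs_of_pos (h.b0 n), abs_of_nonneg a1.1]
    have := h.b2 n
    have := a1.2
    have := a1.1
    gcongr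
  have hb5 := (h.B n).b5
  have d1 : 0 < q n ^ 4 := by positivity
  have d2 : 0 < q n ^ 3 * q (n + 1) := by positivity
  have d3 : 101 / 100 * q n ^ 5 * (2 / q (n + 1)) = 202 / 100 * (q n ^ 5 / q (n + 1)) := by ring
  have d4 : 3 * q n ^ 5 / q (n + 1) = 3 * (q n ^ 5 / q (n + 1)) := by ring
  have d5 : 0 < q n ^ 5 / q (n + 1) := by positivity
  rw [d3] at c3
  rw [d4] at hb5
  rw [abs_le] at *
  rw [e]
  constructor <;> linarith [c1.1, c1.2, c2.1, c2.2, c3.1, c3.2, c4.1, c4.2, c5.1, c5.2, c6.1, c6.2]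

lemma Ere (t : ℝ) : -(V (n + 1) * x (n + 1) t) + b (n + 1) * yN Λ γ N (fun m => x m t) (n + 1) -
      b (n + 1) * Λ n * x (n + 1) t * x n t =
      -(V (n + 1) * x (n + 1) t) + b (n + 1) * (x (n + 1) t * ∑ i ∈ Finset.range n, Λ i * x i t) -
      b (n + 1) * Λ (n + 1) * (x (n + 2) t ^ 2 + ∑ m ∈ Finset.Ico (n + 3) N, x m t ^ 2) -
      b (n + 1) * γ (n + 1) * (x (n + 1) t * x (n + 2) t) + b (n + 1) * γ n * x n t ^ 2 := by
  rw [h.dn1 t]
  ring

lemma Erb {t : ℝ} (ht : τ ≤ t) (hP : ∀ m ≥ n + 3, lo q m ≤ x m t ∧ x m t ≤ up q m)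
    (hw : |x (n + 2) t| ≤ q (n + 1) ^ (-(1 / 2 : ℝ))) :
    |-(V (n + 1) * x (n + 1) t) + b (n + 1) * yN Λ γ N (fun m => x m t) (n + 1) -
      b (n + 1) * Λ n * x (n + 1) t * x n t| ≤ 5 * q (n + 1) ^ 4 := by
  rw [h.Ere t]
  have hq := h.q0 n
  have hv := h.q0 (n + 1)
  have c1 : |V (n + 1) * x (n + 1) t| ≤ 2 * q (n + 1) ^ 4 * (51 / 50) := by
    rw [abs_mul, abs_of_nonneg (h.Vpos (n + 1))]
    have := (h.cf.vv (n + 1)).2
    have := h.xb (n + 1) ht
    gcongr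
  have c2 : |b (n + 1) * (x (n + 1) t * ∑ i ∈ Finset.range n, Λ i * x i t)| ≤
      1001 / 1000 * (51 / 50 * (q n ^ 3 * q (n + 1) / 3)) := by
    rw [abs_mul, abs_mul, abs_of_pos (h.b0 (n + 1))]
    have := h.b2 (n + 1)
    have := h.xb (n + 1) ht
    have := h.Sb ht n
    gcongr
  have c3 : |b (n + 1) * Λ (n + 1) * (x (n + 2) t ^ 2 + ∑ m ∈ Finset.Ico (n + 3) N, x m t ^ 2)| ≤
      101 / 100 * q (n + 1) ^ 5 * (2 / q (n + 1)) := by
    have a1 := h.w2b hw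
    have a2 := h.t3 hP
    have a3 := t30 (N := N) (x := x) (n := n) t
    have a4 := h.e3
    have a5 := h.bl2 (n + 1) (n + 1)
    have a6 := mul_pos (h.b0 (n + 1)) (h.l0 (n + 1))
    have a7 : 2 / q (n + 1) = 1 / q (n + 1) + 1 / q (n + 1) := by ring
    rw [abs_of_nonneg (by positivity), a7]
    have a8 : x (n + 2) t ^ 2 + ∑ m ∈ Finset.Ico (n + 3) N, x m t ^ 2 ≤
      1 / q (n + 1) + 1 / q (n + 1) := by linarith
    gcongr
  have c5 : |b (n + 1) * γ (n + 1) * (x (n + 1) t * x (n + 2) t)| ≤ 1001 / 1000 * (21 / 20) := by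
    rw [abs_mul, abs_of_nonneg (h.bγ0 (n + 1) (n + 1))]
    have := h.bγ (n + 1) (n + 1)
    have := h.xx (n + 1) (n + 2) ht
    gcongr
  have c6 : |b (n + 1) * γ n * x n t ^ 2| ≤ 1001 / 1000 * (21 / 20) := by
    rw [abs_mul, abs_of_nonneg (h.bγ0 (n + 1) n), abs_of_nonneg (sq_nonneg _)]
    have := h.bγ (n + 1) n
    have := h.xsq n ht
    gcongr
  have hb5 := (h.B n).b5
  have d1 : 0 < q n ^ 4 := by positivity
  have d2 : 0 < q n ^ 3 * q (n + 1) := by positivity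
  have d3 : 101 / 100 * q (n + 1) ^ 5 * (2 / q (n + 1)) = 202 / 100 * q (n + 1) ^ 4 := by
    field_simp
    norm_num
  have d5 : 0 < 3 * q n ^ 5 / q (n + 1) := by positivity
  rw [d3] at c3
  rw [abs_le] at *
  constructor <;> linarith [c1.1, c1.2, c2.1, c2.2, c3.1, c3.2, c5.1, c5.2, c6.1, c6.2]

lemma Erl {t : ℝ} (ht : τ ≤ t) (hP : ∀ m ≥ n + 3, lo q m ≤ x m t ∧ x m t ≤ up q m)
    (h0 : 0 ≤ x (n + 1) t) :
    -((2 * q (n + 1) ^ 4 + q n ^ 3 * q (n + 1) + 2) * x (n + 1) t) -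
      2 * q n ^ 6 * (x (n + 2) t ^ 2 + Real.exp (-(3 * q (n + 1)))) ≤
    -(V (n + 1) * x (n + 1) t) + b (n + 1) * yN Λ γ N (fun m => x m t) (n + 1) -
      b (n + 1) * Λ n * x (n + 1) t * x n t := by
  rw [h.Ere t]
  have hq := h.q0 n
  have hv := h.q0 (n + 1)
  have c1 : V (n + 1) * x (n + 1) t ≤ 2 * q (n + 1) ^ 4 * x (n + 1) t := by
    have := (h.cf.vv (n + 1)).2
    gcongr
  have c2 : |b (n + 1) * (x (n + 1) t * ∑ i ∈ Finset.range n, Λ i * x i t)| ≤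
      1001 / 1000 * (x (n + 1) t * (q n ^ 3 * q (n + 1) / 3)) := by
    rw [abs_mul, abs_mul, abs_of_pos (h.b0 (n + 1)), abs_of_nonneg h0]
    have := h.b2 (n + 1)
    have := h.Sb ht n
    gcongr
  have c3 : b (n + 1) * Λ (n + 1) * (x (n + 2) t ^ 2 + ∑ m ∈ Finset.Ico (n + 3) N, x m t ^ 2) ≤
      2 * q n ^ 6 * (x (n + 2) t ^ 2 + Real.exp (-(3 * q (n + 1)))) := by
    have a2 := h.t3 hP
    have a5 := h.bl2 (n + 1) (n + 1)
    have a6 := mul_pos (h.b0 (n + 1)) (h.l0 (n + 1))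
    have a7 := (h.B n).bv
    rw [a7] at a5
    have a8 : 0 < q n ^ 6 := by positivity
    have a9 : b (n + 1) * Λ (n + 1) ≤ 2 * q n ^ 6 := by linarith
    have a10 := t30 (N := N) (x := x) (n := n) t
    gcongr
  have c5 : |b (n + 1) * γ (n + 1) * (x (n + 1) t * x (n + 2) t)| ≤ 2 * x (n + 1) t := by
    rw [abs_mul, abs_of_nonneg (h.bγ0 (n + 1) (n + 1)), abs_mul, abs_of_nonneg h0]
    have a1 := h.bγ (n + 1) (n + 1)
    have a2 := h.xb (n + 2) ht
    have a3 := h.bγ0 (n + 1) (n + 1)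
    calc b (n + 1) * γ (n + 1) * (x (n + 1) t * |x (n + 2) t|) ≤
        1001 / 1000 * (x (n + 1) t * (51 / 50)) := by gcongr
      _ ≤ _ := by linarith
  have c6 : 0 ≤ b (n + 1) * γ n * x n t ^ 2 := mul_nonneg (h.bγ0 (n + 1) n) (sq_nonneg _)
  have d2 : 0 ≤ q n ^ 3 * q (n + 1) * x (n + 1) t := by positivity
  have d3 := (abs_le.1 c2).1
  have d4 := (abs_le.1 c5).2
  nlinarith

lemma Eru {t : ℝ} (ht : τ ≤ t) (h0 : 0 ≤ x (n + 1) t) :
    -(V (n + 1) * x (n + 1) t) + b (n + 1) * yN Λ γ N (fun m => x m t) (n + 1) -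
      b (n + 1) * Λ n * x (n + 1) t * x n t ≤ q n ^ 3 * q (n + 1) * x (n + 1) t + 3 := by
  rw [h.Ere t]
  have hq := h.q0 n
  have hv := h.q0 (n + 1)
  have c1 : 0 ≤ V (n + 1) * x (n + 1) t := mul_nonneg (h.Vpos _) h0
  have c2 : |b (n + 1) * (x (n + 1) t * ∑ i ∈ Finset.range n, Λ i * x i t)| ≤
      1001 / 1000 * (x (n + 1) t * (q n ^ 3 * q (n + 1) / 3)) := by
    rw [abs_mul, abs_mul, abs_of_pos (h.b0 (n + 1)), abs_of_nonneg h0]
    have := h.b2 (n + 1)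
    have := h.Sb ht n
    gcongr
  have c3 : 0 ≤ b (n + 1) * Λ (n + 1) * (x (n + 2) t ^ 2 + ∑ m ∈ Finset.Ico (n + 3) N, x m t ^ 2) := by
    have a6 := mul_pos (h.b0 (n + 1)) (h.l0 (n + 1))
    have a10 := t30 (N := N) (x := x) (n := n) t
    positivity
  have c5 : |b (n + 1) * γ (n + 1) * (x (n + 1) t * x (n + 2) t)| ≤ 1001 / 1000 * (21 / 20) := by
    rw [abs_mul, abs_of_nonneg (h.bγ0 (n + 1) (n + 1))]
    have := h.bγ (n + 1) (n + 1)
    have := h.xx (n + 1) (n + 2) ht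
    gcongr
  have c6 : b (n + 1) * γ n * x n t ^ 2 ≤ 1001 / 1000 * (21 / 20) := by
    have := h.bγ (n + 1) n
    have := h.bγ0 (n + 1) n
    have := h.xsq n ht
    gcongr
  have d2 : 0 ≤ q n ^ 3 * q (n + 1) * x (n + 1) t := by positivity
  have d3 := (abs_le.1 c2).2
  have d4 := (abs_le.1 c5).1
  nlinarith

lemma mub {t : ℝ} (ht : τ ≤ t) :
    |-V (n + 2) + b (n + 2) * (∑ i ∈ Finset.range n, Λ i * x i t + Λ n * x n t +
      Λ (n + 1) * x (n + 1) t) - b (n + 2) * γ (n + 2) * x (n + 3) t -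
      q n * (b (n + 1) * Λ n * x (n + 1) t)| ≤ 2 * q (n + 2) ^ 4 + 6 * q n ^ 5 := by
  have hq := h.q0 n
  have hv := h.q0 (n + 1)
  have hz := h.q0 (n + 2)
  have e : -V (n + 2) + b (n + 2) * (∑ i ∈ Finset.range n, Λ i * x i t + Λ n * x n t +
      Λ (n + 1) * x (n + 1) t) - b (n + 2) * γ (n + 2) * x (n + 3) t -
      q n * (b (n + 1) * Λ n * x (n + 1) t) =
      -V (n + 2) + b (n + 2) * (∑ i ∈ Finset.range n, Λ i * x i t) +
      b (n + 2) * Λ n * x n t - b (n + 2) * γ (n + 2) * x (n + 3) t +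
      (b (n + 2) * Λ (n + 1) - q n * (b (n + 1) * Λ n)) * x (n + 1) t := by ring
  rw [e]
  have b19 := (h.B n).b19
  have hbv := (h.B n).bv
  have p1 : 0 < q n ^ 5 := by positivity
  have p2 : 0 < q n ^ 3 * q (n + 1) := by positivity
  have p3 : 0 < q (n + 1) ^ 4 := by positivity
  have c1 : |V (n + 2)| ≤ 2 * q (n + 2) ^ 4 := by
    rw [abs_of_nonneg (h.Vpos _)]
    exact (h.cf.vv _).2
  have c2 : |b (n + 2) * (∑ i ∈ Finset.range n, Λ i * x i t)| ≤ 1001 / 1000 *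
      (q n ^ 3 * q (n + 1) / 3) := by
    rw [abs_mul, abs_of_pos (h.b0 _)]
    have := h.b2 (n + 2)
    have := h.Sb ht n
    gcongr
  have c3 : |b (n + 2) * Λ n * x n t| ≤ 101 / 100 * q n ^ 5 * (51 / 50) := by
    rw [abs_mul, abs_of_pos (mul_pos (h.b0 _) (h.l0 _))]
    have := h.bl2 (n + 2) n
    have := h.xb n ht
    gcongr
  have c4 : |b (n + 2) * γ (n + 2) * x (n + 3) t| ≤ 1001 / 1000 * (51 / 50) := by
    rw [abs_mul, abs_of_nonneg (h.bγ0 _ _)]
    have := h.bγ (n + 2) (n + 2)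
    have := h.xb (n + 3) ht
    gcongr
  have c5 : |b (n + 2) * Λ (n + 1) - q (n + 1) ^ 5| ≤ 3 * q (n + 1) ^ 4 := by
    have a1 := h.cf.lam (n + 1)
    have a2 := h.cf.bb (n + 2)
    have a3 := h.l2 (n + 1)
    have a4 := h.l0 (n + 1)
    have e : b (n + 2) * Λ (n + 1) - q (n + 1) ^ 5 = (b (n + 2) - 1) * Λ (n + 1) +
      (Λ (n + 1) - q (n + 1) ^ 5) := by ring
    rw [e]
    calc _ ≤ |(b (n + 2) - 1) * Λ (n + 1)| + |Λ (n + 1) - q (n + 1) ^ 5| := abs_add_le _ _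
      _ = |b (n + 2) - 1| * Λ (n + 1) + |Λ (n + 1) - q (n + 1) ^ 5| := by
          rw [abs_mul, abs_of_pos a4]
      _ ≤ 1 / q (n + 2) * (1001 / 1000 * q (n + 1) ^ 5) + q (n + 1) ^ 4 := by gcongr
      _ ≤ 1 / q (n + 1) * (1001 / 1000 * q (n + 1) ^ 5) + q (n + 1) ^ 4 := by
          have : q (n + 1) ≤ q (n + 2) := h.qmono (by omega)
          gcongr
      _ = 2001 / 1000 * q (n + 1) ^ 4 := by field_simp; ring
      _ ≤ _ := by linarith
  have c6 : |q n * (b (n + 1) * Λ n) - q n ^ 6| ≤ 3 * q n ^ 5 := by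
    have a1 := h.cf.lam n
    have a2 := h.cf.bb (n + 1)
    have a3 := h.l2 n
    have a4 := h.l0 n
    have e : q n * (b (n + 1) * Λ n) - q n ^ 6 = q n * ((b (n + 1) - 1) * Λ n) +
      q n * (Λ n - q n ^ 5) := by ring
    rw [e]
    calc _ ≤ |q n * ((b (n + 1) - 1) * Λ n)| + |q n * (Λ n - q n ^ 5)| := abs_add_le _ _
      _ = q n * (|b (n + 1) - 1| * Λ n) + q n * |Λ n - q n ^ 5| := by
          rw [abs_mul, abs_mul, abs_mul, abs_of_pos a4, abs_of_pos hq]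
      _ ≤ q n * (1 / q (n + 1) * (1001 / 1000 * q n ^ 5)) + q n * q n ^ 4 := by gcongr
      _ ≤ q n * (1 / q n * (1001 / 1000 * q n ^ 5)) + q n * q n ^ 4 := by
          have : q n ≤ q (n + 1) := h.qmono (by omega)
          gcongr
      _ = 2001 / 1000 * q n ^ 5 := by field_simp; ring
      _ ≤ _ := by linarith
  have c7 : |b (n + 2) * Λ (n + 1) - q n * (b (n + 1) * Λ n)| ≤ 31 / 10 * q n ^ 5 := by
    rw [hbv] at c5
    have e : b (n + 2) * Λ (n + 1) - q n * (b (n + 1) * Λ n) =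
      (b (n + 2) * Λ (n + 1) - q n ^ 6) - (q n * (b (n + 1) * Λ n) - q n ^ 6) := by ring
    rw [e]
    refine (abs_sub _ _).trans ?_
    linarith
  have c8 : |(b (n + 2) * Λ (n + 1) - q n * (b (n + 1) * Λ n)) * x (n + 1) t| ≤
      31 / 10 * q n ^ 5 * (51 / 50) := by
    rw [abs_mul]
    have := h.xb (n + 1) ht
    gcongr
  have d1 : 1000 ≤ q n ^ 5 := by
    have := h.q1000 n
    have : q n ^ 1 ≤ q n ^ 5 := pow_le_pow_right₀ (by linarith) (by norm_num)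
    linarith
  rw [abs_le] at *
  constructor <;> linarith [c1.1, c1.2, c2.1, c2.2, c3.1, c3.2, c4.1, c4.2, c8.1, c8.2]

/-- The active modes on `[τ, τ₁]`. -/
theorem mkH {τ₁ : ℝ} (hle : τ ≤ τ₁) (hD : τ₁ - τ ≤ 2 * Real.log (q n) / q n ^ 5)
    (hw : ∀ t ∈ Icc τ τ₁, |x (n + 2) t| ≤ q (n + 1) ^ (-(1 / 2 : ℝ))) :
    ∃ (a g : ℝ) (Θ M Ep Er μ e : ℝ → ℝ), H (q n) (q (n + 1)) (q (n + 2)) (q (n + 3))
      (q n ^ (4 / 5 : ℝ)) τ τ₁ a g (x n) (x (n + 1)) (x (n + 2)) Θ M Ep Er μ e := by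
  have hP := h.barrier hw
  have hI : Icc τ τ₁ ⊆ Ici 0 := fun s hs => h.τ0.trans hs.1
  have hN := h.nN
  obtain ⟨Θ, Θ0, Θc, Θd⟩ := prim (g := fun t => b (n + 1) * Λ n * x (n + 1) t)
    (continuousOn_const.mul (h.xc (n + 1))) τ
  obtain ⟨M, M0, Mc, Md⟩ := prim (g := fun t => -V (n + 2) + b (n + 2) *
    (∑ i ∈ Finset.range n, Λ i * x i t + Λ n * x n t +
      Λ (n + 1) * x (n + 1) t) - b (n + 2) * γ (n + 2) * x (n + 3) t)
    (((continuousOn_const.add (continuousOn_const.mul (((continuousOn_finsetSum _ fun i _ =>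
      continuousOn_const.mul (h.xc i)).add (continuousOn_const.mul (h.xc n))).add
      (continuousOn_const.mul (h.xc (n + 1)))))).sub (continuousOn_const.mul (h.xc (n + 3))))) τ
  refine ⟨b (n + 1) * Λ n, b (n + 2) * γ (n + 1), Θ, M,
    fun t => -(V n * x n t) + b n * yN Λ γ N (fun m => x m t) n +
      b (n + 1) * Λ n * x (n + 1) t * x (n + 1) t,
    fun t => -(V (n + 1) * x (n + 1) t) + b (n + 1) * yN Λ γ N (fun m => x m t) (n + 1) -
      b (n + 1) * Λ n * x (n + 1) t * x n t,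
    fun t => -V (n + 2) + b (n + 2) *
    (∑ i ∈ Finset.range n, Λ i * x i t + Λ n * x n t +
      Λ (n + 1) * x (n + 1) t) - b (n + 2) * γ (n + 2) * x (n + 3) t,
    fun t => b (n + 2) * Λ (n + 2) * ∑ m ∈ Finset.Ico (n + 3) N, x m t ^ 2, ?_⟩
  exact {
    big := h.B n
    le := hle
    D := hD
    pc := (h.xc n).mono hI
    rc := (h.xc (n + 1)).mono hI
    wc := (h.xc (n + 2)).mono hI
    Θc := Θc.continuousOn
    Mc := Mc.continuousOn
    pd := fun t ht => (h.xd (by omega) (h.τ0.trans_lt ht.1)).congr_deriv (by ring)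
    rd := fun t ht => (h.xd (by omega) (h.τ0.trans_lt ht.1)).congr_deriv (by ring)
    wd := fun t ht => (h.xd (by omega) (h.τ0.trans_lt ht.1)).congr_deriv (by
      rw [dn2 t]; ring)
    Θd := fun t ht => Θd t (h.τ0.trans ht.1.le)
    Md := fun t ht => Md t (h.τ0.trans ht.1.le)
    Θ0 := Θ0
    M0 := M0
    a1 := h.bl1 _ _
    a2 := h.bl2 _ _
    g1 := by
      have a1 := h.b1 (n + 2)
      have a2 := h.cf.g1 n
      have a3 := Real.exp_pos (-(Real.pi / 2 * q n))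
      have a4 := h.b0 (n + 2)
      calc 99 / 100 * Real.exp (-(Real.pi / 2 * q n)) ≤
          999 / 1000 * Real.exp (-(Real.pi / 2 * q n)) := by linarith
        _ ≤ _ := by gcongr
    g2 := by
      have a1 := h.b2 (n + 2)
      have a2 := h.cf.g2 n
      have a4 := h.b0 (n + 2)
      have a5 := h.γ0 (n + 1)
      have a6 : 0 ≤ q (n + 2) ^ 6 * Real.exp (-(Real.pi / 2 * q n)) := by
        have := h.q0 (n + 2)
        positivity
      calc b (n + 2) * γ (n + 1) ≤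
          1001 / 1000 * (q (n + 2) ^ 6 * Real.exp (-(Real.pi / 2 * q n))) := by gcongr
        _ ≤ _ := by linarith
    E := fun t ht => by
      have ht' := Ioo_subset_Icc_self ht
      have a1 := h.Epb ht'.1 (hP t ht') (hw t ht')
      have a2 := h.Erb ht'.1 (hP t ht') (hw t ht')
      linarith
    mu := fun t ht => h.mub ht.1.le
    e1 := fun t ht => by
      have := mul_pos (h.b0 (n + 2)) (h.l0 (n + 2))
      have := t30 (N := N) (x := x) (n := n) t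
      positivity
    e2 := fun t ht => by
      have ht' := Ioo_subset_Icc_self ht
      have a1 := h.bl2 (n + 2) (n + 2)
      have a2 := mul_pos (h.b0 (n + 2)) (h.l0 (n + 2))
      have a3 := h.t3 (hP t ht')
      have a4 := t30 (N := N) (x := x) (n := n) t
      have a5 := (h.B n).b13
      have a6 : 0 < q (n + 2) ^ 5 := by have := h.q0 (n + 2); positivity
      have a7 : b (n + 2) * Λ (n + 2) ≤ 2 * q (n + 2) ^ 5 := by linarith
      calc b (n + 2) * Λ (n + 2) * ∑ m ∈ Finset.Ico (n + 3) N, x m t ^ 2 ≤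
          2 * q (n + 2) ^ 5 * Real.exp (-(3 * q (n + 1))) := by gcongr
        _ ≤ _ := a5
    pb := fun t ht => h.xb n ht.1
    rb := fun t ht => h.xb (n + 1) ht.1
    wb := hw
    lowr := fun t ht h0 => by
      have ht' := Ioo_subset_Icc_self ht
      exact h.Erl ht'.1 (hP t ht') h0
    upr := fun t ht h0 => h.Eru ht.1.le h0
    p0 := h.ini0
    r0 := h.ini1
    w1 := (h.ini (n + 2) le_rfl).1
    w2 := (h.ini (n + 2) le_rfl).2 }

/-- The loss of energy. -/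
theorem loss {τ₁ : ℝ} (hle : τ ≤ τ₁) (hD : τ₁ - τ ≤ 2 * Real.log (q n) / q n ^ 5)
    (hw : ∀ t ∈ Icc τ τ₁, |x (n + 2) t| ≤ q (n + 1) ^ (-(1 / 2 : ℝ))) :
    ∀ t ∈ Icc τ τ₁, ∑ m ∈ Finset.range N, x m τ ^ 2 / b m - q n ^ (-(1 / 10 : ℝ)) ≤
      ∑ m ∈ Finset.range N, x m t ^ 2 / b m := by
  intro t ht
  have hP := h.barrier hw
  have hN := h.nN
  have hI : Icc τ τ₁ ⊆ Ici 0 := fun s hs => h.τ0.trans hs.1
  have hv := h.q0 (n + 1)
  have h1 := growth (f := fun t => ∑ m ∈ Finset.range N, x m t ^ 2 / b m)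
    (f' := fun t => -(2 * ∑ m ∈ Finset.range N, V m * x m t ^ 2 / b m))
    (c := -(6 * q (n + 1) ^ 4))
    (h.Ec.mono hI) (fun s hs => h.Ed (h.τ0.trans_lt hs.1))
    (fun s hs => by
      have hs' := Ioo_subset_Icc_self hs
      have c1 : ∑ m ∈ Finset.range (n + 2), V m * x m s ^ 2 / b m ≤
          2 * q (n + 1) ^ 4 * (51 / 50) := by
        have a1 : ∑ m ∈ Finset.range (n + 2), V m * x m s ^ 2 / b m ≤
            ∑ m ∈ Finset.range (n + 2), 2 * q (n + 1) ^ 4 * (x m s ^ 2 / b m) := by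
          apply Finset.sum_le_sum
          intro m hm
          rw [Finset.mem_range] at hm
          have b1 := (h.cf.vv m).2
          have b2 : q m ≤ q (n + 1) := h.qmono (by omega)
          have b3 := h.q0 m
          have b4 : V m ≤ 2 * q (n + 1) ^ 4 := b1.trans (by gcongr)
          have b5 := h.b0 m
          rw [mul_div_assoc]
          gcongr
        rw [← Finset.mul_sum] at a1
        have a2 : ∑ m ∈ Finset.range (n + 2), x m s ^ 2 / b m ≤
            ∑ m ∈ Finset.range N, x m s ^ 2 / b m :=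
          Finset.sum_le_sum_of_subset_of_nonneg (Finset.range_subset_range.2 (by omega))
            fun m _ _ => by have := h.b0 m; positivity
        have a3 := h.Ebd hs'.1
        have a4 : 0 ≤ 2 * q (n + 1) ^ 4 := by positivity
        calc _ ≤ 2 * q (n + 1) ^ 4 * ∑ m ∈ Finset.range (n + 2), x m s ^ 2 / b m := a1
          _ ≤ _ := by
            gcongr
            exact a2.trans a3
      have c2 : V (n + 2) * x (n + 2) s ^ 2 / b (n + 2) ≤ 3 * (q (n + 1) ^ 4 / 10) := by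
        have b1 := (h.cf.vv (n + 2)).2
        have b2 := h.w2b (hw s hs')
        have b3 := h.b1 (n + 2)
        have b4 := (h.B n).b26'
        have b5 := h.q0 (n + 2)
        have b6 := h.Vpos (n + 2)
        calc V (n + 2) * x (n + 2) s ^ 2 / b (n + 2) ≤
            2 * q (n + 2) ^ 4 * (1 / q (n + 1)) / (999 / 1000) := by gcongr
          _ = 2000 / 999 * (q (n + 2) ^ 4 / q (n + 1)) := by ring
          _ ≤ 2000 / 999 * (q (n + 1) ^ 4 / 10) := by gcongr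
          _ ≤ _ := by
              have : 0 < q (n + 1) ^ 4 := by positivity
              linarith
      have c3 : ∑ m ∈ Finset.Ico (n + 3) N, V m * x m s ^ 2 / b m ≤ 1 := by
        have a1 : ∑ m ∈ Finset.Ico (n + 3) N, V m * x m s ^ 2 / b m ≤
            ∑ m ∈ Finset.Ico (n + 3) N, 100 * q m ^ 8 * x m s ^ 2 := by
          apply Finset.sum_le_sum
          intro m _
          have b1 := (h.cf.vv m).2
          have b2 := h.q1000 m
          have b3 := h.b1 m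
          have b4 : q m ^ 4 ≤ q m ^ 8 := pow_le_pow_right₀ (by linarith) (by norm_num)
          have b5 := h.Vpos m
          have b6 : V m ≤ 2 * q m ^ 8 := by linarith
          have b7 : 0 < q m ^ 8 := by have := h.q0 m; positivity
          calc V m * x m s ^ 2 / b m ≤ 2 * q m ^ 8 * x m s ^ 2 / (999 / 1000) := by gcongr
            _ = 2000 / 999 * q m ^ 8 * x m s ^ 2 := by ring
            _ ≤ _ := by
              gcongr
              norm_num
        have a2 := h.tailx (hP s hs') (j := n + 1) le_rfl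
        have a3 : Real.exp (-(3 * q (n + 1))) ≤ 1 := by
          rw [Real.exp_le_one_iff]
          linarith
        exact a1.trans (a2.trans a3)
      have c4 : ∑ m ∈ Finset.range N, V m * x m s ^ 2 / b m =
          ∑ m ∈ Finset.range (n + 2), V m * x m s ^ 2 / b m +
          (V (n + 2) * x (n + 2) s ^ 2 / b (n + 2) +
          ∑ m ∈ Finset.Ico (n + 3) N, V m * x m s ^ 2 / b m) := by
        rw [← Finset.sum_eq_sum_Ico_succ_bot (a := n + 2) (by omega)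
          (fun m => V m * x m s ^ 2 / b m), Finset.range_eq_Ico, Finset.range_eq_Ico,
          Finset.sum_Ico_consecutive _ (by omega) (by omega)]
      rw [c4]
      have c5 : 1000 ≤ q (n + 1) ^ 4 := by
        have := h.q1000 (n + 1)
        have : q (n + 1) ^ 1 ≤ q (n + 1) ^ 4 := pow_le_pow_right₀ (by linarith) (by norm_num)
        linarith
      linarith) (left_mem_Icc.2 hle) ht ht.1
  have h2 : 6 * q (n + 1) ^ 4 * (t - τ) ≤ 6 * q (n + 1) ^ 4 *
      (2 * Real.log (q n) / q n ^ 5) := by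
    have : t - τ ≤ 2 * Real.log (q n) / q n ^ 5 := by linarith [ht.2]
    gcongr
  have h3 := (h.B n).b26
  linarith

end St

/-- One stage. -/
theorem main : S_Y2 := by
  obtain ⟨Q₁, hQ1, hB⟩ := bigs
  refine ⟨Q₁, hQ1, fun Q hQ Λ b V γ N x cf fs n nN τ τ0 en ini0 ini1 ini => ?_⟩
  have h0 : 0 < Q := by linarith
  have hB' := hB Q hQ
  have hv : qs Q (n + 1) = qs Q n ^ (6 / 5 : ℝ) := by
    have := qs_pow h0 n 1
    rwa [pow_one] at this
  generalize hq : qs Q = q at *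
  have h : St q Λ b V γ N x n τ := ⟨hB', cf, fs, nN, τ0, en, ini0, ini1, ini⟩
  have hq0 := h.q0 n
  have hlog : 3 ≤ Real.log (q n) := (h.B n).b23
  have hDp : 0 < 2 * Real.log (q n) / q n ^ 5 := by positivity
  have hI : Icc τ (τ + 2 * Real.log (q n) / q n ^ 5) ⊆ Ici 0 := fun s hs => τ0.trans hs.1
  -- the start
  have hst : |x (n + 2) τ| < q (n + 1) ^ (-(1 / 2 : ℝ)) := by
    have h1 := ini (n + 2) le_rfl
    have h2 := (h.B n).b28
    have h3 : up q (n + 2) = Real.exp (-(Real.pi / 2 * q n) + √(q n)) := by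
      unfold up
      rw [Nat.add_sub_cancel]
    rw [← h3] at h2
    exact (abs_le.2 ⟨(h.loup _).trans h1.1, h1.2⟩).trans_lt h2
  -- the mode becomes visible
  have hex : ∃ t ∈ Icc τ (τ + 2 * Real.log (q n) / q n ^ 5),
      q (n + 1) ^ (-(1 / 2 : ℝ)) ≤ |x (n + 2) t| := by
    by_contra hcon
    push Not at hcon
    obtain ⟨a, g, Θ, M, Ep, Er, μ, e, hH⟩ := h.mkH (τ₁ := τ + 2 * Real.log (q n) / q n ^ 5)
      (by linarith) (by linarith) (fun t ht => (hcon t ht).le)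
    have := hH.short
    linarith
  obtain ⟨τ', h1, h2, h3⟩ := first_time (f := fun t => |x (n + 2) t|)
    (((h.xc (n + 2)).mono hI).abs) hst hex
  have hle : τ ≤ τ' := h1.1.le
  have hD : τ' - τ ≤ 2 * Real.log (q n) / q n ^ 5 := by linarith [h1.2]
  obtain ⟨a, g, Θ, M, Ep, Er, μ, e, hH⟩ := h.mkH hle hD h3
  have hw : x (n + 2) τ' = q (n + 1) ^ (-(1 / 2 : ℝ)) := by
    have h4 := hH.wge (right_mem_Icc.2 hle)
    have h5 := (h.B n).b28'
    rcases abs_choice (x (n + 2) τ') with h6 | h6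
    · rw [← h2, h6]
    · exfalso
      rw [h6] at h2
      linarith
  obtain ⟨f1, f2, f3⟩ := hH.fin hw hv
  exact ⟨τ', h1.1, f3, hD, hw, f1, f2, fun t ht => ⟨h3 t ht, h.barrier h3 t ht,
    h.loss hle hD h3 t ht⟩⟩

end Pool.Agent.N976.UE.Y2

namespace Pool.Agent.N976.UE

/-- (Y2) One stage. -/
theorem t_Y2 : S_Y2 := Y2.main

end Pool.Agent.N976.UE
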