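import Pool.Agent.N976.UE.Def

/-!
# (Y5) The cascade is smooth in time with rapid decay
-/

open Set Filter Topology MeasureTheory
open scoped ContDiff

set_option autoImplicit false

namespace Pool.Agent.N976.UE

open Pool.Agent.N976.SC Pool.Agent.N976.EN

namespace Y5

/-- the properties of the scales which are used -/
structure Gq (q : ℕ → ℝ) (r : ℝ) : Prop where
  one : ∀ n, 1 ≤ q n
  mono : ∀ n, q n ≤ q (n + 1)
  sq : ∀ n, q (n + 1) ≤ q n ^ 2
  r0 : 0 ≤ r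
  r1 : r < 1
  geo : ∀ n m, (q (n + m))⁻¹ ≤ r ^ m

variable {q : ℕ → ℝ} {r T : ℝ}

lemma Gq.pos (h : Gq q r) (n : ℕ) : 0 < q n := lt_of_lt_of_le one_pos (h.one n)

lemma Gq.le (h : Gq q r) {m n : ℕ} (hmn : m ≤ n) : q m ≤ q n :=
  monotone_nat_of_le_succ h.mono hmn

/-! ### Rapid decay -/

lemma rap_congr {a b : ℕ → ℝ → ℝ} (h : ∀ n, ∀ t ∈ Ico 0 T, a n t = b n t)
    (ha : RQT q T a) : RQT q T b := by
  intro k T' hT'
  obtain ⟨M, hM⟩ := ha k T' hT'
  exact ⟨M, fun t ht n => by rw [← h n t ⟨ht.1, ht.2.trans_lt hT'⟩]; exact hM t ht n⟩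

/-- a nonnegative bound -/
lemma rap_nn {a : ℕ → ℝ → ℝ} (ha : RQT q T a) (k : ℕ) {T' : ℝ} (hT' : T' < T) :
    ∃ M, 0 ≤ M ∧ ∀ t ∈ Icc 0 T', ∀ n, q n ^ k * |a n t| ≤ M := by
  obtain ⟨M, hM⟩ := ha k T' hT'
  exact ⟨max M 0, le_max_right _ _, fun t ht n => (hM t ht n).trans (le_max_left _ _)⟩

lemma rap_add (hq : Gq q r) {a b : ℕ → ℝ → ℝ} (ha : RQT q T a) (hb : RQT q T b) :
    RQT q T (fun n t => a n t + b n t) := by
  intro k T' hT'
  obtain ⟨M, hM⟩ := ha k T' hT'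
  obtain ⟨N, hN⟩ := hb k T' hT'
  refine ⟨M + N, fun t ht n => ?_⟩
  have hp : (0 : ℝ) < q n ^ k := pow_pos (hq.pos n) _
  calc q n ^ k * |a n t + b n t| ≤ q n ^ k * (|a n t| + |b n t|) := by
        gcongr; exact abs_add_le _ _
    _ = q n ^ k * |a n t| + q n ^ k * |b n t| := by ring
    _ ≤ M + N := add_le_add (hM t ht n) (hN t ht n)

lemma rap_w (hq : Gq q r) {a : ℕ → ℝ → ℝ} (ha : RQT q T a) (w : ℕ → ℝ) (C : ℝ) (j : ℕ)
    (hw : ∀ n, |w n| ≤ C * q n ^ j) : RQT q T (fun n t => w n * a n t) := by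
  intro k T' hT'
  obtain ⟨M, hM⟩ := ha (k + j) T' hT'
  refine ⟨C * M, fun t ht n => ?_⟩
  have hp : (0 : ℝ) < q n ^ k := pow_pos (hq.pos n) _
  have hp2 : (0 : ℝ) < q 0 ^ j := pow_pos (hq.pos 0) _
  have hC : 0 ≤ C := by
    have := (abs_nonneg _).trans (hw 0)
    exact nonneg_of_mul_nonneg_left this hp2
  calc q n ^ k * |w n * a n t| = q n ^ k * |w n| * |a n t| := by rw [abs_mul]; ring
    _ ≤ q n ^ k * (C * q n ^ j) * |a n t| := by gcongr; exact hw n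
    _ = C * (q n ^ (k + j) * |a n t|) := by rw [pow_add]; ring
    _ ≤ C * M := by gcongr; exact hM t ht n

lemma rap_up (hq : Gq q r) {a : ℕ → ℝ → ℝ} (ha : RQT q T a) :
    RQT q T (fun n t => a (n + 1) t) := by
  intro k T' hT'
  obtain ⟨M, hM⟩ := ha k T' hT'
  refine ⟨M, fun t ht n => ?_⟩
  refine le_trans ?_ (hM t ht (n + 1))
  exact mul_le_mul_of_nonneg_right (pow_le_pow_left₀ (hq.pos n).le (hq.mono n) k) (abs_nonneg _)

lemma rap_down (hq : Gq q r) {a : ℕ → ℝ → ℝ} (ha : RQT q T a) :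
    RQT q T (fun n t => if n = 0 then 0 else a (n - 1) t) := by
  intro k T' hT'
  obtain ⟨M, hM0, hM⟩ := rap_nn ha (2 * k) hT'
  refine ⟨M, fun t ht n => ?_⟩
  rcases Nat.eq_zero_or_pos n with h | h
  · subst h
    simpa using hM0
  · obtain ⟨m, rfl⟩ : ∃ m, n = m + 1 := ⟨n - 1, by omega⟩
    beta_reduce
    rw [if_neg (Nat.succ_ne_zero m), Nat.add_sub_cancel]
    refine le_trans ?_ (hM t ht m)
    refine mul_le_mul_of_nonneg_right ?_ (abs_nonneg _)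
    rw [pow_mul]
    exact pow_le_pow_left₀ (hq.pos _).le (hq.sq m) k

lemma weak0 (hq : Gq q r) {k n : ℕ} {a M : ℝ} (h : q n ^ k * |a| ≤ M) : |a| ≤ M := by
  refine le_trans ?_ h
  have : 1 ≤ q n ^ k := one_le_pow₀ (hq.one n)
  nlinarith [abs_nonneg a]

lemma rap_mul (hq : Gq q r) {a b : ℕ → ℝ → ℝ} (ha : RQT q T a) (hb : RQT q T b) :
    RQT q T (fun n t => a n t * b n t) := by
  intro k T' hT'
  obtain ⟨M, hM0, hM⟩ := rap_nn ha k hT'
  obtain ⟨N, hN⟩ := hb 0 T' hT'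
  refine ⟨M * N, fun t ht n => ?_⟩
  have h2 : |b n t| ≤ N := weak0 hq (hN t ht n)
  calc q n ^ k * |a n t * b n t| = (q n ^ k * |a n t|) * |b n t| := by
        rw [abs_mul]; ring
    _ ≤ M * N := mul_le_mul (hM t ht n) h2 (abs_nonneg _) hM0

/-- a rapidly decreasing family is dominated by a geometric series -/
lemma room (hq : Gq q r) {k n m : ℕ} {a M : ℝ} (hM0 : 0 ≤ M)
    (h : q (n + m) ^ (k + 1) * |a| ≤ M) : q (n + m) ^ k * |a| ≤ M * r ^ m := by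
  have hp := hq.pos (n + m)
  calc q (n + m) ^ k * |a| = (q (n + m) ^ (k + 1) * |a|) * (q (n + m))⁻¹ := by
        field_simp
        ring
    _ ≤ M * r ^ m := mul_le_mul h (hq.geo n m) (by positivity) hM0

lemma rap_geo (hq : Gq q r) {k n m : ℕ} {a M : ℝ} (hM0 : 0 ≤ M)
    (h : q (n + 1 + m) ^ (k + 1) * |a| ≤ M) : q n ^ k * |a| ≤ M * r ^ m := by
  refine le_trans ?_ (room hq hM0 h)
  exact mul_le_mul_of_nonneg_right
    (pow_le_pow_left₀ (hq.pos n).le (hq.le (by omega)) k) (abs_nonneg _)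

lemma sum_geo (hq : Gq q r) (n : ℕ) : ∑ i ∈ Finset.range n, r ^ i ≤ (1 - r)⁻¹ :=
  sum_le_hasSum _ (fun i _ => pow_nonneg hq.r0 i) (hasSum_geometric_of_lt_one hq.r0 hq.r1)

lemma rap_ps (hq : Gq q r) {Λ : ℕ → ℝ} (hΛ : ∀ n, |Λ n| ≤ 2 * q n ^ 5) {a b : ℕ → ℝ → ℝ}
    (ha : RQT q T a) (hb : RQT q T b) :
    RQT q T (fun n t => a n t * ∑ i ∈ Finset.range n, Λ i * b i t) := by
  intro k T' hT'
  obtain ⟨M, hM0, hM⟩ := rap_nn ha k hT'
  obtain ⟨N, hN0, hN⟩ := rap_nn hb (5 + 1) hT'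
  refine ⟨M * (2 * (N * (1 - r)⁻¹)), fun t ht n => ?_⟩
  have h2 : |∑ i ∈ Finset.range n, Λ i * b i t| ≤ 2 * (N * (1 - r)⁻¹) := by
    calc |∑ i ∈ Finset.range n, Λ i * b i t| ≤
        ∑ i ∈ Finset.range n, |Λ i * b i t| := Finset.abs_sum_le_sum_abs _ _
      _ ≤ ∑ i ∈ Finset.range n, 2 * (N * r ^ i) := by
          refine Finset.sum_le_sum fun i _ => ?_
          rw [abs_mul]
          have h3 : q (0 + i) ^ 5 * |b i t| ≤ N * r ^ i :=
            room hq hN0 (by simpa using hN t ht i)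
          rw [zero_add] at h3
          calc |Λ i| * |b i t| ≤ (2 * q i ^ 5) * |b i t| :=
                mul_le_mul_of_nonneg_right (hΛ i) (abs_nonneg _)
            _ = 2 * (q i ^ 5 * |b i t|) := by ring
            _ ≤ _ := mul_le_mul_of_nonneg_left h3 (by norm_num)
      _ = 2 * (N * ∑ i ∈ Finset.range n, r ^ i) := by rw [Finset.mul_sum, Finset.mul_sum]
      _ ≤ 2 * (N * (1 - r)⁻¹) := by gcongr; exact sum_geo hq n
  calc q n ^ k * |a n t * ∑ i ∈ Finset.range n, Λ i * b i t| =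
        (q n ^ k * |a n t|) * |∑ i ∈ Finset.range n, Λ i * b i t| := by
        rw [abs_mul]; ring
    _ ≤ _ := mul_le_mul (hM t ht n) h2 (abs_nonneg _) hM0

lemma rap_tail (hq : Gq q r) {a : ℕ → ℝ → ℝ} (ha : RQT q T a) :
    RQT q T (fun n t => ∑' m : ℕ, a (n + 1 + m) t) := by
  intro k T' hT'
  obtain ⟨M, hM0, hM⟩ := rap_nn ha (k + 1) hT'
  refine ⟨M * (1 - r)⁻¹, fun t ht n => ?_⟩
  have hb : ∀ m, q n ^ k * |a (n + 1 + m) t| ≤ M * r ^ m := fun m =>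
    rap_geo hq hM0 (hM t ht (n + 1 + m))
  have hg : HasSum (fun m : ℕ => M * r ^ m) (M * (1 - r)⁻¹) :=
    (hasSum_geometric_of_lt_one hq.r0 hq.r1).mul_left _
  have hp : (0 : ℝ) < q n ^ k := pow_pos (hq.pos n) _
  have hsm : Summable (fun m : ℕ => q n ^ k * |a (n + 1 + m) t|) :=
    Summable.of_nonneg_of_le (fun m => by positivity) hb hg.summable
  have hsm2 : Summable (fun m : ℕ => |a (n + 1 + m) t|) := by
    have := hsm.mul_left (q n ^ k)⁻¹
    refine this.congr fun m => ?_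
    field_simp
  calc q n ^ k * |∑' m : ℕ, a (n + 1 + m) t| ≤ q n ^ k * ∑' m : ℕ, |a (n + 1 + m) t| := by
        gcongr
        have := norm_tsum_le_tsum_norm (f := fun m : ℕ => a (n + 1 + m) t) hsm2
        simpa [Real.norm_eq_abs] using this
    _ = ∑' m : ℕ, q n ^ k * |a (n + 1 + m) t| := by rw [tsum_mul_left]
    _ ≤ M * (1 - r)⁻¹ := hasSum_le hb hsm.hasSum hg

/-! ### Derivatives -/

/-- `a'` is the time derivative of `a` -/
def Der (T : ℝ) (a a' : ℕ → ℝ → ℝ) : Prop :=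
  ∀ n, ∀ t ∈ Ico 0 T, HasDerivWithinAt (a n) (a' n t) (Ico 0 T) t

/-- Differentiation of the tail sums. -/
lemma der_tail (hq : Gq q r) {a a' : ℕ → ℝ → ℝ} (ha : RQT q T a) (ha' : RQT q T a')
    (hd : Der T a a') :
    Der T (fun n t => ∑' m : ℕ, a (n + 1 + m) t) (fun n t => ∑' m : ℕ, a' (n + 1 + m) t) := by
  intro n t ht
  obtain ⟨T', hT1, hT2⟩ := exists_between ht.2
  obtain ⟨M, hM0, hM⟩ := rap_nn ha' (0 + 1) hT2
  obtain ⟨N, hN0, hN⟩ := rap_nn ha (0 + 1) hT2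
  have hsub : Icc 0 T' ⊆ Ico 0 T := fun τ hτ => ⟨hτ.1, hτ.2.trans_lt hT2⟩
  have htT' : t ∈ Icc 0 T' := ⟨ht.1, hT1.le⟩
  have hb : ∀ m, ∀ τ ∈ Icc 0 T', |a' (n + 1 + m) τ| ≤ M * r ^ m := fun m τ hτ => by
    have := rap_geo (k := 0) hq hM0 (hM τ hτ (n + 1 + m))
    simpa using this
  have hb2 : ∀ m, ∀ τ ∈ Icc 0 T', |a (n + 1 + m) τ| ≤ N * r ^ m := fun m τ hτ => by
    have := rap_geo (k := 0) hq hN0 (hN τ hτ (n + 1 + m))
    simpa using this
  have hgeo : ∀ C : ℝ, Summable (fun m : ℕ => C * r ^ m) := fun C =>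
    (summable_geometric_of_lt_one hq.r0 hq.r1).mul_left _
  have hsa : ∀ τ ∈ Icc 0 T', Summable (fun m : ℕ => a (n + 1 + m) τ) := fun τ hτ =>
    Summable.of_norm_bounded (hgeo N) (fun m => hb2 m τ hτ)
  have key : HasDerivWithinAt (fun t => ∑' m : ℕ, a (n + 1 + m) t)
      (∑' m : ℕ, a' (n + 1 + m) t) (Icc 0 T') t := by
    rw [hasDerivWithinAt_iff_tendsto_slope]
    have hlim : Tendsto (fun τ => ∑' m : ℕ, slope (a (n + 1 + m)) t τ) (𝓝[Icc 0 T' \ {t}] t)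
        (𝓝 (∑' m : ℕ, a' (n + 1 + m) t)) := by
      refine tendsto_tsum_of_dominated_convergence (bound := fun m : ℕ => M * r ^ m) (hgeo M)
        (fun m => ?_) ?_
      · have := (hd (n + 1 + m) t ht).mono hsub
        rwa [hasDerivWithinAt_iff_tendsto_slope] at this
      · filter_upwards [self_mem_nhdsWithin] with τ hτ m
        have h3 := (convex_Icc (0 : ℝ) T').norm_image_sub_le_of_norm_hasDerivWithin_le
          (f := a (n + 1 + m)) (f' := a' (n + 1 + m)) (C := M * r ^ m)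
          (fun x hx => (hd (n + 1 + m) x (hsub hx)).mono hsub) (fun x hx => hb m x hx) htT' hτ.1
        have h4 : 0 < ‖τ - t‖ := norm_pos_iff.2 (sub_ne_zero.2 hτ.2)
        rw [slope_def_field, norm_div, div_le_iff₀ h4]
        exact h3
    refine hlim.congr' ?_
    filter_upwards [self_mem_nhdsWithin] with τ hτ
    simp only [slope_def_field]
    rw [tsum_div_const, (hsa τ hτ.1).tsum_sub (hsa t htT')]
  have hmem : Icc 0 T' ∈ 𝓝[Ico 0 T] t := by
    rw [mem_nhdsWithin]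
    exact ⟨Iio T', isOpen_Iio, hT1, fun τ hτ => ⟨hτ.2.1, le_of_lt hτ.1⟩⟩
  exact key.mono_of_mem_nhdsWithin hmem

/-- families with `k` rapidly decreasing derivatives -/
def D (q : ℕ → ℝ) (T : ℝ) : ℕ → (ℕ → ℝ → ℝ) → Prop
  | 0, a => RQT q T a
  | k + 1, a => RQT q T a ∧ ∃ a', Der T a a' ∧ D q T k a'

lemma D.rap {k : ℕ} {a : ℕ → ℝ → ℝ} (h : D q T k a) : RQT q T a := by
  cases k with
  | zero => exact h
  | succ k => exact h.1

lemma D.pred : ∀ {k : ℕ} {a : ℕ → ℝ → ℝ}, D q T (k + 1) a → D q T k a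
  | 0, _, h => h.1
  | k + 1, _, h => by
      obtain ⟨h1, a', h2, h3⟩ := h
      exact ⟨h1, a', h2, h3.pred⟩

lemma D.congr {k : ℕ} {a b : ℕ → ℝ → ℝ} (h : ∀ n, ∀ t ∈ Ico 0 T, a n t = b n t)
    (ha : D q T k a) : D q T k b := by
  cases k with
  | zero => exact rap_congr h ha
  | succ k =>
    obtain ⟨h1, a', h2, h3⟩ := ha
    refine ⟨rap_congr h h1, a', fun n t ht => ?_, h3⟩
    exact (h2 n t ht).congr (fun τ hτ => (h n τ hτ).symm) (h n t ht).symm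

lemma D.add (hq : Gq q r) : ∀ {k : ℕ} {a b : ℕ → ℝ → ℝ}, D q T k a → D q T k b →
    D q T k (fun n t => a n t + b n t)
  | 0, _, _, ha, hb => rap_add hq ha hb
  | k + 1, _, _, ha, hb => by
      obtain ⟨h1, a', h2, h3⟩ := ha
      obtain ⟨g1, b', g2, g3⟩ := hb
      exact ⟨rap_add hq h1 g1, _, fun n t ht => (h2 n t ht).add (g2 n t ht), D.add hq h3 g3⟩

lemma D.w (hq : Gq q r) (w : ℕ → ℝ) (C : ℝ) (j : ℕ) (hw : ∀ n, |w n| ≤ C * q n ^ j) :
    ∀ {k : ℕ} {a : ℕ → ℝ → ℝ}, D q T k a → D q T k (fun n t => w n * a n t)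
  | 0, _, ha => rap_w hq ha w C j hw
  | k + 1, _, ha => by
      obtain ⟨h1, a', h2, h3⟩ := ha
      exact ⟨rap_w hq h1 w C j hw, _, fun n t ht => (h2 n t ht).const_mul (w n),
        D.w hq w C j hw h3⟩

lemma D.up (hq : Gq q r) : ∀ {k : ℕ} {a : ℕ → ℝ → ℝ}, D q T k a →
    D q T k (fun n t => a (n + 1) t)
  | 0, _, ha => rap_up hq ha
  | k + 1, _, ha => by
      obtain ⟨h1, a', h2, h3⟩ := ha
      exact ⟨rap_up hq h1, _, fun n t ht => h2 (n + 1) t ht, D.up hq h3⟩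

lemma D.down (hq : Gq q r) : ∀ {k : ℕ} {a : ℕ → ℝ → ℝ}, D q T k a →
    D q T k (fun n t => if n = 0 then 0 else a (n - 1) t)
  | 0, _, ha => rap_down hq ha
  | k + 1, _, ha => by
      obtain ⟨h1, a', h2, h3⟩ := ha
      refine ⟨rap_down hq h1, _, fun n t ht => ?_, D.down hq h3⟩
      by_cases h : n = 0
      · simp only [h, if_true]
        exact hasDerivWithinAt_const _ _ _
      · simp only [h, if_false]
        exact h2 (n - 1) t ht

lemma D.mul (hq : Gq q r) : ∀ {k : ℕ} {a b : ℕ → ℝ → ℝ}, D q T k a → D q T k b →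
    D q T k (fun n t => a n t * b n t)
  | 0, _, _, ha, hb => rap_mul hq ha hb
  | k + 1, a, b, ha, hb => by
      have ha0 := ha.pred
      have hb0 := hb.pred
      obtain ⟨h1, a', h2, h3⟩ := ha
      obtain ⟨g1, b', g2, g3⟩ := hb
      exact ⟨rap_mul hq h1 g1, _, fun n t ht => (h2 n t ht).mul (g2 n t ht),
        D.add hq (D.mul hq h3 hb0) (D.mul hq ha0 g3)⟩

lemma D.ps (hq : Gq q r) {Λ : ℕ → ℝ} (hΛ : ∀ n, |Λ n| ≤ 2 * q n ^ 5) :
    ∀ {k : ℕ} {a b : ℕ → ℝ → ℝ}, D q T k a → D q T k b →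
    D q T k (fun n t => a n t * ∑ i ∈ Finset.range n, Λ i * b i t)
  | 0, _, _, ha, hb => rap_ps hq hΛ ha hb
  | k + 1, a, b, ha, hb => by
      have ha0 := ha.pred
      have hb0 := hb.pred
      obtain ⟨h1, a', h2, h3⟩ := ha
      obtain ⟨g1, b', g2, g3⟩ := hb
      refine ⟨rap_ps hq hΛ h1 g1, _, fun n t ht => ?_,
        D.add hq (D.ps hq hΛ h3 hb0) (D.ps hq hΛ ha0 g3)⟩
      exact (h2 n t ht).mul (HasDerivWithinAt.fun_sum fun i _ => (g2 i t ht).const_mul _)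

lemma D.tail (hq : Gq q r) : ∀ {k : ℕ} {a : ℕ → ℝ → ℝ}, D q T k a →
    D q T k (fun n t => ∑' m : ℕ, a (n + 1 + m) t)
  | 0, _, ha => rap_tail hq ha
  | k + 1, _, ha => by
      obtain ⟨h1, a', h2, h3⟩ := ha
      exact ⟨rap_tail hq h1, _, der_tail hq h1 h3.rap h2, D.tail hq h3⟩

/-- bounds for the coefficients -/
structure Cb (q Λ b V γ : ℕ → ℝ) : Prop where
  lam : ∀ n, |Λ n| ≤ 2 * q n ^ 5
  bb : ∀ n, |b n| ≤ 2 * q n ^ 0
  vv : ∀ n, |V n| ≤ 2 * q n ^ 4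
  gg : ∀ n, |γ n| ≤ 1 * q n ^ 12

/-- the right-hand side of the reduced system -/
lemma D.rhs (hq : Gq q r) {Λ b V γ : ℕ → ℝ} (hc : Cb q Λ b V γ) {k : ℕ} {x : ℕ → ℝ → ℝ}
    (hx : D q T k x) :
    D q T k (fun n t => -(V n * x n t) + b n * yq Λ γ (fun m => x m t) n) := by
  have h1 := hx.w hq (fun n => -V n) 2 4 (fun n => by rw [abs_neg]; exact hc.vv n)
  have h2 := hx.ps hq hc.lam hx
  have h3 := ((hx.mul hq hx).tail hq).w hq (fun n => -Λ n) 2 5 (fun n => by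
    rw [abs_neg]; exact hc.lam n)
  have h4 := (hx.mul hq (hx.up hq)).w hq (fun n => -γ n) 1 12 (fun n => by
    rw [abs_neg]; exact hc.gg n)
  have h5 := ((hx.mul hq hx).w hq γ 1 12 hc.gg).down hq
  have h6 := (((h2.add hq h3).add hq h4).add hq h5).w hq b 2 0 hc.bb
  refine D.congr ?_ (h1.add hq h6)
  intro n t _
  simp only [yq]
  rcases Nat.eq_zero_or_pos n with h | h
  · subst h
    simp only [if_true, Finset.range_zero, Finset.sum_empty, sq]
    ring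
  · simp only [if_neg (show n ≠ 0 by omega), sq]
    ring

/-- the bootstrap -/
lemma smooth (hq : Gq q r) {Λ b V γ : ℕ → ℝ} (hc : Cb q Λ b V γ) {x : ℕ → ℝ → ℝ}
    (hx : RQT q T x)
    (hd : Der T x (fun n t => -(V n * x n t) + b n * yq Λ γ (fun m => x m t) n)) :
    SmR q T x := by
  have hD : ∀ k, D q T k x := by
    intro k
    induction k with
    | zero => exact hx
    | succ k ih => exact ⟨hx, _, hd, ih.rhs hq hc⟩
  have step : ∀ a : {a : ℕ → ℝ → ℝ // ∀ k, D q T k a},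
      ∃ a' : {a : ℕ → ℝ → ℝ // ∀ k, D q T k a}, Der T a.1 a'.1 := by
    rintro ⟨a, ha⟩
    obtain ⟨_, a', h2, _⟩ := ha 1
    refine ⟨⟨a', fun k => ?_⟩, h2⟩
    obtain ⟨_, b, g2, g3⟩ := ha (k + 1)
    refine D.congr ?_ g3
    intro n t ht
    exact (uniqueDiffOn_Ico (0 : ℝ) T t ht).eq_deriv _ (g2 n t ht) (h2 n t ht)
  choose f hf using step
  refine ⟨fun k => (f^[k] ⟨x, hD⟩).1, rfl, fun k => (f^[k] ⟨x, hD⟩).2 0, fun k n t ht => ?_⟩
  beta_reduce
  rw [Function.iterate_succ_apply']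
  exact hf _ n t ht

/-! ### The scales and the cascade -/

lemma qs_sq {Q : ℝ} (hQ : 1 ≤ Q) (n : ℕ) : qs Q (n + 1) ≤ qs Q n ^ 2 := by
  unfold qs
  rw [← Real.rpow_mul_natCast (by linarith)]
  refine Real.rpow_le_rpow_of_exponent_le hQ ?_
  rw [pow_succ]
  push_cast
  have : (0 : ℝ) ≤ (6 / 5 : ℝ) ^ n := by positivity
  nlinarith

lemma gq {Q : ℝ} (hQ : 2 ≤ Q) : Gq (qs Q) ((2 : ℝ) ^ (-(1 / 5 : ℝ))) where
  one n := by
    unfold qs
    exact Real.one_le_rpow (by linarith) (by positivity)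
  mono n := by
    unfold qs
    exact Real.rpow_le_rpow_of_exponent_le (by linarith)
      (pow_le_pow_right₀ (by norm_num) (Nat.le_succ n))
  sq n := qs_sq (by linarith) n
  r0 := by positivity
  r1 := Real.rpow_lt_one_of_one_lt_of_neg (by norm_num) (by norm_num)
  geo n m := by
    unfold qs
    rw [← Real.rpow_neg (by linarith), ← Real.rpow_mul_natCast (by norm_num)]
    have hb : 1 + ((n + m : ℕ) : ℝ) * (1 / 5) ≤ (1 + 1 / 5 : ℝ) ^ (n + m) :=
      one_add_mul_le_pow (by norm_num) _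
    have hb2 : (m : ℝ) * (1 / 5) ≤ (6 / 5 : ℝ) ^ (n + m) := by
      have h65 : (6 / 5 : ℝ) = 1 + 1 / 5 := by norm_num
      rw [h65]
      refine le_trans ?_ hb
      push_cast
      have : (0 : ℝ) ≤ n := Nat.cast_nonneg n
      nlinarith
    calc Q ^ (-(6 / 5 : ℝ) ^ (n + m)) ≤ Q ^ (-((m : ℝ) * (1 / 5))) :=
          Real.rpow_le_rpow_of_exponent_le (by linarith) (by linarith)
      _ ≤ 2 ^ (-((m : ℝ) * (1 / 5))) :=
          Real.rpow_le_rpow_of_nonpos (by norm_num) hQ (by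
            have : (0 : ℝ) ≤ m := Nat.cast_nonneg m
            linarith)
      _ = 2 ^ (-(1 / 5 : ℝ) * m) := by congr 1; ring

lemma cb {Λ b V γ : ℕ → ℝ} (hq : Gq q r) (h : Cf q Λ b V γ) : Cb q Λ b V γ where
  lam n := by
    have h1 := h.lam n
    have h2 := hq.one n
    have h3 : q n ^ 4 ≤ q n ^ 5 := pow_le_pow_right₀ h2 (by norm_num)
    have h4 : 0 ≤ q n ^ 4 := by positivity
    rw [abs_le] at h1 ⊢
    constructor <;> linarith [h1.1, h1.2]
  bb n := by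
    have h1 := h.bb n
    have h2 := hq.one n
    have h3 : 1 / q n ≤ 1 := by
      rw [div_le_one (hq.pos n)]; exact h2
    rw [abs_le] at h1 ⊢
    rw [pow_zero, mul_one]
    constructor <;> linarith [h1.1, h1.2]
  vv n := by
    have h1 := h.vv n
    have h4 : 0 ≤ q n ^ 4 := pow_nonneg (hq.pos n).le 4
    rw [abs_le]
    constructor <;> linarith [h1.1, h1.2]
  gg n := by
    rw [one_mul]
    rcases Nat.eq_zero_or_pos n with h0 | h0
    · subst h0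
      rw [h.g0, abs_zero]
      exact pow_nonneg (hq.pos 0).le _
    · obtain ⟨m, rfl⟩ : ∃ m, n = m + 1 := ⟨n - 1, by omega⟩
      have h1 := h.g1 m
      have h2 := h.g2 m
      have h3 : 0 ≤ γ (m + 1) := (Real.exp_pos _).le.trans h1
      rw [abs_of_nonneg h3]
      have h4 : Real.exp (-(Real.pi / 2 * q m)) ≤ 1 := by
        rw [Real.exp_le_one_iff]
        have := mul_pos (div_pos Real.pi_pos (by norm_num : (0 : ℝ) < 2)) (hq.pos m)
        linarith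
      have h5 : 0 ≤ q (m + 2) ^ 6 := pow_nonneg (hq.pos _).le 6
      calc γ (m + 1) ≤ q (m + 2) ^ 6 * Real.exp (-(Real.pi / 2 * q m)) := h2
        _ ≤ q (m + 2) ^ 6 * 1 := mul_le_mul_of_nonneg_left h4 h5
        _ = q (m + 2) ^ 6 := mul_one _
        _ ≤ (q (m + 1) ^ 2) ^ 6 := pow_le_pow_left₀ (hq.pos _).le (hq.sq (m + 1)) 6
        _ = q (m + 1) ^ 12 := by ring

/-- powers against the exponential -/
lemma pow_exp (j : ℕ) : ∃ C, 0 ≤ C ∧ ∀ y : ℝ, 1 ≤ y →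
    y ^ j * Real.exp (-(Real.pi / 2 * y) + √y) ≤ C := by
  refine ⟨2 ^ j * j.factorial, by positivity, fun y hy => ?_⟩
  have h1 : (y / 2) ^ j / j.factorial ≤ Real.exp (y / 2) :=
    Real.pow_div_factorial_le_exp (y / 2) (by linarith) j
  have hf : (0 : ℝ) < j.factorial := by exact_mod_cast Nat.factorial_pos j
  rw [div_le_iff₀ hf, div_pow, div_le_iff₀ (by positivity)] at h1
  have h2 : √y ≤ y := by
    rw [Real.sqrt_le_left (by linarith)]
    nlinarith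
  have h3 : Real.exp (-(Real.pi / 2 * y) + √y) ≤ Real.exp (-(y / 2)) := by
    rw [Real.exp_le_exp]
    nlinarith [Real.pi_gt_three]
  calc y ^ j * Real.exp (-(Real.pi / 2 * y) + √y)
      ≤ (Real.exp (y / 2) * j.factorial * 2 ^ j) * Real.exp (-(y / 2)) :=
        mul_le_mul h1 h3 (Real.exp_pos _).le (by positivity)
    _ = 2 ^ j * j.factorial * (Real.exp (y / 2) * Real.exp (-(y / 2))) := by ring
    _ = 2 ^ j * j.factorial := by
        rw [← Real.exp_add]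
        simp

lemma up_bd (hq : Gq q r) (k : ℕ) : ∃ C, 0 ≤ C ∧ ∀ m, 2 ≤ m → q m ^ k * up q m ≤ C := by
  obtain ⟨C, hC0, hC⟩ := pow_exp (4 * k)
  refine ⟨C, hC0, fun m hm => ?_⟩
  obtain ⟨n, rfl⟩ : ∃ n, m = n + 2 := ⟨m - 2, by omega⟩
  unfold up
  rw [Nat.add_sub_cancel]
  refine le_trans ?_ (hC (q n) (hq.one n))
  refine mul_le_mul_of_nonneg_right ?_ (Real.exp_pos _).le
  have h1 : q (n + 2) ≤ q n ^ 4 := by
    calc q (n + 2) ≤ q (n + 1) ^ 2 := hq.sq (n + 1)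
      _ ≤ (q n ^ 2) ^ 2 := pow_le_pow_left₀ (hq.pos _).le (hq.sq n) 2
      _ = q n ^ 4 := by ring
  calc q (n + 2) ^ k ≤ (q n ^ 4) ^ k := pow_le_pow_left₀ (hq.pos _).le h1 k
    _ = q n ^ (4 * k) := by rw [pow_mul]

lemma rapx (hq : Gq q r) {ε : ℝ} {Λ b V γ σ : ℕ → ℝ} {x : ℕ → ℝ → ℝ}
    (h : CI ε q Λ b V γ T σ x) : RQT q T x := by
  intro k T' hT'
  obtain ⟨n, hn⟩ : ∃ n, T' ≤ σ (n + 1) := by
    have h1 := h.σl.eventually (lt_mem_nhds hT')
    obtain ⟨N, hN⟩ := Filter.eventually_atTop.1 h1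
    exact ⟨N, (hN (N + 1) (Nat.le_succ N)).le⟩
  obtain ⟨C, hC0, hC⟩ := up_bd hq k
  have hcont : ∀ m, ContinuousOn (x m) (Icc 0 T') := fun m t ht =>
    ((h.ode m t ⟨ht.1, ht.2.trans_lt hT'⟩).continuousWithinAt).mono
      (fun τ hτ => ⟨hτ.1, hτ.2.trans_lt hT'⟩)
  have hbd : ∀ m, ∃ B, 0 ≤ B ∧ ∀ t ∈ Icc 0 T', q m ^ k * |x m t| ≤ B := by
    intro m
    obtain ⟨B, hB⟩ := isCompact_Icc.exists_bound_of_continuousOn (hcont m)
    refine ⟨q m ^ k * max B 0, mul_nonneg (pow_nonneg (hq.pos m).le _) (le_max_right _ _),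
      fun t ht => ?_⟩
    exact mul_le_mul_of_nonneg_left ((hB t ht).trans (le_max_left _ _))
      (pow_nonneg (hq.pos m).le _)
  choose B hB0 hB using hbd
  refine ⟨C + ∑ m ∈ Finset.range (n + 3), B m, fun t ht m => ?_⟩
  rcases lt_or_ge m (n + 3) with hm | hm
  · have h1 := hB m t ht
    have h2 : B m ≤ ∑ m ∈ Finset.range (n + 3), B m :=
      Finset.single_le_sum (fun i _ => hB0 i) (Finset.mem_range.2 hm)
    linarith
  · have h1 := h.act n t ⟨ht.1, ht.2.trans hn⟩ m hm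
    have h2 : q m ^ k * |x m t| ≤ q m ^ k * up q m :=
      mul_le_mul_of_nonneg_left h1 (pow_nonneg (hq.pos m).le _)
    have h3 := hC m (by omega)
    have h4 : 0 ≤ ∑ m ∈ Finset.range (n + 3), B m := Finset.sum_nonneg fun i _ => hB0 i
    linarith

end Y5

open _root_.Pool.Agent.N976.UE.Y5 in
/-- (Y5) The cascade is smooth in time with rapid decay. -/
theorem t_Y5 : S_Y5 := by
  intro ε Q T Λ b V γ σ x hQ hc h
  exact smooth (gq hQ) (cb (gq hQ) hc) (rapx (gq hQ) h) h.ode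

end Pool.Agent.N976.UE
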