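import Pool.Agent.N976.UE.Def2

/-! (Z6) The reaction coefficients are smooth in time and rapidly decreasing. -/

open Set Filter Topology MeasureTheory
open scoped ContDiff InnerProductSpace

set_option autoImplicit false

namespace Pool.Agent.N976.UE

open Pool.Agent.N976.SC Pool.Agent.N976.EN

namespace Z6

/-- Term by term differentiation on `[0, T)`. -/
lemma hasDerivWithinAt_tsum' {T : ℝ} {f g : ℕ → ℝ → ℝ}
    (hd : ∀ m, ∀ t ∈ Ico 0 T, HasDerivWithinAt (f m) (g m t) (Ico 0 T) t)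
    (hB : ∀ T' < T, ∃ B : ℕ → ℝ, Summable B ∧ ∀ t ∈ Icc 0 T', ∀ m, |f m t| ≤ B m ∧ |g m t| ≤ B m) :
    ∀ t ∈ Ico 0 T, HasDerivWithinAt (fun t => ∑' m, f m t) (∑' m, g m t) (Ico 0 T) t := by
  intro t ht
  obtain ⟨B, hBs, hB⟩ := hB ((t + T) / 2) (by linarith [ht.2])
  set T' := (t + T) / 2 with hT'
  have htT' : t < T' := by rw [hT']; linarith [ht.2]
  have hT'T : T' < T := by rw [hT']; linarith [ht.2]
  have htI : t ∈ Icc 0 T' := ⟨ht.1, htT'.le⟩
  have hsub : Icc 0 T' ⊆ Ico 0 T := fun s hs => ⟨hs.1, lt_of_le_of_lt hs.2 hT'T⟩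
  have hsum : ∀ s ∈ Icc 0 T', Summable (fun m => f m s) := fun s hs =>
    Summable.of_norm_bounded hBs (fun m => by rw [Real.norm_eq_abs]; exact (hB s hs m).1)
  have hmv : ∀ s ∈ Icc 0 T', ∀ m, |f m s - f m t| ≤ B m * |s - t| := by
    intro s hs m
    have := Convex.norm_image_sub_le_of_norm_hasDerivWithin_le (f := f m) (f' := g m)
      (s := Icc 0 T') (x := t) (y := s) (C := B m)
      (fun x hx => (hd m x (hsub hx)).mono hsub)
      (fun x hx => by rw [Real.norm_eq_abs]; exact (hB x hx m).2) (convex_Icc 0 T') htI hs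
    simpa [Real.norm_eq_abs] using this
  rw [hasDerivWithinAt_iff_tendsto_slope]
  have hev : ∀ᶠ s in 𝓝[Ico 0 T \ {t}] t, s ∈ Icc 0 T' ∧ s ≠ t := by
    have h1 : ∀ᶠ s in 𝓝[Ico 0 T \ {t}] t, s ∈ Ico 0 T \ {t} := self_mem_nhdsWithin
    have h2 : ∀ᶠ s in 𝓝[Ico 0 T \ {t}] t, s < T' :=
      nhdsWithin_le_nhds (Iio_mem_nhds htT')
    filter_upwards [h1, h2] with s hs1 hs2
    exact ⟨⟨hs1.1.1, hs2.le⟩, fun h => hs1.2 h⟩
  have hcong : (fun s => ∑' m, slope (f m) t s) =ᶠ[𝓝[Ico 0 T \ {t}] t]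
      slope (fun t => ∑' m, f m t) t := by
    filter_upwards [hev] with s hs
    simp only [slope_def_field]
    rw [tsum_div_const, (hsum s hs.1).tsum_sub (hsum t htI)]
  refine Tendsto.congr' hcong ?_
  refine tendsto_tsum_of_dominated_convergence hBs (fun m => ?_) ?_
  · exact (hasDerivWithinAt_iff_tendsto_slope.1 (hd m t ht))
  · filter_upwards [hev] with s hs m
    rw [slope_def_field, norm_div, Real.norm_eq_abs, Real.norm_eq_abs,
      div_le_iff₀ (abs_pos.2 (sub_ne_zero.2 hs.2))]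
    exact hmv s hs.1 m

/-- The scales grow at least geometrically. -/
lemma qs_ge {Q : ℝ} (hQ : 4 ≤ Q) (n : ℕ) : (6 / 5 : ℝ) ^ n ≤ qs Q n := by
  have h1 : (1 : ℝ) + n * (1 / 5) ≤ (6 / 5 : ℝ) ^ n := by
    have := one_add_mul_le_pow (a := (1 / 5 : ℝ)) (by norm_num) n
    norm_num at this ⊢
    linarith
  have hQ1 : (1 : ℝ) ≤ Q := by linarith
  have h2 : Q ^ ((1 : ℝ) + n * (1 / 5)) ≤ qs Q n := Real.rpow_le_rpow_of_exponent_le hQ1 h1
  have h3 : (6 / 5 : ℝ) ^ n ≤ Q ^ ((n : ℝ) * (1 / 5)) := by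
    have h4 : (6 / 5 : ℝ) ≤ Q ^ (1 / 5 : ℝ) := by
      have h5 : (6 / 5 : ℝ) = ((6 / 5 : ℝ) ^ (5 : ℝ)) ^ (1 / 5 : ℝ) := by
        rw [← Real.rpow_mul (by norm_num)]; norm_num
      rw [h5]
      refine Real.rpow_le_rpow (by positivity) ?_ (by norm_num)
      have : ((6 / 5 : ℝ) ^ (5 : ℝ)) = (6 / 5 : ℝ) ^ (5 : ℕ) := by
        rw [← Real.rpow_natCast]; norm_num
      rw [this]
      norm_num
      linarith
    have h6 : Q ^ ((n : ℝ) * (1 / 5)) = (Q ^ (1 / 5 : ℝ)) ^ n := by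
      rw [mul_comm, Real.rpow_mul (by linarith), Real.rpow_natCast]
    rw [h6]
    exact pow_le_pow_left₀ (by norm_num) h4 n
  have h7 : Q ^ ((n : ℝ) * (1 / 5)) ≤ Q ^ ((1 : ℝ) + n * (1 / 5)) :=
    Real.rpow_le_rpow_of_exponent_le hQ1 (by linarith)
  linarith

lemma qs_one {Q : ℝ} (hQ : 4 ≤ Q) (n : ℕ) : 1 ≤ qs Q n :=
  le_trans (one_le_pow₀ (by norm_num)) (qs_ge hQ n)

lemma qs_mono {Q : ℝ} (hQ : 4 ≤ Q) : Monotone (qs Q) := by
  intro a b hab
  refine Real.rpow_le_rpow_of_exponent_le (by linarith) ?_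
  exact pow_le_pow_right₀ (by norm_num) hab

lemma qs_inv {Q : ℝ} (hQ : 4 ≤ Q) (n : ℕ) : 1 / qs Q n ≤ (5 / 6 : ℝ) ^ n := by
  have h := qs_ge hQ n
  have h0 : (0 : ℝ) < (6 / 5 : ℝ) ^ n := by positivity
  calc 1 / qs Q n ≤ 1 / (6 / 5 : ℝ) ^ n := one_div_le_one_div_of_le h0 h
    _ = (5 / 6 : ℝ) ^ n := by rw [one_div, ← inv_pow]; norm_num

lemma geo_summable : Summable (fun n : ℕ => (5 / 6 : ℝ) ^ n) :=
  summable_geometric_of_lt_one (by norm_num) (by norm_num)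

/-- product of two rapidly decreasing families with a weight -/
lemma prod_bd {Q T : ℝ} (hQ : 4 ≤ Q) {x x' : ℕ → ℝ → ℝ} (hx : RQT (qs Q) T x)
    (hx' : RQT (qs Q) T x') (k : ℕ) : ∀ T' < T, ∃ M, 0 ≤ M ∧ ∀ t ∈ Icc 0 T', ∀ n,
      qs Q n ^ k * |x n t * x' n t| ≤ M * (5 / 6 : ℝ) ^ n := by
  intro T' hT'
  obtain ⟨M, hM⟩ := hx (k + 1) T' hT'
  obtain ⟨M', hM'⟩ := hx' 0 T' hT'
  refine ⟨|M| * |M'|, by positivity, fun t ht n => ?_⟩
  have h1 : qs Q n ^ (k + 1) * |x n t| ≤ |M| := le_trans (hM t ht n) (le_abs_self _)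
  have h2 : |x' n t| ≤ |M'| := by
    have := hM' t ht n
    rw [pow_zero, one_mul] at this
    exact le_trans this (le_abs_self _)
  have hq := qs_one hQ n
  have hq0 : 0 < qs Q n := by linarith
  have h3 := qs_inv hQ n
  rw [abs_mul]
  have h4 : qs Q n ^ k * |x n t| ≤ |M| * (5 / 6 : ℝ) ^ n := by
    have e : qs Q n ^ k * |x n t| = (qs Q n ^ (k + 1) * |x n t|) * (1 / qs Q n) := by
      rw [pow_succ]; field_simp
    rw [e]
    exact mul_le_mul h1 h3 (by positivity) (by positivity)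
  calc qs Q n ^ k * (|x n t| * |x' n t|) = (qs Q n ^ k * |x n t|) * |x' n t| := by ring
    _ ≤ (|M| * (5 / 6 : ℝ) ^ n) * |M'| := mul_le_mul h4 h2 (abs_nonneg _) (by positivity)
    _ = |M| * |M'| * (5 / 6 : ℝ) ^ n := by ring

/-- A family of derivatives. -/
structure Fam (q : ℕ → ℝ) (T : ℝ) (y : ℕ → ℕ → ℝ → ℝ) : Prop where
  dec : ∀ k, RQT q T (y k)
  der : ∀ k n, ∀ t ∈ Ico 0 T, HasDerivWithinAt (y k n) (y (k + 1) n t) (Ico 0 T) t

lemma Fam.shift {q : ℕ → ℝ} {T : ℝ} {y : ℕ → ℕ → ℝ → ℝ} (h : Fam q T y) :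
    Fam q T (fun k => y (k + 1)) := ⟨fun k => h.dec (k + 1), fun k => h.der (k + 1)⟩

lemma Fam.contDiffOn {q : ℕ → ℝ} {T : ℝ} (hT : 0 < T) (j : ℕ) : ∀ {y : ℕ → ℕ → ℝ → ℝ},
    Fam q T y → ∀ n, ContDiffOn ℝ j (y 0 n) (Ico 0 T) := by
  have hU : UniqueDiffOn ℝ (Ico 0 T) := uniqueDiffOn_Ico 0 T
  induction j with
  | zero =>
    intro y h n
    rw [Nat.cast_zero, contDiffOn_zero]
    exact fun t ht => (h.der 0 n t ht).continuousWithinAt
  | succ j ih =>
    intro y h n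
    rw [Nat.cast_succ, contDiffOn_succ_iff_derivWithin hU]
    refine ⟨fun t ht => (h.der 0 n t ht).differentiableWithinAt, fun h' => ?_, ?_⟩
    · exact absurd h' (by simp)
    · exact (ih h.shift n).congr fun t ht => (h.der 0 n t ht).derivWithin (hU t ht)

lemma sums_contDiffOn {Q T : ℝ} (hQ : 4 ≤ Q) (hT : 0 < T) (p : ℕ) (j : ℕ) :
    ∀ {y y' : ℕ → ℕ → ℝ → ℝ}, Fam (qs Q) T y → Fam (qs Q) T y' →
      ContDiffOn ℝ j (fun t => ∑' m, y 0 (p + m) t * y' 0 (p + m) t) (Ico 0 T) := by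
  have hU : UniqueDiffOn ℝ (Ico 0 T) := uniqueDiffOn_Ico 0 T
  -- summable bounds
  have hbd : ∀ {x x' : ℕ → ℝ → ℝ}, RQT (qs Q) T x → RQT (qs Q) T x' → ∀ T' < T, ∃ M, 0 ≤ M ∧
      ∀ t ∈ Icc 0 T', ∀ m, |x (p + m) t * x' (p + m) t| ≤ M * (5 / 6 : ℝ) ^ m := by
    intro x x' hx hx' T' hT'
    obtain ⟨M, hM0, hM⟩ := prod_bd hQ hx hx' 0 T' hT'
    refine ⟨M, hM0, fun t ht m => ?_⟩
    have := hM t ht (p + m)
    rw [pow_zero, one_mul] at this
    refine le_trans this ?_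
    refine mul_le_mul_of_nonneg_left ?_ hM0
    exact pow_le_pow_of_le_one (by norm_num) (by norm_num) (Nat.le_add_left m p)
  have hder : ∀ {y y' : ℕ → ℕ → ℝ → ℝ}, Fam (qs Q) T y → Fam (qs Q) T y' → ∀ t ∈ Ico 0 T,
      HasDerivWithinAt (fun t => ∑' m, y 0 (p + m) t * y' 0 (p + m) t)
        (∑' m, y 1 (p + m) t * y' 0 (p + m) t + ∑' m, y 0 (p + m) t * y' 1 (p + m) t)
        (Ico 0 T) t := by
    intro y y' h h' t ht
    have key := hasDerivWithinAt_tsum' (T := T) (f := fun m t => y 0 (p + m) t * y' 0 (p + m) t)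
      (g := fun m t => y 1 (p + m) t * y' 0 (p + m) t + y 0 (p + m) t * y' 1 (p + m) t)
      (fun m t ht => (h.der 0 (p + m) t ht).mul (h'.der 0 (p + m) t ht)) (by
        intro T' hT'
        obtain ⟨M0, hM0, h0⟩ := hbd (h.dec 0) (h'.dec 0) T' hT'
        obtain ⟨M1, hM1, h1⟩ := hbd (h.dec 1) (h'.dec 0) T' hT'
        obtain ⟨M2, hM2, h2⟩ := hbd (h.dec 0) (h'.dec 1) T' hT'
        refine ⟨fun m => (M0 + M1 + M2) * (5 / 6 : ℝ) ^ m, geo_summable.mul_left _,
          fun t ht m => ⟨?_, ?_⟩⟩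
        · refine le_trans (h0 t ht m) ?_
          refine mul_le_mul_of_nonneg_right (by linarith) (by positivity)
        · refine le_trans (abs_add_le _ _) ?_
          refine le_trans (add_le_add (h1 t ht m) (h2 t ht m)) ?_
          have : (0 : ℝ) ≤ (5 / 6 : ℝ) ^ m := by positivity
          nlinarith [mul_nonneg hM0 this]) t ht
    have hs : ∀ {x x' : ℕ → ℝ → ℝ}, RQT (qs Q) T x → RQT (qs Q) T x' →
        Summable (fun m => x (p + m) t * x' (p + m) t) := by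
      intro x x' hx hx'
      obtain ⟨M, hM0, hM⟩ := hbd hx hx' t ht.2
      exact Summable.of_norm_bounded (geo_summable.mul_left M)
        (fun m => by rw [Real.norm_eq_abs]; exact hM t ⟨ht.1, le_rfl⟩ m)
    rw [← (hs (h.dec 1) (h'.dec 0)).tsum_add (hs (h.dec 0) (h'.dec 1))]
    exact key
  induction j with
  | zero =>
    intro y y' h h'
    rw [Nat.cast_zero, contDiffOn_zero]
    exact fun t ht => (hder h h' t ht).continuousWithinAt
  | succ j ih =>
    intro y y' h h'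
    rw [Nat.cast_succ, contDiffOn_succ_iff_derivWithin hU]
    refine ⟨fun t ht => (hder h h' t ht).differentiableWithinAt, fun h' => ?_, ?_⟩
    · exact absurd h' (by simp)
    · refine ((ih h.shift h').add (ih h h'.shift)).congr fun t ht => ?_
      exact (hder h h' t ht).derivWithin (hU t ht)

end Z6

open Z6 in
theorem t_Z6 : S_Z6 := by
  intro ν Q T Λ b V γ X hQ hT hcf ⟨y, hy0, hyd, hyr⟩
  have hfam : Fam (qs Q) T y := ⟨hyd, hyr⟩
  have hX : ∀ n, ContDiffOn ℝ ∞ (X n) (Ico 0 T) := by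
    intro n
    rw [contDiffOn_infty]
    intro j
    have := hfam.contDiffOn hT j n
    rwa [hy0] at this
  have hXd : RQT (qs Q) T X := hy0 ▸ hyd 0
  constructor
  · rintro ⟨i, n⟩
    fin_cases i
    · have e : (fun t => ly ν Λ (fun n => X n t) ((⟨0, by norm_num⟩ : Fin 4), n)) =
          fun t => ∑' m, X (n + m) t * X (n + m) t := by
        funext t
        simp only [ly]
        have : (![∑' m, X (n + m) t ^ 2, X n t * ∑ i ∈ Finset.range n, Λ i * X i t, -(ν * X n t),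
          X n t * X (n + 1) t] : Fin 4 → ℝ) ⟨0, by norm_num⟩ = ∑' m, X (n + m) t ^ 2 := rfl
        rw [this]
        exact tsum_congr fun m => by ring
      show ContDiffOn ℝ ∞ (fun t => ly ν Λ (fun n => X n t) ((⟨0, by norm_num⟩ : Fin 4), n)) _
      rw [e, contDiffOn_infty]
      intro j
      have := sums_contDiffOn hQ hT n j hfam hfam
      rwa [hy0] at this
    · show ContDiffOn ℝ ∞ (fun t => X n t * ∑ i ∈ Finset.range n, Λ i * X i t) _
      exact (hX n).mul (ContDiffOn.sum fun i _ => contDiffOn_const.mul (hX i))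
    · show ContDiffOn ℝ ∞ (fun t => -(ν * X n t)) _
      exact (contDiffOn_const.mul (hX n)).neg
    · show ContDiffOn ℝ ∞ (fun t => X n t * X (n + 1) t) _
      exact (hX n).mul (hX (n + 1))
  · intro k T' hT'
    obtain ⟨Mk, hMk⟩ := hXd k T' hT'
    obtain ⟨M0, hM0⟩ := hXd 0 T' hT'
    obtain ⟨M6, hM6⟩ := hXd 6 T' hT'
    obtain ⟨M, hMn, hM⟩ := prod_bd hQ hXd hXd k T' hT'
    have hMk' : ∀ t ∈ Icc 0 T', ∀ n, qs Q n ^ k * |X n t| ≤ |Mk| := fun t ht n =>
      le_trans (hMk t ht n) (le_abs_self _)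
    have hM0' : ∀ t ∈ Icc 0 T', ∀ n, |X n t| ≤ |M0| := fun t ht n => by
      have := hM0 t ht n
      rw [pow_zero, one_mul] at this
      exact le_trans this (le_abs_self _)
    have hlam : ∀ i, |Λ i| ≤ 2 * qs Q i ^ 5 := by
      intro i
      have h1 := hcf.lam i
      have hq := qs_one hQ i
      have h2 : qs Q i ^ 4 ≤ qs Q i ^ 5 := pow_le_pow_right₀ hq (by norm_num)
      have h3 : 0 ≤ qs Q i ^ 5 := by positivity
      calc |Λ i| = |(Λ i - qs Q i ^ 5) + qs Q i ^ 5| := by ring_nf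
        _ ≤ |Λ i - qs Q i ^ 5| + |qs Q i ^ 5| := abs_add_le _ _
        _ ≤ 2 * qs Q i ^ 5 := by rw [abs_of_nonneg h3]; linarith
    have hS : ∀ t ∈ Icc 0 T', ∀ n, |∑ i ∈ Finset.range n, Λ i * X i t| ≤ 2 * |M6| * 6 := by
      intro t ht n
      refine le_trans (Finset.abs_sum_le_sum_abs _ _) ?_
      have h1 : ∀ i ∈ Finset.range n, |Λ i * X i t| ≤ 2 * |M6| * (5 / 6 : ℝ) ^ i := by
        intro i _
        have hq := qs_one hQ i
        have hq0 : 0 < qs Q i := by linarith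
        have h2 : qs Q i ^ 6 * |X i t| ≤ |M6| := le_trans (hM6 t ht i) (le_abs_self _)
        have h3 : qs Q i ^ 5 * |X i t| ≤ |M6| * (5 / 6 : ℝ) ^ i := by
          have e : qs Q i ^ 5 * |X i t| = (qs Q i ^ 6 * |X i t|) * (1 / qs Q i) := by
            field_simp
          rw [e]
          exact mul_le_mul h2 (qs_inv hQ i) (by positivity) (by positivity)
        rw [abs_mul]
        calc |Λ i| * |X i t| ≤ (2 * qs Q i ^ 5) * |X i t| :=
              mul_le_mul_of_nonneg_right (hlam i) (abs_nonneg _)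
          _ = 2 * (qs Q i ^ 5 * |X i t|) := by ring
          _ ≤ 2 * (|M6| * (5 / 6 : ℝ) ^ i) := by linarith
          _ = 2 * |M6| * (5 / 6 : ℝ) ^ i := by ring
      refine le_trans (Finset.sum_le_sum h1) ?_
      rw [← Finset.mul_sum]
      refine mul_le_mul_of_nonneg_left ?_ (by positivity)
      calc ∑ i ∈ Finset.range n, (5 / 6 : ℝ) ^ i ≤ ∑' i : ℕ, (5 / 6 : ℝ) ^ i :=
            geo_summable.sum_le_tsum _ (fun i _ => by positivity)
        _ = 6 := by rw [tsum_geometric_of_lt_one (by norm_num) (by norm_num)]; norm_num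
    refine ⟨M * 6 + |Mk| * (2 * |M6| * 6) + |ν| * |Mk| + |Mk| * |M0|, fun t ht i n => ?_⟩
    have hq := qs_one hQ n
    have hqk : 0 ≤ qs Q n ^ k := by positivity
    have hp1 : 0 ≤ M * 6 := by positivity
    have hp2 : 0 ≤ |Mk| * (2 * |M6| * 6) := by positivity
    have hp3 : 0 ≤ |ν| * |Mk| := by positivity
    have hp4 : 0 ≤ |Mk| * |M0| := by positivity
    fin_cases i
    · show qs Q n ^ k * |∑' m, X (n + m) t ^ 2| ≤ _
      have h1 : ∀ m, qs Q n ^ k * X (n + m) t ^ 2 ≤ M * (5 / 6 : ℝ) ^ m := by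
        intro m
        have h2 := hM t ht (n + m)
        have h3 : qs Q n ^ k ≤ qs Q (n + m) ^ k :=
          pow_le_pow_left₀ (by linarith) (qs_mono hQ (Nat.le_add_right n m)) k
        have e : |X (n + m) t * X (n + m) t| = X (n + m) t ^ 2 := by
          rw [← sq, abs_of_nonneg (sq_nonneg _)]
        rw [e] at h2
        calc qs Q n ^ k * X (n + m) t ^ 2 ≤ qs Q (n + m) ^ k * X (n + m) t ^ 2 :=
              mul_le_mul_of_nonneg_right h3 (sq_nonneg _)
          _ ≤ M * (5 / 6 : ℝ) ^ (n + m) := h2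
          _ ≤ M * (5 / 6 : ℝ) ^ m := mul_le_mul_of_nonneg_left
              (pow_le_pow_of_le_one (by norm_num) (by norm_num) (Nat.le_add_left m n)) hMn
      have hsum : Summable (fun m => qs Q n ^ k * X (n + m) t ^ 2) :=
        Summable.of_nonneg_of_le (fun m => by positivity) h1 (geo_summable.mul_left M)
      have h4 : |∑' m, X (n + m) t ^ 2| = ∑' m, X (n + m) t ^ 2 :=
        abs_of_nonneg (tsum_nonneg fun m => sq_nonneg _)
      rw [h4, ← tsum_mul_left]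
      have h5 : ∑' m, qs Q n ^ k * X (n + m) t ^ 2 ≤ ∑' m : ℕ, M * (5 / 6 : ℝ) ^ m :=
        hsum.tsum_le_tsum h1 (geo_summable.mul_left M)
      have h7 : ∑' m : ℕ, M * (5 / 6 : ℝ) ^ m = M * 6 := by
        rw [tsum_mul_left, tsum_geometric_of_lt_one (by norm_num) (by norm_num)]
        norm_num
      rw [h7] at h5
      linarith
    · show qs Q n ^ k * |X n t * ∑ i ∈ Finset.range n, Λ i * X i t| ≤ _
      rw [abs_mul]
      have h1 := hMk' t ht n
      have h2 := hS t ht n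
      calc qs Q n ^ k * (|X n t| * |∑ i ∈ Finset.range n, Λ i * X i t|)
          = (qs Q n ^ k * |X n t|) * |∑ i ∈ Finset.range n, Λ i * X i t| := by ring
        _ ≤ |Mk| * (2 * |M6| * 6) := mul_le_mul h1 h2 (abs_nonneg _) (abs_nonneg _)
        _ ≤ _ := by linarith
    · show qs Q n ^ k * |-(ν * X n t)| ≤ _
      rw [abs_neg, abs_mul]
      have h1 := hMk' t ht n
      calc qs Q n ^ k * (|ν| * |X n t|) = |ν| * (qs Q n ^ k * |X n t|) := by ring
        _ ≤ |ν| * |Mk| := mul_le_mul_of_nonneg_left h1 (abs_nonneg _)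
        _ ≤ _ := by linarith
    · show qs Q n ^ k * |X n t * X (n + 1) t| ≤ _
      rw [abs_mul]
      have h1 := hMk' t ht n
      have h2 := hM0' t ht (n + 1)
      calc qs Q n ^ k * (|X n t| * |X (n + 1) t|) = (qs Q n ^ k * |X n t|) * |X (n + 1) t| := by
            ring
        _ ≤ |Mk| * |M0| := mul_le_mul h1 h2 (abs_nonneg _) (abs_nonneg _)
        _ ≤ _ := by linarith

end Pool.Agent.N976.UE
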