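import Pool.Agent.N976.UE.Main4
import Pool.Agent.N976.UE.X
import Pool.Agent.N976.UE.Y1
import Pool.Agent.N976.UE.Y2
import Pool.Agent.N976.UE.Y3
import Pool.Agent.N976.UE.Y4
import Pool.Agent.N976.UE.Y5
import Pool.Agent.N976.UE.Z05
import Pool.Agent.N976.UE.Z1
import Pool.Agent.N976.UE.Z2
import Pool.Agent.N976.UE.Z34
import Pool.Agent.N976.UE.Z6

/-! All the steps together. -/

set_option autoImplicit false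

namespace Pool.Agent.N976.UE

theorem all : (S_X ∧ S_Y3 ∧ S_Y4 ∧ S_Y5) ∧ S_Z0 ∧ S_Z1 ∧ S_Z2 ∧ S_Z3 ∧ S_Z4 ∧ S_Z5 ∧ S_Z6 :=
  ⟨⟨t_X, t_Y3 t_Y1 t_Y2, t_Y4, t_Y5⟩, t_Z0, t_Z1, t_Z2, t_Z3, t_Z4, t_Z5, t_Z6⟩

end Pool.Agent.N976.UE
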