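import Pool.Agent.N976.EN.LH
import Pool.Agent.N976.UE.Def

/-! The Leray-Hopf solution in an open set. -/

open Set Filter Topology MeasureTheory
open scoped ContDiff InnerProductSpace

set_option autoImplicit false

namespace Pool.Agent.N976.UE

open Pool.Agent.N976.SC Pool.Agent.N976.EN
open Pool.Agent.N976.DI (mv Con)
open H772R2.NS (jac IsTest L2V L2M L2sigma H1graph M3)

theorem lhO (hZ5 : S_Z5) {ι : Type} {ε ν T : ℝ} {r : ι → E3 → E3} {f U : ℝ → E3 → E3}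
    (hν : 0 < ν) (hε : 0 < ε) (hr : ∀ i, ContDiff ℝ ∞ (r i)) (hr1 : ∀ i y, 1 ≤ ‖y‖ → r i y = 0)
    (hU : ∀ t ∈ Ico 0 T, ∀ y, 1 / 2 ≤ ‖y‖ → U t y = 0) (hf : ∀ t y, 1 / 2 ≤ ‖y‖ → f t y = 0)
    (hF : FlowF univ ν T r f U) (hC : Conc ε ν T f U) {Ω : Set E3} {x₀ : E3} {ℓ : ℝ}
    (hℓ : 0 < ℓ) (hΩ : IsOpen Ω) (hb : Metric.closedBall x₀ ℓ ⊆ Ω) :
    ContDiffOn ℝ ∞ (fun z : ℝ × E3 => ℓ⁻¹ • U (z.1 / ℓ ^ 2) (ℓ⁻¹ • (z.2 - x₀)))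
      (Ico 0 (ℓ ^ 2 * T) ×ˢ univ) ∧
    ∃ (u : ℝ → L2V Ω) (G : ℝ → L2M Ω), CLH Ω ν (ℓ ^ 2 * T) (Pool.Agent.N976.DI.cf x₀ ℓ r)
        (fun t x => (ℓ⁻¹) ^ 3 • f (t / ℓ ^ 2) (ℓ⁻¹ • (x - x₀))) u G ∧
      (∀ t ∈ Ico 0 (ℓ ^ 2 * T),
        u t =ᵐ[volume.restrict Ω] (fun x => ℓ⁻¹ • U (t / ℓ ^ 2) (ℓ⁻¹ • (x - x₀))) ∧
        G t =ᵐ[volume.restrict Ω] jac (fun x => ℓ⁻¹ • U (t / ℓ ^ 2) (ℓ⁻¹ • (x - x₀))) ∧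
        ‖u t‖ ^ 2 / 2 + ν * (∫ s in (0 : ℝ)..t, ‖G s‖ ^ 2)
          = ‖u 0‖ ^ 2 / 2 + ∫ s in (0 : ℝ)..t, ∫ x in Ω,
            ⟪(ℓ⁻¹) ^ 3 • f (s / ℓ ^ 2) (ℓ⁻¹ • (x - x₀)), u s x⟫_ℝ) ∧
      ‖u (ℓ ^ 2 * T)‖ ^ 2 ≤ ε * ‖u 0‖ ^ 2 ∧
      ν * (∫ s in (0 : ℝ)..(ℓ ^ 2 * T), ‖G s‖ ^ 2) ≤ ε * ‖u 0‖ ^ 2 ∧
      |∫ s in (0 : ℝ)..(ℓ ^ 2 * T), ∫ x in Ω,
        ⟪(ℓ⁻¹) ^ 3 • f (s / ℓ ^ 2) (ℓ⁻¹ • (x - x₀)), u s x⟫_ℝ| ≤ ε * ‖u 0‖ ^ 2 ∧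
      (Bornology.IsBounded Ω → ∀ (u' : ℝ → L2V Ω) (G' : ℝ → L2M Ω),
        CLH Ω ν (ℓ ^ 2 * T) (Pool.Agent.N976.DI.cf x₀ ℓ r)
          (fun t x => (ℓ⁻¹) ^ 3 • f (t / ℓ ^ 2) (ℓ⁻¹ • (x - x₀))) u' G' →
        u' 0 =ᵐ[volume.restrict Ω] (fun x => ℓ⁻¹ • U (0 / ℓ ^ 2) (ℓ⁻¹ • (x - x₀))) →
        (∀ t ∈ Icc 0 (ℓ ^ 2 * T), u' t = u t) ∧
          ∀ᵐ t ∂(volume.restrict (Ioc 0 (ℓ ^ 2 * T))), G' t = G t) := by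
  obtain ⟨h1, h2⟩ := hZ5 ι ε ν T r f U hν hr hr1 hU hf hF hC Ω x₀ ℓ hℓ hΩ hb
  have hi : 0 < ℓ⁻¹ := inv_pos.2 hℓ
  have hcfo : ∀ i x, x ∉ Metric.closedBall x₀ ℓ → Pool.Agent.N976.DI.cf x₀ ℓ r i x = 0 := by
    intro i x hx
    unfold Pool.Agent.N976.DI.cf
    apply hr1
    rw [Metric.mem_closedBall, dist_eq_norm, not_le] at hx
    rw [norm_smul, Real.norm_eq_abs, abs_of_pos hi]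
    rw [inv_mul_eq_div, le_div_iff₀ hℓ]
    linarith
  have hcfc : ∀ i, Continuous (Pool.Agent.N976.DI.cf x₀ ℓ r i) := by
    intro i
    have h3 : Continuous fun x : E3 => ℓ⁻¹ • (x - x₀) := by fun_prop
    exact (hr i).continuous.comp h3
  have hts : ∀ i, tsupport (Pool.Agent.N976.DI.cf x₀ ℓ r i) ⊆ Metric.closedBall x₀ ℓ := by
    intro i
    refine closure_minimal ?_ Metric.isClosed_closedBall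
    intro x hx
    by_contra h
    exact hx (hcfo i x h)
  have hcs : ∀ i, HasCompactSupport (Pool.Agent.N976.DI.cf x₀ ℓ r i) := fun i =>
    (isCompact_closedBall x₀ ℓ).of_isClosed_subset (isClosed_tsupport _) (hts i)
  exact ⟨h1.sm, lh hΩ hν hε hcfc hcs (fun i => (hts i).trans hb) h1 h2⟩

end Pool.Agent.N976.UE
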