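import Pool.Agent.N976.UE.Main
import Pool.Agent.N976.UE.LHO

/-! The main theorems without force. -/

open Set Filter Topology MeasureTheory
open scoped ContDiff InnerProductSpace

set_option autoImplicit false

namespace Pool.Agent.N976.UE

open Pool.Agent.N976.SC Pool.Agent.N976.EN
open H772R2.NS (jac IsTest L2V L2M L2sigma H1graph M3)

namespace Main

lemma ip_zero_right (v : E3 → E3) : ip v (fun _ => 0) = 0 := by unfold ip; simp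

theorem conc (hZ1 : S_Z1) (hZ2 : S_Z2) (hZ3 : S_Z3) (hZ4 : S_Z4) {ε ε₁ ν β lam N : ℝ}
    {q Λ b V γ : ℕ → ℝ} {P : ℕ → E3 → E3} {r : Fin 4 × ℕ → E3 → E3} {T A : ℝ} {X : ℕ → ℝ → ℝ}
    (h : Fu ε₁ ν β lam N q Λ b V γ P r T A X) (h8 : 8 * ε₁ ≤ ε) (h18 : ε₁ ≤ 1 / 8) :
    Conc ε ν T (fun _ _ => 0) (gU P X) := by
  obtain ⟨e1, e2, -⟩ := energy hZ1 hZ2 hZ3 h
  have hN := h.tab.N0
  have hA := h.A0
  have hε := h.ε0
  have hE : 0 < N * A ^ 2 := by positivity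
  have e0 := e1 0 ⟨le_rfl, h.T0⟩
  have b0 : 0 ≤ ip (gU P X 0) (gU P X 0) := by
    refine le_trans ?_ e0.1
    have : 0 ≤ 1 - ε₁ := by linarith
    positivity
  have b1 : 8 * ε₁ * ((1 - ε₁) * (N * A ^ 2)) ≤ ε * ip (gU P X 0) (gU P X 0) :=
    mul_le_mul h8 e0.1 (by have : 0 ≤ 1 - ε₁ := by linarith
                           positivity) (by linarith)
  have b2 : 4 * ε₁ * (N * A ^ 2) ≤ 8 * ε₁ * ((1 - ε₁) * (N * A ^ 2)) := by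
    have : 0 < ε₁ * (N * A ^ 2) := by positivity
    nlinarith
  refine ⟨?_, ?_, ?_⟩
  · intro t ht
    have k1 := (e2 t ht).2
    have k2 := e1 t ht
    have b3 : 0 < ε₁ * (N * A ^ 2) := by positivity
    nlinarith
  · intro t ht
    simp only [ip_zero_right, intervalIntegral.integral_zero, abs_zero]
    have : 0 ≤ (1 - ε₁) * (N * A ^ 2) := by nlinarith
    nlinarith
  · intro v hv
    obtain ⟨c, h1, h2⟩ := hZ4 ε₁ ν β lam N q Λ b V γ P r T A X h v hv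
    refine ⟨c, h1, h2.trans ?_⟩
    have h3 : 0 ≤ ip v v := by
      unfold ip
      exact integral_nonneg fun y => real_inner_self_nonneg
    have h4 : 4 * ε₁ ^ 2 * A ^ 2 * N ≤ ε * ip (gU P X 0) (gU P X 0) := by
      have b4 : 4 * ε₁ ^ 2 * A ^ 2 * N = 4 * ε₁ * (N * A ^ 2) * ε₁ := by ring
      have b5 : 4 * ε₁ * (N * A ^ 2) * ε₁ ≤ 4 * ε₁ * (N * A ^ 2) * 1 :=
        mul_le_mul_of_nonneg_left (by linarith) (by positivity)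
      linarith
    exact mul_le_mul_of_nonneg_right h4 h3

end Main

open Main

theorem main_of (hX : S_X) (hY3 : S_Y3) (hY4 : S_Y4) (hY5 : S_Y5) (hZ0 : S_Z0) (hZ1 : S_Z1)
    (hZ2 : S_Z2) (hZ3 : S_Z3) (hZ6 : S_Z6) (ε R₀ : ℝ) (hε : 0 < ε) :
    ∃ (R T₀ : ℝ) (P : E3 → E3) (r : Fin 4 × ℕ → E3 → E3),
      R₀ ≤ R ∧ 1 < R ∧ 0 < T₀ ∧
      ContDiff ℝ ∞ P ∧ (∀ y, 1 ≤ ‖y‖ → P y = 0) ∧ (∀ y, divg P y = 0) ∧ 0 < ip P P ∧
      (∀ p, ContDiff ℝ ∞ (r p)) ∧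
      (∀ i n y, 1 ≤ R ^ ((6 / 5 : ℝ) ^ n) * ‖y‖ → r (i, n) y = 0) ∧
      ∀ ν : ℝ, 0 < ν → ∃ (u : ℝ → E3 → E3) (l : Fin 4 × ℕ → ℝ → ℝ),
        SolF ν r (fun _ _ => 0) (T₀ / ν) u ∧
        (∀ y, u 0 y = ν • P y) ∧
        ContDiffOn ℝ ∞ (fun z : ℝ × E3 => u z.1 z.2) (Ico 0 (T₀ / ν) ×ˢ univ) ∧
        (∀ t ∈ Ico 0 (T₀ / ν), ∀ y, 1 ≤ ‖y‖ → u t y = 0) ∧
        (∀ p, ContDiffOn ℝ ∞ (l p) (Ico 0 (T₀ / ν))) ∧
        (∀ k : ℕ, ∀ T' < T₀ / ν, ∃ M, ∀ t ∈ Icc 0 T', ∀ i n,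
          (R ^ ((6 / 5 : ℝ) ^ n)) ^ k * |l (i, n) t| ≤ M) ∧
        (∀ t ∈ Ico 0 (T₀ / ν), ∀ y, HasSum (fun p => l p t • r p y)
          (dt (T₀ / ν) u t y + adv (u t) (u t) y - ν • lap (u t) y)) ∧
        (∀ (T' : ℝ) (v : ℝ → E3 → E3), 0 < T' →
          SolF ν r (fun _ _ => 0) T' v → v 0 = u 0 →
          T' ≤ T₀ / ν ∧ ∀ t ∈ Ico 0 T', v t = u t) ∧
        (∀ t ∈ Ico 0 (T₀ / ν), IntervalIntegrable (fun s => dir (u s)) volume 0 t ∧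
          ip (u t) (u t) + 2 * (ν * ∫ s in (0 : ℝ)..t, dir (u s)) = ip (u 0) (u 0) ∧
          (1 - ε) * ip (u 0) (u 0) ≤ ip (u t) (u t)) ∧
        ∀ δ > 0, ∃ t₀ < T₀ / ν, ∀ t ∈ Ico t₀ (T₀ / ν), 0 ≤ t →
          ∫ y in {y : E3 | δ ≤ ‖y‖}, ‖u t y‖ ^ 2 ≤ ε * ip (u 0) (u 0) := by
  obtain ⟨Q, T₀, β, lam, ε₁, N, Λ, b, V, γ, P, P', r, he1, he2, he3, hQ4, hR, hR1, hT0, hP, hPo,
    hPd, hPn, hr, hro, h⟩ := pack hX hY3 hY4 hY5 hZ0 hZ1 hZ2 hZ3 ε R₀ hε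
  refine ⟨Q ^ (5 / 3 : ℝ), T₀, P', r, hR, hR1, hT0, hP, fun y hy => hPo y (by linarith), hPd,
    hPn, hr, hro, fun ν hν => ?_⟩
  obtain ⟨A, X, hD, hu0⟩ := h ν hν
  have hsol := sol hZ1 hZ2 hZ3 hD
  have hfl := flow hZ1 hZ2 hZ3 hD
  obtain ⟨e1, e2, e3⟩ := energy hZ1 hZ2 hZ3 hD
  obtain ⟨-, g2, -⟩ := hZ1 (T₀ / ν) (qs Q) Λ b V γ β lam N P r X hD.T0 hD.tab hD.q2 hD.qq hD.smr
  obtain ⟨l1, l2⟩ := hZ6 ν Q (T₀ / ν) Λ b V γ X hQ4 hD.T0 hD.cf hD.smr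
  have hN := hD.tab.N0
  have hA := hD.A0
  have hE : 0 < N * A ^ 2 := by positivity
  have e0 := e1 0 ⟨le_rfl, hD.T0⟩
  have hQ0 : 0 < Q := by linarith
  -- the constraint fields
  have hrc : ∀ p, Continuous (r p) := fun p => (hr p).continuous
  have hr1 : ∀ p y, 1 ≤ ‖y‖ → r p y = 0 := by
    rintro ⟨i, n⟩ y hy
    apply hro
    have : (1 : ℝ) ≤ (Q ^ (5 / 3 : ℝ)) ^ ((6 / 5 : ℝ) ^ n) :=
      Real.one_le_rpow hR1.le (by positivity)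
    nlinarith
  have hcs : ∀ v : E3 → E3, (∀ y, 1 ≤ ‖y‖ → v y = 0) → HasCompactSupport v := by
    intro v hv
    refine HasCompactSupport.of_support_subset_isCompact (isCompact_closedBall 0 1) ?_
    intro y hy
    rw [Metric.mem_closedBall, dist_zero_right]
    by_contra h
    exact hy (hv y (not_le.1 h).le)
  have hmax := t_K4 (Fin 4 × ℕ) ν (T₀ / ν) ((1 - ε₁) * (N * A ^ 2)) r (fun _ _ => 0) (gU P X)
    hν.le hD.T0 (by nlinarith) hrc (fun p => hcs _ (hr1 p)) (fun _ => continuous_const)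
    (fun _ => HasCompactSupport.zero) hsol (fun t ht => (e1 t ht).1)
    (fun δ hδ => by
      obtain ⟨t₀, h1, h2⟩ := e3 δ hδ
      refine ⟨t₀, h1, fun t ht h0 => (h2 t ht h0).trans ?_⟩
      have : 4 * ε₁ ^ 2 ≤ (1 - ε₁) / 2 := by nlinarith
      nlinarith)
  refine ⟨gU P X, fun p t => ly ν Λ (fun n => X n t) p, hsol, hu0, hfl.sm,
    fun t ht y hy => (g2 t ht).1 y (by linarith), l1, ?_, ?_, hmax, ?_, ?_⟩
  · intro k T' hT'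
    obtain ⟨M, hM⟩ := l2 (2 * k) T' hT'
    refine ⟨M, fun t ht i n => le_trans ?_ (hM t ht i n)⟩
    refine mul_le_mul_of_nonneg_right ?_ (abs_nonneg _)
    have hq1 : 1 ≤ qs Q n := (by linarith : (1 : ℝ) ≤ Q).trans (Core.qs_ge (by linarith) n)
    have e : (Q ^ (5 / 3 : ℝ)) ^ ((6 / 5 : ℝ) ^ n) = qs Q n ^ (5 / 3 : ℝ) := by
      unfold qs
      rw [← Real.rpow_mul hQ0.le, ← Real.rpow_mul hQ0.le, mul_comm]
    rw [e, pow_mul]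
    refine pow_le_pow_left₀ (by positivity) ?_ k
    rw [← Real.rpow_natCast]
    exact Real.rpow_le_rpow_of_exponent_le hq1 (by norm_num)
  · intro t ht y
    exact (resid hZ1 hZ2 hD ht).1 y
  · intro t ht
    obtain ⟨k1, k2⟩ := e2 t ht
    have k3 := e1 t ht
    refine ⟨k1, by linarith, ?_⟩
    have h0 : 0 ≤ ip (gU P X 0) (gU P X 0) := by
      refine le_trans ?_ e0.1
      have : 0 ≤ 1 - ε₁ := by linarith
      positivity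
    have a1 : (1 - ε) * ip (gU P X 0) (gU P X 0) ≤ (1 - 8 * ε₁) * ip (gU P X 0) (gU P X 0) :=
      mul_le_mul_of_nonneg_right (by linarith) h0
    have a2 : (1 - 8 * ε₁) * ip (gU P X 0) (gU P X 0) ≤
        (1 - 8 * ε₁) * ((1 + ε₁) * (N * A ^ 2)) :=
      mul_le_mul_of_nonneg_left e0.2 (by linarith)
    have a3 : (1 - 8 * ε₁) * ((1 + ε₁) * (N * A ^ 2)) ≤ (1 - ε₁) * (N * A ^ 2) := by
      rw [← mul_assoc]
      refine mul_le_mul_of_nonneg_right ?_ hE.le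
      nlinarith
    linarith [k3.1]
  · intro δ hδ
    obtain ⟨t₀, h1, h2⟩ := e3 δ hδ
    refine ⟨t₀, h1, fun t ht h0 => (h2 t ht h0).trans ?_⟩
    have : 4 * ε₁ ^ 2 ≤ ε * (1 - ε₁) := by nlinarith
    nlinarith

end Pool.Agent.N976.UE
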