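import Pool.Agent.N976.UE.Def

/-! Energy concentration without force: one more statement. -/

open Set Filter Topology MeasureTheory
open scoped ContDiff InnerProductSpace

set_option autoImplicit false

namespace Pool.Agent.N976.UE

open Pool.Agent.N976.SC Pool.Agent.N976.EN

/-- (Z6) The reaction coefficients are smooth in time and rapidly decreasing. -/
def S_Z6 : Prop := ∀ (ν Q T : ℝ) (Λ b V γ : ℕ → ℝ) (X : ℕ → ℝ → ℝ), 4 ≤ Q → 0 < T →
  Cf (qs Q) Λ b V γ → SmR (qs Q) T X →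
  (∀ p, ContDiffOn ℝ ∞ (fun t => ly ν Λ (fun n => X n t) p) (Ico 0 T)) ∧
  ∀ k : ℕ, ∀ T' < T, ∃ M, ∀ t ∈ Icc 0 T', ∀ i n,
    qs Q n ^ k * |ly ν Λ (fun n => X n t) (i, n)| ≤ M

end Pool.Agent.N976.UE
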