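import Pool.Agent.N976.UE.Def2
import Pool.Agent.N976.EN.Core
import Pool.Agent.N976.EN.M5
import Pool.Agent.N976.EN.K4
import Pool.Agent.N976.SC.T13

/-! The main theorem without force. -/

open Set Filter Topology MeasureTheory
open scoped ContDiff InnerProductSpace

set_option autoImplicit false

namespace Pool.Agent.N976.UE

open Pool.Agent.N976.SC Pool.Agent.N976.EN
open H772R2.NS (L2V)

namespace Main

lemma sp_two (P : ℕ → E3 → E3) (a : ℕ → ℝ) (h : ∀ n, a (n + 2) = 0) (y : E3) :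
    sp P a y = a 0 • P 0 y + a 1 • P 1 y := by
  unfold sp
  rw [tsum_eq_sum (s := Finset.range 2)]
  · rw [Finset.sum_range_succ, Finset.sum_range_one]
  · intro n hn
    rw [Finset.mem_range, not_lt] at hn
    obtain ⟨k, rfl⟩ : ∃ k, n = k + 2 := ⟨n - 2, by omega⟩
    rw [h, zero_smul]

section

variable {ε ν β lam N : ℝ} {q Λ b V γ : ℕ → ℝ} {P : ℕ → E3 → E3} {r : Fin 4 × ℕ → E3 → E3}
  {T A : ℝ} {X : ℕ → ℝ → ℝ}

lemma b_pos (h : Fu ε ν β lam N q Λ b V γ P r T A X) (n : ℕ) : 3 / 4 ≤ b n ∧ b n ≤ 5 / 4 := by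
  have h1 := h.cf.bb n
  have h2 := h.q2 n
  have h3 : 1 / q n ≤ 1 / 4 := one_div_le_one_div_of_le (by norm_num) h2
  rw [abs_le] at h1
  constructor <;> linarith [h1.1, h1.2]

lemma rap0 (h : Fu ε ν β lam N q Λ b V γ P r T A X) {t : ℝ} (ht : t ∈ Ico 0 T) :
    ∀ k : ℕ, ∃ M, ∀ n, q n ^ k * |X n t| ≤ M := by
  obtain ⟨y, rfl, hy, -⟩ := h.smr
  intro k
  obtain ⟨M, hM⟩ := hy 0 k t ht.2
  exact ⟨M, fun n => hM t ⟨ht.1, le_rfl⟩ n⟩

lemma rap1 (h : Fu ε ν β lam N q Λ b V γ P r T A X) {t : ℝ} (ht : t ∈ Ico 0 T) :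
    ∀ k : ℕ, ∃ M, ∀ n, q n ^ k * |derivWithin (X n) (Ico 0 T) t| ≤ M := by
  obtain ⟨y, rfl, hy, hd⟩ := h.smr
  intro k
  obtain ⟨M, hM⟩ := hy 1 k t ht.2
  refine ⟨M, fun n => ?_⟩
  rw [(hd 0 n t ht).derivWithin (uniqueDiffOn_Ico 0 T t ht)]
  exact hM t ⟨ht.1, le_rfl⟩ n

lemma der (h : Fu ε ν β lam N q Λ b V γ P r T A X) {t : ℝ} (ht : t ∈ Ico 0 T) (n : ℕ) :
    derivWithin (X n) (Ico 0 T) t =
      -(ν * lam * V n * X n t) + β * b n * yq Λ γ (fun m => X m t) n :=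
  (h.ode n t ht).derivWithin (uniqueDiffOn_Ico 0 T t ht)

lemma smU (hZ1 : S_Z1) (h : Fu ε ν β lam N q Λ b V γ P r T A X) {t : ℝ} (ht : t ∈ Ico 0 T) :
    ContDiff ℝ ∞ (gU P X t) := by
  have h1 := (hZ1 T q Λ b V γ β lam N P r X h.T0 h.tab h.q2 h.qq h.smr).1
  have h2 : ContDiff ℝ ∞ (fun y : E3 => ((t, y) : ℝ × E3)) := contDiff_const.prodMk contDiff_id
  have h3 := h1.comp (h2.contDiffOn (s := univ)) (fun y _ => ⟨ht, mem_univ _⟩)
  exact contDiffOn_univ.1 h3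

/-- The residual. -/
lemma resid (hZ1 : S_Z1) (hZ2 : S_Z2) (h : Fu ε ν β lam N q Λ b V γ P r T A X) {t : ℝ}
    (ht : t ∈ Ico 0 T) :
    (∀ y, HasSum (fun p => ly ν Λ (fun n => X n t) p • r p y)
      (dt T (gU P X) t y + adv (gU P X t) (gU P X t) y - ν • lap (gU P X t) y)) ∧
    ∀ v : E3 → E3, LocallyIntegrable v volume → (∀ p, ip v (r p) = 0) →
      ip v (fun y => dt T (gU P X) t y + adv (gU P X t) (gU P X t) y
        - ν • lap (gU P X t) y) = 0 := by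
  obtain ⟨-, h1, -⟩ := hZ1 T q Λ b V γ β lam N P r X h.T0 h.tab h.q2 h.qq h.smr
  have e : ∀ y, dt T (gU P X) t y = sp P (fun n => derivWithin (X n) (Ico 0 T) t) y :=
    (h1 t ht).2.2
  obtain ⟨k1, k2⟩ := hZ2 ν q Λ b V γ β lam N P r h.tab h.cf h.q2 h.qq (fun n => X n t)
    (fun n => derivWithin (X n) (Ico 0 T) t) (rap0 h ht) (rap1 h ht) (der h ht)
  simp only [e]
  exact ⟨k1, k2⟩

lemma fld_li {w : E3 → E3} (hw : Fld w) : LocallyIntegrable w volume :=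
  hw.smooth.continuous.locallyIntegrable

/-- The flow is a solution. -/
theorem sol (hZ1 : S_Z1) (hZ2 : S_Z2) (hZ3 : S_Z3)
    (h : Fu ε ν β lam N q Λ b V γ P r T A X) : SolF ν r (fun _ _ => 0) T (gU P X) := by
  obtain ⟨h1, h2, h3⟩ := hZ1 T q Λ b V γ β lam N P r X h.T0 h.tab h.q2 h.qq h.smr
  refine ⟨h1.of_le (by exact_mod_cast le_top), fun t ht => smU hZ1 h ht,
    fun t ht => (h2 t ht).2.1, h3, ?_, ?_⟩
  · intro t ht i
    exact (hZ3 q Λ b V γ β lam N P r h.tab h.cf h.q2 h.qq (fun n => X n t) (rap0 h ht)).2.1 i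
  · intro t ht w hw hc
    rw [T4.ip_comm]
    simp only [sub_zero]
    exact (resid hZ1 hZ2 h ht).2 w (fld_li hw) hc

theorem flow (hZ1 : S_Z1) (hZ2 : S_Z2) (hZ3 : S_Z3)
    (h : Fu ε ν β lam N q Λ b V γ P r T A X) :
    FlowF univ ν T r (fun _ _ => 0) (gU P X) := by
  obtain ⟨h1, h2, h3⟩ := hZ1 T q Λ b V γ β lam N P r X h.T0 h.tab h.q2 h.qq h.smr
  have hs := sol hZ1 hZ2 hZ3 h
  refine ⟨h.T0, h1, contDiff_const, ⟨Metric.closedBall 0 (1 / 2), isCompact_closedBall _ _,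
    subset_univ _, ?_, fun _ _ _ => rfl⟩, hs.div, hs.con, ?_⟩
  · intro t ht x hx
    rw [Metric.mem_closedBall, dist_zero_right, not_le] at hx
    exact (h2 t ht).1 x hx.le
  · intro t ht v hv
    have key : ∀ g : E3 → E3, MemLp g 2 (volume.restrict univ) → MemLp g 2 volume := by
      intro g hg
      rwa [Measure.restrict_univ] at hg
    have hv2 : MemLp (v : E3 → E3) 2 volume := key _ (Lp.memLp v)
    have hli : LocallyIntegrable (v : E3 → E3) volume := hv2.locallyIntegrable (by norm_num)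
    have hc : ∀ p, ip (v : E3 → E3) (r p) = 0 := by
      intro p
      have := hv p
      rwa [setIntegral_univ] at this
    have h4 := (resid hZ1 hZ2 h ht).2 v hli hc
    rw [setIntegral_univ]
    simp only [sub_zero]
    exact h4

/-- Energy. -/
theorem energy (hZ1 : S_Z1) (hZ2 : S_Z2) (hZ3 : S_Z3)
    (h : Fu ε ν β lam N q Λ b V γ P r T A X) :
    (∀ t ∈ Ico 0 T, (1 - ε) * (N * A ^ 2) ≤ ip (gU P X t) (gU P X t) ∧
      ip (gU P X t) (gU P X t) ≤ (1 + ε) * (N * A ^ 2)) ∧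
    (∀ t ∈ Ico 0 T, IntervalIntegrable (fun s => dir (gU P X s)) volume 0 t ∧
      2 * (ν * ∫ s in (0 : ℝ)..t, dir (gU P X s)) =
        ip (gU P X 0) (gU P X 0) - ip (gU P X t) (gU P X t)) ∧
    ∀ δ > 0, ∃ t₀ < T, ∀ t ∈ Ico t₀ T, 0 ≤ t →
      ∫ y in {y : E3 | δ ≤ ‖y‖}, ‖gU P X t y‖ ^ 2 ≤ 4 * ε ^ 2 * (N * A ^ 2) := by
  have hN := h.tab.N0
  have hA := h.A0
  have hε := h.ε0
  have hs := sol hZ1 hZ2 hZ3 h
  obtain ⟨e1, e2⟩ := t_ENF (Fin 4 × ℕ) ν T r (fun _ _ => 0) (gU P X) h.ν0.le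
    (fun _ => continuous_const) (fun _ => HasCompactSupport.zero) hs
  have ip0 : ∀ v : E3 → E3, ip v (fun _ => 0) = 0 := by
    intro v; unfold ip; simp
  simp only [ip0, mul_zero, add_zero] at e2
  have hdir : ∀ v : E3 → E3, 0 ≤ dir v := by
    intro v
    unfold dir
    exact integral_nonneg fun y => Finset.sum_nonneg fun i _ => by positivity
  refine ⟨?_, ?_, ?_⟩
  · intro t ht
    obtain ⟨k1, -, -⟩ := hZ3 q Λ b V γ β lam N P r h.tab h.cf h.q2 h.qq (fun n => X n t)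
      (rap0 h ht)
    have k2 : ip (gU P X t) (gU P X t) = N * ∑' n, X n t ^ 2 / b n := k1
    rw [k2]
    have k3 := h.low t ht
    have k4 := h.upp t ht
    constructor <;> nlinarith
  · intro t ht
    have hc : ContinuousOn (fun s => -ip (gU P X s) (gU P X s)) (Icc 0 t) :=
      (e1.mono (fun s hs => ⟨hs.1, hs.2.trans_lt ht.2⟩)).neg
    have hd : ∀ s ∈ Ioo 0 t, HasDerivAt (fun s => -ip (gU P X s) (gU P X s))
        (2 * (ν * dir (gU P X s))) s := by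
      intro s hs
      have := (e2 s ⟨hs.1, hs.2.trans ht.2⟩).neg
      rwa [neg_neg] at this
    have hi : IntervalIntegrable (fun s => 2 * (ν * dir (gU P X s))) volume 0 t := by
      rw [intervalIntegrable_iff_integrableOn_Ioc_of_le ht.1]
      exact intervalIntegral.integrableOn_deriv_of_nonneg hc hd fun s _ => by
        have := hdir (gU P X s); have := h.ν0; positivity
    have hi2 : IntervalIntegrable (fun s => dir (gU P X s)) volume 0 t := by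
      have h3 := hi.const_mul (1 / (2 * ν))
      refine h3.congr fun s _ => ?_
      have := h.ν0
      show 1 / (2 * ν) * (2 * (ν * dir (gU P X s))) = dir (gU P X s)
      field_simp
    refine ⟨hi2, ?_⟩
    have h4 := intervalIntegral.integral_eq_sub_of_hasDerivAt_of_le ht.1 hc hd hi
    rw [intervalIntegral.integral_const_mul, intervalIntegral.integral_const_mul] at h4
    rw [h4]
    ring
  · intro δ hδ
    -- only finitely many packets are felt outside of the ball of radius `δ`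
    obtain ⟨n₀, hn₀⟩ : ∃ n₀, ∀ n ≥ n₀, 1 / 2 ≤ q n ^ 2 * δ := by
      have hq : ∀ n : ℕ, (n : ℝ) + 1 ≤ q n := by
        intro n
        induction n with
        | zero => have := h.q2 0; push_cast; linarith
        | succ n ih => have := h.qq n; have := h.q2 n; push_cast; linarith
      obtain ⟨n₀, hn₀⟩ := exists_nat_ge (1 / δ)
      refine ⟨n₀, fun n hn => ?_⟩
      have h1 := hq n
      have h2 : (n₀ : ℝ) ≤ n := by exact_mod_cast hn
      have h3 : 1 / δ ≤ q n := by linarith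
      rw [div_le_iff₀ hδ] at h3
      nlinarith [h.q2 n]
    choose τ hτ1 hτ2 using h.left
    obtain ⟨t₀, ht0, ht1⟩ : ∃ t₀ < T, ∀ n < n₀, τ n ≤ t₀ := by
      clear hn₀
      induction n₀ with
      | zero => exact ⟨T - 1, by linarith, fun n hn => absurd hn (Nat.not_lt_zero n)⟩
      | succ n ih =>
        obtain ⟨t₀, k1, k2⟩ := ih
        refine ⟨max t₀ (τ n), max_lt k1 (hτ1 n), fun m hm => ?_⟩
        rcases Nat.lt_succ_iff_lt_or_eq.1 hm with h' | rfl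
        · exact (k2 m h').trans (le_max_left _ _)
        · exact le_max_right _ _
    refine ⟨t₀, ht0, fun t ht h0 => ?_⟩
    have htm : t ∈ Ico 0 T := ⟨h0, ht.2⟩
    obtain ⟨-, -, k3⟩ := hZ3 q Λ b V γ β lam N P r h.tab h.cf h.q2 h.qq (fun n => X n t)
      (rap0 h htm)
    refine (k3 δ n₀ hδ hn₀).trans ?_
    have k4 : ∑ n ∈ Finset.range n₀, X n t ^ 2 ≤ 2 * (A ^ 2 * ε ^ 2) := by
      have k5 : ∀ n ∈ Finset.range n₀, X n t ^ 2 ≤ A ^ 2 * ε ^ 2 * (1 / 2) ^ n := by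
        intro n hn
        have k6 := hτ2 n t ⟨(ht1 n (Finset.mem_range.1 hn)).trans ht.1, ht.2⟩
        have k7 : X n t ^ 2 ≤ (A * (ε / 2 ^ n)) ^ 2 := by
          rw [← sq_abs]
          exact pow_le_pow_left₀ (abs_nonneg _) k6 2
        refine k7.trans ?_
        have k8 : (A * (ε / 2 ^ n)) ^ 2 = A ^ 2 * ε ^ 2 * ((1 / 2) ^ n * (1 / 2) ^ n) := by
          rw [div_eq_mul_one_div ε, ← one_div_pow]; ring
        rw [k8]
        have k9 : (1 / 2 : ℝ) ^ n ≤ 1 := pow_le_one₀ (by norm_num) (by norm_num)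
        have k10 : (0 : ℝ) < (1 / 2) ^ n := by positivity
        have : (1 / 2 : ℝ) ^ n * (1 / 2) ^ n ≤ (1 / 2) ^ n := by nlinarith
        exact mul_le_mul_of_nonneg_left this (by positivity)
      refine (Finset.sum_le_sum k5).trans ?_
      rw [← Finset.mul_sum]
      have k11 : ∑ n ∈ Finset.range n₀, (1 / 2 : ℝ) ^ n ≤ 2 := by
        refine (Summable.sum_le_tsum _ (fun n _ => by positivity)
          (summable_geometric_of_lt_one (by norm_num) (by norm_num))).trans ?_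
        rw [tsum_geometric_of_lt_one (by norm_num) (by norm_num)]
        norm_num
      have : 0 < A ^ 2 * ε ^ 2 := by positivity
      nlinarith
    nlinarith

end

/-- The data for all viscosities. -/
theorem pack (hX : S_X) (hY3 : S_Y3) (hY4 : S_Y4) (hY5 : S_Y5) (hZ0 : S_Z0) (hZ1 : S_Z1)
    (hZ2 : S_Z2) (hZ3 : S_Z3) (ε R₀ : ℝ) (hε : 0 < ε) :
    ∃ (Q T₀ β lam ε₁ N : ℝ) (Λ b V γ : ℕ → ℝ) (P : ℕ → E3 → E3) (P' : E3 → E3)
      (r : Fin 4 × ℕ → E3 → E3), 0 < ε₁ ∧ ε₁ ≤ 1 / 8 ∧ 8 * ε₁ ≤ ε ∧ 4 ≤ Q ∧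
      R₀ ≤ Q ^ (5 / 3 : ℝ) ∧ 1 < Q ^ (5 / 3 : ℝ) ∧ 0 < T₀ ∧
      ContDiff ℝ ∞ P' ∧ (∀ y, 1 / 2 ≤ ‖y‖ → P' y = 0) ∧ (∀ y, divg P' y = 0) ∧ 0 < ip P' P' ∧
      (∀ p, ContDiff ℝ ∞ (r p)) ∧
      (∀ i n y, 1 ≤ (Q ^ (5 / 3 : ℝ)) ^ ((6 / 5 : ℝ) ^ n) * ‖y‖ → r (i, n) y = 0) ∧
      ∀ ν : ℝ, 0 < ν → ∃ (A : ℝ) (X : ℕ → ℝ → ℝ),
        Fu ε₁ ν β lam N (qs Q) Λ b V γ P r (T₀ / ν) A X ∧ ∀ y, gU P X 0 y = ν • P' y := by
  obtain ⟨Q₁, β, lam, N, hX⟩ := hX
  obtain ⟨ε₁, he1, he2, he3⟩ : ∃ ε₁ : ℝ, 0 < ε₁ ∧ ε₁ ≤ 1 / 8 ∧ 8 * ε₁ ≤ ε :=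
    ⟨min (1 / 8) (ε / 8), by positivity, min_le_left _ _, by
      have := min_le_right (1 / 8 : ℝ) (ε / 8); linarith⟩
  obtain ⟨Q₀, hY⟩ := hY3 ε₁ he1
  obtain ⟨Q, hQ⟩ : ∃ Q, Q = max (max Q₀ Q₁) (max (4 ^ 5) R₀) := ⟨_, rfl⟩
  have q1 : Q₀ ≤ Q := by rw [hQ]; exact (le_max_left _ _).trans (le_max_left _ _)
  have q2 : Q₁ ≤ Q := by rw [hQ]; exact (le_max_right _ _).trans (le_max_left _ _)
  have q3 : 4 ^ 5 ≤ Q := by rw [hQ]; exact (le_max_left _ _).trans (le_max_right _ _)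
  have q5 : R₀ ≤ Q := by rw [hQ]; exact (le_max_right _ _).trans (le_max_right _ _)
  have hQ4 : 4 ≤ Q := by linarith
  have hQ1 : 1 ≤ Q := by linarith
  have hQ0 : 0 < Q := by linarith
  obtain ⟨Λ, b, V, γ, P, r, hC, hT⟩ := hX Q q2
  obtain ⟨T, σ, x, hI⟩ := hY4 ε₁ Q Λ b V γ (by linarith) he1 hC (hY Q q1 Λ b V γ hC)
  have hS := hY5 ε₁ Q T Λ b V γ σ x (by linarith) hC hI
  have hg4 : ∀ n, 4 ≤ qs Q n := fun n => hQ4.trans (Core.qs_ge hQ1 n)
  have hst : ∀ n, 4 * qs Q n ≤ qs Q (n + 1) := Core.qs_step (by norm_num) hQ1 q3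
  have hβ := hT.β0
  have hlam := hT.lam0
  have hT0 := hI.T0
  have hRQ : Q ≤ Q ^ (5 / 3 : ℝ) := by
    calc Q = Q ^ (1 : ℝ) := (Real.rpow_one Q).symm
      _ ≤ Q ^ (5 / 3 : ℝ) := Real.rpow_le_rpow_of_exponent_le hQ1 (by norm_num)
  have hFu : ∀ ν : ℝ, 0 < ν → Fu ε₁ ν β lam N (qs Q) Λ b V γ P r (T / lam / ν) (ν * lam / β)
      (fun n t => ν * lam / β * x n (ν * lam * t)) := by
    intro ν hν
    have h2 := hZ0 ε₁ ν β lam N T (qs Q) Λ b V γ P r σ x he1 hν hT hC hg4 hst hI hS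
    have e : T / lam / ν = T / (ν * lam) := by rw [div_div, mul_comm lam ν]
    rw [e]
    exact h2
  have hini : ∀ ν : ℝ, 0 < ν → ∀ y, gU P (fun n t => ν * lam / β * x n (ν * lam * t)) 0 y =
      ν • ((lam / β) • (P 0 y + rr (qs Q) 0 • P 1 y)) := by
    intro ν hν y
    unfold gU
    have h3 : ∀ n, ν * lam / β * x (n + 2) (ν * lam * 0) = 0 := by
      intro n
      rw [mul_zero, hI.ini n, mul_zero]
    rw [sp_two P (fun n => ν * lam / β * x n (ν * lam * 0)) h3]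
    simp only [mul_zero, hI.ini0, hI.ini1, mul_one, smul_add, smul_smul]
    congr 2 <;> ring
  have hout : ∀ n y, 1 / 2 ≤ ‖y‖ → P n y = 0 := fun n y hy => by
    apply hT.out
    have := hg4 n
    nlinarith
  have hsmP : ContDiff ℝ ∞ (fun y => (lam / β) • (P 0 y + rr (qs Q) 0 • P 1 y)) :=
    T4.cd_sm ((hT.sm 0).add (T4.cd_sm (hT.sm 1) _)) _
  refine ⟨Q, T / lam, β, lam, ε₁, N, Λ, b, V, γ, P,
    fun y => (lam / β) • (P 0 y + rr (qs Q) 0 • P 1 y), r, he1, he2, he3, hQ4, q5.trans hRQ,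
    by linarith, by positivity, hsmP, ?_, ?_, ?_, hT.rsm, ?_, ?_⟩
  · intro y hy
    simp only [hout 0 y hy, hout 1 y hy, smul_zero, add_zero]
  · intro y
    have h1 := hFu 1 one_pos
    have h2 := (sol hZ1 hZ2 hZ3 h1).div 0 ⟨le_rfl, h1.T0⟩ y
    have e : gU P (fun n t => 1 * lam / β * x n (1 * lam * t)) 0 =
        fun y => (lam / β) • (P 0 y + rr (qs Q) 0 • P 1 y) := by
      ext1 y
      rw [hini 1 one_pos y, one_smul]
    rwa [e] at h2
  · have h1 := hFu 1 one_pos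
    have h2 := ((energy hZ1 hZ2 hZ3 h1).1 0 ⟨le_rfl, h1.T0⟩).1
    have e : gU P (fun n t => 1 * lam / β * x n (1 * lam * t)) 0 =
        fun y => (lam / β) • (P 0 y + rr (qs Q) 0 • P 1 y) := by
      ext1 y
      rw [hini 1 one_pos y, one_smul]
    rw [e] at h2
    have hN := hT.N0
    have hA := h1.A0
    have : 0 < (1 - ε₁) * (N * (1 * lam / β) ^ 2) := by
      have : 0 < 1 - ε₁ := by linarith
      positivity
    linarith
  · intro i n y hy
    rcases n with _ | n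
    · apply hT.rout0
      rw [pow_zero, Real.rpow_one] at hy
      have h1 : qs Q 0 = Q := by unfold qs; simp
      rw [h1]
      have h2 : Q ^ (5 / 3 : ℝ) ≤ Q ^ 2 := by
        rw [← Real.rpow_natCast]
        exact Real.rpow_le_rpow_of_exponent_le hQ1 (by norm_num)
      nlinarith [norm_nonneg y]
    · apply hT.rout
      rw [Core.qs_sq hQ0] at hy
      exact hy
  · intro ν hν
    exact ⟨ν * lam / β, fun n t => ν * lam / β * x n (ν * lam * t), hFu ν hν, hini ν hν⟩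

end Main

end Pool.Agent.N976.UE
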