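import Pool.Agent.N976.UE.Main2

/-! Leray-Hopf solutions without force which lose their energy. -/

open Set Filter Topology MeasureTheory
open scoped ContDiff InnerProductSpace

set_option autoImplicit false

namespace Pool.Agent.N976.UE

open Pool.Agent.N976.SC Pool.Agent.N976.EN
open H772R2.NS (jac IsTest L2V L2M L2sigma H1graph M3)

open Main

theorem mainLH_of (hX : S_X) (hY3 : S_Y3) (hY4 : S_Y4) (hY5 : S_Y5) (hZ0 : S_Z0) (hZ1 : S_Z1)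
    (hZ2 : S_Z2) (hZ3 : S_Z3) (hZ4 : S_Z4) (hZ5 : S_Z5) (ε R₀ : ℝ) (hε : 0 < ε) :
    ∃ (R T₀ : ℝ) (P : E3 → E3) (r : Fin 4 × ℕ → E3 → E3),
      R₀ ≤ R ∧ 1 < R ∧ 0 < T₀ ∧
      ContDiff ℝ ∞ P ∧ (∀ y, 1 ≤ ‖y‖ → P y = 0) ∧ (∀ y, divg P y = 0) ∧
      (∀ p, ContDiff ℝ ∞ (r p)) ∧
      (∀ i n y, 1 ≤ R ^ ((6 / 5 : ℝ) ^ n) * ‖y‖ → r (i, n) y = 0) ∧
      ∀ (Ω : Set E3) (x₀ : E3) (ℓ ν : ℝ), IsOpen Ω → 0 < ℓ → 0 < ν →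
        Metric.closedBall x₀ ℓ ⊆ Ω →
        ∃ (U : ℝ → E3 → E3) (u : ℝ → L2V Ω) (G : ℝ → L2M Ω),
        ContDiffOn ℝ ∞ (fun z : ℝ × E3 => U z.1 z.2) (Ico 0 (ℓ ^ 2 * (T₀ / ν)) ×ˢ univ) ∧
        (∀ x, U 0 x = (ν / ℓ) • P (ℓ⁻¹ • (x - x₀))) ∧
        CLH Ω ν (ℓ ^ 2 * (T₀ / ν)) (Pool.Agent.N976.DI.cf x₀ ℓ r) (fun _ _ => 0) u G ∧
        0 < ‖u 0‖ ∧
        (∀ t ∈ Ico 0 (ℓ ^ 2 * (T₀ / ν)), u t =ᵐ[volume.restrict Ω] U t ∧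
          G t =ᵐ[volume.restrict Ω] jac (U t) ∧
          ‖u t‖ ^ 2 / 2 + ν * (∫ s in (0 : ℝ)..t, ‖G s‖ ^ 2) = ‖u 0‖ ^ 2 / 2) ∧
        ‖u (ℓ ^ 2 * (T₀ / ν))‖ ^ 2 ≤ ε * ‖u 0‖ ^ 2 ∧
        ν * (∫ s in (0 : ℝ)..(ℓ ^ 2 * (T₀ / ν)), ‖G s‖ ^ 2) ≤ ε * ‖u 0‖ ^ 2 ∧
        (Bornology.IsBounded Ω → ∀ (u' : ℝ → L2V Ω) (G' : ℝ → L2M Ω),
          CLH Ω ν (ℓ ^ 2 * (T₀ / ν)) (Pool.Agent.N976.DI.cf x₀ ℓ r) (fun _ _ => 0) u' G' →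
          u' 0 =ᵐ[volume.restrict Ω] U 0 →
          (∀ t ∈ Icc 0 (ℓ ^ 2 * (T₀ / ν)), u' t = u t) ∧
            ∀ᵐ t ∂(volume.restrict (Ioc 0 (ℓ ^ 2 * (T₀ / ν)))), G' t = G t) := by
  obtain ⟨Q, T₀, β, lam, ε₁, N, Λ, b, V, γ, P, P', r, he1, he2, he3, hQ4, hR, hR1, hT0, hP, hPo,
    hPd, hPn, hr, hro, h⟩ := pack hX hY3 hY4 hY5 hZ0 hZ1 hZ2 hZ3 ε R₀ hε
  refine ⟨Q ^ (5 / 3 : ℝ), T₀, P', r, hR, hR1, hT0, hP, fun y hy => hPo y (by linarith), hPd,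
    hr, hro, fun Ω x₀ ℓ ν hΩ hℓ hν hb => ?_⟩
  obtain ⟨A, X, hD, hu0⟩ := h ν hν
  obtain ⟨-, g2, -⟩ := hZ1 (T₀ / ν) (qs Q) Λ b V γ β lam N P r X hD.T0 hD.tab hD.q2 hD.qq hD.smr
  have hr1 : ∀ p y, 1 ≤ ‖y‖ → r p y = 0 := by
    rintro ⟨i, n⟩ y hy
    apply hro
    have : (1 : ℝ) ≤ (Q ^ (5 / 3 : ℝ)) ^ ((6 / 5 : ℝ) ^ n) :=
      Real.one_le_rpow hR1.le (by positivity)
    nlinarith
  obtain ⟨k0, u, G, k1, k2, k3, k4, -, k6⟩ := lhO hZ5 hν hε hr hr1 (fun t ht => (g2 t ht).1)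
    (fun _ _ _ => rfl) (flow hZ1 hZ2 hZ3 hD) (conc hZ1 hZ2 hZ3 hZ4 hD he3 he2) hℓ hΩ hb
  simp only [smul_zero, inner_zero_left, integral_zero, intervalIntegral.integral_zero,
    add_zero] at k1 k2 k6
  have hT : 0 < ℓ ^ 2 * (T₀ / ν) := by positivity
  have hU0 : ∀ x, ℓ⁻¹ • gU P X (0 / ℓ ^ 2) (ℓ⁻¹ • (x - x₀)) =
      (ν / ℓ) • P' (ℓ⁻¹ • (x - x₀)) := by
    intro x
    rw [zero_div, hu0, smul_smul]
    congr 1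
    ring
  refine ⟨fun t x => ℓ⁻¹ • gU P X (t / ℓ ^ 2) (ℓ⁻¹ • (x - x₀)), u, G, k0, hU0, k1, ?_, k2, k3,
    k4, k6⟩
  -- the initial energy is positive
  rw [norm_pos_iff]
  intro h0
  have a1 := (k2 0 ⟨le_rfl, hT⟩).1
  have a2 : (fun x => ℓ⁻¹ • gU P X (0 / ℓ ^ 2) (ℓ⁻¹ • (x - x₀))) =ᵐ[volume.restrict Ω]
      fun _ => (0 : E3) := by
    refine a1.symm.trans ?_
    rw [h0]
    exact Lp.coeFn_zero _ _ _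
  have a3 : Continuous fun x : E3 => ℓ⁻¹ • gU P X (0 / ℓ ^ 2) (ℓ⁻¹ • (x - x₀)) := by
    simp only [hU0]
    have h3 : Continuous fun x : E3 => ℓ⁻¹ • (x - x₀) := by fun_prop
    exact (hP.continuous.comp h3).const_smul (ν / ℓ)
  have a4 := Measure.eqOn_open_of_ae_eq a2 hΩ a3.continuousOn continuousOn_const
  have a5 : ∀ y, P' y = 0 := by
    intro y
    by_cases hy : 1 / 2 ≤ ‖y‖
    · exact hPo y hy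
    · have hx : x₀ + ℓ • y ∈ Ω := by
        apply hb
        rw [Metric.mem_closedBall, dist_eq_norm, add_sub_cancel_left, norm_smul,
          Real.norm_eq_abs, abs_of_pos hℓ]
        nlinarith [not_le.1 hy]
      have a6 := a4 hx
      simp only [hU0] at a6
      have e : ℓ⁻¹ • (x₀ + ℓ • y - x₀) = y := by
        rw [add_sub_cancel_left, smul_smul, inv_mul_cancel₀ hℓ.ne', one_smul]
      rw [e, smul_eq_zero] at a6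
      rcases a6 with a6 | a6
      · exact absurd a6 (by positivity)
      · exact a6
  have a7 : ip P' P' = 0 := by
    unfold ip
    simp [a5]
  linarith

end Pool.Agent.N976.UE
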