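import Pool.Agent.N976.UE.Main3

/-! Leray-Hopf solutions without force: the final form. -/

open Set Filter Topology MeasureTheory
open scoped ContDiff InnerProductSpace

set_option autoImplicit false

namespace Pool.Agent.N976.UE

open Pool.Agent.N976.SC Pool.Agent.N976.EN
open Pool.Agent.N976.DI (mv Con)
open H772R2.NS (jac IsTest L2V L2M L2sigma H1graph M3)

/-- Constrained Leray-Hopf solutions without force. -/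
structure LH0 {ι : Type} (Ω : Set E3) (ν T : ℝ) (r : ι → E3 → E3)
    (u : ℝ → L2V Ω) (G : ℝ → L2M Ω) : Prop where
  bdd : ∃ M, ∀ t ∈ Icc 0 T, ‖u t‖ ≤ M
  sol : ∀ t ∈ Icc 0 T, u t ∈ L2sigma Ω
  con : ∀ t ∈ Icc 0 T, Con r (u t)
  wcont : ∀ v : L2V Ω, ContinuousOn (fun t => ⟪u t, v⟫_ℝ) (Icc 0 T)
  grad : ∀ᵐ t ∂(volume.restrict (Ioc 0 T)), (u t, G t) ∈ H1graph Ω
  gradL2 : MemLp G 2 (volume.restrict (Ioc 0 T))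
  eqn : ∀ v z, (v, z) ∈ H1graph Ω → Con r v → ∀ t ∈ Icc 0 T,
    ⟪u t, v⟫_ℝ - ⟪u 0, v⟫_ℝ = ∫ s in (0 : ℝ)..t, ((∫ x in Ω, ⟪u s x, mv (z x) (u s x)⟫_ℝ)
      - ν * ⟪G s, z⟫_ℝ)
  en : ∀ t ∈ Icc 0 T, ‖u t‖ ^ 2 / 2 + ν * (∫ s in (0 : ℝ)..t, ‖G s‖ ^ 2) ≤ ‖u 0‖ ^ 2 / 2

theorem lh0_iff {ι : Type} {Ω : Set E3} {ν T : ℝ} {r : ι → E3 → E3} {u : ℝ → L2V Ω}
    {G : ℝ → L2M Ω} : CLH Ω ν T r (fun _ _ => 0) u G ↔ LH0 Ω ν T r u G := by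
  constructor
  · intro h
    refine ⟨h.bdd, h.sol, h.con, h.wcont, h.grad, h.gradL2, ?_, ?_⟩
    · intro v z hv hc t ht
      have h1 := h.eqn v z hv hc t ht
      simpa only [inner_zero_left, integral_zero, add_zero] using h1
    · intro t ht
      have h1 := h.en t ht
      simpa only [inner_zero_left, integral_zero, intervalIntegral.integral_zero,
        add_zero] using h1
  · intro h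
    refine ⟨h.bdd, h.sol, h.con, h.wcont, h.grad, h.gradL2, ?_, ?_⟩
    · intro v z hv hc t ht
      simpa only [inner_zero_left, integral_zero, add_zero] using h.eqn v z hv hc t ht
    · intro t ht
      simpa only [inner_zero_left, integral_zero, intervalIntegral.integral_zero,
        add_zero] using h.en t ht

theorem mainLH0_of (hX : S_X) (hY3 : S_Y3) (hY4 : S_Y4) (hY5 : S_Y5) (hZ0 : S_Z0) (hZ1 : S_Z1)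
    (hZ2 : S_Z2) (hZ3 : S_Z3) (hZ4 : S_Z4) (hZ5 : S_Z5) (ε R₀ : ℝ) (hε : 0 < ε) :
    ∃ (R T₀ : ℝ) (P : E3 → E3) (r : Fin 4 × ℕ → E3 → E3),
      R₀ ≤ R ∧ 1 < R ∧ 0 < T₀ ∧
      ContDiff ℝ ∞ P ∧ (∀ y, 1 ≤ ‖y‖ → P y = 0) ∧ (∀ y, divg P y = 0) ∧
      (∀ p, ContDiff ℝ ∞ (r p)) ∧
      (∀ i n y, 1 ≤ R ^ ((6 / 5 : ℝ) ^ n) * ‖y‖ → r (i, n) y = 0) ∧
      ∀ (Ω : Set E3) (x₀ : E3) (ℓ ν : ℝ), IsOpen Ω → 0 < ℓ → 0 < ν →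
        Metric.closedBall x₀ ℓ ⊆ Ω →
        ∃ (U : ℝ → E3 → E3) (u : ℝ → L2V Ω) (G : ℝ → L2M Ω),
        ContDiffOn ℝ ∞ (fun z : ℝ × E3 => U z.1 z.2) (Ico 0 (ℓ ^ 2 * (T₀ / ν)) ×ˢ univ) ∧
        (∀ x, U 0 x = (ν / ℓ) • P (ℓ⁻¹ • (x - x₀))) ∧
        LH0 Ω ν (ℓ ^ 2 * (T₀ / ν)) (Pool.Agent.N976.DI.cf x₀ ℓ r) u G ∧
        0 < ‖u 0‖ ∧
        (∀ t ∈ Ico 0 (ℓ ^ 2 * (T₀ / ν)), u t =ᵐ[volume.restrict Ω] U t ∧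
          G t =ᵐ[volume.restrict Ω] jac (U t) ∧
          ‖u t‖ ^ 2 / 2 + ν * (∫ s in (0 : ℝ)..t, ‖G s‖ ^ 2) = ‖u 0‖ ^ 2 / 2) ∧
        ‖u (ℓ ^ 2 * (T₀ / ν))‖ ^ 2 / 2 ≤ ε * (‖u 0‖ ^ 2 / 2) ∧
        ν * (∫ s in (0 : ℝ)..(ℓ ^ 2 * (T₀ / ν)), ‖G s‖ ^ 2) ≤ ε * (‖u 0‖ ^ 2 / 2) ∧
        (Bornology.IsBounded Ω → ∀ (u' : ℝ → L2V Ω) (G' : ℝ → L2M Ω),
          LH0 Ω ν (ℓ ^ 2 * (T₀ / ν)) (Pool.Agent.N976.DI.cf x₀ ℓ r) u' G' →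
          u' 0 = u 0 → ∀ t ∈ Icc 0 (ℓ ^ 2 * (T₀ / ν)), u' t = u t) := by
  obtain ⟨R, T₀, P, r, hR, hR1, hT0, hP, hPo, hdP, hr, hro, h⟩ :=
    mainLH_of hX hY3 hY4 hY5 hZ0 hZ1 hZ2 hZ3 hZ4 hZ5 (ε / 2) R₀ (half_pos hε)
  refine ⟨R, T₀, P, r, hR, hR1, hT0, hP, hPo, hdP, hr, hro, fun Ω x₀ ℓ ν hΩ hℓ hν hb => ?_⟩
  obtain ⟨U, u, G, hsm, hU0, hL, hpos, hcl, hT, hD, huni⟩ := h Ω x₀ ℓ ν hΩ hℓ hν hb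
  have hn : 0 ≤ ‖u 0‖ ^ 2 := sq_nonneg _
  have hT' : 0 < ℓ ^ 2 * (T₀ / ν) := by positivity
  refine ⟨U, u, G, hsm, hU0, lh0_iff.1 hL, hpos, hcl, by nlinarith, by nlinarith, ?_⟩
  intro hbd u' G' hL' h0
  refine (huni hbd u' G' (lh0_iff.2 hL') ?_).1
  rw [h0]
  exact (hcl 0 ⟨le_rfl, hT'⟩).1

end Pool.Agent.N976.UE
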