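import Pool.Agent.N976.UE.Y2n

/-! # (Y2) One stage: calculus tools and the three active modes. -/

open Set Filter Topology

set_option autoImplicit false

namespace Pool.Agent.N976.UE.Y2

lemma mono_of {f f' : ℝ → ℝ} {a b : ℝ} (hc : ContinuousOn f (Icc a b))
    (hd : ∀ t ∈ Ioo a b, HasDerivAt f (f' t) t) (h0 : ∀ t ∈ Ioo a b, 0 ≤ f' t) :
    MonotoneOn f (Icc a b) := by
  refine monotoneOn_of_deriv_nonneg (convex_Icc a b) hc ?_ ?_
  · intro t ht
    rw [interior_Icc] at ht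
    exact (hd t ht).differentiableAt.differentiableWithinAt
  · intro t ht
    rw [interior_Icc] at ht
    rw [(hd t ht).deriv]
    exact h0 t ht

/-- growth at least `c` -/
lemma growth {f f' : ℝ → ℝ} {a b c : ℝ} (hc : ContinuousOn f (Icc a b))
    (hd : ∀ t ∈ Ioo a b, HasDerivAt f (f' t) t) (h0 : ∀ t ∈ Ioo a b, c ≤ f' t) {s t : ℝ}
    (hs : s ∈ Icc a b) (ht : t ∈ Icc a b) (hst : s ≤ t) : f s + c * (t - s) ≤ f t := by
  have h := mono_of (f := fun t => f t - c * t) (f' := fun t => f' t - c) (a := a) (b := b)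
    (hc.sub (continuous_const.mul continuous_id).continuousOn)
    (fun t ht => by
      have h1 := (hd t ht).fun_sub ((hasDerivAt_id' t).const_mul c)
      exact h1.congr_deriv (by ring))
    (fun t ht => by linarith [h0 t ht])
  have := h hs ht hst
  simp only at this
  linarith

lemma growth' {f f' : ℝ → ℝ} {a b c : ℝ} (hc : ContinuousOn f (Icc a b))
    (hd : ∀ t ∈ Ioo a b, HasDerivAt f (f' t) t) (h0 : ∀ t ∈ Ioo a b, f' t ≤ c) {s t : ℝ}
    (hs : s ∈ Icc a b) (ht : t ∈ Icc a b) (hst : s ≤ t) : f t ≤ f s + c * (t - s) := by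
  have := growth (f := fun t => -f t) (f' := fun t => -f' t) (c := -c) hc.neg
    (fun t ht => (hd t ht).neg) (fun t ht => by linarith [h0 t ht]) hs ht hst
  linarith

lemma lip {f f' : ℝ → ℝ} {a b c : ℝ} (hc : ContinuousOn f (Icc a b))
    (hd : ∀ t ∈ Ioo a b, HasDerivAt f (f' t) t) (h0 : ∀ t ∈ Ioo a b, |f' t| ≤ c) {s t : ℝ}
    (hs : s ∈ Icc a b) (ht : t ∈ Icc a b) (hst : s ≤ t) : |f t - f s| ≤ c * (t - s) := by
  rw [abs_le]
  have h1 := growth hc hd (fun t ht => (abs_le.1 (h0 t ht)).1) hs ht hst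
  have h2 := growth' hc hd (fun t ht => (abs_le.1 (h0 t ht)).2) hs ht hst
  constructor <;> linarith

/-- The first time. -/
lemma first_time {f : ℝ → ℝ} {a b c : ℝ} (hc : ContinuousOn f (Icc a b))
    (ha : f a < c) (hb : ∃ t ∈ Icc a b, c ≤ f t) :
    ∃ t ∈ Ioc a b, f t = c ∧ ∀ s ∈ Icc a t, f s ≤ c := by
  have hcl : IsClosed (Icc a b ∩ f ⁻¹' Ici c) := hc.preimage_isClosed_of_isClosed isClosed_Icc
    isClosed_Ici
  have hcp : IsCompact (Icc a b ∩ f ⁻¹' Ici c) :=
    isCompact_Icc.of_isClosed_subset hcl inter_subset_left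
  obtain ⟨t0, ht0, ht0'⟩ := hb
  obtain ⟨t, ⟨ht, htc⟩, hmin⟩ := hcp.exists_isLeast ⟨t0, ht0, ht0'⟩
  have htc' : c ≤ f t := htc
  have hat : a < t := by
    rcases ht.1.lt_or_eq with h | h
    · exact h
    · rw [← h] at htc'
      linarith
  have hlt : ∀ s ∈ Ico a t, f s < c := by
    intro s hs
    by_contra hcon
    have := hmin ⟨⟨hs.1, hs.2.le.trans ht.2⟩, not_lt.1 hcon⟩
    linarith [hs.2]
  have heq : f t = c := by
    rcases htc'.lt_or_eq with h | h
    · have hiv := intermediate_value_Ioo hat.le (hc.mono (Icc_subset_Icc_right ht.2))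
      obtain ⟨s, hs, hs'⟩ := hiv ⟨ha, h⟩
      have := hlt s ⟨hs.1.le, hs.2⟩
      linarith
    · exact h.symm
  refine ⟨t, ⟨hat, ht.2⟩, heq, fun s hs => ?_⟩
  rcases hs.2.lt_or_eq with h | h
  · exact (hlt s ⟨hs.1, h⟩).le
  · rw [h, heq]

/-- Primitives. -/
lemma prim {g : ℝ → ℝ} (hg : ContinuousOn g (Ici 0)) (τ : ℝ) : ∃ F : ℝ → ℝ, F τ = 0 ∧
    Continuous F ∧ ∀ t, 0 ≤ t → HasDerivAt F (g t) t := by
  have hc : Continuous (fun t => g (max t 0)) := by
    have h1 : Continuous fun t : ℝ => (⟨max t 0, le_max_right t 0⟩ : Ici (0 : ℝ)) := by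
      refine Continuous.subtype_mk (continuous_id.max continuous_const) _
    have h2 : Continuous ((Ici (0 : ℝ)).domRestrict g) :=
      continuousOn_iff_continuous_domRestrict.1 hg
    exact h2.comp h1
  have hd : ∀ t, HasDerivAt (fun t => ∫ s in τ..t, g (max s 0)) (g (max t 0)) t := fun t =>
    intervalIntegral.integral_hasDerivAt_right (hc.intervalIntegrable _ _)
      (hc.stronglyMeasurableAtFilter _ _) hc.continuousAt
  refine ⟨fun t => ∫ s in τ..t, g (max s 0), by simp, ?_, fun t ht => ?_⟩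
  · exact continuous_iff_continuousAt.2 fun t => (hd t).continuousAt
  · have := hd t
    rwa [max_eq_left ht] at this

/-- Rotation with errors. -/
lemma rot {p r Θ θ Ep Er : ℝ → ℝ} {a b B : ℝ} (pc : ContinuousOn p (Icc a b))
    (rc : ContinuousOn r (Icc a b)) (Θc : ContinuousOn Θ (Icc a b))
    (pd : ∀ t ∈ Ioo a b, HasDerivAt p (-(θ t) * r t + Ep t) t)
    (rd : ∀ t ∈ Ioo a b, HasDerivAt r (θ t * p t + Er t) t)
    (Θd : ∀ t ∈ Ioo a b, HasDerivAt Θ (θ t) t) (Θ0 : Θ a = 0)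
    (E : ∀ t ∈ Ioo a b, |Ep t| + |Er t| ≤ B) {t : ℝ} (ht : t ∈ Icc a b) :
    |p t - (p a * Real.cos (Θ t) - r a * Real.sin (Θ t))| ≤ 2 * B * (t - a) ∧
    |r t - (p a * Real.sin (Θ t) + r a * Real.cos (Θ t))| ≤ 2 * B * (t - a) := by
  have hcs : ContinuousOn (fun t => Real.cos (Θ t)) (Icc a b) := Real.continuous_cos.comp_continuousOn Θc
  have hsn : ContinuousOn (fun t => Real.sin (Θ t)) (Icc a b) := Real.continuous_sin.comp_continuousOn Θc
  have ha : a ∈ Icc a b := ⟨le_rfl, ht.1.trans ht.2⟩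
  have key : ∀ x y : ℝ, |x| ≤ 1 → |y| ≤ 1 → ∀ s ∈ Ioo a b, |Ep s * x + Er s * y| ≤ B := by
    intro x y hx hy s hs
    calc |Ep s * x + Er s * y| ≤ |Ep s * x| + |Er s * y| := abs_add_le _ _
      _ = |Ep s| * |x| + |Er s| * |y| := by rw [abs_mul, abs_mul]
      _ ≤ |Ep s| * 1 + |Er s| * 1 := by gcongr
      _ ≤ B := by linarith [E s hs]
  have h1 := lip (f := fun t => p t * Real.cos (Θ t) + r t * Real.sin (Θ t))
    (f' := fun t => Ep t * Real.cos (Θ t) + Er t * Real.sin (Θ t)) (c := B)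
    ((pc.mul hcs).add (rc.mul hsn))
    (fun t ht => by
      have := ((pd t ht).mul ((Real.hasDerivAt_cos (Θ t)).comp t (Θd t ht))).add
        ((rd t ht).mul ((Real.hasDerivAt_sin (Θ t)).comp t (Θd t ht)))
      refine this.congr_deriv ?_
      simp only [Function.comp]
      ring)
    (fun s hs => key _ _ (Real.abs_cos_le_one _) (Real.abs_sin_le_one _) s hs) ha ht ht.1
  have h2 := lip (f := fun t => r t * Real.cos (Θ t) - p t * Real.sin (Θ t))
    (f' := fun t => Ep t * -Real.sin (Θ t) + Er t * Real.cos (Θ t)) (c := B)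
    ((rc.mul hcs).sub (pc.mul hsn))
    (fun t ht => by
      have := ((rd t ht).mul ((Real.hasDerivAt_cos (Θ t)).comp t (Θd t ht))).sub
        ((pd t ht).mul ((Real.hasDerivAt_sin (Θ t)).comp t (Θd t ht)))
      refine this.congr_deriv ?_
      simp only [Function.comp]
      ring)
    (fun s hs => key _ _ (by rw [abs_neg]; exact Real.abs_sin_le_one _)
      (Real.abs_cos_le_one _) s hs) ha ht ht.1
  simp only [Θ0, Real.cos_zero, Real.sin_zero, mul_one, mul_zero, add_zero, sub_zero] at h1 h2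
  have hcos := Real.abs_cos_le_one (Θ t)
  have hsin := Real.abs_sin_le_one (Θ t)
  have hcs2 := Real.cos_sq_add_sin_sq (Θ t)
  constructor
  · have e : p t - (p a * Real.cos (Θ t) - r a * Real.sin (Θ t)) =
      (p t * Real.cos (Θ t) + r t * Real.sin (Θ t) - p a) * Real.cos (Θ t) -
      (r t * Real.cos (Θ t) - p t * Real.sin (Θ t) - r a) * Real.sin (Θ t) := by
      linear_combination (-(p t)) * hcs2
    rw [e]
    calc _ ≤ |(p t * Real.cos (Θ t) + r t * Real.sin (Θ t) - p a) * Real.cos (Θ t)| +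
        |(r t * Real.cos (Θ t) - p t * Real.sin (Θ t) - r a) * Real.sin (Θ t)| := abs_sub _ _
      _ = |p t * Real.cos (Θ t) + r t * Real.sin (Θ t) - p a| * |Real.cos (Θ t)| +
        |r t * Real.cos (Θ t) - p t * Real.sin (Θ t) - r a| * |Real.sin (Θ t)| := by
          rw [abs_mul, abs_mul]
      _ ≤ |p t * Real.cos (Θ t) + r t * Real.sin (Θ t) - p a| * 1 +
        |r t * Real.cos (Θ t) - p t * Real.sin (Θ t) - r a| * 1 := by gcongr
      _ ≤ 2 * B * (t - a) := by linarith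
  · have e : r t - (p a * Real.sin (Θ t) + r a * Real.cos (Θ t)) =
      (p t * Real.cos (Θ t) + r t * Real.sin (Θ t) - p a) * Real.sin (Θ t) +
      (r t * Real.cos (Θ t) - p t * Real.sin (Θ t) - r a) * Real.cos (Θ t) := by
      linear_combination (-(r t)) * hcs2
    rw [e]
    calc _ ≤ |(p t * Real.cos (Θ t) + r t * Real.sin (Θ t) - p a) * Real.sin (Θ t)| +
        |(r t * Real.cos (Θ t) - p t * Real.sin (Θ t) - r a) * Real.cos (Θ t)| := abs_add_le _ _
      _ = |p t * Real.cos (Θ t) + r t * Real.sin (Θ t) - p a| * |Real.sin (Θ t)| +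
        |r t * Real.cos (Θ t) - p t * Real.sin (Θ t) - r a| * |Real.cos (Θ t)| := by
          rw [abs_mul, abs_mul]
      _ ≤ |p t * Real.cos (Θ t) + r t * Real.sin (Θ t) - p a| * 1 +
        |r t * Real.cos (Θ t) - p t * Real.sin (Θ t) - r a| * 1 := by gcongr
      _ ≤ 2 * B * (t - a) := by linarith

end Pool.Agent.N976.UE.Y2
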