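import Mathlib

/-! # (Y2) One stage: numerical inequalities for large scales. -/

open Set Filter Topology

set_option autoImplicit false

namespace Pool.Agent.N976.UE.Y2

/-- The inequalities between the scales `u = q n`, `v = q (n + 1)`, `z = q (n + 2)`,
`y = q (n + 3)`, `K = u ^ (4 / 5)`. -/
structure Big (u v z y K : ℝ) : Prop where
  b1 : 1000 ≤ u
  b2 : 4 * u ≤ v
  b2' : 4 * v ≤ z
  b3 : u ^ 3 * v / 4 + u ^ 5 ≤ v ^ 3 * z / 4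
  bv : v ^ 5 = u ^ 6
  bz : z ^ 5 = v ^ 6
  K0 : 0 < K
  b4 : (2 * z ^ 4 + 6 * u ^ 5) * (2 * Real.log u / u ^ 5) ≤ K
  b5 : 5 * u ^ 4 + u ^ 3 * v + 3 * u ^ 5 / v + 3 ≤ v ^ 4
  b6 : 12 * v ^ 4 * (2 * Real.log u / u ^ 5) ≤ 1 / 1000
  b7 : u ^ 3 * v + 2 * u ^ 5 + 2 * v ^ 5 + 2 * z ^ 5 * v ^ (-(1 / 2 : ℝ)) ≤ y ^ 4 / 16
  b8 : 2 * z ^ 5 * Real.exp (-(Real.pi / 2 * u) + √u) ≤ 1
  b9 : z ^ 6 * Real.exp (-(Real.pi / 2 * u)) ≤ 1
  b10 : 8 * z ^ 2 < Real.exp (√u)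
  b11 : 8 * z * Real.exp (-(3 * v)) < Real.exp (-(3 * u))
  b12 : 100 * z ^ 8 * Real.exp (-(Real.pi / 2 * u) + √u) ^ 2 + Real.exp (-(3 * v)) ≤
    Real.exp (-(3 * u))
  b13 : 2 * z ^ 5 * Real.exp (-(3 * v)) ≤ Real.exp (-(4 * u))
  b14 : Real.exp (-(Real.pi / 2 * u) + √u) + 2 * Real.log u / u ^ 5 * (Real.exp K *
    (2 * (z ^ 6 * Real.exp (-(Real.pi / 2 * u))))) ≤ Real.exp (-(Real.pi / 2 * u) + 2 * K)
  b15 : Real.exp (-(3 * u)) + 2 * Real.log u / u ^ 5 * (Real.exp K * Real.exp (-(4 * u))) ≤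
    Real.exp (-(29 / 10 * u))
  b16 : 5 * (u * u ^ (-(1 / 2 : ℝ))) ≤ K
  b17 : Real.exp (-(29 / 10 * u)) + Real.exp (-(Real.pi / 2 * u) - 3 * K) ≤
    9 / 10 * Real.exp (-(2 * K) - Real.pi / 2 * u) / u ^ 6
  b18 : 400 * K ≤ u
  b19 : 2 * v ^ 4 + u ^ 3 * v + 2 ≤ u ^ 5 / 200
  b20 : 4 * u ^ 6 * Real.exp (-(4 / 5 * u)) ≤ 39 / 100 * u ^ 5 * (u ^ (-(1 / 2 : ℝ)) / 100)
  b21 : u ^ (-(1 / 2 : ℝ)) ≤ 1 / 1000
  b21' : 3 / u ^ 5 ≤ u ^ (-(1 / 2 : ℝ)) / 4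
  b22 : 51 / 50 < 99 / 100 * u ^ (-(1 / 2 : ℝ)) *
    Real.exp (39 / 100 * u ^ 5 * (3 / 2 * Real.log u / u ^ 5))
  b23 : 3 ≤ Real.log u
  b24 : 51 / 50 * (4 * K / u) + u ^ (-(1 / 2 : ℝ)) + 12 * v ^ 4 * (2 * Real.log u / u ^ 5) ≤
    2 * u ^ (-(1 / 10 : ℝ))
  b25 : 3 / 5 * Real.log u ≤ K
  b26 : 6 * v ^ 4 * (2 * Real.log u / u ^ 5) ≤ u ^ (-(1 / 10 : ℝ))
  b26' : z ^ 4 / v ≤ v ^ 4 / 10
  b28 : Real.exp (-(Real.pi / 2 * u) + √u) < v ^ (-(1 / 2 : ℝ))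
  b28' : Real.exp (-u) < v ^ (-(1 / 2 : ℝ))

lemma ev_pow {a b : ℝ} (h : a < b) (C : ℝ) : ∀ᶠ u : ℝ in atTop, C * u ^ a ≤ u ^ b := by
  have h1 : Tendsto (fun u : ℝ => u ^ (b - a)) atTop atTop := tendsto_rpow_atTop (by linarith)
  filter_upwards [h1.eventually_ge_atTop C, eventually_gt_atTop 0] with u hu h0
  calc C * u ^ a ≤ u ^ (b - a) * u ^ a := by gcongr
    _ = u ^ b := by rw [← Real.rpow_add h0]; congr 1; ring

lemma ev_log {a b : ℝ} (h : a < b) (C : ℝ) :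
    ∀ᶠ u : ℝ in atTop, C * (u ^ a * Real.log u) ≤ u ^ b := by
  have h1 := (isLittleO_log_rpow_atTop (show 0 < b - a by linarith)).def
    (show (0 : ℝ) < 1 / (|C| + 1) by positivity)
  filter_upwards [h1, eventually_gt_atTop 1] with u hu h0
  have hl : 0 ≤ Real.log u := Real.log_nonneg h0.le
  have h0' : 0 < u := by linarith
  rw [Real.norm_of_nonneg hl, Real.norm_of_nonneg (by positivity)] at hu
  have h2 : C * Real.log u ≤ u ^ (b - a) := by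
    have h3 : C * Real.log u ≤ (|C| + 1) * Real.log u := by
      have := le_abs_self C
      nlinarith
    have h4 : (|C| + 1) * Real.log u ≤ (|C| + 1) * (1 / (|C| + 1) * u ^ (b - a)) := by gcongr
    have h5 : (|C| + 1) * (1 / (|C| + 1) * u ^ (b - a)) = u ^ (b - a) := by
      field_simp
    linarith
  calc C * (u ^ a * Real.log u) = (C * Real.log u) * u ^ a := by ring
    _ ≤ u ^ (b - a) * u ^ a := by gcongr
    _ = u ^ b := by rw [← Real.rpow_add h0']; congr 1; ring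

lemma ev_nat {n : ℕ} {b : ℝ} (h : (n : ℝ) < b) (C : ℝ) :
    ∀ᶠ u : ℝ in atTop, C * u ^ n ≤ u ^ b := by
  filter_upwards [ev_pow h C] with u hu
  rwa [Real.rpow_natCast] at hu

/-- powers against exponentials: `C + a log u + k * u ^ b ≤ c * u ^ d`. -/
lemma ev_exp (C a : ℝ) {b d c : ℝ} (k : ℝ) (hb : b < d) (hd : 0 < d) (hc : 0 < c) :
    ∀ᶠ u : ℝ in atTop, C + a * Real.log u + k * u ^ b ≤ c * u ^ d := by
  filter_upwards [ev_pow hd (3 * C / c), ev_log hd (3 * a / c), ev_pow hb (3 * k / c),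
    eventually_gt_atTop 1] with u h1 h2 h3 h4
  rw [Real.rpow_zero] at h1 h2
  have e1 : 3 * C ≤ c * u ^ d := by
    have := mul_le_mul_of_nonneg_left h1 hc.le
    have e : c * (3 * C / c * 1) = 3 * C := by field_simp
    linarith
  have e2 : 3 * (a * Real.log u) ≤ c * u ^ d := by
    have := mul_le_mul_of_nonneg_left h2 hc.le
    have e : c * (3 * a / c * (1 * Real.log u)) = 3 * (a * Real.log u) := by field_simp
    linarith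
  have e3 : 3 * (k * u ^ b) ≤ c * u ^ d := by
    have := mul_le_mul_of_nonneg_left h3 hc.le
    have e : c * (3 * k / c * u ^ b) = 3 * (k * u ^ b) := by field_simp
    linarith
  linarith

lemma pn {u : ℝ} (h : 0 < u) (a : ℝ) (n : ℕ) (c : ℝ) (hc : a * n = c) : (u ^ a) ^ n = u ^ c := by
  rw [← hc, Real.rpow_mul_natCast h.le]

lemma nm {u : ℝ} (h : 0 < u) (n : ℕ) (a c : ℝ) (hc : n + a = c) : u ^ n * u ^ a = u ^ c := by
  rw [← hc, Real.rpow_add h, Real.rpow_natCast]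

lemma pp {u : ℝ} (h : 0 < u) (a b c : ℝ) (hc : a + b = c) : u ^ a * u ^ b = u ^ c := by
  rw [← hc, Real.rpow_add h]

lemma pe {u : ℝ} (h : 0 < u) {C : ℝ} (hC : 0 < C) (a : ℝ) :
    C * u ^ a = Real.exp (Real.log C + a * Real.log u) := by
  rw [Real.exp_add, Real.exp_log hC, Real.rpow_def_of_pos h, mul_comm a]

lemma sq_eq {u : ℝ} : √u = u ^ (1 / 2 : ℝ) := Real.sqrt_eq_rpow u

lemma ev_gt (C : ℝ) : ∀ᶠ u : ℝ in atTop, C < u := eventually_gt_atTop C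

lemma f2 : ∀ᶠ u : ℝ in atTop, 4 * u ≤ u ^ (6 / 5 : ℝ) := by
  filter_upwards [ev_pow (show (1 : ℝ) < 6 / 5 by norm_num) 4] with u h
  rwa [Real.rpow_one] at h

lemma f2' : ∀ᶠ u : ℝ in atTop, 4 * u ^ (6 / 5 : ℝ) ≤ u ^ (36 / 25 : ℝ) :=
  ev_pow (by norm_num) 4

lemma f3 : ∀ᶠ u : ℝ in atTop, u ^ 3 * u ^ (6 / 5 : ℝ) / 4 + u ^ 5 ≤
    (u ^ (6 / 5 : ℝ)) ^ 3 * u ^ (36 / 25 : ℝ) / 4 := by
  filter_upwards [ev_gt 0, ev_pow (show (21 / 5 : ℝ) < 126 / 25 by norm_num) 2,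
    ev_pow (show (5 : ℝ) < 126 / 25 by norm_num) 8] with u h0 h1 h2
  rw [nm h0 3 _ (21 / 5) (by norm_num), pn h0 _ 3 (18 / 5) (by norm_num),
    pp h0 _ _ (126 / 25) (by norm_num)]
  have e : u ^ (5 : ℝ) = u ^ 5 := by exact_mod_cast Real.rpow_natCast u 5
  rw [e] at h2
  linarith

lemma f4 : ∀ᶠ u : ℝ in atTop, (2 * (u ^ (36 / 25 : ℝ)) ^ 4 + 6 * u ^ 5) *
    (2 * Real.log u / u ^ 5) ≤ u ^ (4 / 5 : ℝ) := by
  filter_upwards [ev_gt 0, ev_log (show (144 / 25 : ℝ) < 29 / 5 by norm_num) 8,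
    ev_log (show (5 : ℝ) < 29 / 5 by norm_num) 24] with u h0 h1 h2
  rw [pn h0 _ 4 (144 / 25) (by norm_num)]
  have e : u ^ (5 : ℝ) = u ^ 5 := by exact_mod_cast Real.rpow_natCast u 5
  rw [e] at h2
  rw [← nm h0 5 (4 / 5) (29 / 5) (by norm_num)] at h1 h2
  have e2 : (2 * u ^ (144 / 25 : ℝ) + 6 * u ^ 5) * (2 * Real.log u / u ^ 5) =
    (4 * (u ^ (144 / 25 : ℝ) * Real.log u) + 12 * (u ^ 5 * Real.log u)) / u ^ 5 := by ring
  rw [e2, div_le_iff₀ (by positivity)]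
  linarith

lemma f5 : ∀ᶠ u : ℝ in atTop, 5 * u ^ 4 + u ^ 3 * u ^ (6 / 5 : ℝ) +
    3 * u ^ 5 / u ^ (6 / 5 : ℝ) + 3 ≤ (u ^ (6 / 5 : ℝ)) ^ 4 := by
  filter_upwards [ev_gt 0, ev_nat (show ((4 : ℕ) : ℝ) < 24 / 5 by norm_num) 20,
    ev_pow (show (21 / 5 : ℝ) < 24 / 5 by norm_num) 4,
    ev_pow (show (19 / 5 : ℝ) < 24 / 5 by norm_num) 12,
    ev_pow (show (0 : ℝ) < 24 / 5 by norm_num) 12] with u h0 h1 h2 h3 h4
  rw [nm h0 3 _ (21 / 5) (by norm_num), pn h0 _ 4 (24 / 5) (by norm_num)]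
  have e : 3 * u ^ 5 / u ^ (6 / 5 : ℝ) = 3 * u ^ (19 / 5 : ℝ) := by
    rw [div_eq_iff (by positivity), mul_assoc, pp h0 _ _ 5 (by norm_num)]
    congr 1
    exact_mod_cast (Real.rpow_natCast u 5).symm
  rw [Real.rpow_zero] at h4
  rw [e]
  linarith

lemma f6 {b C D : ℝ} (hb : -(1 / 5 : ℝ) < b) (hD : 0 < D) : ∀ᶠ u : ℝ in atTop,
    C * (u ^ (6 / 5 : ℝ)) ^ 4 * (2 * Real.log u / u ^ 5) ≤ D * u ^ b := by
  filter_upwards [ev_gt 0, ev_log (show (24 / 5 : ℝ) < 5 + b by linarith) (2 * C / D)]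
    with u h0 h1
  rw [pn h0 _ 4 (24 / 5) (by norm_num)]
  rw [← nm h0 5 b (5 + b) (by norm_num)] at h1
  have e2 : C * u ^ (24 / 5 : ℝ) * (2 * Real.log u / u ^ 5) =
    (2 * C * (u ^ (24 / 5 : ℝ) * Real.log u)) / u ^ 5 := by ring
  rw [e2, div_le_iff₀ (by positivity)]
  have h3 := mul_le_mul_of_nonneg_left h1 hD.le
  have e3 : D * (2 * C / D * (u ^ (24 / 5 : ℝ) * Real.log u)) =
    2 * C * (u ^ (24 / 5 : ℝ) * Real.log u) := by field_simp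
  rw [e3] at h3
  linarith

lemma f7 : ∀ᶠ u : ℝ in atTop, u ^ 3 * u ^ (6 / 5 : ℝ) + 2 * u ^ 5 + 2 * (u ^ (6 / 5 : ℝ)) ^ 5 +
    2 * (u ^ (36 / 25 : ℝ)) ^ 5 * (u ^ (6 / 5 : ℝ)) ^ (-(1 / 2 : ℝ)) ≤
    (u ^ (216 / 125 : ℝ)) ^ 4 / 16 := by
  filter_upwards [ev_gt 0, ev_pow (show (21 / 5 : ℝ) < 864 / 125 by norm_num) 64,
    ev_nat (show ((5 : ℕ) : ℝ) < 864 / 125 by norm_num) 128,
    ev_pow (show (6 : ℝ) < 864 / 125 by norm_num) 128,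
    ev_pow (show (33 / 5 : ℝ) < 864 / 125 by norm_num) 128] with u h0 h1 h2 h3 h4
  rw [nm h0 3 _ (21 / 5) (by norm_num), pn h0 _ 5 6 (by norm_num), pn h0 _ 5 (36 / 5) (by norm_num),
    pn h0 _ 4 (864 / 125) (by norm_num), ← Real.rpow_mul h0.le, mul_assoc 2,
    pp h0 _ _ (33 / 5) (by norm_num)]
  linarith

lemma pi3 : 3 < Real.pi := Real.pi_gt_three
lemma pi314 : 3.14 < Real.pi := Real.pi_gt_d2
lemma pi315 : Real.pi < 3.15 := Real.pi_lt_d2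

lemma f8 : ∀ᶠ u : ℝ in atTop, 2 * (u ^ (36 / 25 : ℝ)) ^ 5 *
    Real.exp (-(Real.pi / 2 * u) + √u) ≤ 1 := by
  filter_upwards [ev_gt 0, ev_exp (Real.log 2) (36 / 5) 1 (show (1 / 2 : ℝ) < 1 by norm_num)
    one_pos (show (0 : ℝ) < 3 / 2 by norm_num)] with u h0 h1
  rw [pn h0 _ 5 (36 / 5) (by norm_num), pe h0 two_pos, ← Real.exp_add, Real.exp_le_one_iff, sq_eq]
  rw [Real.rpow_one] at h1
  have := mul_lt_mul_of_pos_right pi3 h0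
  linarith

lemma f9 : ∀ᶠ u : ℝ in atTop, (u ^ (36 / 25 : ℝ)) ^ 6 * Real.exp (-(Real.pi / 2 * u)) ≤ 1 := by
  filter_upwards [ev_gt 0, ev_exp (Real.log 1) (216 / 25) 0 (show (1 / 2 : ℝ) < 1 by norm_num)
    one_pos (show (0 : ℝ) < 3 / 2 by norm_num)] with u h0 h1
  rw [pn h0 _ 6 (216 / 25) (by norm_num), ← one_mul (u ^ (216 / 25 : ℝ)), pe h0 one_pos,
    ← Real.exp_add, Real.exp_le_one_iff]
  rw [Real.rpow_one] at h1
  have := mul_lt_mul_of_pos_right pi3 h0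
  linarith

lemma f10 : ∀ᶠ u : ℝ in atTop, 8 * (u ^ (36 / 25 : ℝ)) ^ 2 < Real.exp (√u) := by
  filter_upwards [ev_gt 0, ev_exp (Real.log 8 + 1) (72 / 25) 0 (show (1 / 4 : ℝ) < 1 / 2 by norm_num)
    (show (0 : ℝ) < 1 / 2 by norm_num) (show (0 : ℝ) < 1 by norm_num)] with u h0 h1
  rw [pn h0 _ 2 (72 / 25) (by norm_num), pe h0 (by norm_num), Real.exp_lt_exp, sq_eq]
  linarith

lemma f11 : ∀ᶠ u : ℝ in atTop, 8 * u ^ (36 / 25 : ℝ) * Real.exp (-(3 * u ^ (6 / 5 : ℝ))) <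
    Real.exp (-(3 * u)) := by
  filter_upwards [ev_gt 0, ev_exp (Real.log 8 + 1) (36 / 25) 3 (show (1 : ℝ) < 6 / 5 by norm_num)
    (show (0 : ℝ) < 6 / 5 by norm_num) (show (0 : ℝ) < 3 by norm_num)] with u h0 h1
  rw [pe h0 (by norm_num), ← Real.exp_add, Real.exp_lt_exp]
  rw [Real.rpow_one] at h1
  linarith

lemma f12 : ∀ᶠ u : ℝ in atTop, 100 * (u ^ (36 / 25 : ℝ)) ^ 8 *
    Real.exp (-(Real.pi / 2 * u) + √u) ^ 2 + Real.exp (-(3 * u ^ (6 / 5 : ℝ))) ≤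
    Real.exp (-(3 * u)) := by
  filter_upwards [ev_gt 0, ev_exp (Real.log 200) (288 / 25) 2 (show (1 / 2 : ℝ) < 1 by norm_num)
    one_pos (show (0 : ℝ) < 7 / 50 by norm_num),
    ev_exp (Real.log 2) 0 3 (show (1 : ℝ) < 6 / 5 by norm_num)
    (show (0 : ℝ) < 6 / 5 by norm_num) (show (0 : ℝ) < 3 by norm_num)] with u h0 h1 h2
  rw [Real.rpow_one] at h1 h2
  rw [pn h0 _ 8 (288 / 25) (by norm_num)]
  have a1 : 200 * u ^ (288 / 25 : ℝ) * Real.exp (-(Real.pi / 2 * u) + √u) ^ 2 ≤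
      Real.exp (-(3 * u)) := by
    rw [pe h0 (by norm_num), ← Real.exp_nat_mul, ← Real.exp_add, Real.exp_le_exp, sq_eq]
    have := mul_lt_mul_of_pos_right pi314 h0
    push_cast
    linarith
  have a2 : 2 * Real.exp (-(3 * u ^ (6 / 5 : ℝ))) ≤ Real.exp (-(3 * u)) := by
    have : (2 : ℝ) = Real.exp (Real.log 2) := (Real.exp_log two_pos).symm
    rw [this, ← Real.exp_add, Real.exp_le_exp]
    linarith
  linarith

lemma f13 : ∀ᶠ u : ℝ in atTop, 2 * (u ^ (36 / 25 : ℝ)) ^ 5 * Real.exp (-(3 * u ^ (6 / 5 : ℝ))) ≤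
    Real.exp (-(4 * u)) := by
  filter_upwards [ev_gt 0, ev_exp (Real.log 2) (36 / 5) 4 (show (1 : ℝ) < 6 / 5 by norm_num)
    (show (0 : ℝ) < 6 / 5 by norm_num) (show (0 : ℝ) < 3 by norm_num)] with u h0 h1
  rw [pn h0 _ 5 (36 / 5) (by norm_num), pe h0 (by norm_num), ← Real.exp_add, Real.exp_le_exp]
  rw [Real.rpow_one] at h1
  linarith

lemma log_le {u : ℝ} (h0 : 0 < u) : Real.log u ≤ u := (Real.log_le_sub_one_of_pos h0).trans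
  (by linarith)

lemma f14 : ∀ᶠ u : ℝ in atTop, Real.exp (-(Real.pi / 2 * u) + √u) +
    2 * Real.log u / u ^ 5 * (Real.exp (u ^ (4 / 5 : ℝ)) *
    (2 * ((u ^ (36 / 25 : ℝ)) ^ 6 * Real.exp (-(Real.pi / 2 * u))))) ≤
    Real.exp (-(Real.pi / 2 * u) + 2 * u ^ (4 / 5 : ℝ)) := by
  filter_upwards [ev_gt 1, ev_exp (Real.log 2) 0 1 (show (1 / 2 : ℝ) < 4 / 5 by norm_num)
    (show (0 : ℝ) < 4 / 5 by norm_num) (show (0 : ℝ) < 2 by norm_num),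
    ev_exp (Real.log 8) (241 / 25) 0 (show (1 / 2 : ℝ) < 4 / 5 by norm_num)
    (show (0 : ℝ) < 4 / 5 by norm_num) (show (0 : ℝ) < 1 by norm_num)] with u h1 h2 h3
  have h0 : 0 < u := by linarith
  have hl : Real.log u / u ^ 5 ≤ u := by
    rw [div_le_iff₀ (by positivity)]
    have := log_le h0
    have h5 : 1 ≤ u ^ 5 := one_le_pow₀ h1.le
    nlinarith
  have hl0 : 0 ≤ Real.log u / u ^ 5 := by
    have := Real.log_nonneg h1.le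
    positivity
  rw [pn h0 _ 6 (216 / 25) (by norm_num)]
  have a1 : 2 * Real.exp (-(Real.pi / 2 * u) + √u) ≤
      Real.exp (-(Real.pi / 2 * u) + 2 * u ^ (4 / 5 : ℝ)) := by
    have : (2 : ℝ) * Real.exp (-(Real.pi / 2 * u) + √u) =
      Real.exp (Real.log 2 + (-(Real.pi / 2 * u) + √u)) := by
      rw [Real.exp_add (Real.log 2), Real.exp_log two_pos]
    rw [this, Real.exp_le_exp, sq_eq]
    linarith
  have a2 : 8 * (u * u ^ (216 / 25 : ℝ)) ≤ Real.exp (u ^ (4 / 5 : ℝ)) := by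
    have : u * u ^ (216 / 25 : ℝ) = u ^ (241 / 25 : ℝ) := by
      rw [← pp h0 1 (216 / 25) (241 / 25) (by norm_num), Real.rpow_one]
    rw [this, pe h0 (by norm_num), Real.exp_le_exp]
    linarith
  have a3 : 2 * Real.log u / u ^ 5 * (Real.exp (u ^ (4 / 5 : ℝ)) *
    (2 * ((u ^ (216 / 25 : ℝ)) * Real.exp (-(Real.pi / 2 * u))))) ≤
    Real.exp (-(Real.pi / 2 * u) + 2 * u ^ (4 / 5 : ℝ)) / 2 := by
    have e1 : Real.exp (-(Real.pi / 2 * u) + 2 * u ^ (4 / 5 : ℝ)) =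
      Real.exp (-(Real.pi / 2 * u)) * (Real.exp (u ^ (4 / 5 : ℝ)) * Real.exp (u ^ (4 / 5 : ℝ))) := by
      rw [← Real.exp_add, ← Real.exp_add]; congr 1; ring
    rw [e1]
    calc 2 * Real.log u / u ^ 5 * (Real.exp (u ^ (4 / 5 : ℝ)) *
        (2 * ((u ^ (216 / 25 : ℝ)) * Real.exp (-(Real.pi / 2 * u)))))
        = Real.exp (-(Real.pi / 2 * u)) * (Real.exp (u ^ (4 / 5 : ℝ)) *
          (4 * ((Real.log u / u ^ 5) * u ^ (216 / 25 : ℝ)))) := by ring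
      _ ≤ Real.exp (-(Real.pi / 2 * u)) * (Real.exp (u ^ (4 / 5 : ℝ)) *
          (4 * (u * u ^ (216 / 25 : ℝ)))) := by gcongr
      _ ≤ Real.exp (-(Real.pi / 2 * u)) * (Real.exp (u ^ (4 / 5 : ℝ)) *
          (Real.exp (u ^ (4 / 5 : ℝ)) / 2)) := by gcongr; linarith
      _ = _ := by ring
  linarith

lemma f15 : ∀ᶠ u : ℝ in atTop, Real.exp (-(3 * u)) + 2 * Real.log u / u ^ 5 *
    (Real.exp (u ^ (4 / 5 : ℝ)) * Real.exp (-(4 * u))) ≤ Real.exp (-(29 / 10 * u)) := by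
  filter_upwards [ev_gt 4, ev_exp (Real.log 2) 0 1 (show (4 / 5 : ℝ) < 1 by norm_num)
    one_pos (show (0 : ℝ) < 1 / 10 by norm_num)] with u h1 h2
  have h0 : 0 < u := by linarith
  rw [Real.rpow_one] at h2
  have hK : 0 < u ^ (4 / 5 : ℝ) := by positivity
  have hlog2 : 0 < Real.log 2 := Real.log_pos (by norm_num)
  have hl : 2 * Real.log u / u ^ 5 ≤ 1 / 2 := by
    rw [div_le_iff₀ (by positivity)]
    have := log_le h0
    have h5 : 4 ^ 4 ≤ u ^ 4 := pow_le_pow_left₀ (by norm_num) h1.le 4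
    nlinarith
  have a1 : 2 * Real.exp (-(3 * u)) ≤ Real.exp (-(29 / 10 * u)) := by
    have : (2 : ℝ) * Real.exp (-(3 * u)) = Real.exp (Real.log 2 + (-(3 * u))) := by
      rw [Real.exp_add, Real.exp_log two_pos]
    rw [this, Real.exp_le_exp]
    linarith
  have a2 : Real.exp (u ^ (4 / 5 : ℝ)) * Real.exp (-(4 * u)) ≤ Real.exp (-(29 / 10 * u)) := by
    rw [← Real.exp_add, Real.exp_le_exp]
    linarith
  have a3 : 2 * Real.log u / u ^ 5 * (Real.exp (u ^ (4 / 5 : ℝ)) * Real.exp (-(4 * u))) ≤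
      1 / 2 * Real.exp (-(29 / 10 * u)) := by
    gcongr
  linarith

lemma f16 : ∀ᶠ u : ℝ in atTop, 5 * (u * u ^ (-(1 / 2 : ℝ))) ≤ u ^ (4 / 5 : ℝ) := by
  filter_upwards [ev_gt 0, ev_pow (show (1 / 2 : ℝ) < 4 / 5 by norm_num) 5] with u h0 h1
  have : u * u ^ (-(1 / 2 : ℝ)) = u ^ (1 / 2 : ℝ) := by
    rw [← pp h0 1 (-(1 / 2)) (1 / 2) (by norm_num), Real.rpow_one]
  rw [this]
  exact h1

lemma f17 : ∀ᶠ u : ℝ in atTop, Real.exp (-(29 / 10 * u)) +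
    Real.exp (-(Real.pi / 2 * u) - 3 * u ^ (4 / 5 : ℝ)) ≤
    9 / 10 * Real.exp (-(2 * u ^ (4 / 5 : ℝ)) - Real.pi / 2 * u) / u ^ 6 := by
  filter_upwards [ev_gt 0, ev_exp (Real.log (20 / 9)) 6 0 (show (1 / 2 : ℝ) < 4 / 5 by norm_num)
    (show (0 : ℝ) < 4 / 5 by norm_num) (show (0 : ℝ) < 1 by norm_num),
    ev_exp (Real.log (20 / 9)) 6 2 (show (4 / 5 : ℝ) < 1 by norm_num)
    (show (0 : ℝ) < 1 by norm_num) (show (0 : ℝ) < 13 / 10 by norm_num)] with u h0 h2 h3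
  rw [Real.rpow_one] at h3
  rw [le_div_iff₀ (by positivity)]
  have e : (20 / 9 : ℝ) * u ^ 6 = Real.exp (Real.log (20 / 9) + 6 * Real.log u) := by
    rw [← pe h0 (by norm_num)]
    congr 1
    exact_mod_cast (Real.rpow_natCast u 6).symm
  have a1 : 20 / 9 * u ^ 6 * Real.exp (-(29 / 10 * u)) ≤
      Real.exp (-(2 * u ^ (4 / 5 : ℝ)) - Real.pi / 2 * u) := by
    rw [e, ← Real.exp_add, Real.exp_le_exp]
    have := mul_lt_mul_of_pos_right pi315 h0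
    linarith
  have a2 : 20 / 9 * u ^ 6 * Real.exp (-(Real.pi / 2 * u) - 3 * u ^ (4 / 5 : ℝ)) ≤
      Real.exp (-(2 * u ^ (4 / 5 : ℝ)) - Real.pi / 2 * u) := by
    rw [e, ← Real.exp_add, Real.exp_le_exp]
    linarith
  linarith

lemma f18 : ∀ᶠ u : ℝ in atTop, 400 * u ^ (4 / 5 : ℝ) ≤ u := by
  filter_upwards [ev_pow (show (4 / 5 : ℝ) < 1 by norm_num) 400] with u h
  rwa [Real.rpow_one] at h

lemma f19 : ∀ᶠ u : ℝ in atTop, 2 * (u ^ (6 / 5 : ℝ)) ^ 4 + u ^ 3 * u ^ (6 / 5 : ℝ) + 2 ≤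
    u ^ 5 / 200 := by
  filter_upwards [ev_gt 0, ev_pow (show (21 / 5 : ℝ) < 5 by norm_num) 600,
    ev_pow (show (24 / 5 : ℝ) < 5 by norm_num) 1200,
    ev_pow (show (0 : ℝ) < 5 by norm_num) 1200] with u h0 h1 h2 h3
  have e : u ^ (5 : ℝ) = u ^ 5 := by exact_mod_cast Real.rpow_natCast u 5
  rw [e] at h1 h2 h3
  rw [nm h0 3 _ (21 / 5) (by norm_num), pn h0 _ 4 (24 / 5) (by norm_num)]
  rw [Real.rpow_zero] at h3
  linarith

lemma f20 : ∀ᶠ u : ℝ in atTop, 4 * u ^ 6 * Real.exp (-(4 / 5 * u)) ≤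
    39 / 100 * u ^ 5 * (u ^ (-(1 / 2 : ℝ)) / 100) := by
  filter_upwards [ev_gt 0, ev_exp (Real.log (40000 / 39)) (3 / 2) 0
    (show (1 / 2 : ℝ) < 1 by norm_num) one_pos (show (0 : ℝ) < 4 / 5 by norm_num)] with u h0 h1
  rw [Real.rpow_one] at h1
  have a1 : 40000 / 39 * u ^ (3 / 2 : ℝ) * Real.exp (-(4 / 5 * u)) ≤ 1 := by
    rw [pe h0 (by norm_num), ← Real.exp_add, Real.exp_le_one_iff]
    linarith
  have e1 : u ^ 6 = u ^ 5 * (u ^ (-(1 / 2 : ℝ)) * u ^ (3 / 2 : ℝ)) := by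
    rw [pp h0 _ _ 1 (by norm_num), Real.rpow_one]
    ring
  rw [e1]
  have h5 : 0 < u ^ 5 * u ^ (-(1 / 2 : ℝ)) := by positivity
  calc 4 * (u ^ 5 * (u ^ (-(1 / 2 : ℝ)) * u ^ (3 / 2 : ℝ))) * Real.exp (-(4 / 5 * u))
      = (u ^ 5 * u ^ (-(1 / 2 : ℝ))) * (39 / 10000 *
        (40000 / 39 * u ^ (3 / 2 : ℝ) * Real.exp (-(4 / 5 * u)))) := by ring
    _ ≤ (u ^ 5 * u ^ (-(1 / 2 : ℝ))) * (39 / 10000 * 1) := by gcongr
    _ = _ := by ring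

lemma f21 : ∀ᶠ u : ℝ in atTop, u ^ (-(1 / 2 : ℝ)) ≤ 1 / 1000 := by
  filter_upwards [ev_gt 0, ev_pow (show -(1 / 2 : ℝ) < 0 by norm_num) 1000] with u h0 h1
  rw [Real.rpow_zero] at h1
  linarith

lemma f21' : ∀ᶠ u : ℝ in atTop, 3 / u ^ 5 ≤ u ^ (-(1 / 2 : ℝ)) / 4 := by
  filter_upwards [ev_gt 0, ev_pow (show (0 : ℝ) < 9 / 2 by norm_num) 12] with u h0 h1
  rw [Real.rpow_zero] at h1
  rw [div_le_iff₀ (by positivity)]
  have : u ^ 5 * u ^ (-(1 / 2 : ℝ)) = u ^ (9 / 2 : ℝ) := nm h0 5 _ _ (by norm_num)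
  linarith

lemma f22 : ∀ᶠ u : ℝ in atTop, 51 / 50 < 99 / 100 * u ^ (-(1 / 2 : ℝ)) *
    Real.exp (39 / 100 * u ^ 5 * (3 / 2 * Real.log u / u ^ 5)) := by
  filter_upwards [ev_gt 0, ev_pow (show (0 : ℝ) < 17 / 200 by norm_num) 2] with u h0 h1
  rw [Real.rpow_zero] at h1
  have e : 39 / 100 * u ^ 5 * (3 / 2 * Real.log u / u ^ 5) = Real.log u * (117 / 200) := by
    field_simp
    ring
  rw [e, ← Real.rpow_def_of_pos h0, mul_assoc, pp h0 _ _ (17 / 200) (by norm_num)]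
  linarith

lemma f23 : ∀ᶠ u : ℝ in atTop, 3 ≤ Real.log u := Real.tendsto_log_atTop.eventually_ge_atTop 3

lemma f24 : ∀ᶠ u : ℝ in atTop, 51 / 50 * (4 * u ^ (4 / 5 : ℝ) / u) + u ^ (-(1 / 2 : ℝ)) +
    12 * (u ^ (6 / 5 : ℝ)) ^ 4 * (2 * Real.log u / u ^ 5) ≤ 2 * u ^ (-(1 / 10 : ℝ)) := by
  filter_upwards [ev_gt 0, ev_pow (show -(1 / 5 : ℝ) < -(1 / 10 : ℝ) by norm_num) 8,
    ev_pow (show -(1 / 2 : ℝ) < -(1 / 10 : ℝ) by norm_num) 2,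
    f6 (C := 12) (show -(1 / 5 : ℝ) < -(1 / 10 : ℝ) by norm_num)
      (show (0 : ℝ) < 1 / 2 by norm_num)] with u h0 h1 h2 h3
  have e : 4 * u ^ (4 / 5 : ℝ) / u = 4 * u ^ (-(1 / 5 : ℝ)) := by
    rw [div_eq_iff h0.ne', mul_assoc]
    congr 1
    rw [← pp h0 (-(1 / 5)) 1 (4 / 5) (by norm_num), Real.rpow_one]
  have hp : 0 < u ^ (-(1 / 10 : ℝ)) := by positivity
  rw [e]
  linarith

lemma f25 : ∀ᶠ u : ℝ in atTop, 3 / 5 * Real.log u ≤ u ^ (4 / 5 : ℝ) := by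
  filter_upwards [ev_log (show (0 : ℝ) < 4 / 5 by norm_num) (3 / 5)] with u h
  rwa [Real.rpow_zero, one_mul] at h

lemma f26' : ∀ᶠ u : ℝ in atTop, (u ^ (36 / 25 : ℝ)) ^ 4 / u ^ (6 / 5 : ℝ) ≤
    (u ^ (6 / 5 : ℝ)) ^ 4 / 10 := by
  filter_upwards [ev_gt 0, ev_pow (show (144 / 25 : ℝ) < 6 by norm_num) 10] with u h0 h1
  rw [pn h0 _ 4 (144 / 25) (by norm_num), pn h0 _ 4 (24 / 5) (by norm_num),
    div_le_iff₀ (by positivity)]
  have : u ^ (24 / 5 : ℝ) * u ^ (6 / 5 : ℝ) = u ^ (6 : ℝ) := pp h0 _ _ _ (by norm_num)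
  linarith

lemma f28 : ∀ᶠ u : ℝ in atTop, Real.exp (-(Real.pi / 2 * u) + √u) <
    (u ^ (6 / 5 : ℝ)) ^ (-(1 / 2 : ℝ)) := by
  filter_upwards [ev_gt 0, ev_exp 1 (3 / 5) 1 (show (1 / 2 : ℝ) < 1 by norm_num)
    one_pos (show (0 : ℝ) < 3 / 2 by norm_num)] with u h0 h1
  rw [Real.rpow_one] at h1
  rw [← Real.rpow_mul h0.le, Real.rpow_def_of_pos h0, Real.exp_lt_exp, sq_eq]
  have := mul_lt_mul_of_pos_right pi3 h0
  linarith

lemma f28' : ∀ᶠ u : ℝ in atTop, Real.exp (-u) < (u ^ (6 / 5 : ℝ)) ^ (-(1 / 2 : ℝ)) := by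
  filter_upwards [ev_gt 0, ev_exp 1 (3 / 5) 0 (show (1 / 2 : ℝ) < 1 by norm_num)
    one_pos (show (0 : ℝ) < 1 by norm_num)] with u h0 h1
  rw [Real.rpow_one] at h1
  rw [← Real.rpow_mul h0.le, Real.rpow_def_of_pos h0, Real.exp_lt_exp]
  linarith

theorem big : ∀ᶠ u : ℝ in atTop, Big u (u ^ (6 / 5 : ℝ)) (u ^ (36 / 25 : ℝ))
    (u ^ (216 / 125 : ℝ)) (u ^ (4 / 5 : ℝ)) := by
  filter_upwards [ev_gt 1000, f2, f2', f3, f4, f5,
    f6 (b := 0) (C := 12) (D := 1 / 1000) (by norm_num) (by norm_num), f7, f8, f9, f10, f11, f12,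
    f13, f14, f15, f16, f17, f18, f19, f20, f21, f21', f22, f23, f24, f25,
    f6 (b := -(1 / 10)) (C := 6) (D := 1) (by norm_num) (by norm_num), f26', f28, f28']
    with u h1 h2 h2' h3 h4 h5 h6 h7 h8 h9 h10 h11 h12 h13 h14 h15 h16 h17 h18 h19 h20 h21 h21' h22
      h23 h24 h25 h26 h26' h28 h28'
  have h0 : 0 < u := by linarith
  rw [Real.rpow_zero, mul_one] at h6
  rw [one_mul] at h26
  exact {
    b1 := h1.le
    b2 := h2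
    b2' := h2'
    b3 := h3
    bv := by
      rw [pn h0 _ 5 6 (by norm_num)]
      exact_mod_cast Real.rpow_natCast u 6
    bz := by
      rw [pn h0 _ 5 (36 / 5) (by norm_num), pn h0 _ 6 (36 / 5) (by norm_num)]
    K0 := by positivity
    b4 := h4
    b5 := h5
    b6 := h6
    b7 := h7
    b8 := h8
    b9 := h9
    b10 := h10
    b11 := h11
    b12 := h12
    b13 := h13
    b14 := h14
    b15 := h15
    b16 := h16
    b17 := h17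
    b18 := h18
    b19 := h19
    b20 := h20
    b21 := h21
    b21' := h21'
    b22 := h22
    b23 := h23
    b24 := h24
    b25 := h25
    b26 := h26
    b26' := h26'
    b28 := h28
    b28' := h28' }

end Pool.Agent.N976.UE.Y2
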